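import Pool.Agent.Lib.MP_df59e7_lc_Y.DefsY

set_option autoImplicit false

/-! MP_df59e7_lc, project Y, module AbsSplit: the step of the recursion, abstractly. -/

namespace Pool.Agent.RM90

open MvPolynomial

/-- Proof: this is the second half of the proof of `LX_split` (Lib/MP_df59e7_lc_X/StepX.lean; copy
it): `Γ x` = the closed connected set of `hfib` for `x ∈ D0` and a point `z` of
`connectedComponentIn (E ∩ prm m' ⁻¹' {prm m' x}) x ∩ ulim E'` (`hT.meet`); `ActE`, `ActQ`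
(`ulim_toZ`, `ulim_ofZ` with the compact set of `hT.bdd`), `comp_nbhds`, `rth_exists`, `rth_limit`,
`splitX_arith`, `xmap_mono`. -/
theorem abs_split {N : ℕ} (E : Set (Fin N → ℝ)) (j m' : Fin N) (hjm' : j < m')
    (E' : ℕ → Set (Fin N → ℝ)) (hT : TubeOut E m' E') (B κa κc : ℕ) (cE : IsCompact E)
    (lE : LCn E)
    (str : ∀ w, LM E (fun x => x j) w → SLM E (fun x => x j) w)
    (card : {w | LM E (fun x => x j) w}.encard ≤ (B : ℕ∞))
    (dens : ∀ x ∈ E, ∀ ε > 0, ∃ x' ∈ E,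
      (∀ a, j ≤ a → a < m' → ∃ r : ℚ, x' a = (r : ℝ)) ∧ dist x' x < ε)
    (hfib : ∀ x ∈ E, (∀ a, j ≤ a → a < m' → ∃ r : ℚ, x a = (r : ℝ)) →
      ∀ z ∈ connectedComponentIn (E ∩ prm m' ⁻¹' {prm m' x}) x,
        ∃ M : Set (Fin N → ℝ), IsClosed M ∧ x ∈ M ∧ z ∈ M ∧
          M ⊆ connectedComponentIn (E ∩ prm m' ⁻¹' {prm m' x}) x ∧ IsPreconnected M ∧
          Alg κc M)
    (cE' : ∀ p, IsCompact (E' p)) (lE' : ∀ p, LCn (E' p))
    (card' : ∀ p, {w | LM (E' p) (fun x => x j) w}.encard ≤ (B : ℕ∞))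
    (ha : ∀ p, ∀ A' : Finset (Fin N → ℝ), ↑A' ⊆ E' p →
      ∃ M, XMap (E' p) (fun x => x j) A' (κa * (A'.card + 8 * B ^ 2)) M)
    (A : Finset (Fin N → ℝ)) (hA : ↑A ⊆ E) :
    ∃ M, XMap E (fun x => x j) A ((2 * κa + κc) * (A.card + 8 * B ^ 2)) M := by
  classical
  obtain ⟨K, hKc, hE'K⟩ := hT.bdd
  set Z : Set (Fin N → ℝ) := ulim E' with hZ
  have hZE : Z ⊆ E := hT.sub
  set D0 : Set (Fin N → ℝ) := {x | x ∈ E ∧ ∀ a, j ≤ a → a < m' → ∃ r : ℚ, x a = (r : ℝ)}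
    with hD0
  have hmeet : ∀ x ∈ E, (connectedComponentIn (E ∩ prm m' ⁻¹' {prm m' x}) x ∩ Z).Nonempty :=
    hT.meet
  -- the roadmaps of the fibres
  have hfib' : ∀ x : Fin N → ℝ, ∃ Mx : Set (Fin N → ℝ), x ∈ D0 →
      ((Mx ∩ Z).Nonempty ∧ x ∈ Mx ∧ IsClosed Mx ∧ Alg κc Mx ∧ IsPreconnected Mx ∧
        Mx ⊆ E ∩ prm m' ⁻¹' {prm m' x}) := by
    intro x
    by_cases hx : x ∈ D0
    swap
    · exact ⟨∅, fun h => absurd h hx⟩
    obtain ⟨z, hz1, hz2⟩ := hmeet x hx.1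
    obtain ⟨Mx, h1, h2, h3, h4, h5, h6⟩ := hfib x hx.1 hx.2 z hz1
    exact ⟨Mx, fun _ => ⟨⟨z, h3, hz2⟩, h2, h1, h6, h5,
      h4.trans (connectedComponentIn_subset _ _)⟩⟩
  choose Γ hΓ using hfib'
  have hAct : ActE E Z D0 (fun x => x j) (prm m') Γ B :=
    { cE := cE
      lE := lE
      cf := continuous_apply j
      cπ := continuous_prm m'
      fπ := fun x _ w _ h => by
        have := congrFun h j
        simpa only [prm, hjm', if_true] using this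
      str := str
      card := card
      cZ := ulim_closed _
      ZE := hZE
      meet := hmeet
      DE := fun x hx => hx.1
      dD := fun x hx => by
        rw [Metric.mem_closure_iff]
        intro ε hε
        obtain ⟨x', h1, h2, h3⟩ := dens x hx ε hε
        exact ⟨x', ⟨h1, h2⟩, by rw [dist_comm]; exact h3⟩
      Γp := fun x hx => (hΓ x hx).2.2.2.2.1
      Γc := fun x hx => (hΓ x hx).2.2.1
      Γm := fun x hx => (hΓ x hx).2.1
      Γf := fun x hx => (hΓ x hx).2.2.2.2.2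
      ΓZ := fun x hx => (hΓ x hx).1 }
  have hActQ : ActQ Z (fun x : Fin N → ℝ => x j) B E' :=
    { cpt := cE'
      lcn := lE'
      card := card'
      toZ := fun ε hε => ulim_toZ K hKc E' hE'K ε hε
      ofZ := fun ε hε => ulim_ofZ K hKc E' hE'K ε hε }
  obtain ⟨T, Nt, hTE, hNt, hNd, hcov, hρN⟩ := comp_nbhds E cE lE
  have hf : ∀ u v : Fin N → ℝ, |u j - v j| ≤ dist u v := by
    intro u v
    rw [← Real.dist_eq]
    exact dist_le_pi_dist u v j
  have hR : ∀ q : ℕ, ∃ R, Rth E (fun x => x j) A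
      (κa * (2 * (B + (2 * B ^ 2 + B + A.card)) + 8 * B ^ 2) +
      (2 * B ^ 2 + B + A.card) * κc) T Nt (1 / ((q : ℝ) + 1)) R := fun q =>
    rth_exists E Z D0 (fun x => x j) hf (prm m') Γ B hAct κc
      (fun x hx => (hΓ x hx).2.2.2.1) E' K hKc hE'K hActQ κa
      (fun p A' hA' => ha p A' hA')
      T Nt hTE hNt hNd hcov hρN A hA _ (by positivity)
  obtain ⟨M, hM⟩ := rth_limit E cE (fun x => x j) hf A _ T Nt hNt hcov hR
  exact ⟨M, xmap_mono (splitX_arith κa κc B A.card _ _ rfl rfl) hM⟩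

end Pool.Agent.RM90
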