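import Pool.Agent.Lib.MP_df59e7_lc_Y.DefsY

set_option autoImplicit false

/-! MP_df59e7_lc, project Y, module WDeg: rules for weights.

All statements are elementary facts about supports: `MvPolynomial.support_add`,
`MvPolynomial.support_mul`, `MvPolynomial.support_sum`, `MvPolynomial.support_rename_of_injective`,
for the derivative `coeff_pderiv` (compare `TubeA_pd` in Lib/MP_df59e7_lc_X/TubeA.lean: if `s` is in
the support of `pderiv l P`, then `s + single l 1` is in the support of `P`); `wle_pow`,
`wle_prod` by induction. `wle_det`: `Matrix.det_apply`; every term is `± ∏ i, M (τ i) i` of weight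
`∑ i, (r (τ i) + s i) = ∑ i, (r i + s i)` (`Equiv.sum_comp`). `wle_quad`: `quad` is a sum of
products of constants and at most two variables. -/

namespace Pool.Agent.RM90

open MvPolynomial

variable {ι : Type} [Fintype ι] {w : ι → ℕ} {E E' : ℕ} {p q : MvPolynomial ι ℝ}

theorem wle_mono (h : E ≤ E') (hp : WLe w E p) : WLe w E' p := fun s hs => (hp s hs).trans h

theorem wle_zero (w : ι → ℕ) (E : ℕ) : WLe w E (0 : MvPolynomial ι ℝ) := by
  intro s hs
  rw [support_zero] at hs
  exact absurd hs (Finset.notMem_empty s)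

theorem wle_C (w : ι → ℕ) (E : ℕ) (a : ℝ) : WLe w E (C a : MvPolynomial ι ℝ) := by
  classical
  intro s hs
  rw [mem_support_iff, coeff_C] at hs
  have h : 0 = s := by
    by_contra hne
    exact hs (if_neg hne)
  rw [← h]
  simp

theorem wle_X [DecidableEq ι] (w : ι → ℕ) (E : ℕ) (i : ι) (h : w i ≤ E) :
    WLe w E (X i : MvPolynomial ι ℝ) := by
  intro s hs
  rw [support_X, Finset.mem_singleton] at hs
  rw [hs, Finset.sum_eq_single i]
  · rw [Finsupp.single_eq_same, mul_one]
    exact h
  · intro b _ hb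
    rw [Finsupp.single_eq_of_ne hb, mul_zero]
  · intro hi
    exact absurd (Finset.mem_univ i) hi

theorem wle_add (hp : WLe w E p) (hq : WLe w E q) : WLe w E (p + q) := by
  intro s hs
  rw [mem_support_iff, coeff_add] at hs
  by_cases h : coeff s p = 0
  · refine hq s (mem_support_iff.2 fun h' => hs ?_)
    rw [h, h', add_zero]
  · exact hp s (mem_support_iff.2 h)

theorem wle_neg (hp : WLe w E p) : WLe w E (-p) := by
  intro s hs
  rw [support_neg] at hs
  exact hp s hs

theorem wle_sub (hp : WLe w E p) (hq : WLe w E q) : WLe w E (p - q) := by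
  rw [sub_eq_add_neg]
  exact wle_add hp (wle_neg hq)

theorem wle_mul (hp : WLe w E p) (hq : WLe w E' q) : WLe w (E + E') (p * q) := by
  classical
  intro s hs
  obtain ⟨a, ha, b, hb, rfl⟩ := Finset.mem_add.1 (support_mul p q hs)
  have h : ∑ i, w i * (a + b) i = ∑ i, w i * a i + ∑ i, w i * b i := by
    rw [← Finset.sum_add_distrib]
    exact Finset.sum_congr rfl fun i _ => by rw [Finsupp.add_apply, mul_add]
  rw [h]
  exact add_le_add (hp a ha) (hq b hb)

theorem wle_pow (hp : WLe w E p) (n : ℕ) : WLe w (n * E) (p ^ n) := by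
  induction n with
  | zero =>
    rw [pow_zero, ← C_1]
    exact wle_C w _ 1
  | succ n ih =>
    rw [pow_succ, add_mul, one_mul]
    exact wle_mul ih hp

theorem wle_sum {κ : Type} (s : Finset κ) (f : κ → MvPolynomial ι ℝ)
    (h : ∀ i ∈ s, WLe w E (f i)) : WLe w E (∑ i ∈ s, f i) := by
  classical
  induction s using Finset.induction_on with
  | empty =>
    rw [Finset.sum_empty]
    exact wle_zero w E
  | insert a s ha ih =>
    rw [Finset.sum_insert ha]
    exact wle_add (h a (Finset.mem_insert_self a s))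
      (ih fun i hi => h i (Finset.mem_insert_of_mem hi))

theorem wle_prod {κ : Type} (s : Finset κ) (f : κ → MvPolynomial ι ℝ) (e : κ → ℕ)
    (h : ∀ i ∈ s, WLe w (e i) (f i)) : WLe w (∑ i ∈ s, e i) (∏ i ∈ s, f i) := by
  classical
  induction s using Finset.induction_on with
  | empty =>
    rw [Finset.prod_empty, ← C_1]
    exact wle_C w _ 1
  | insert a s ha ih =>
    rw [Finset.prod_insert ha, Finset.sum_insert ha]
    exact wle_mul (h a (Finset.mem_insert_self a s))
      (ih fun i hi => h i (Finset.mem_insert_of_mem hi))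

theorem wle_pderiv (a : ι) (hp : WLe w E p) : WLe w E (pderiv a p) := by
  classical
  intro s hs
  have h1 : s + Finsupp.single a 1 ∈ p.support := by
    rw [mem_support_iff]
    intro h0
    rw [mem_support_iff, coeff_pderiv, h0, zero_mul] at hs
    exact hs rfl
  refine le_trans (Finset.sum_le_sum fun i _ => ?_) (hp _ h1)
  exact Nat.mul_le_mul_left _ (by rw [Finsupp.add_apply]; exact Nat.le_add_right _ _)

theorem wle_rename {κ : Type} [Fintype κ] (f : κ → ι) (hf : Function.Injective f) (r : MvPolynomial κ ℝ)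
    (hr : WLe (fun k => w (f k)) E r) : WLe w E (rename f r) := by
  classical
  intro s hs
  rw [support_rename_of_injective hf, Finset.mem_image] at hs
  obtain ⟨t, ht, rfl⟩ := hs
  refine le_trans (le_of_eq ?_) (hr t ht)
  refine (Fintype.sum_of_injective f hf _ _ (fun i hi => ?_) (fun k => ?_)).symm
  · rw [Finsupp.mapDomain_of_notMem_range _ _ hi, mul_zero]
  · rw [Finsupp.mapDomain_apply hf]

theorem wle_det {κ : Type} [Fintype κ] [DecidableEq κ] (M : Matrix κ κ (MvPolynomial ι ℝ))
    (r s : κ → ℕ) (h : ∀ i i', WLe w (r i + s i') (M i i')) :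
    WLe w (∑ i, (r i + s i)) M.det := by
  rw [Matrix.det_apply]
  refine wle_sum _ _ fun τ _ => ?_
  have h1 : WLe w (∑ i, (r i + s i)) (∏ i, M (τ i) i) := by
    have h2 := wle_prod Finset.univ (fun i => M (τ i) i) (fun i => r (τ i) + s i)
      fun i _ => h (τ i) i
    have h3 : ∑ i, (r (τ i) + s i) = ∑ i, (r i + s i) := by
      rw [Finset.sum_add_distrib, Finset.sum_add_distrib, Equiv.sum_comp τ r]
    rw [h3] at h2
    exact h2
  rcases Int.units_eq_one_or (Equiv.Perm.sign τ) with h4 | h4
  · rw [h4, one_smul]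
    exact h1
  · rw [h4, Units.neg_smul, one_smul]
    exact wle_neg h1

theorem wle_eqn {n : ℕ} {w : Fin n → ℕ} {E : ℕ} (m l : Fin n) {G : MvPolynomial (Fin n) ℝ}
    (h : WLe w E G) : WLe w E (eqn m G l) := by
  unfold eqn
  split_ifs with hl
  · exact h
  · exact wle_pderiv l h

theorem wle_quad {n : ℕ} (w : Fin n → ℕ) (E : ℕ) (hw : ∀ a, w a ≤ E) (c : Par n) :
    WLe w (2 * E) (quad c) := by
  unfold quad
  refine wle_add (wle_add (wle_C w _ _) (wle_sum _ _ fun i _ => ?_))
    (wle_sum _ _ fun i _ => wle_sum _ _ fun l _ => ?_)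
  · exact wle_mono (by omega) (wle_mul (wle_C w 0 _) (wle_X w E i (hw i)))
  · exact wle_mono (by omega) (wle_mul (wle_C w 0 _)
      (wle_mul (wle_X w E i (hw i)) (wle_X w E l (hw l))))

theorem wle_totalDegree {D : ℕ} (h : p.totalDegree ≤ D) : WLe (fun _ : ι => 1) D p := by
  intro s hs
  refine le_trans (le_of_eq ?_) ((le_totalDegree hs).trans h)
  rw [Finsupp.sum_fintype _ _ (fun _ => rfl)]
  exact Finset.sum_congr rfl fun i _ => one_mul _

end Pool.Agent.RM90
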