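import Pool.Agent.Lib.MP_df59e7_lc_Y.WBez
import Pool.Agent.Lib.MP_df59e7_lc_Y.WDeg
import Pool.Agent.Lib.MP_df59e7_lc_X.AlgW

set_option autoImplicit false

/-! MP_df59e7_lc, project Y, module AlgY: degrees of curves. -/

namespace Pool.Agent.RM90

open MvPolynomial

private theorem AlgY_tdeg {ι : Type} [Fintype ι] {w : ι → ℕ} {D E : ℕ} {p : MvPolynomial ι ℝ}
    (h : p.totalDegree ≤ D) (hw : ∀ a, w a ≤ E) : WLe w (D * E) p := by
  intro s hs
  have h1 := wle_totalDegree h s hs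
  simp only [one_mul] at h1
  calc ∑ i, w i * s i ≤ ∑ i, E * s i :=
        Finset.sum_le_sum fun i _ => Nat.mul_le_mul_right _ (hw i)
    _ = (∑ i, s i) * E := by rw [← Finset.mul_sum, mul_comm]
    _ ≤ D * E := Nat.mul_le_mul_right _ h1

/-- Components of regular polar curves lie on curves of small degree.
Proof: as `alg_W` (Lib/MP_df59e7_lc_X/AlgW.lean; copy it), with `A = 2 ^ n * P * E` instead of
`(n+1)^n * D^n`, and `wbezout` instead of `ref_bezout` at the end: the system is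
`Function.update H j (p - C δ)`, `H a = X a - C (y a)` for `a < j`, `H l = eqn m G l` for `l ≥ m`,
`deg p ≤ 4 A`. Weights `w`. Pairing (reindex the family by it): `H a`, `a < j`, with `X a` of weight
`1`, exponent `2`; the component `j` (a polynomial of degree `≤ 4 A` in the variables, which have
weight `≤ E`, so of weight `≤ 4 A E`) with `X j` of weight `w j = 1` (`j < m`), exponent
`4 A E + 1`; `H l`, `l ≥ m`, with `X (σ l)`, exponent `p l`. So there are at most
`2^j * (4 A E + 1) * P ≤ 4 A * A + A` zeros (`2^j P E ≤ A`, `2^j P ≤ A` as `1 ≤ E`), less than the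
`4 A (A + 1) + 1` points of `alternating`... (in `alg_W`: `N = 4 A (A+1)`, `|Z| = N`). Check:
`hZc` says `Z.card = N` (cardinality of `Fin N`), and `N = 4 A (A + 1) > 4 A^2 + A` as `A ≥ 1`.
(If `P = 0` then all is false: `P ≥ ∏ p l ≥ 1` since `p l ≥ 1` by `hc.eqp`.) -/
theorem alg_Y {n : ℕ} (U : Set (Fin n → ℝ)) (hU : IsOpen U) (j m : Fin n)
    (hjm : (j : ℕ) + 1 = m) (G : MvPolynomial (Fin n) ℝ) (y : Fin n → ℝ)
    (hr : ∀ x ∈ Wst U j m G y, RegAt j m G x) (w p : Fin n → ℕ) (σ : Equiv.Perm (Fin n))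
    (E P : ℕ) (hc : Cpx m G w p σ E P) (x : Fin n → ℝ) (hx : x ∈ Wst U j m G y) :
    Alg (4 * (2 ^ n * P * E)) (connectedComponentIn (Wst U j m G y) x) := by
  classical
  intro u v
  obtain ⟨A, hA⟩ : ∃ A : ℕ, A = 2 ^ n * P * E := ⟨_, rfl⟩
  have hE1 : 1 ≤ E := (hc.w1 j).trans (hc.wE j)
  have hP1 : 1 ≤ P := by
    refine le_trans (Finset.one_le_prod' fun l _ => ?_) hc.pP
    split_ifs with h0
    · obtain ⟨e, -, he⟩ := hc.eqp l h0
      by_contra h1
      have h2 : p l = 0 := by omega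
      rw [h2, zero_mul] at he
      exact absurd he (Nat.not_lt_zero _)
    · exact le_rfl
  have hApos : 0 < A := by
    rw [hA]
    exact Nat.mul_pos (Nat.mul_pos (pow_pos two_pos n) hP1) hE1
  obtain ⟨k, hk⟩ : ∃ k : ℕ, k = 2 * A + 1 := ⟨_, rfl⟩
  rw [← hA]
  suffices hmain : ∃ c : Fin k × Fin k → ℝ, c ≠ 0 ∧
      ∀ z ∈ connectedComponentIn (Wst U j m G y) x, eval z (qlin k c u v) = 0 by
    obtain ⟨c, hc, hcB⟩ := hmain
    refine ⟨qpol k c, qpol_ne_zero k c hc, (qpol_deg k c).trans (by omega), fun z hz => ?_⟩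
    rw [eval_qpol, ← eval_qlin]
    exact hcB z hz
  by_contra hcon
  push Not at hcon
  have hjm' : j < m := by
    rw [Fin.lt_def]
    omega
  have hidx : ∀ i : Fin n, i ≠ j → i < j ∨ m ≤ i := by
    intro i hi
    have h0 : (i : ℕ) ≠ j := fun h => hi (Fin.ext h)
    rw [Fin.lt_def, Fin.le_def]
    omega
  obtain ⟨H, hH1, hH2, hjac⟩ := chart j m hjm' G y x (hr x hx)
  have hHz : ∀ z ∈ Wst U j m G y, ∀ i, i ≠ j → eval z (H i) = 0 := by
    intro z hz i hi
    rcases hidx i hi with h0 | h0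
    · rw [hH1 i h0, map_sub, eval_X, eval_C, hz.2.1 i h0, sub_self]
    · rw [hH2 i h0]
      exact hz.2.2 i h0
  obtain ⟨ρ, hρ, s, V, hVo, hxV, hVU, hVj, h1, h2, h3⟩ := loc_inv H U hU x hx.1 hjac
  have hball : ∀ t : ℝ, |t| < ρ →
      evm H x + t • (Pi.single j 1 : Fin n → ℝ) ∈ Metric.ball (evm H x) ρ := by
    intro t ht
    rw [Metric.mem_ball, dist_pi_lt_iff hρ]
    intro i
    rw [Pi.add_apply, Pi.smul_apply, Real.dist_eq, add_sub_cancel_left, smul_eq_mul]
    rcases eq_or_ne i j with rfl | hi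
    · rwa [Pi.single_eq_same, mul_one]
    · rw [Pi.single_eq_of_ne hi, mul_zero, abs_zero]
      exact hρ
  obtain ⟨γ, hγ⟩ : ∃ γ : ℝ → (Fin n → ℝ),
      ∀ t, γ t = s (evm H x + t • (Pi.single j 1 : Fin n → ℝ)) := ⟨_, fun t => rfl⟩
  have hγev : ∀ t, |t| < ρ → evm H (γ t) = evm H x + t • (Pi.single j 1 : Fin n → ℝ) := by
    intro t ht
    rw [hγ]
    exact (h2 _ (hball t ht)).2
  have hγC : ∀ t, |t| < ρ → ∀ i, i ≠ j → eval (γ t) (H i) = 0 := by
    intro t ht i hi
    have h4 := congrFun (hγev t ht) i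
    rw [Pi.add_apply, Pi.smul_apply, Pi.single_eq_of_ne hi, smul_zero, add_zero] at h4
    have h5 : evm H x i = 0 := hHz x hx i hi
    rw [h5] at h4
    exact h4
  have hkey : ∀ c : Fin k × Fin k → ℝ,
      (∀ t, |t| < ρ → eval (γ t) (qlin k c u v) = 0) → c = 0 := by
    intro c hc
    by_contra hc0
    obtain ⟨z, hz, hz0⟩ := hcon c hc0
    refine hz0 (cont_W U hU j m hjm G y hr x hx _ ?_ z hz)
    have hVn : V ∈ nhdsWithin x (Wst U j m G y) := mem_nhdsWithin_of_mem_nhds (hVo.mem_nhds hxV)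
    filter_upwards [hVn, self_mem_nhdsWithin] with w hwV hwC
    have h4 := h1 w hwV
    obtain ⟨t, ht⟩ : ∃ t : ℝ, t = evm H w j - evm H x j := ⟨_, rfl⟩
    have h5 : evm H w = evm H x + t • (Pi.single j 1 : Fin n → ℝ) := by
      funext i
      rw [Pi.add_apply, Pi.smul_apply, smul_eq_mul]
      rcases eq_or_ne i j with rfl | hi
      · rw [Pi.single_eq_same, mul_one, ht]
        ring
      · rw [Pi.single_eq_of_ne hi, mul_zero, add_zero]
        exact (hHz w hwC i hi).trans (hHz x hx i hi).symm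
    have h6 : |t| < ρ := by
      have := (dist_pi_lt_iff hρ).mp (Metric.mem_ball.mp h4.1) j
      rwa [Real.dist_eq, ← ht] at this
    have h7 := hc t h6
    rw [hγ, ← h5, h4.2] at h7
    exact h7
  obtain ⟨N, hN⟩ : ∃ N : ℕ, N = 4 * A * (A + 1) := ⟨_, rfl⟩
  have hcard : Fintype.card (Fin k × Fin k) = N + 1 := by
    rw [Fintype.card_prod, Fintype.card_fin, hk, hN]
    ring
  let q : Fin k × Fin k ≃ Fin (N + 1) := Fintype.equivFinOfCardEq hcard
  have hsum : ∀ (c : Fin (N + 1) → ℝ) (z : Fin n → ℝ),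
      eval z (qlin k (fun a => c (q a)) u v) = ∑ l, c l *
        ((u ⬝ᵥ z) ^ ((q.symm l).1 : ℕ) * (v ⬝ᵥ z) ^ ((q.symm l).2 : ℕ)) := by
    intro c z
    rw [eval_qlin, ← Equiv.sum_comp q]
    refine Finset.sum_congr rfl fun a _ => ?_
    rw [Equiv.symm_apply_apply]
  have hind : ∀ c : Fin (N + 1) → ℝ, (∀ t ∈ Set.Ioo (-ρ) ρ, ∑ l, c l *
      ((u ⬝ᵥ γ t) ^ ((q.symm l).1 : ℕ) * (v ⬝ᵥ γ t) ^ ((q.symm l).2 : ℕ)) = 0) → c = 0 := by
    intro c hc
    have h4 : (fun a => c (q a)) = 0 := hkey _ fun t ht => by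
      rw [hsum]
      exact hc t (abs_lt.mp ht)
    funext l
    have h5 := congrFun h4 (q.symm l)
    simpa using h5
  obtain ⟨t, htI, htm, hint⟩ := exists_points (N := N + 1)
    (fun l t => (u ⬝ᵥ γ t) ^ ((q.symm l).1 : ℕ) * (v ⬝ᵥ γ t) ^ ((q.symm l).2 : ℕ))
    (Set.Ioo (-ρ) ρ) hind
  obtain ⟨c, hcc⟩ := hint (fun l => (-1) ^ (l : ℕ))
  obtain ⟨pp, hp⟩ : ∃ pp, pp = qlin k (fun a => c (q a)) u v := ⟨_, rfl⟩
  have hpdeg : pp.totalDegree ≤ 4 * A := by
    rw [hp]
    refine (qlin_deg _ _ _ _).trans (by omega)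
  have hγd : ∀ t ∈ Set.Ioo (-ρ) ρ, DifferentiableAt ℝ γ t := by
    intro t ht
    have h4 : DifferentiableAt ℝ s (evm H x + t • (Pi.single j 1 : Fin n → ℝ)) :=
      (h3 _ (hball t (abs_lt.mpr ht))).differentiableAt
    have h5 : DifferentiableAt ℝ (fun t : ℝ => evm H x + t • (Pi.single j 1 : Fin n → ℝ)) t := by
      fun_prop
    have h6 := h4.comp t h5
    have h7 : γ = s ∘ (fun t : ℝ => evm H x + t • (Pi.single j 1 : Fin n → ℝ)) := funext hγ
    rwa [h7]
  have hdiff : ∀ t ∈ Set.Ioo (-ρ) ρ, DifferentiableAt ℝ (fun t => eval (γ t) pp) t := by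
    intro t ht
    exact (Warren46.hasFDerivAt_eval pp (γ t)).differentiableAt.comp t (hγd t ht)
  have hval : ∀ l, eval (γ (t l)) pp = (-1) ^ (l : ℕ) := by
    intro l
    rw [hp, hsum]
    exact hcc l
  obtain ⟨δ, Z, hZc, hZ⟩ := alternating (-ρ) ρ (fun t => eval (γ t) pp) hdiff t htI htm hval
  have hinj : Set.InjOn γ (Z : Set ℝ) := by
    intro t₁ ht₁ t₂ ht₂ h4
    have h5 := hγev t₁ (abs_lt.mpr (hZ t₁ ht₁).1)
    have h6 := hγev t₂ (abs_lt.mpr (hZ t₂ ht₂).1)
    rw [h4, h6] at h5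
    have h7 := congrFun h5 j
    simpa using h7.symm
  have hσs : ∀ i, m ≤ i ↔ m ≤ σ.symm i := by
    have hsurj : ∀ i, m ≤ i → m ≤ σ.symm i := by
      intro i hi
      have h4 : Function.Injective (fun l : {l : Fin n // m ≤ l} =>
          (⟨σ l, hc.mσ l l.2⟩ : {l : Fin n // m ≤ l})) := by
        intro a b hab
        exact Subtype.ext (σ.injective (congrArg Subtype.val hab))
      obtain ⟨l, hl⟩ := (Finite.injective_iff_surjective.mp h4) ⟨i, hi⟩
      have h5 : σ l = i := congrArg Subtype.val hl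
      rw [← h5, Equiv.symm_apply_apply]
      exact l.2
    intro i
    refine ⟨hsurj i, fun h4 => ?_⟩
    have h5 := hc.mσ _ h4
    rwa [Equiv.apply_symm_apply] at h5
  obtain ⟨f, hf⟩ : ∃ f : Fin n → MvPolynomial (Fin n) ℝ, ∀ i, f i =
      if m ≤ i then H (σ.symm i) else Function.update H j (pp - C δ) i := ⟨_, fun _ => rfl⟩
  have hfm : ∀ i, m ≤ i → f i = H (σ.symm i) := fun i hi => by rw [hf, if_pos hi]
  have hmj : ¬ m ≤ j := not_le.mpr hjm'
  have hfj : f j = pp - C δ := by rw [hf, if_neg hmj, Function.update_self]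
  have hfa : ∀ i, i < j → f i = H i := fun i hi => by
    rw [hf, if_neg (not_le.mpr (hi.trans hjm')), Function.update_of_ne (ne_of_lt hi)]
  obtain ⟨K, hK⟩ : ∃ K : ℕ, K = 4 * A * E + 1 := ⟨_, rfl⟩
  have hsj : ∀ i, m ≤ i → σ.symm i ≠ j := fun i hi h4 => by
    have h5 := (hσs i).mp hi
    rw [h4] at h5
    exact hmj h5
  have hbez := wbezout f w
    (fun i => Function.update (fun _ : Fin n => 2) j K i *
      (if m ≤ σ.symm i then p (σ.symm i) else 1))
    (fun i => by
      rcases eq_or_ne i j with rfl | hi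
      · refine ⟨4 * A * E, ?_, ?_⟩
        · rw [hfj]
          exact wle_sub (AlgY_tdeg hpdeg hc.wE) (wle_C w _ δ)
        · rw [Function.update_self, if_neg (fun h => hmj ((hσs i).mpr h)), hc.wm i hjm', hK]
          omega
      · rcases hidx i hi with h0 | h0
        · refine ⟨1, ?_, ?_⟩
          · rw [hfa i h0, hH1 i h0]
            exact wle_sub (wle_X w 1 i (hc.wm i (h0.trans hjm')).le) (wle_C w 1 _)
          · rw [Function.update_of_ne hi, if_neg (fun h =>
              absurd ((hσs i).mpr h) (not_le.mpr (h0.trans hjm'))), hc.wm i (h0.trans hjm')]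
            norm_num
        · obtain ⟨e, he, he'⟩ := hc.eqp (σ.symm i) ((hσs i).mp h0)
          refine ⟨e, ?_, ?_⟩
          · rw [hfm i h0, hH2 _ ((hσs i).mp h0)]
            exact he
          · rw [Function.update_of_ne hi, if_pos ((hσs i).mp h0)]
            rw [Equiv.apply_symm_apply] at he'
            nlinarith)
    (Z.image γ)
    (fun z hz i => by
      obtain ⟨τ, hτ, rfl⟩ := Finset.mem_image.mp hz
      rcases eq_or_ne i j with rfl | hi
      · rw [hfj, map_sub, eval_C, sub_eq_zero]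
        exact (hZ τ hτ).2.1
      · rcases hidx i hi with h0 | h0
        · rw [hfa i h0]
          exact hγC τ (abs_lt.mpr (hZ τ hτ).1) i hi
        · rw [hfm i h0]
          exact hγC τ (abs_lt.mpr (hZ τ hτ).1) _ (hsj i h0))
    (fun z hz yy => by
      obtain ⟨τ, hτ, rfl⟩ := Finset.mem_image.mp hz
      have h4 := (hZ τ hτ).2.2
      have h5 : (fun t => eval (γ t) pp) =
          fun t : ℝ => eval (s (evm H x + t • (Pi.single j 1 : Fin n → ℝ))) pp := by
        funext t
        rw [hγ]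
      rw [h5] at h4
      rw [hγ τ]
      obtain ⟨v', hv'⟩ := ndg H j x ρ s (fun y hy => (h2 y hy).2) h3 pp δ τ
        (abs_lt.mpr (hZ τ hτ).1) h4 (fun l => if m ≤ l then yy (σ l) else yy l)
      refine ⟨v', fun i => ?_⟩
      rcases eq_or_ne i j with rfl | hi
      · have h6 := hv' i
        rw [Function.update_self, if_neg hmj] at h6
        rw [hfj]
        exact h6
      · rcases hidx i hi with h0 | h0
        · have h6 := hv' i
          rw [Function.update_of_ne hi, if_neg (not_le.mpr (h0.trans hjm'))] at h6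
          rw [hfa i h0]
          exact h6
        · have h6 := hv' (σ.symm i)
          rw [Function.update_of_ne (hsj i h0), if_pos ((hσs i).mp h0),
            Equiv.apply_symm_apply] at h6
          rw [hfm i h0]
          exact h6)
  rw [Finset.card_image_of_injOn hinj, hZc, Finset.prod_mul_distrib,
    Finset.prod_update_of_mem (Finset.mem_univ j),
    Equiv.prod_comp σ.symm (fun l => if m ≤ l then p l else 1)] at hbez
  have hn1 : (Finset.univ \ {j} : Finset (Fin n)).card ≤ n := by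
    refine (Finset.card_le_card (Finset.subset_univ _)).trans ?_
    rw [Finset.card_univ, Fintype.card_fin]
  have h2n : ∏ _i ∈ (Finset.univ \ {j} : Finset (Fin n)), 2 ≤ 2 ^ n := by
    rw [Finset.prod_const]
    exact Nat.pow_le_pow_right two_pos hn1
  have h8 := hbez.trans (Nat.mul_le_mul (Nat.mul_le_mul_left K h2n) hc.pP)
  have h9 : K * 2 ^ n * P = 4 * A * A + 2 ^ n * P := by
    rw [hK]
    nth_rewrite 3 [hA]
    ring
  have h10 : 2 ^ n * P ≤ A := by
    rw [hA]
    exact Nat.le_mul_of_pos_right _ hE1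
  rw [h9, hN] at h8
  nlinarith

end Pool.Agent.RM90
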