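import Pool.Agent.Lib.MP_df59e7_lc_Y.DefsY
import Pool.Agent.Lib.MP_df59e7_lc_X.IsoS

set_option autoImplicit false

/-! MP_df59e7_lc, project Y, module GdSY: consequences of nondegeneracy. -/

namespace Pool.Agent.RM90

open MvPolynomial

private theorem GdSY_zero {n : ℕ} {U : Set (Fin n → ℝ)} {j m : Fin n}
    {G : MvPolynomial (Fin n) ℝ} {y x μ : Fin n → ℝ} (hx : x ∈ Wst U j m G y)
    (hμ : CritP j m G x μ) : Fcr j m G y (x, μ) = 0 := by
  unfold Fcr
  refine Prod.ext (funext fun a => ?_) (funext fun l => ?_)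
  · show (if a < j then x a - y a else
      ∑ l, (if m ≤ l then μ l * eval x (pderiv a (eqn m G l)) else 0) -
        (if a = j then 1 else 0)) = 0
    split_ifs with h1 h2
    · rw [hx.2.1 a h1, sub_self]
    · rw [hμ.2 a (not_lt.1 h1), if_pos h2, sub_self]
    · rw [hμ.2 a (not_lt.1 h1), if_neg h2, sub_self]
  · show (if l < m then μ l else eval x (eqn m G l)) = 0
    split_ifs with h1
    · exact hμ.1 l h1
    · exact hx.2.2 l (not_lt.1 h1)

/-- Nondegenerate critical points are isolated.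
Proof: as the last part of the proof of `iso_str` (Lib/MP_df59e7_lc_X/IsoS.lean; copy it): if not,
there are critical points `x_k ≠ x` in `Wst U j m G y` with multipliers `μ_k`, `x_k → x`; by
`critP_tendsto` `μ_k → μ`; `(x_k, μ_k)` and `(x, μ)` are zeros of `Fcr j m G y`, which has an
injective strict derivative at `(x, μ)`; contradiction. -/
theorem crit_isol {n : ℕ} (U : Set (Fin n → ℝ)) (j m : Fin n)
    (G : MvPolynomial (Fin n) ℝ) (y : Fin n → ℝ) (x μ : Fin n → ℝ) (hx : x ∈ Wst U j m G y)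
    (hr : RegAt j m G x) (hμ : CritP j m G x μ)
    (hnd : ∀ v, fderiv ℝ (Fcr j m G y) (x, μ) v = 0 → v = 0) :
    ∃ ε > 0, ∀ x' ∈ Wst U j m G y, dist x' x < ε → (∃ μ', CritP j m G x' μ') → x' = x := by
  by_contra hcon
  push Not at hcon
  have hseq : ∀ k : ℕ, ∃ w ∈ Wst U j m G y, dist w x < 1 / ((k : ℝ) + 1) ∧
      (∃ μ', CritP j m G w μ') ∧ w ≠ x := fun k => hcon (1 / ((k : ℝ) + 1)) (by positivity)
  choose xs hxs hxd hcr hxne using hseq
  choose μs hμs using hcr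
  have hlim : Filter.Tendsto xs Filter.atTop (nhds x) := by
    rw [tendsto_iff_dist_tendsto_zero]
    exact squeeze_zero (fun k => dist_nonneg) (fun k => (hxd k).le)
      tendsto_one_div_add_atTop_nhds_zero_nat
  have hμlim := critP_tendsto j m G x μ hr hμ xs μs hμs hlim
  have hz : Fcr j m G y (x, μ) = 0 := GdSY_zero hx hμ
  have hzs : ∀ k, Fcr j m G y (xs k, μs k) = 0 := fun k => GdSY_zero (hxs k) (hμs k)
  have hst : HasStrictFDerivAt (Fcr j m G y) (fderiv ℝ (Fcr j m G y) (x, μ)) (x, μ) :=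
    ((fcr_contDiff j m G y).contDiffAt).hasStrictFDerivAt (by simp)
  have hker : LinearMap.ker ((fderiv ℝ (Fcr j m G y) (x, μ) :
      (Fin n → ℝ) × (Fin n → ℝ) →L[ℝ] (Fin n → ℝ) × (Fin n → ℝ)) :
      (Fin n → ℝ) × (Fin n → ℝ) →ₗ[ℝ] (Fin n → ℝ) × (Fin n → ℝ)) = ⊥ := by
    rw [LinearMap.ker_eq_bot']
    intro v hv
    exact hnd v hv
  obtain ⟨K, hK, hKa⟩ := LinearMap.exists_antilipschitzWith _ hker
  have hK' : (0 : ℝ) < K := hK
  have hpair : Filter.Tendsto (fun k => ((xs k, μs k), (x, μ))) Filter.atTop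
      (nhds ((x, μ), (x, μ))) :=
    (hlim.prodMk_nhds hμlim).prodMk_nhds tendsto_const_nhds
  have hsmall := hpair.eventually (hst.isLittleO.def (c := 1 / (2 * K)) (by positivity))
  obtain ⟨k, hk⟩ := hsmall.exists
  dsimp only at hk
  rw [hzs k, hz, sub_zero, zero_sub, norm_neg] at hk
  have h1 := hKa.le_mul_dist ((xs k, μs k) - (x, μ)) 0
  rw [dist_zero_right, map_zero, dist_zero_right] at h1
  have h2 : (K : ℝ) * ‖fderiv ℝ (Fcr j m G y) (x, μ) ((xs k, μs k) - (x, μ))‖ ≤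
      ‖(xs k, μs k) - (x, μ)‖ / 2 := by
    calc (K : ℝ) * ‖fderiv ℝ (Fcr j m G y) (x, μ) ((xs k, μs k) - (x, μ))‖ ≤
          K * (1 / (2 * K) * ‖(xs k, μs k) - (x, μ)‖) := mul_le_mul_of_nonneg_left hk hK'.le
      _ = ‖(xs k, μs k) - (x, μ)‖ / 2 := by field_simp
  have h3 : ‖(xs k, μs k) - (x, μ)‖ ≤ ‖(xs k, μs k) - (x, μ)‖ / 2 := h1.trans h2
  have h4 : ‖(xs k, μs k) - (x, μ)‖ = 0 := by
    have h5 := norm_nonneg ((xs k, μs k) - (x, μ))
    linarith
  have h5 := sub_eq_zero.1 (norm_eq_zero.1 h4)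
  exact hxne k (congrArg Prod.fst h5)

/-- Strictness of local minima.
Proof: as `iso_str`; or from `lagr` and `crit_isol`: near the local minimum `x` (within `ε`) a point
`x' ≠ x` with `x'_j ≤ x_j` is a local minimum too, so critical (`lagr`), so `x' = x`. -/
theorem str_Y {n : ℕ} (U : Set (Fin n → ℝ)) (hU : IsOpen U) (j m : Fin n) (hjm : j < m)
    (G : MvPolynomial (Fin n) ℝ) (y : Fin n → ℝ) (hr : ∀ x ∈ Wst U j m G y, RegAt j m G x)
    (hnd : ∀ z : (Fin n → ℝ) × (Fin n → ℝ), z.1 ∈ U → Fcr j m G y z = 0 →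
      ∀ v, fderiv ℝ (Fcr j m G y) z v = 0 → v = 0)
    (x : Fin n → ℝ) (hx : LM (Wst U j m G y) (fun x => x j) x) :
    SLM (Wst U j m G y) (fun x => x j) x := by
  obtain ⟨hxE, ε, hε, hmin⟩ := hx
  obtain ⟨μ, hμ⟩ := lagr U hU j m hjm G y x (hr x hxE) ⟨hxE, ε, hε, hmin⟩
  obtain ⟨ε', hε', hiso⟩ := crit_isol U j m G y x μ hxE (hr x hxE) hμ
    (hnd (x, μ) hxE.1 (GdSY_zero hxE hμ))
  refine ⟨hxE, min (ε / 2) ε', lt_min (by linarith) hε', fun w hw hd hne => ?_⟩
  by_contra hlt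
  push Not at hlt
  have hLM : LM (Wst U j m G y) (fun x => x j) w := by
    refine ⟨hw, ε / 2, by linarith, fun v hv hdv => ?_⟩
    have h1 : dist v x < ε := by
      have h2 := dist_triangle v w x
      have h3 := hd.trans_le (min_le_left _ _)
      linarith
    exact hlt.trans (hmin v hv h1)
  obtain ⟨μ', hμ'⟩ := lagr U hU j m hjm G y w (hr w hw) hLM
  exact hne (hiso w hw (hd.trans_le (min_le_right _ _)) ⟨μ', hμ'⟩)

theorem gds_of_gdy {n : ℕ} {U : Set (Fin n → ℝ)} {j m : Fin n} {G : MvPolynomial (Fin n) ℝ}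
    {y : Fin n → ℝ} (h : GdY U j m G y) : GdS U j m G y where
  isOpen := h.isOpen
  bdd := h.bdd
  lt := h.lt
  cpt := h.cpt
  reg := h.reg
  str := fun i hi him y' hy' x hx => str_Y U h.isOpen i m him G y' (h.reg i hi him y' hy')
    (h.ndg i hi him y' hy') x hx

end Pool.Agent.RM90
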