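import Pool.Agent.Lib.MP_df59e7_lc_Y.BaseY0
import Pool.Agent.Lib.MP_df59e7_lc_Y.AlgY
import Pool.Agent.Lib.MP_df59e7_lc_Y.GdSY
import Pool.Agent.Lib.MP_df59e7_lc_X.BaseX

set_option autoImplicit false

/-! MP_df59e7_lc, project Y, module BaseY: base case. -/

namespace Pool.Agent.RM90

open MvPolynomial

theorem BaseY_bound (n E P : ℕ) : 2 ^ n * P * E ≤ BY n E P 1 := by
  unfold BY
  have h1 : 2 ^ n ≤ 8 ^ n := Nat.pow_le_pow_left (by norm_num) n
  have h2 : E ≤ (2 * E + 1) ^ (1 + 1) := by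
    have h3 : (2 * E + 1) ^ (1 + 1) = 4 * (E * E) + 4 * E + 1 := by ring
    omega
  exact Nat.mul_le_mul (Nat.mul_le_mul_right _ h1) h2

/-- Base case. Proof: as `base_X` (Lib/MP_df59e7_lc_X/BaseX.lean; copy it), with `card_BY` and
`alg_Y` (`2 ^ n * P * E ≤ B`). -/
theorem base_Y {n : ℕ} (U : Set (Fin n → ℝ)) (j m : Fin n) (G : MvPolynomial (Fin n) ℝ)
    (y : Fin n → ℝ) (hG : GdY U j m G y) (hjm : (j : ℕ) + 1 = m) (w p : Fin n → ℕ)
    (σ : Equiv.Perm (Fin n)) (E P : ℕ) (hc : Cpx m G w p σ E P) (B : ℕ)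
    (hB : BY n E P 1 ≤ B) (A : Finset (Fin n → ℝ)) (hA : ↑A ⊆ Wst U j m G y) :
    XMap (Wst U j m G y) (fun x => x j) A (A.card + 8 * B ^ 2) (Wst U j m G y) := by
  have hlt : j < m := hG.lt
  have hr : ∀ x ∈ Wst U j m G y, RegAt j m G x :=
    hG.reg j le_rfl hlt y ⟨fun _ _ => rfl, fun a h1 h2 => absurd h2 (not_lt.2 h1)⟩
  have hl : LCn (Wst U j m G y) := lc_W U hG.isOpen j m hlt G y hr
  have hcard := card_BY U j m G y hG w p σ E P hc 1 B (by omega) hB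
  have hfin : {w | LM (Wst U j m G y) (fun x => x j) w}.Finite :=
    Set.finite_of_encard_le_coe hcard
  set T : Finset (Fin n → ℝ) := hfin.toFinset with hT
  have hTm : ∀ w, w ∈ T ↔ LM (Wst U j m G y) (fun x => x j) w := by
    intro w
    rw [hT, Set.Finite.mem_toFinset]
    rfl
  have hTc : T.card ≤ B := by
    have h1 : ((T.card : ℕ) : ℕ∞) ≤ (B : ℕ∞) := by
      rw [← Set.encard_coe_eq_coe_finsetCard, hT, Set.Finite.coe_toFinset]
      exact hcard
    exact_mod_cast h1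
  have hKB : 2 ^ n * P * E ≤ B := (BaseY_bound n E P).trans hB
  have halg : ∀ t ∈ T, Alg (4 * (2 ^ n * P * E)) (connectedComponentIn (Wst U j m G y) t) :=
    fun t ht => alg_Y U hG.isOpen j m hjm G y hr w p σ E P hc t ((hTm t).1 ht).1
  have hcov : Wst U j m G y ⊆ ⋃ t ∈ T, connectedComponentIn (Wst U j m G y) t := by
    intro x hx
    obtain ⟨w, hw, hw'⟩ := comp_min (Wst U j m G y) hG.cpt hl (fun x => x j)
      (continuous_apply j) x hx
    refine Set.mem_iUnion₂.2 ⟨w, (hTm w).2 hw', ?_⟩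
    rw [← connectedComponentIn_eq hw]
    exact mem_connectedComponentIn hx
  have hbound : T.card * (4 * (2 ^ n * P * E)) ≤ A.card + 8 * B ^ 2 := by
    have h1 : T.card * (4 * (2 ^ n * P * E)) ≤ B * (4 * B) :=
      Nat.mul_le_mul hTc (Nat.mul_le_mul_left 4 hKB)
    have h2 : B * (4 * B) = 4 * B ^ 2 := by ring
    omega
  refine ⟨subset_rfl, hG.cpt.isClosed, alg_mono hbound hcov (alg_biUnion T _ _ halg), hA,
    fun x hx => ?_, fun x hx => ⟨x, hx, mem_connectedComponentIn ⟨hx, rfl⟩⟩⟩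
  rw [Set.inter_eq_right.2 (connectedComponentIn_subset _ _)]
  exact isConnected_connectedComponentIn_iff.2 hx

theorem LY_base {Nm B E P : ℕ} (hB : BY Nm E P 1 ≤ B) : LY Nm B E P 1 1 := by
  intro n hn U j m G y w p σ hG hc hρ A hA
  have hlt : (j : ℕ) < (m : ℕ) := hG.lt
  refine ⟨_, xmap_mono (le_of_eq (one_mul _).symm)
    (base_Y U j m G y hG (by omega) w p σ E P hc B ?_ A hA)⟩
  exact (BY_mono hn le_rfl le_rfl le_rfl).trans hB

theorem LY_mono {Nm Nm' B E E' P P' ρ ρ' κ κ' : ℕ} (h1 : Nm' ≤ Nm) (h2 : E' ≤ E)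
    (h3 : P' ≤ P) (h4 : ρ' ≤ ρ) (h5 : κ ≤ κ') (h : LY Nm B E P ρ κ) :
    LY Nm' B E' P' ρ' κ' := by
  intro n hn U j m G y w p σ hG hc hρ A hA
  obtain ⟨M, hM⟩ := h n (hn.trans h1) U j m G y w p σ hG (cpx_mono h2 h3 hc) (hρ.trans h4) A hA
  exact ⟨M, xmap_mono (Nat.mul_le_mul_right _ h5) hM⟩

/-- Two points of the same component are joined by a closed connected set of size
`κ (2 + 8 B^2)`. Proof: as `LC_of_LX` (Lib/MP_df59e7_lc_X/StepX.lean). -/
theorem LC_of_LY {Nm B E P ρ κ : ℕ} (h : LY Nm B E P ρ κ) (n : ℕ) (hn : n ≤ Nm)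
    (U : Set (Fin n → ℝ)) (j m : Fin n) (G : MvPolynomial (Fin n) ℝ)
    (y : Fin n → ℝ) (w p : Fin n → ℕ) (σ : Equiv.Perm (Fin n))
    (hG : GdY U j m G y) (hc : Cpx m G w p σ E P) (hρ : (m : ℕ) - (j : ℕ) ≤ ρ)
    (x : Fin n → ℝ) (hx : x ∈ Wst U j m G y) (z : Fin n → ℝ)
    (hz : z ∈ connectedComponentIn (Wst U j m G y) x) :
    ∃ M : Set (Fin n → ℝ), IsClosed M ∧ x ∈ M ∧ z ∈ M ∧
      M ⊆ connectedComponentIn (Wst U j m G y) x ∧ IsPreconnected M ∧
        Alg (κ * (2 + 8 * B ^ 2)) M := by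
  classical
  have hzE : z ∈ Wst U j m G y := connectedComponentIn_subset _ _ hz
  obtain ⟨M, hM⟩ := h n hn U j m G y w p σ hG hc hρ {x, z} (by
    intro w hw
    rw [Finset.coe_insert, Finset.coe_singleton] at hw
    rcases hw with rfl | hw
    · exact hx
    · rw [Set.mem_singleton_iff] at hw
      rw [hw]; exact hzE)
  refine ⟨M ∩ connectedComponentIn (Wst U j m G y) x,
    hM.closed.inter (closed_comp hG.cpt.isClosed x),
    ⟨hM.pts (by simp), mem_connectedComponentIn hx⟩, ⟨hM.pts (by simp), hz⟩,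
    Set.inter_subset_right, (hM.rm1 x hx).isPreconnected, ?_⟩
  refine alg_mono ?_ Set.inter_subset_left hM.alg
  exact Nat.mul_le_mul_left _ (Nat.add_le_add_right Finset.card_le_two _)

end Pool.Agent.RM90
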