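import Pool.Agent.Lib.MP_df59e7_lc_Y.CardY

set_option autoImplicit false

/-! MP_df59e7_lc, project Y, module BaseY0: bounds. -/

namespace Pool.Agent.RM90

open MvPolynomial

/-- Certificates can be weakened. -/
theorem cpx_mono {n : ℕ} {m : Fin n} {G : MvPolynomial (Fin n) ℝ} {w p : Fin n → ℕ}
    {σ : Equiv.Perm (Fin n)} {E P E' P' : ℕ} (hE : E ≤ E') (hP : P ≤ P')
    (hc : Cpx m G w p σ E P) : Cpx m G w p σ E' P' where
  w1 := hc.w1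
  wm := hc.wm
  wE a := (hc.wE a).trans hE
  eqE l hl s hs := (hc.eqE l hl s hs).trans hE
  mσ := hc.mσ
  eqp := hc.eqp
  pP := hc.pP.trans hP

theorem BY_mono {n n' E E' P P' ρ ρ' : ℕ} (h1 : n ≤ n') (h2 : E ≤ E') (h3 : P ≤ P')
    (h4 : ρ ≤ ρ') : BY n E P ρ ≤ BY n' E' P' ρ' := by
  unfold BY
  have e1 : 8 ^ n ≤ 8 ^ n' := Nat.pow_le_pow_right (by norm_num) h1
  have e2 : (2 * E + 1) ^ (ρ + 1) ≤ (2 * E' + 1) ^ (ρ' + 1) :=
    (Nat.pow_le_pow_left (by omega) _).trans (Nat.pow_le_pow_right (by omega) (by omega))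
  exact Nat.mul_le_mul (Nat.mul_le_mul e1 h3) e2

/-- The number of local minima is at most `B`. Proof: `card_Y` and
`P * 4^n * (2E+1)^(m-j) ≤ 8^n * P * (2E+1)^(ρ+1)`. -/
theorem card_BY {n : ℕ} (U : Set (Fin n → ℝ)) (j m : Fin n) (G : MvPolynomial (Fin n) ℝ)
    (y : Fin n → ℝ) (hG : GdY U j m G y) (w p : Fin n → ℕ) (σ : Equiv.Perm (Fin n)) (E P : ℕ)
    (hc : Cpx m G w p σ E P) (ρ B : ℕ) (hρ : (m : ℕ) - (j : ℕ) ≤ ρ) (hB : BY n E P ρ ≤ B) :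
    {x | LM (Wst U j m G y) (fun x => x j) x}.encard ≤ (B : ℕ∞) := by
  refine (card_Y U j m G y hG w p σ E P hc).trans ?_
  have e1 : 4 ^ n ≤ 8 ^ n := Nat.pow_le_pow_left (by norm_num) n
  have e2 : (2 * E + 1) ^ ((m : ℕ) - (j : ℕ)) ≤ (2 * E + 1) ^ (ρ + 1) :=
    Nat.pow_le_pow_right (by omega) (by omega)
  have e3 : P * 4 ^ n * (2 * E + 1) ^ ((m : ℕ) - (j : ℕ)) ≤ BY n E P ρ := by
    unfold BY
    rw [mul_comm (8 ^ n) P]
    exact Nat.mul_le_mul (Nat.mul_le_mul le_rfl e1) e2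
  exact_mod_cast e3.trans hB

end Pool.Agent.RM90
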