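import Pool.Agent.Lib.MP_df59e7_lc_Y.WDeg
import Pool.Agent.Lib.Warren46.Bezout

set_option autoImplicit false

/-! MP_df59e7_lc, project Y, module WBezB: zeros of the deformed system. -/

namespace Pool.Agent.RM90

open MvPolynomial

variable {ι : Type} [Fintype ι] [DecidableEq ι]

/-- The function `z ↦ ∏ z i ^ a i` on `T`. -/
private noncomputable def WBezB_mono (T : Finset (ι → ℝ)) (a : ι → ℕ) : T → ℝ :=
  fun z => ∏ i, (z : ι → ℝ) i ^ a i

/-- The span of the small functions. -/
private noncomputable def WBezB_S (T : Finset (ι → ℝ)) (p : ι → ℕ) : Submodule ℝ (T → ℝ) :=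
  Submodule.span ℝ (Set.range fun a : (∀ i, Fin (p i)) => WBezB_mono T fun i => (a i : ℕ))

omit [DecidableEq ι] in
private theorem WBezB_eval (T : Finset (ι → ℝ)) (h : MvPolynomial ι ℝ) :
    (fun z : T => eval (z : ι → ℝ) h) = ∑ s ∈ h.support, coeff s h • WBezB_mono T s := by
  funext z
  rw [Finset.sum_apply, eval_eq']
  rfl

omit [DecidableEq ι] in
private theorem WBezB_eval_mem (T : Finset (ι → ℝ)) (p : ι → ℕ)
    (H : ∀ a : ι → ℕ, WBezB_mono T a ∈ WBezB_S T p) (h : MvPolynomial ι ℝ) :
    (fun z : T => eval (z : ι → ℝ) h) ∈ WBezB_S T p := by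
  rw [WBezB_eval]
  exact Submodule.sum_mem _ fun s _ => Submodule.smul_mem _ _ (H s)

private theorem WBezB_claim (f : ι → MvPolynomial ι ℝ) (w p : ι → ℕ)
    (hf : ∀ i, ∃ e, WLe w e (f i) ∧ e < p i * w i) (η : ℝ) (hη : η ≠ 0)
    (T : Finset (ι → ℝ)) (hT : ∀ z ∈ T, ∀ i, eval z (f i + C η * X i ^ p i) = 0) :
    ∀ (N : ℕ) (a : ι → ℕ), ∑ i, w i * a i = N → WBezB_mono T a ∈ WBezB_S T p := by
  intro N
  induction N using Nat.strong_induction_on with
  | _ N ih =>
  intro a ha
  by_cases hall : ∀ i, a i < p i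
  · exact Submodule.subset_span ⟨fun i => ⟨a i, hall i⟩, rfl⟩
  push Not at hall
  obtain ⟨i, hi⟩ := hall
  obtain ⟨e, he, hlt⟩ := hf i
  -- the exponent with `p i` removed
  set b : ι → ℕ := Function.update a i (a i - p i) with hb
  have hab : ∀ z : ι → ℝ, ∏ j, z j ^ a j = z i ^ p i * ∏ j, z j ^ b j := by
    intro z
    rw [← Finset.mul_prod_erase _ _ (Finset.mem_univ i),
      ← Finset.mul_prod_erase Finset.univ (fun j => z j ^ b j) (Finset.mem_univ i), ← mul_assoc]
    congr 1
    · rw [hb, Function.update_self, ← pow_add]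
      congr 1
      omega
    · refine Finset.prod_congr rfl fun j hj => ?_
      rw [hb, Function.update_of_ne (Finset.ne_of_mem_erase hj)]
  have hwab : ∑ j, w j * a j = p i * w i + ∑ j, w j * b j := by
    rw [← Finset.add_sum_erase _ _ (Finset.mem_univ i),
      ← Finset.add_sum_erase Finset.univ (fun j => w j * b j) (Finset.mem_univ i), ← add_assoc]
    congr 1
    · rw [hb, Function.update_self]
      obtain ⟨c, hc⟩ := Nat.exists_eq_add_of_le hi
      rw [hc, Nat.add_sub_cancel_left]
      ring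
    · refine Finset.sum_congr rfl fun j hj => ?_
      rw [hb, Function.update_of_ne (Finset.ne_of_mem_erase hj)]
  have hz : ∀ z ∈ T, z i ^ p i = -η⁻¹ * eval z (f i) := by
    intro z hzT
    have h := hT z hzT i
    rw [map_add, map_mul, map_pow, eval_C, eval_X] at h
    field_simp
    linarith
  have hfun : WBezB_mono T a =
      ∑ s ∈ (f i).support, (-η⁻¹ * coeff s (f i)) • WBezB_mono T (fun j => b j + s j) := by
    funext z
    rw [Finset.sum_apply]
    show ∏ j, (z : ι → ℝ) j ^ a j = _
    rw [hab, hz _ z.2, eval_eq', Finset.mul_sum, Finset.sum_mul]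
    refine Finset.sum_congr rfl fun s _ => ?_
    show _ = (-η⁻¹ * coeff s (f i)) * ∏ j, (z : ι → ℝ) j ^ (b j + s j)
    rw [Finset.prod_congr rfl fun j _ => pow_add ((z : ι → ℝ) j) (b j) (s j),
      Finset.prod_mul_distrib]
    ring
  rw [hfun]
  refine Submodule.sum_mem _ fun s hs => Submodule.smul_mem _ _ ?_
  refine ih (∑ j, w j * (b j + s j)) ?_ _ rfl
  have h1 : ∑ j, w j * (b j + s j) = ∑ j, w j * b j + ∑ j, w j * s j := by
    rw [← Finset.sum_add_distrib]
    exact Finset.sum_congr rfl fun j _ => mul_add _ _ _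
  have h2 := he s hs
  omega

/-- The zeros of `f i + η X_i ^ p i`.
Proof: let `V` be the space of functions `T → ℝ` and `S ⊆ V` the span of the functions
`z ↦ ∏ i, z i ^ a i`, `a i < p i` (there are `∏ p i` of them). CLAIM: for every exponent `a` the
function `z ↦ ∏ z i ^ a i` on `T` is in `S`, by strong induction on the weight `∑ i, w i * a i`:
if `a i ≥ p i` for some `i` then on `T` `z_i ^ p_i = - η⁻¹ f_i (z)`, so the function is
`- η⁻¹ ∑_{s ∈ support (f i)} coeff s (f i) z^(a - p_i e_i + s)` and all exponents have weight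
`≤ w(a) - p_i w_i + e < w(a)`. So all polynomial functions on `T` are in `S`; by interpolation
(`Warren46.exists_interp`) these are all functions, so `|T| = dim V ≤ ∏ p i`
(`finrank_span_le_card` or `finrank_range_le_card`). -/
theorem card_deformed (f : ι → MvPolynomial ι ℝ) (w p : ι → ℕ)
    (hf : ∀ i, ∃ e, WLe w e (f i) ∧ e < p i * w i) (η : ℝ) (hη : η ≠ 0)
    (T : Finset (ι → ℝ)) (hT : ∀ z ∈ T, ∀ i, eval z (f i + C η * X i ^ p i) = 0) :
    T.card ≤ ∏ i, p i := by
  have H : ∀ a : ι → ℕ, WBezB_mono T a ∈ WBezB_S T p := fun a =>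
    WBezB_claim f w p hf η hη T hT _ a rfl
  have htop : WBezB_S T p = ⊤ := by
    rw [eq_top_iff]
    intro v _
    choose h h1 h2 using Warren46.exists_interp (ι := ι) T
    have hv : v = ∑ z0 : T, v z0 • (fun z : T => eval (z : ι → ℝ) (h z0)) := by
      funext z
      rw [Finset.sum_apply, Finset.sum_eq_single z]
      · show v z = v z * eval (z : ι → ℝ) (h z)
        rw [h1, mul_one]
      · intro z0 _ hne
        show v z0 * eval (z : ι → ℝ) (h z0) = 0
        rw [h2 z0 z z.2 fun h' => hne (Subtype.ext h'.symm), mul_zero]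
      · intro hz
        exact absurd (Finset.mem_univ z) hz
    rw [hv]
    exact Submodule.sum_mem _ fun z0 _ => Submodule.smul_mem _ _ (WBezB_eval_mem T p H (h z0))
  have h3 : Module.finrank ℝ (WBezB_S T p) ≤ Fintype.card (∀ i, Fin (p i)) :=
    finrank_range_le_card _
  rw [htop, finrank_top, Module.finrank_fintype_fun_eq_card, Fintype.card_coe,
    Fintype.card_pi] at h3
  simpa using h3

end Pool.Agent.RM90
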