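import Pool.Agent.Lib.MP_df59e7_lc_Y.WBezA
import Pool.Agent.Lib.MP_df59e7_lc_Y.WBezB

set_option autoImplicit false

/-! MP_df59e7_lc, project Y, module WBez: the weighted Bezout theorem. -/

namespace Pool.Agent.RM90

open MvPolynomial

variable {ι : Type} [Fintype ι] [DecidableEq ι]

theorem WBez_sep {ι : Type} [Fintype ι] (Z : Finset (ι → ℝ)) :
    ∃ ε > 0, ∀ z ∈ Z, ∀ z' ∈ Z, z ≠ z' → 2 * ε ≤ dist z z' := by
  classical
  rcases Z.offDiag.eq_empty_or_nonempty with h | h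
  · refine ⟨1, one_pos, fun z hz z' hz' hne => ?_⟩
    have : (z, z') ∈ Z.offDiag := Finset.mem_offDiag.2 ⟨hz, hz', hne⟩
    rw [h] at this
    exact absurd this (Finset.notMem_empty _)
  · obtain ⟨q, hq, hmin⟩ := Z.offDiag.exists_min_image (fun q => dist q.1 q.2) h
    have hq' := Finset.mem_offDiag.1 hq
    refine ⟨dist q.1 q.2 / 2, half_pos (dist_pos.2 hq'.2.2), fun z hz z' hz' hne => ?_⟩
    have := hmin (z, z') (Finset.mem_offDiag.2 ⟨hz, hz', hne⟩)
    linarith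

/-- WEIGHTED BEZOUT THEOREM. Proof: the finitely many `z ∈ Z` have pairwise distances `≥ 2 ε`;
`persist` (with `g i = X i ^ p i`) for a common small `η > 0` gives `|Z|` different zeros of the
deformed system; `card_deformed`. -/
theorem wbezout (f : ι → MvPolynomial ι ℝ) (w p : ι → ℕ)
    (hf : ∀ i, ∃ e, WLe w e (f i) ∧ e < p i * w i)
    (Z : Finset (ι → ℝ)) (hz : ∀ z ∈ Z, ∀ i, eval z (f i) = 0)
    (hnd : ∀ z ∈ Z, ∀ y : ι → ℝ, ∃ v : ι → ℝ, ∀ i,
      HasDerivAt (fun t : ℝ => eval (z + t • v) (f i)) (y i) 0) :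
    Z.card ≤ ∏ i, p i := by
  classical
  obtain ⟨ε, hε, hsep⟩ := WBez_sep Z
  have hev : ∀ᶠ η : ℝ in nhdsWithin 0 (Set.Ioi 0), ∀ z ∈ Z, ∃ x : ι → ℝ, dist x z < ε ∧
      ∀ i, eval x (f i + C η * X i ^ p i) = 0 := by
    rw [Filter.eventually_all_finset]
    intro z hzZ
    obtain ⟨δ, hδ, h⟩ := persist f (fun i => X i ^ p i) z (hz z hzZ) (hnd z hzZ) ε hε
    have h1 : ∀ᶠ η : ℝ in nhds 0, |η| < δ := by
      have := Metric.ball_mem_nhds (0 : ℝ) hδ
      filter_upwards [this] with η hη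
      rwa [Metric.mem_ball, Real.dist_eq, sub_zero] at hη
    exact (h1.filter_mono nhdsWithin_le_nhds).mono fun η hη => h η hη
  obtain ⟨η, hη, hη0⟩ := (hev.and self_mem_nhdsWithin).exists
  have hη0' : (0 : ℝ) < η := hη0
  choose! x hx hx0 using hη
  have hinj : Set.InjOn x (Z : Set (ι → ℝ)) := by
    intro z hzZ z' hzZ' h
    by_contra hne
    have h1 := hsep z hzZ z' hzZ' hne
    have h2 : dist z z' ≤ dist z (x z) + dist (x z) z' := dist_triangle _ _ _
    have h3 : dist z (x z) < ε := by rw [dist_comm]; exact hx z hzZ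
    have h4 : dist (x z) z' < ε := by rw [h]; exact hx z' hzZ'
    linarith
  have hT : ∀ y ∈ Z.image x, ∀ i, eval y (f i + C η * X i ^ p i) = 0 := by
    intro y hy i
    obtain ⟨z, hzZ, rfl⟩ := Finset.mem_image.1 hy
    exact hx0 z hzZ i
  have h5 := card_deformed f w p hf η hη0'.ne' (Z.image x) hT
  rwa [Finset.card_image_of_injOn hinj] at h5

end Pool.Agent.RM90
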