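import Pool.Agent.Lib.MP_df59e7_lc_Y.FcrP
import Pool.Agent.Lib.MP_df59e7_lc_Y.WBez
import Pool.Agent.Lib.MP_df59e7_lc_X.FcrD

set_option autoImplicit false

/-! MP_df59e7_lc, project Y, module CardF: the number of nondegenerate critical points. -/

namespace Pool.Agent.RM90

open MvPolynomial

/-- The equation paired with a variable. -/
private def CardF_per {n : ℕ} (m : Fin n) (σ : Equiv.Perm (Fin n)) :
    Fin n ⊕ Fin n → Fin n ⊕ Fin n
  | Sum.inl a => if a < m then Sum.inl a else Sum.inr (σ.symm a)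
  | Sum.inr l => if l < m then Sum.inr l else Sum.inl l

private theorem CardF_sig {n : ℕ} (m : Fin n) (σ : Equiv.Perm (Fin n))
    (h : ∀ l, m ≤ l → m ≤ σ l) (a : Fin n) (ha : m ≤ a) : m ≤ σ.symm a := by
  classical
  set s : Finset (Fin n) := Finset.univ.filter (fun l => m ≤ l) with hs
  have h1 : s.image σ ⊆ s := by
    intro b hb
    obtain ⟨l, hl, rfl⟩ := Finset.mem_image.1 hb
    rw [hs, Finset.mem_filter] at hl ⊢
    exact ⟨Finset.mem_univ _, h l hl.2⟩
  have h2 : s.image σ = s := by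
    refine Finset.eq_of_subset_of_card_le h1 ?_
    rw [Finset.card_image_of_injective _ σ.injective]
  have h3 : a ∈ s.image σ := by
    rw [h2, hs, Finset.mem_filter]
    exact ⟨Finset.mem_univ _, ha⟩
  obtain ⟨l, hl, rfl⟩ := Finset.mem_image.1 h3
  rw [Equiv.symm_apply_apply]
  rw [hs, Finset.mem_filter] at hl
  exact hl.2

private theorem CardF_inj {n : ℕ} (m : Fin n) (σ : Equiv.Perm (Fin n))
    (h : ∀ l, m ≤ l → m ≤ σ l) : Function.Injective (CardF_per m σ) := by
  have hs := CardF_sig m σ h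
  intro i i' hii
  rcases i with a | a <;> rcases i' with b | b <;> simp only [CardF_per] at hii
  · by_cases h1 : a < m <;> by_cases h2 : b < m <;> simp only [h1, h2, if_true, if_false] at hii
    · rw [Sum.inl.inj hii]
    · exact absurd hii (by simp)
    · exact absurd hii (by simp)
    · rw [σ.symm.injective (Sum.inr.inj hii)]
  · by_cases h1 : a < m <;> by_cases h2 : b < m <;> simp only [h1, h2, if_true, if_false] at hii
    · exact absurd hii (by simp)
    · exact absurd (Sum.inl.inj hii ▸ h1) h2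
    · have h3 := hs a (not_lt.1 h1)
      rw [Sum.inr.inj hii] at h3
      exact absurd h2 (not_lt.2 h3)
    · exact absurd hii (by simp)
  · by_cases h1 : a < m <;> by_cases h2 : b < m <;> simp only [h1, h2, if_true, if_false] at hii
    · exact absurd hii (by simp)
    · have h3 := hs b (not_lt.1 h2)
      rw [← Sum.inr.inj hii] at h3
      exact absurd h1 (not_lt.2 h3)
    · exact absurd (Sum.inl.inj hii ▸ h2) h1
    · exact absurd hii (by simp)
  · by_cases h1 : a < m <;> by_cases h2 : b < m <;> simp only [h1, h2, if_true, if_false] at hii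
    · rw [Sum.inr.inj hii]
    · exact absurd hii (by simp)
    · exact absurd hii (by simp)
    · rw [Sum.inl.inj hii]

/-- The weights. -/
private def CardF_W {n : ℕ} (m : Fin n) (w : Fin n → ℕ) (E : ℕ) : Fin n ⊕ Fin n → ℕ :=
  Sum.elim w (fun l => if m ≤ l then E else 1)

/-- The exponents. -/
private def CardF_p {n : ℕ} (j m : Fin n) (p : Fin n → ℕ) (σ : Equiv.Perm (Fin n)) (E : ℕ) :
    Fin n ⊕ Fin n → ℕ :=
  Sum.elim (fun a => if a < j then 2 else if a < m then 2 * E + 1 else p (σ.symm a))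
    (fun l => if l < m then 2 else 3)

private theorem CardF_prod {n : ℕ} (j m : Fin n) (hjm : j < m) (p : Fin n → ℕ)
    (σ : Equiv.Perm (Fin n)) (E P : ℕ) (h : ∀ l, m ≤ l → m ≤ σ l)
    (hP : ∏ l, (if m ≤ l then p l else 1) ≤ P) :
    ∏ i, CardF_p j m p σ E i ≤ P * 4 ^ n * (2 * E + 1) ^ ((m : ℕ) - (j : ℕ)) := by
  classical
  have hs := CardF_sig m σ h
  rw [Fintype.prod_sum_type]
  have h1 : ∀ a : Fin n, CardF_p j m p σ E (Sum.inl a) * CardF_p j m p σ E (Sum.inr a) ≤
      (if m ≤ a then p (σ.symm a) else 1) * 4 * (if j ≤ a ∧ a < m then 2 * E + 1 else 1) := by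
    intro a
    simp only [CardF_p, Sum.elim_inl, Sum.elim_inr]
    by_cases ha : a < j
    · have h2 : a < m := ha.trans hjm
      have h3 : ¬ m ≤ a := not_le.2 h2
      have h4 : ¬ (j ≤ a ∧ a < m) := fun h => absurd ha (not_lt.2 h.1)
      rw [if_pos ha, if_pos h2, if_neg h3, if_neg h4]
    · by_cases h2 : a < m
      · have h3 : ¬ m ≤ a := not_le.2 h2
        have h4 : j ≤ a ∧ a < m := ⟨not_lt.1 ha, h2⟩
        rw [if_neg ha, if_pos h2, if_neg h3, if_pos h4, if_pos h2]
        omega
      · have h3 : m ≤ a := not_lt.1 h2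
        have h4 : ¬ (j ≤ a ∧ a < m) := fun h => h2 h.2
        rw [if_neg ha, if_neg h2, if_pos h3, if_neg h4, if_neg h2]
        omega
  have h5 : ∏ a : Fin n, (if m ≤ a then p (σ.symm a) else 1) =
      ∏ l, (if m ≤ l then p l else 1) := by
    rw [← Equiv.prod_comp σ (fun a => if m ≤ a then p (σ.symm a) else 1)]
    refine Finset.prod_congr rfl fun l _ => ?_
    simp only [Equiv.symm_apply_apply]
    by_cases hl : m ≤ l
    · rw [if_pos hl, if_pos (h l hl)]
    · rw [if_neg hl, if_neg]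
      intro h6
      have h7 := hs _ h6
      rw [Equiv.symm_apply_apply] at h7
      exact hl h7
  have h6 : ∏ a : Fin n, (if j ≤ a ∧ a < m then 2 * E + 1 else 1) =
      (2 * E + 1) ^ ((m : ℕ) - (j : ℕ)) := by
    rw [← Finset.prod_filter, Finset.prod_const]
    congr 1
    have h7 : Finset.univ.filter (fun a : Fin n => j ≤ a ∧ a < m) = Finset.Ico j m := by
      ext a
      simp
    rw [h7, Fin.card_Ico]
  rw [← Finset.prod_mul_distrib]
  refine (Finset.prod_le_prod' fun a _ => h1 a).trans ?_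
  rw [Finset.prod_mul_distrib, Finset.prod_mul_distrib, h5, h6, Finset.prod_const,
    Finset.card_univ, Fintype.card_fin]
  exact Nat.mul_le_mul_right _ (Nat.mul_le_mul_right _ hP)

private theorem CardF_wle {n : ℕ} (j m : Fin n) (hjm : j < m) (G : MvPolynomial (Fin n) ℝ)
    (y : Fin n → ℝ) (w p : Fin n → ℕ) (σ : Equiv.Perm (Fin n)) (E P : ℕ)
    (hc : Cpx m G w p σ E P) (i : Fin n ⊕ Fin n) :
    ∃ e, WLe (CardF_W m w E) e (fcrP j m G y (CardF_per m σ i)) ∧
      e < CardF_p j m p σ E i * CardF_W m w E i := by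
  classical
  have hs := CardF_sig m σ hc.mσ
  have hE1 : 1 ≤ E := (hc.w1 j).trans (hc.wE j)
  have hbig : ∀ a : Fin n, ¬ a < j →
      WLe (CardF_W m w E) (2 * E) (fcrP j m G y (Sum.inl a)) := by
    intro a ha
    simp only [fcrP, if_neg ha]
    refine wle_sub (wle_sum _ _ fun l _ => ?_) (wle_C _ _ _)
    by_cases hl : m ≤ l
    · rw [if_pos hl, two_mul]
      refine wle_mul (wle_X _ _ _ ?_) (wle_rename _ Sum.inl_injective _ ?_)
      · simp only [CardF_W, Sum.elim_inr, if_pos hl]
        exact le_refl _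
      · exact wle_pderiv _ (hc.eqE l hl)
    · rw [if_neg hl]
      exact wle_zero _ _
  rcases i with a | l
  · by_cases ha : a < j
    · have h2 : a < m := ha.trans hjm
      refine ⟨1, ?_, ?_⟩
      · simp only [CardF_per, if_pos h2, fcrP, if_pos ha]
        refine wle_sub (wle_X _ _ _ ?_) (wle_C _ _ _)
        simp only [CardF_W, Sum.elim_inl, hc.wm a h2]
        exact le_refl _
      · simp only [CardF_p, CardF_W, Sum.elim_inl, if_pos ha, hc.wm a h2]
        omega
    · by_cases h2 : a < m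
      · refine ⟨2 * E, ?_, ?_⟩
        · simp only [CardF_per, if_pos h2]
          exact hbig a ha
        · simp only [CardF_p, CardF_W, Sum.elim_inl, if_neg ha, if_pos h2, hc.wm a h2]
          omega
      · have h3 := hs a (not_lt.1 h2)
        obtain ⟨e, he, hlt⟩ := hc.eqp _ h3
        rw [Equiv.apply_symm_apply] at hlt
        refine ⟨e, ?_, ?_⟩
        · simp only [CardF_per, if_neg h2, fcrP, if_neg (not_lt.2 h3)]
          refine wle_rename _ Sum.inl_injective _ ?_
          exact he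
        · simp only [CardF_p, CardF_W, Sum.elim_inl, if_neg ha, if_neg h2]
          exact hlt
  · by_cases h2 : l < m
    · refine ⟨1, ?_, ?_⟩
      · simp only [CardF_per, if_pos h2, fcrP]
        refine wle_X _ _ _ ?_
        simp only [CardF_W, Sum.elim_inr, if_neg (not_le.2 h2)]
        exact le_refl _
      · simp only [CardF_p, CardF_W, Sum.elim_inr, if_pos h2, if_neg (not_le.2 h2)]
        omega
    · have h3 : m ≤ l := not_lt.1 h2
      refine ⟨2 * E, ?_, ?_⟩
      · simp only [CardF_per, if_neg h2]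
        exact hbig l (not_lt.2 ((le_of_lt hjm).trans h3))
      · simp only [CardF_p, CardF_W, Sum.elim_inr, if_neg h2, if_pos h3]
        omega

private theorem CardF_ndg {n : ℕ} (j m : Fin n) (G : MvPolynomial (Fin n) ℝ)
    (y : Fin n → ℝ) (z : (Fin n → ℝ) × (Fin n → ℝ))
    (hz : ∀ v, fderiv ℝ (Fcr j m G y) z v = 0 → v = 0) (t : Fin n ⊕ Fin n → ℝ) :
    ∃ v : Fin n ⊕ Fin n → ℝ, ∀ i,
      HasDerivAt (fun s : ℝ => eval (Sum.elim z.1 z.2 + s • v) (fcrP j m G y i)) (t i) 0 := by
  have hinj : Function.Injective (fderiv ℝ (Fcr j m G y) z :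
      ((Fin n → ℝ) × (Fin n → ℝ)) →ₗ[ℝ] ((Fin n → ℝ) × (Fin n → ℝ))) := by
    rw [injective_iff_map_eq_zero]
    exact hz
  have hsur := LinearMap.injective_iff_surjective.1 hinj
  obtain ⟨u, hu⟩ := hsur (fun a => t (Sum.inl a), fun l => t (Sum.inr l))
  refine ⟨Sum.elim u.1 u.2, fun i => ?_⟩
  have h0 := (fcr_fderiv j m G y z 0).1.hasFDerivAt
  have h1 : HasDerivAt (fun s : ℝ => z + s • u) u 0 := by
    have h2 := ((hasDerivAt_id (0 : ℝ)).smul_const u).const_add z
    simpa using h2
  have h3 : HasDerivAt (fun s : ℝ => Fcr j m G y (z + s • u))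
      (fderiv ℝ (Fcr j m G y) z u) 0 := by
    have h4 : HasFDerivAt (Fcr j m G y) (fderiv ℝ (Fcr j m G y) z) (z + (0 : ℝ) • u) := by
      simpa using h0
    exact h4.comp_hasDerivAt (0 : ℝ) h1
  have h5 : (fderiv ℝ (Fcr j m G y) z) u =
      (fun a => t (Sum.inl a), fun l => t (Sum.inr l)) := hu
  rw [h5] at h3
  have h6 : (fun s : ℝ => eval (Sum.elim z.1 z.2 + s • Sum.elim u.1 u.2) (fcrP j m G y i)) =
      fun s : ℝ => Sum.elim (Fcr j m G y (z + s • u)).1 (Fcr j m G y (z + s • u)).2 i := by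
    funext s
    rw [← eval_fcrP]
    congr 2
    funext k
    rcases k with k | k <;> simp
  rw [h6]
  rcases i with a | l
  · simp only [Sum.elim_inl]
    have h7 := (hasFDerivAt_fst (𝕜 := ℝ) (E := Fin n → ℝ) (F := Fin n → ℝ)
      (p := Fcr j m G y (z + (0 : ℝ) • u))).comp_hasDerivAt (0 : ℝ) h3
    have h8 := (hasDerivAt_pi.1 h7) a
    exact h8
  · simp only [Sum.elim_inr]
    have h7 := (hasFDerivAt_snd (𝕜 := ℝ) (E := Fin n → ℝ) (F := Fin n → ℝ)
      (p := Fcr j m G y (z + (0 : ℝ) • u))).comp_hasDerivAt (0 : ℝ) h3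
    have h8 := (hasDerivAt_pi.1 h7) l
    exact h8

/-- The number of nondegenerate critical points of `x_j`.
Proof: `wbezout` for `fcrP j m G y`, reindexed: weights `W (inl a) = w a`; `W (inr l) = E` for
`m ≤ l` and `1` for `l < m` (`1 ≤ E` by `hc.w1`, `hc.wE`). Pairing of the equations with the
variables (a bijection of `Fin n ⊕ Fin n`; apply `wbezout` to the family reindexed by it):
`inr l`, `l ≥ m` (equation `eqn m G l`) with the variable `inl (σ l)`, exponent `p l`;
`inl a`, `a < j` (equation `x_a - y_a`, weight `1`) with `inl a`, exponent `2`;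
`inl a`, `j ≤ a < m` (weight `≤ 2 E`, variable of weight `w a = 1`) with `inl a`, exponent
`2 E + 1`; `inl a`, `m ≤ a` (weight `≤ 2 E < 3 E`) with `inr a`, exponent `3`; `inr l`, `l < m`
(weight `1`) with `inr l`, exponent `2`. (`σ` maps `{l | m ≤ l}` into itself by `hc.mσ`, so onto
itself.) The product of the exponents is
`∏_{l≥m} p l * 2^j * (2 E + 1)^(m-j) * 3^(n-m) * 2^m ≤ P * 4^n * (2 E + 1)^(m - j)`.
Nondegeneracy: the derivative of `Fcr` at `z` is injective, so surjective
(`LinearMap.injective_iff_surjective`), and the derivative of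
`t ↦ eval (Sum.elim (z + t v)) (fcrP i)` at `0` is the corresponding component of
`fderiv ℝ (Fcr j m G y) z v` (chain rule, `fcr_fderiv` gives differentiability, `eval_fcrP`). -/
theorem card_fcr {n : ℕ} (j m : Fin n) (hjm : j < m) (G : MvPolynomial (Fin n) ℝ)
    (y : Fin n → ℝ) (w p : Fin n → ℕ) (σ : Equiv.Perm (Fin n)) (E P : ℕ)
    (hc : Cpx m G w p σ E P) (T : Finset ((Fin n → ℝ) × (Fin n → ℝ)))
    (hT : ∀ z ∈ T, Fcr j m G y z = 0 ∧ ∀ v, fderiv ℝ (Fcr j m G y) z v = 0 → v = 0) :
    T.card ≤ P * 4 ^ n * (2 * E + 1) ^ ((m : ℕ) - (j : ℕ)) := by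
  classical
  set F : (Fin n → ℝ) × (Fin n → ℝ) → (Fin n ⊕ Fin n → ℝ) := fun z => Sum.elim z.1 z.2 with hF
  have hFinj : Function.Injective F := by
    intro z z' h
    refine Prod.ext ?_ ?_
    · funext a
      exact congrFun h (Sum.inl a)
    · funext a
      exact congrFun h (Sum.inr a)
  have hinj := CardF_inj m σ hc.mσ
  have hbij : Function.Bijective (CardF_per m σ) := Finite.injective_iff_bijective.1 hinj
  let e : Fin n ⊕ Fin n ≃ Fin n ⊕ Fin n := Equiv.ofBijective _ hbij
  have he : ∀ i, e i = CardF_per m σ i := fun i => rfl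
  rw [← Finset.card_image_of_injective T hFinj]
  refine (wbezout (fun i => fcrP j m G y (CardF_per m σ i)) (CardF_W m w E)
    (CardF_p j m p σ E) (CardF_wle j m hjm G y w p σ E P hc) (T.image F) ?_ ?_).trans
    (CardF_prod j m hjm p σ E P hc.mσ hc.pP)
  · intro x hx i
    obtain ⟨z, hz, rfl⟩ := Finset.mem_image.1 hx
    rw [hF]
    dsimp only
    rw [eval_fcrP, (hT z hz).1]
    rcases CardF_per m σ i with a | a <;> simp
  · intro x hx t
    obtain ⟨z, hz, rfl⟩ := Finset.mem_image.1 hx
    obtain ⟨v, hv⟩ := CardF_ndg j m G y z (hT z hz).2 (fun k => t (e.symm k))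
    refine ⟨v, fun i => ?_⟩
    have h1 := hv (CardF_per m σ i)
    rw [← he, Equiv.symm_apply_apply] at h1
    exact h1

end Pool.Agent.RM90
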