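import Pool.Agent.Lib.MP_df59e7_lc_Y.CardF
import Pool.Agent.Lib.MP_df59e7_lc_X.Lagr

set_option autoImplicit false

/-! MP_df59e7_lc, project Y, module CardY: the number of local minima. -/

namespace Pool.Agent.RM90

open MvPolynomial

private theorem CardY_zero {n : ℕ} {U : Set (Fin n → ℝ)} {j m : Fin n}
    {G : MvPolynomial (Fin n) ℝ} {y x μ : Fin n → ℝ} (hx : x ∈ Wst U j m G y)
    (hμ : CritP j m G x μ) : Fcr j m G y (x, μ) = 0 := by
  unfold Fcr
  refine Prod.ext (funext fun a => ?_) (funext fun l => ?_)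
  · show (if a < j then x a - y a else
      ∑ l, (if m ≤ l then μ l * eval x (pderiv a (eqn m G l)) else 0) -
        (if a = j then 1 else 0)) = 0
    split_ifs with h1 h2
    · rw [hx.2.1 a h1, sub_self]
    · rw [hμ.2 a (not_lt.1 h1), if_pos h2, sub_self]
    · rw [hμ.2 a (not_lt.1 h1), if_neg h2, sub_self]
  · show (if l < m then μ l else eval x (eqn m G l)) = 0
    split_ifs with h1
    · exact hμ.1 l h1
    · exact hx.2.2 l (not_lt.1 h1)

/-- The number of local minima of `x_j` on a good set.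
Proof: every local minimum `x` has multipliers `μ` (`lagr`; regularity from `hG.reg` for `i = j`),
and `(x, μ)` is a zero of `Fcr j m G y` (see `IsoS_zero` in Lib/MP_df59e7_lc_X/IsoS.lean) which is
nondegenerate (`hG.ndg` for `i = j`, `y' = y`). So every finite set of local minima injects into a
finite set as in `card_fcr`. -/
theorem card_Y {n : ℕ} (U : Set (Fin n → ℝ)) (j m : Fin n) (G : MvPolynomial (Fin n) ℝ)
    (y : Fin n → ℝ) (hG : GdY U j m G y) (w p : Fin n → ℕ) (σ : Equiv.Perm (Fin n)) (E P : ℕ)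
    (hc : Cpx m G w p σ E P) :
    {x | LM (Wst U j m G y) (fun x => x j) x}.encard ≤
      ((P * 4 ^ n * (2 * E + 1) ^ ((m : ℕ) - (j : ℕ)) : ℕ) : ℕ∞) := by
  classical
  set B : ℕ := P * 4 ^ n * (2 * E + 1) ^ ((m : ℕ) - (j : ℕ)) with hB
  have hself : RatExt j j y y :=
    ⟨fun _ _ => rfl, fun a h1 h2 => absurd (lt_of_le_of_lt h1 h2) (lt_irrefl j)⟩
  have hreg : ∀ x ∈ Wst U j m G y, RegAt j m G x :=
    hG.reg j le_rfl hG.lt y hself
  have hmul : ∀ x, LM (Wst U j m G y) (fun x => x j) x → ∃ μ, CritP j m G x μ :=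
    fun x hx => lagr U hG.isOpen j m hG.lt G y x (hreg x hx.1) hx
  by_contra hcon
  rw [not_le] at hcon
  have hcon' : ((B + 1 : ℕ) : ℕ∞) ≤
      {x | LM (Wst U j m G y) (fun x => x j) x}.encard := by
    rw [Nat.cast_add, Nat.cast_one]
    exact Order.add_one_le_of_lt hcon
  obtain ⟨t, hts, htc⟩ := Set.exists_subset_encard_eq hcon'
  have htf : t.Finite := Set.finite_of_encard_eq_coe htc
  choose! μ hμ using hmul
  set T : Finset ((Fin n → ℝ) × (Fin n → ℝ)) := htf.toFinset.image fun x => (x, μ x) with hTd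
  have hTc : T.card = B + 1 := by
    rw [hTd, Finset.card_image_of_injective _ (fun a b h => congrArg Prod.fst h)]
    have h1 : ((htf.toFinset.card : ℕ) : ℕ∞) = ((B + 1 : ℕ) : ℕ∞) := by
      rw [← htc, htf.encard_eq_coe_toFinset_card]
    exact_mod_cast h1
  have hT : ∀ z ∈ T, Fcr j m G y z = 0 ∧ ∀ v, fderiv ℝ (Fcr j m G y) z v = 0 → v = 0 := by
    intro z hz
    rw [hTd, Finset.mem_image] at hz
    obtain ⟨x, hx, rfl⟩ := hz
    have hxL : LM (Wst U j m G y) (fun x => x j) x := hts (htf.mem_toFinset.1 hx)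
    have h0 := CardY_zero hxL.1 (hμ x hxL)
    exact ⟨h0, hG.ndg j le_rfl hG.lt y hself (x, μ x) hxL.1.1 h0⟩
  have := card_fcr j m hG.lt G y w p σ E P hc T hT
  omega

end Pool.Agent.RM90
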