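import Pool.Agent.Lib.MP_df59e7_lc_Y.DefsY

set_option autoImplicit false

/-! MP_df59e7_lc, project Y, module GxD: formulas for the Lagrange function `Gx g h`.

`pderiv_rename` for the injective map `Fin.castAdd c` (`MvPolynomial.pderiv_rename`), and
`pderiv (Fin.natAdd N k)` of a polynomial in the first `N` variables is zero
(`MvPolynomial.pderiv_eq_zero_of_notMem_vars` or induction). `eval z (rename f p) = eval (z ∘ f) p`
is `eval_rename`. -/

namespace Pool.Agent.RM90

open MvPolynomial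

variable {N c : ℕ}

theorem fstP_append (x : Fin N → ℝ) (lam : Fin c → ℝ) : fstP (Fin.append x lam) = x := by
  funext a
  exact Fin.append_left x lam a

theorem sndP_append (x : Fin N → ℝ) (lam : Fin c → ℝ) : sndP (Fin.append x lam) = lam := by
  funext a
  exact Fin.append_right x lam a

theorem GxD_ne (a : Fin N) (k : Fin c) : (Fin.castAdd c a : Fin (N + c)) ≠ Fin.natAdd N k := by
  intro h
  have h1 := congrArg Fin.val h
  rw [Fin.val_natAdd, Fin.val_castAdd] at h1
  have h2 := a.2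
  omega

theorem GxD_natAdd (p : MvPolynomial (Fin N) ℝ) (k : Fin c) :
    pderiv (Fin.natAdd N k) (rename (Fin.castAdd c) p) = 0 := by
  induction p using MvPolynomial.induction_on with
  | C r => rw [rename_C, pderiv_C]
  | add p q hp hq => rw [map_add, map_add, hp, hq, add_zero]
  | mul_X p i hp =>
    rw [map_mul, rename_X, pderiv_mul, hp, pderiv_X_of_ne (GxD_ne i k), zero_mul, mul_zero,
      add_zero]

theorem append_fst_snd (z : Fin (N + c) → ℝ) : Fin.append (fstP z) (sndP z) = z := by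
  funext i
  induction i using Fin.addCases with
  | left a => exact Fin.append_left _ _ a
  | right k => exact Fin.append_right _ _ k

theorem continuous_fstP : Continuous (fstP : (Fin (N + c) → ℝ) → (Fin N → ℝ)) :=
  continuous_pi fun _ => continuous_apply _

theorem continuous_sndP : Continuous (sndP : (Fin (N + c) → ℝ) → (Fin c → ℝ)) :=
  continuous_pi fun _ => continuous_apply _

theorem pderiv_castAdd_Gx (g : MvPolynomial (Fin N) ℝ) (h : Fin c → MvPolynomial (Fin N) ℝ)
    (a : Fin N) : pderiv (Fin.castAdd c a) (Gx g h) = Gx (pderiv a g) (fun k => pderiv a (h k)) := by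
  unfold Gx
  rw [map_sub, map_sum, pderiv_rename (Fin.castAdd_injective N c)]
  congr 1
  refine Finset.sum_congr rfl fun k _ => ?_
  rw [pderiv_mul, pderiv_X_of_ne (GxD_ne a k).symm, pderiv_rename (Fin.castAdd_injective N c)]
  ring

theorem pderiv_natAdd_Gx (g : MvPolynomial (Fin N) ℝ) (h : Fin c → MvPolynomial (Fin N) ℝ)
    (k : Fin c) : pderiv (Fin.natAdd N k) (Gx g h) = - rename (Fin.castAdd c) (h k) := by
  unfold Gx
  rw [map_sub, map_sum, GxD_natAdd, zero_sub]
  congr 1
  have h1 : ∀ k' : Fin c, pderiv (Fin.natAdd N k)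
      (X (Fin.natAdd N k') * rename (Fin.castAdd c) (h k')) =
      if k' = k then rename (Fin.castAdd c) (h k') else 0 := by
    intro k'
    rw [pderiv_mul, GxD_natAdd, mul_zero, add_zero]
    by_cases hk : k' = k
    · rw [if_pos hk, hk, pderiv_X_self, one_mul]
    · rw [if_neg hk, pderiv_X_of_ne, zero_mul]
      intro h2
      exact hk ((Fin.natAdd_injective c N) h2)
  rw [Finset.sum_congr rfl fun k' _ => h1 k', Finset.sum_ite_eq' Finset.univ k]
  simp

theorem eval_Gx (g : MvPolynomial (Fin N) ℝ) (h : Fin c → MvPolynomial (Fin N) ℝ)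
    (z : Fin (N + c) → ℝ) :
    eval z (Gx g h) = eval (fstP z) g - ∑ k, sndP z k * eval (fstP z) (h k) := by
  unfold Gx
  rw [map_sub, map_sum, eval_rename]
  congr 1
  refine Finset.sum_congr rfl fun k _ => ?_
  rw [map_mul, eval_X, eval_rename]
  rfl

theorem eval_ren (p : MvPolynomial (Fin N) ℝ) (z : Fin (N + c) → ℝ) :
    eval z (rename (Fin.castAdd c) p) = eval (fstP z) p := by
  rw [eval_rename]
  rfl

theorem pderiv_castAdd_ren (p : MvPolynomial (Fin N) ℝ) (a : Fin N) :
    pderiv (Fin.castAdd c a) (rename (Fin.castAdd c) p) = rename (Fin.castAdd c) (pderiv a p) := by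
  exact pderiv_rename (Fin.castAdd_injective N c) a p

theorem pderiv_natAdd_ren (p : MvPolynomial (Fin N) ℝ) (k : Fin c) :
    pderiv (Fin.natAdd N k) (rename (Fin.castAdd c) p) = 0 := by
  exact GxD_natAdd p k

/-- The family of polynomials `g - quad q` is affine in `q`. -/
theorem Gx_sub_quad (φ : MvPolynomial (Fin N) ℝ) (h : Fin c → MvPolynomial (Fin N) ℝ)
    (q q' : Par N) (t : ℝ) :
    Gx (φ - quad (q + t • q')) h = Gx (φ - quad q) h - C t * rename (Fin.castAdd c) (quad q') := by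
  unfold Gx
  rw [quad_add, quad_smul, map_sub, map_add, map_mul, map_sub, rename_C]
  ring

/-- The points of `Lft`. Proof: `eqn (castAdd c m) (Gx g h) l` for `l = castAdd c a`, `a > m`, is
`Gx (pderiv a g) (..)`, for `l = natAdd N k` it is `- rename (h k)`, for `l = castAdd c m` it is
`Gx g h`, whose value is that of `g` when all `h k` vanish. Indices: `Fin.addCases`. -/
theorem mem_Lft (U : Set (Fin N → ℝ)) (R : ℝ) (j m : Fin N) (h : Fin c → MvPolynomial (Fin N) ℝ)
    (g : MvPolynomial (Fin N) ℝ) (y : Fin N → ℝ) (z : Fin (N + c) → ℝ) :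
    z ∈ Lft U R j m h g y ↔
      (fstP z ∈ Zg U j h g y ∧ Mlt m h g (fstP z) (sndP z)) ∧ ∀ k, |sndP z k| < R := by
  have h1 : (∀ a, a < Fin.castAdd c j → z a = yx c y a) ↔ ∀ a, a < j → fstP z a = y a := by
    constructor
    · intro h a ha
      have h2 := h (Fin.castAdd c a) ha
      rw [yx, Fin.append_left] at h2
      exact h2
    · intro h a ha
      induction a using Fin.addCases with
      | left a =>
        rw [yx, Fin.append_left]
        exact h a ha
      | right k =>
        have h2 : ((Fin.natAdd N k : Fin (N + c)) : ℕ) < ((Fin.castAdd c j : Fin (N + c)) : ℕ) := ha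
        rw [Fin.val_natAdd, Fin.val_castAdd] at h2
        have h3 := j.2
        omega
  have h2 : (∀ l, Fin.castAdd c m ≤ l → eval z (eqn (Fin.castAdd c m) (Gx g h) l) = 0) ↔
      (∀ k, eval (fstP z) (h k) = 0) ∧ eval (fstP z) g = 0 ∧
        Mlt m h g (fstP z) (sndP z) := by
    have e1 : ∀ k : Fin c, eval z (eqn (Fin.castAdd c m) (Gx g h) (Fin.natAdd N k)) =
        - eval (fstP z) (h k) := by
      intro k
      rw [eqn, if_neg (GxD_ne m k).symm, pderiv_natAdd_Gx, map_neg, eval_ren]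
    have e2 : ∀ a : Fin N, m < a → eval z (eqn (Fin.castAdd c m) (Gx g h) (Fin.castAdd c a)) =
        eval (fstP z) (pderiv a g) - ∑ k, sndP z k * eval (fstP z) (pderiv a (h k)) := by
      intro a ha
      rw [eqn, if_neg, pderiv_castAdd_Gx, eval_Gx]
      intro h3
      exact ha.ne' (Fin.castAdd_injective N c h3)
    have e3 : eval z (eqn (Fin.castAdd c m) (Gx g h) (Fin.castAdd c m)) =
        eval (fstP z) g - ∑ k, sndP z k * eval (fstP z) (h k) := by
      rw [eqn, if_pos rfl, eval_Gx]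
    have e4 : ∀ k : Fin c, Fin.castAdd c m ≤ Fin.natAdd N k := by
      intro k
      have h3 : ((Fin.castAdd c m : Fin (N + c)) : ℕ) ≤ ((Fin.natAdd N k : Fin (N + c)) : ℕ) := by
        rw [Fin.val_natAdd, Fin.val_castAdd]
        have h4 := m.2
        omega
      exact h3
    constructor
    · intro h3
      have h4 : ∀ k, eval (fstP z) (h k) = 0 := by
        intro k
        have h5 := h3 (Fin.natAdd N k) (e4 k)
        rw [e1] at h5
        exact neg_eq_zero.1 h5
      refine ⟨h4, ?_, ?_⟩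
      · have h5 := h3 (Fin.castAdd c m) le_rfl
        rw [e3, Finset.sum_eq_zero fun k _ => by rw [h4 k, mul_zero], sub_zero] at h5
        exact h5
      · intro a ha
        have h5 := h3 (Fin.castAdd c a) (show (m : ℕ) ≤ (a : ℕ) from ha.le)
        rw [e2 a ha] at h5
        exact sub_eq_zero.1 h5
    · rintro ⟨h3, h4, h5⟩ l hl
      induction l using Fin.addCases with
      | left a =>
        rcases eq_or_lt_of_le (show m ≤ a from hl) with h6 | h6
        · rw [← h6, e3, h4, Finset.sum_eq_zero fun k _ => by rw [h3 k, mul_zero], sub_zero]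
        · rw [e2 a h6, h5 a h6, sub_self]
      | right k => rw [e1, h3 k, neg_zero]
  unfold Lft Wst Ux Zg
  simp only [Set.mem_ofPred_eq]
  rw [h1, h2]
  constructor
  · rintro ⟨⟨h3, h4⟩, h5, h6, h7, h8⟩
    exact ⟨⟨⟨h3, h5, h6, h7⟩, h8⟩, h4⟩
  · rintro ⟨⟨⟨h3, h5, h6, h7⟩, h8⟩, h4⟩
    exact ⟨⟨h3, h4⟩, h5, h6, h7, h8⟩

theorem hh_zero (m0 : Fin N) (G0 : MvPolynomial (Fin N) ℝ) (x : Fin N → ℝ) :
    (∀ k, eval x (hh m0 G0 k) = 0) ↔ ∀ l, m0 ≤ l → eval x (eqn m0 G0 l) = 0 := by
  constructor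
  · intro h l hl
    have h1 : (m0 : ℕ) ≤ (l : ℕ) := hl
    have h2 := l.2
    have h3 := h ⟨(l : ℕ) - (m0 : ℕ), by omega⟩
    have h4 : hh m0 G0 ⟨(l : ℕ) - (m0 : ℕ), by omega⟩ = eqn m0 G0 l := by
      unfold hh
      congr 1
      apply Fin.ext
      show (m0 : ℕ) + ((l : ℕ) - (m0 : ℕ)) = l
      omega
    rwa [h4] at h3
  · intro h k
    refine h _ ?_
    show (m0 : ℕ) ≤ (m0 : ℕ) + (k : ℕ)
    omega

theorem mem_Wst_hh (U : Set (Fin N → ℝ)) (j m0 : Fin N) (G0 : MvPolynomial (Fin N) ℝ)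
    (y x : Fin N → ℝ) :
    x ∈ Wst U j m0 G0 y ↔ x ∈ U ∧ (∀ a, a < j → x a = y a) ∧ ∀ k, eval x (hh m0 G0 k) = 0 := by
  unfold Wst
  simp only [Set.mem_ofPred_eq]
  rw [hh_zero]

/-- Sums over the equations of the base. -/
theorem sum_hh (m0 : Fin N) (f : Fin N → ℝ) :
    ∑ l, (if m0 ≤ l then f l else 0) =
      ∑ k : Fin (N - (m0 : ℕ)), f ⟨(m0 : ℕ) + (k : ℕ), by have := k.2; omega⟩ := by
  rw [← Finset.sum_filter]
  symm
  refine Finset.sum_nbij (fun k : Fin (N - (m0 : ℕ)) => (⟨(m0 : ℕ) + (k : ℕ), by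
    have := k.2
    omega⟩ : Fin N)) ?_ ?_ ?_ ?_
  · intro k _
    rw [Finset.mem_filter]
    refine ⟨Finset.mem_univ _, ?_⟩
    show (m0 : ℕ) ≤ (m0 : ℕ) + (k : ℕ)
    omega
  · intro k _ k' _ hk
    have h1 := congrArg Fin.val hk
    apply Fin.ext
    simp only at h1
    omega
  · intro l hl
    have h1 := (Finset.mem_filter.1 (Finset.mem_coe.1 hl)).2
    have h2 : (m0 : ℕ) ≤ (l : ℕ) := h1
    have h3 := l.2
    refine ⟨⟨(l : ℕ) - (m0 : ℕ), by omega⟩, Finset.mem_coe.2 (Finset.mem_univ _), ?_⟩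
    apply Fin.ext
    show (m0 : ℕ) + ((l : ℕ) - (m0 : ℕ)) = l
    omega
  · intro k _
    rfl

end Pool.Agent.RM90
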