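import Pool.Agent.Lib.MP_df59e7_lc_Y.WDeg
import Pool.Agent.Lib.MP_df59e7_lc_Y.GxD

set_option autoImplicit false

/-! MP_df59e7_lc, project Y, module CpxE: certificates of Lagrange extensions. -/

namespace Pool.Agent.RM90

open MvPolynomial

/-- Products over the indices `≥ m0`. -/
private theorem cpxE_prod {N : ℕ} (m0 : ℕ) (f : Fin N → ℕ) (M : ℕ) (hM : m0 + M ≤ N) :
    ∏ l : Fin N, (if m0 ≤ (l : ℕ) ∧ (l : ℕ) < m0 + M then f l else 1) =
      ∏ k : Fin M, f ⟨m0 + (k : ℕ), by have := k.2; omega⟩ := by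
  symm
  refine Fintype.prod_of_injective (fun k : Fin M => (⟨m0 + (k : ℕ), by
    have := k.2
    omega⟩ : Fin N)) ?_ _ _ ?_ ?_
  · intro k k' hk
    have h1 := congrArg Fin.val hk
    apply Fin.ext
    simp only at h1
    omega
  · intro l hl
    rw [if_neg]
    rintro ⟨h1, h2⟩
    exact hl ⟨⟨(l : ℕ) - m0, by omega⟩, Fin.ext (by
      show m0 + ((l : ℕ) - m0) = l
      omega)⟩
  · intro k
    have h1 := k.2
    rw [if_pos]
    constructor
    · show m0 ≤ m0 + (k : ℕ)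
      omega
    · show m0 + (k : ℕ) < m0 + M
      omega

private theorem cpxE_h {N : ℕ} (m0 : Fin N) (G0 : MvPolynomial (Fin N) ℝ)
    (k : Fin (N - (m0 : ℕ))) : hh m0 G0 k = eqn m0 G0 ⟨(m0 : ℕ) + (k : ℕ), by
      have := k.2
      omega⟩ := rfl

/-- The pairing. -/
private def cpxE_f {N : ℕ} (m0 : Fin N) (σ : Equiv.Perm (Fin N)) :
    Fin (N + (N - (m0 : ℕ))) → Fin (N + (N - (m0 : ℕ))) :=
  Fin.addCases
    (fun a => if h : (m0 : ℕ) ≤ (a : ℕ) then Fin.natAdd N ⟨(a : ℕ) - (m0 : ℕ), by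
      have := a.2
      omega⟩ else Fin.castAdd _ a)
    (fun k => Fin.castAdd _ (σ ⟨(m0 : ℕ) + (k : ℕ), by
      have := k.2
      omega⟩))

private theorem cpxE_f_ge {N : ℕ} (m0 : Fin N) (σ : Equiv.Perm (Fin N)) (a : Fin N)
    (h : (m0 : ℕ) ≤ (a : ℕ)) : cpxE_f m0 σ (Fin.castAdd _ a) =
      Fin.natAdd N ⟨(a : ℕ) - (m0 : ℕ), by
        have := a.2
        omega⟩ := by
  unfold cpxE_f
  rw [Fin.addCases_left, dif_pos h]

private theorem cpxE_f_lt {N : ℕ} (m0 : Fin N) (σ : Equiv.Perm (Fin N)) (a : Fin N)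
    (h : ¬ (m0 : ℕ) ≤ (a : ℕ)) : cpxE_f m0 σ (Fin.castAdd _ a) = Fin.castAdd _ a := by
  unfold cpxE_f
  rw [Fin.addCases_left, dif_neg h]

private theorem cpxE_f_nat {N : ℕ} (m0 : Fin N) (σ : Equiv.Perm (Fin N))
    (k : Fin (N - (m0 : ℕ))) : cpxE_f m0 σ (Fin.natAdd N k) =
      Fin.castAdd _ (σ ⟨(m0 : ℕ) + (k : ℕ), by
        have := k.2
        omega⟩) := by
  unfold cpxE_f
  rw [Fin.addCases_right]

private theorem cpxE_inj {N : ℕ} (m0 : Fin N) (σ : Equiv.Perm (Fin N))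
    (hσ : ∀ l, m0 ≤ l → m0 ≤ σ l) : Function.Injective (cpxE_f m0 σ) := by
  have hσ' : ∀ k : Fin (N - (m0 : ℕ)), (m0 : ℕ) ≤ (σ ⟨(m0 : ℕ) + (k : ℕ), by
      have := k.2
      omega⟩ : ℕ) := fun k => hσ _ (by
    show (m0 : ℕ) ≤ (m0 : ℕ) + (k : ℕ)
    omega)
  intro x y hxy
  induction x using Fin.addCases with
  | left a =>
    induction y using Fin.addCases with
    | left b =>
      by_cases ha : (m0 : ℕ) ≤ (a : ℕ)
      · by_cases hb : (m0 : ℕ) ≤ (b : ℕ)
        · rw [cpxE_f_ge m0 σ a ha, cpxE_f_ge m0 σ b hb] at hxy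
          have h1 := congrArg Fin.val hxy
          simp only [Fin.val_natAdd] at h1
          have h2 : a = b := Fin.ext (by omega)
          rw [h2]
        · rw [cpxE_f_ge m0 σ a ha, cpxE_f_lt m0 σ b hb] at hxy
          exact absurd hxy.symm (GxD_ne b _)
      · by_cases hb : (m0 : ℕ) ≤ (b : ℕ)
        · rw [cpxE_f_lt m0 σ a ha, cpxE_f_ge m0 σ b hb] at hxy
          exact absurd hxy (GxD_ne a _)
        · rw [cpxE_f_lt m0 σ a ha, cpxE_f_lt m0 σ b hb] at hxy
          exact hxy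
    | right k =>
      by_cases ha : (m0 : ℕ) ≤ (a : ℕ)
      · rw [cpxE_f_ge m0 σ a ha, cpxE_f_nat] at hxy
        exact absurd hxy.symm (GxD_ne _ _)
      · rw [cpxE_f_lt m0 σ a ha, cpxE_f_nat] at hxy
        have h1 := Fin.castAdd_injective _ _ hxy
        rw [h1] at ha
        exact absurd (hσ' k) ha
  | right k =>
    induction y using Fin.addCases with
    | left b =>
      by_cases hb : (m0 : ℕ) ≤ (b : ℕ)
      · rw [cpxE_f_ge m0 σ b hb, cpxE_f_nat] at hxy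
        exact absurd hxy (GxD_ne _ _)
      · rw [cpxE_f_lt m0 σ b hb, cpxE_f_nat] at hxy
        have h1 := Fin.castAdd_injective _ _ hxy
        rw [← h1] at hb
        exact absurd (hσ' k) hb
    | right k' =>
      rw [cpxE_f_nat, cpxE_f_nat] at hxy
      have h1 := σ.injective (Fin.castAdd_injective _ _ hxy)
      have h2 := congrArg Fin.val h1
      simp only at h2
      have h3 : k = k' := Fin.ext (by omega)
      rw [h3]

/-- The weights of the extended system. -/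
private def cpxE_w {N : ℕ} (c : ℕ) (w : Fin N → ℕ) (W : ℕ) (i : Fin (N + c)) : ℕ :=
  Fin.addCases (motive := fun _ => ℕ) w (fun _ => W) i

private theorem cpxE_wl {N : ℕ} (c : ℕ) (w : Fin N → ℕ) (W : ℕ) (a : Fin N) :
    cpxE_w c w W (Fin.castAdd c a) = w a := Fin.addCases_left (motive := fun _ => ℕ) a

private theorem cpxE_wr {N : ℕ} (c : ℕ) (w : Fin N → ℕ) (W : ℕ) (k : Fin c) :
    cpxE_w c w W (Fin.natAdd N k) = W := Fin.addCases_right (motive := fun _ => ℕ) k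

/-- Weights of `Gx`. -/
private theorem cpxE_Gx {N c : ℕ} {w : Fin N → ℕ} {W E V : ℕ} {g : MvPolynomial (Fin N) ℝ}
    {h : Fin c → MvPolynomial (Fin N) ℝ} (hg : WLe w V g) (hh' : ∀ k, WLe w E (h k))
    (hV : V ≤ W) (hE : E ≤ W) :
    WLe (cpxE_w c w W) (2 * W) (Gx g h) := by
  have hr : ∀ {D : ℕ} {p : MvPolynomial (Fin N) ℝ}, WLe w D p →
      WLe (cpxE_w c w W) D (rename (Fin.castAdd c) p) := by
    intro D p hp
    refine wle_rename _ (Fin.castAdd_injective N c) p ?_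
    have h1 : (fun k => (cpxE_w c w W) (Fin.castAdd c k)) = w := funext fun k => cpxE_wl c w W k
    rw [h1]
    exact hp
  unfold Gx
  refine wle_sub (wle_mono (by omega) (hr hg)) (wle_sum _ _ fun k _ => ?_)
  refine wle_mono (E := W + E) (by omega) (wle_mul (wle_X _ _ _ ?_) (hr (hh' k)))
  exact (cpxE_wr c w W k).le

/-- Proof: `c = N - m0`, `h = hh m0 G0`. Weights `w' (castAdd a) = w a`, `w' (natAdd k) = W`.
All equations have weight `≤ 2 W`: `Gx g h` and its derivatives in the directions `castAdd a` are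
`g' - ∑ lam_k h'_k` (`pderiv_castAdd_Gx`) of weight `≤ max V (W + E) ≤ 2 W`; the derivatives in the
directions `natAdd k` are `- h_k`, `h_k = eqn m0 G0 l` with `l = m0 + k`, of weight `≤ E`.
Pairing `σ'` (a permutation of `Fin (N+c)`, build it from `finSumFinEquiv` or case distinction and
`Equiv.ofBijective`): the equation of index `natAdd k` (that is `h_k`) with `castAdd (σ (m0 + k))`,
exponent `p (m0 + k)`; the equation of index `castAdd a`, `a ≥ m0`, with `natAdd (a - m0)` (weight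
`W`), exponent `3` (`2 W < 3 W`; `W ≥ 1` as `W ≥ E ≥ w a ≥ 1`); the equation of index `castAdd a`,
`a < m0`, with `castAdd a` (weight `w a = 1` by `hc.wm`), exponent `2 W + 1`. (`σ` maps
`{l | m0 ≤ l}` onto itself.) Product over the indices `≥ castAdd m`:
`∏_{l ≥ m0} p l * 3^c * (2 W + 1)^(m0 - m)`. -/
theorem ext_cpx {N : ℕ} (m0 : Fin N) (G0 : MvPolynomial (Fin N) ℝ) (w p : Fin N → ℕ)
    (σ : Equiv.Perm (Fin N)) (E P : ℕ) (hc : Cpx m0 G0 w p σ E P) (m : Fin N) (hm : m < m0)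
    (g : MvPolynomial (Fin N) ℝ) (V W : ℕ) (hg : WLe w V g) (hV : V ≤ W) (hE : E ≤ W) :
    ∃ (w' p' : Fin (N + (N - (m0 : ℕ))) → ℕ) (σ' : Equiv.Perm (Fin (N + (N - (m0 : ℕ))))),
      Cpx (Fin.castAdd _ m) (Gx g (hh m0 G0)) w' p' σ' (2 * W)
        (P * 3 ^ (N - (m0 : ℕ)) * (2 * W + 1) ^ ((m0 : ℕ) - (m : ℕ))) := by
  have hm0 : (m : ℕ) < (m0 : ℕ) := hm
  have hm0N := m0.2
  have hW1 : 1 ≤ W := (hc.w1 m0).trans ((hc.wE m0).trans hE)
  have hh' : ∀ k, WLe w E (hh m0 G0 k) := fun k => hc.eqE _ (by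
    show (m0 : ℕ) ≤ (m0 : ℕ) + (k : ℕ)
    omega)
  let σ' : Equiv.Perm (Fin (N + (N - (m0 : ℕ)))) :=
    Equiv.ofBijective (cpxE_f m0 σ) (Finite.injective_iff_bijective.1 (cpxE_inj m0 σ hc.mσ))
  have hσ' : ∀ l, σ' l = cpxE_f m0 σ l := fun _ => rfl
  have hwl : ∀ a, (cpxE_w (N - (m0 : ℕ)) w W)
      (Fin.castAdd _ a) = w a := fun a => cpxE_wl _ w W a
  have hwr : ∀ k, (cpxE_w (N - (m0 : ℕ)) w W)
      (Fin.natAdd N k) = W := fun k => cpxE_wr _ w W k
  let p' : Fin (N + (N - (m0 : ℕ))) → ℕ :=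
    Fin.addCases (fun a => if (m0 : ℕ) ≤ (a : ℕ) then 3 else 2 * W + 1)
      (fun k => p ⟨(m0 : ℕ) + (k : ℕ), by
        have := k.2
        omega⟩)
  have hpl : ∀ a : Fin N, p' (Fin.castAdd _ a) =
      if (m0 : ℕ) ≤ (a : ℕ) then 3 else 2 * W + 1 := fun a =>
    Fin.addCases_left (motive := fun _ => ℕ) a
  have hpr : ∀ k : Fin (N - (m0 : ℕ)), p' (Fin.natAdd N k) = p ⟨(m0 : ℕ) + (k : ℕ), by
      have := k.2
      omega⟩ := fun k => Fin.addCases_right (motive := fun _ => ℕ) k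
  have hcast : ∀ a : Fin N, Fin.castAdd (N - (m0 : ℕ)) m ≤ Fin.castAdd _ a ↔ (m : ℕ) ≤ (a : ℕ) :=
    fun a => Iff.rfl
  have hnat : ∀ k : Fin (N - (m0 : ℕ)), Fin.castAdd (N - (m0 : ℕ)) m ≤ Fin.natAdd N k := by
    intro k
    show (m : ℕ) ≤ N + (k : ℕ)
    omega
  have heq2 : ∀ l, WLe (cpxE_w (N - (m0 : ℕ)) w W) (2 * W)
      (eqn (Fin.castAdd _ m) (Gx g (hh m0 G0)) l) := fun l =>
    wle_eqn _ _ (cpxE_Gx hg hh' hV hE)
  refine ⟨cpxE_w (N - (m0 : ℕ)) w W, p', σ', ?_, ?_, ?_, fun l _ => heq2 l, ?_, ?_, ?_⟩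
  · intro l
    induction l using Fin.addCases with
    | left a =>
      rw [hwl]
      exact hc.w1 a
    | right k =>
      rw [hwr]
      exact hW1
  · intro l hl
    induction l using Fin.addCases with
    | left a =>
      rw [hwl]
      have h1 : (a : ℕ) < (m : ℕ) := hl
      exact hc.wm a (by
        show (a : ℕ) < (m0 : ℕ)
        omega)
    | right k => exact absurd (hnat k) (not_le.2 hl)
  · intro l
    induction l using Fin.addCases with
    | left a =>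
      rw [hwl]
      have h1 := hc.wE a
      omega
    | right k =>
      rw [hwr]
      omega
  · intro l hl
    rw [hσ']
    induction l using Fin.addCases with
    | left a =>
      by_cases ha : (m0 : ℕ) ≤ (a : ℕ)
      · rw [cpxE_f_ge m0 σ a ha]
        exact hnat _
      · rw [cpxE_f_lt m0 σ a ha]
        exact hl
    | right k =>
      rw [cpxE_f_nat, hcast]
      have h1 : m0 ≤ σ ⟨(m0 : ℕ) + (k : ℕ), by
          have := k.2
          omega⟩ := hc.mσ _ (by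
        show (m0 : ℕ) ≤ (m0 : ℕ) + (k : ℕ)
        omega)
      have h2 : (m0 : ℕ) ≤ _ := h1
      omega
  · intro l hl
    induction l using Fin.addCases with
    | left a =>
      refine ⟨2 * W, heq2 _, ?_⟩
      rw [hσ', hpl]
      by_cases ha : (m0 : ℕ) ≤ (a : ℕ)
      · rw [cpxE_f_ge m0 σ a ha, hwr, if_pos ha]
        omega
      · rw [cpxE_f_lt m0 σ a ha, hwl, if_neg ha, hc.wm a (by
          show (a : ℕ) < (m0 : ℕ)
          omega)]
        omega
    | right k =>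
      obtain ⟨e, he1, he2⟩ := hc.eqp ⟨(m0 : ℕ) + (k : ℕ), by
        have := k.2
        omega⟩ (by
          show (m0 : ℕ) ≤ (m0 : ℕ) + (k : ℕ)
          omega)
      refine ⟨e, ?_, ?_⟩
      · have h1 : eqn (Fin.castAdd (N - (m0 : ℕ)) m) (Gx g (hh m0 G0)) (Fin.natAdd N k) =
            - rename (Fin.castAdd _) (hh m0 G0 k) := by
          unfold eqn
          rw [if_neg (GxD_ne m k).symm, pderiv_natAdd_Gx]
        rw [h1]
        refine wle_neg (wle_rename _ (Fin.castAdd_injective N _) _ ?_)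
        have h2 : (fun a => (cpxE_w (N - (m0 : ℕ)) w W)
            (Fin.castAdd _ a)) = w := funext hwl
        rw [h2]
        exact he1
      · rw [hσ', cpxE_f_nat, hwl, hpr]
        exact he2
  · rw [Fin.prod_univ_add]
    have h1 : ∏ a : Fin N, (if Fin.castAdd (N - (m0 : ℕ)) m ≤ Fin.castAdd (N - (m0 : ℕ)) a then
        p' (Fin.castAdd _ a) else 1) =
        3 ^ (N - (m0 : ℕ)) * (2 * W + 1) ^ ((m0 : ℕ) - (m : ℕ)) := by
      have h2 : ∀ a : Fin N, (if Fin.castAdd (N - (m0 : ℕ)) m ≤ Fin.castAdd (N - (m0 : ℕ)) a then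
          p' (Fin.castAdd _ a) else 1) =
          (if (m0 : ℕ) ≤ (a : ℕ) ∧ (a : ℕ) < (m0 : ℕ) + (N - (m0 : ℕ)) then 3 else 1) *
          (if (m : ℕ) ≤ (a : ℕ) ∧ (a : ℕ) < (m : ℕ) + ((m0 : ℕ) - (m : ℕ)) then
            2 * W + 1 else 1) := by
        intro a
        have ha := a.2
        rw [hpl]
        by_cases h3 : (m0 : ℕ) ≤ (a : ℕ)
        · rw [if_pos ((hcast a).2 (by omega)), if_pos h3, if_pos ⟨h3, by omega⟩,
            if_neg (by omega), mul_one]
        · by_cases h4 : (m : ℕ) ≤ (a : ℕ)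
          · rw [if_pos ((hcast a).2 h4), if_neg h3, if_neg fun h => h3 h.1,
              if_pos ⟨h4, by omega⟩, one_mul]
          · rw [if_neg fun h => h4 ((hcast a).1 h), if_neg fun h => h3 h.1,
              if_neg fun h => h4 h.1, mul_one]
      rw [Finset.prod_congr rfl fun a _ => h2 a, Finset.prod_mul_distrib,
        cpxE_prod (m0 : ℕ) (fun _ => 3) (N - (m0 : ℕ)) (by omega),
        cpxE_prod (m : ℕ) (fun _ => 2 * W + 1) ((m0 : ℕ) - (m : ℕ)) (by omega),
        Finset.prod_const, Finset.prod_const, Finset.card_univ, Finset.card_univ,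
        Fintype.card_fin, Fintype.card_fin]
    have h3 : ∏ k : Fin (N - (m0 : ℕ)), (if Fin.castAdd (N - (m0 : ℕ)) m ≤ Fin.natAdd N k then
        p' (Fin.natAdd N k) else 1) ≤ P := by
      refine le_trans (le_of_eq ?_) hc.pP
      have h4 : ∀ l : Fin N, (if m0 ≤ l then p l else 1) =
          if (m0 : ℕ) ≤ (l : ℕ) ∧ (l : ℕ) < (m0 : ℕ) + (N - (m0 : ℕ)) then p l else 1 := by
        intro l
        have hl := l.2
        by_cases h5 : (m0 : ℕ) ≤ (l : ℕ)
        · rw [if_pos (show m0 ≤ l from h5), if_pos ⟨h5, by omega⟩]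
        · rw [if_neg (show ¬ m0 ≤ l from h5), if_neg fun h => h5 h.1]
      rw [Finset.prod_congr rfl fun l _ => h4 l,
        cpxE_prod (m0 : ℕ) p (N - (m0 : ℕ)) (by omega)]
      refine Finset.prod_congr rfl fun k _ => ?_
      rw [if_pos (hnat k), hpr]
    rw [h1]
    calc 3 ^ (N - (m0 : ℕ)) * (2 * W + 1) ^ ((m0 : ℕ) - (m : ℕ)) * _
        ≤ 3 ^ (N - (m0 : ℕ)) * (2 * W + 1) ^ ((m0 : ℕ) - (m : ℕ)) * P :=
          Nat.mul_le_mul_left _ h3
      _ = P * 3 ^ (N - (m0 : ℕ)) * (2 * W + 1) ^ ((m0 : ℕ) - (m : ℕ)) := by ring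

end Pool.Agent.RM90
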