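import Pool.Agent.Lib.MP_df59e7_lc_Y.WDeg
import Pool.Agent.Lib.MP_df59e7_lc_Y.GxD

set_option autoImplicit false

/-! MP_df59e7_lc, project Y, module GramY: Gram determinants. -/

namespace Pool.Agent.RM90

open MvPolynomial

variable {N c : ℕ}

/-- The value of the Gram determinant is the determinant of `A * Aᵀ`, `A` the matrix of the
derivatives in the directions `a > m` (`RingHom.map_det`, `RingHom.mapMatrix`). -/
theorem eval_gramP (m : Fin N) (f : Fin c → MvPolynomial (Fin N) ℝ) (x : Fin N → ℝ) :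
    eval x (gramP m f) =
      ((Matrix.of fun (k : Fin c) (a : Fin N) => if m < a then eval x (pderiv a (f k)) else 0) *
        (Matrix.of fun (k : Fin c) (a : Fin N) =>
          if m < a then eval x (pderiv a (f k)) else 0).transpose).det := by
  unfold gramP
  rw [RingHom.map_det]
  congr 1
  ext k k'
  rw [RingHom.mapMatrix_apply, Matrix.map_apply, Matrix.of_apply, Matrix.mul_apply, map_sum]
  refine Finset.sum_congr rfl fun a _ => ?_
  rw [Matrix.transpose_apply, Matrix.of_apply, Matrix.of_apply]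
  split_ifs with h
  · rw [map_mul]
  · rw [map_zero, mul_zero]

/-- Proof: `A * Aᵀ` is positive semidefinite (`Matrix.posSemidef_self_mul_conjTranspose`,
`Matrix.PosSemidef.det_nonneg`). -/
theorem gramP_nonneg (m : Fin N) (f : Fin c → MvPolynomial (Fin N) ℝ) (x : Fin N → ℝ) :
    0 ≤ eval x (gramP m f) := by
  rw [eval_gramP]
  have h := Matrix.posSemidef_self_mul_conjTranspose
    (Matrix.of fun (k : Fin c) (a : Fin N) => if m < a then eval x (pderiv a (f k)) else 0)
  rw [Matrix.conjTranspose_eq_transpose_of_trivial] at h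
  exact h.det_nonneg

/-- Proof: `det (A Aᵀ) = 0` iff there is `ρ ≠ 0` with `A Aᵀ ρ = 0`
(`Matrix.exists_mulVec_eq_zero_iff`), and then `‖Aᵀ ρ‖^2 = ρ ⬝ (A Aᵀ ρ) = 0`, so
`∑_k ρ_k A_{k a} = 0` for all `a`. Conversely clear. -/
theorem gramP_pos_iff (m : Fin N) (f : Fin c → MvPolynomial (Fin N) ℝ) (x : Fin N → ℝ) :
    0 < eval x (gramP m f) ↔ RkK m f x := by
  classical
  set A : Matrix (Fin c) (Fin N) ℝ :=
    Matrix.of fun (k : Fin c) (a : Fin N) => if m < a then eval x (pderiv a (f k)) else 0 with hA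
  have hAe : ∀ k a, A k a = if m < a then eval x (pderiv a (f k)) else 0 := fun k a => rfl
  have hvec : ∀ ρ : Fin c → ℝ, Matrix.vecMul ρ A = 0 ↔
      ∀ a, m < a → ∑ k, ρ k * eval x (pderiv a (f k)) = 0 := by
    intro ρ
    constructor
    · intro h a ha
      have h1 := congrFun h a
      rw [Matrix.vecMul, dotProduct, Pi.zero_apply] at h1
      rw [← h1]
      exact Finset.sum_congr rfl fun k _ => by rw [hAe, if_pos ha]
    · intro h
      funext a
      rw [Matrix.vecMul, dotProduct, Pi.zero_apply]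
      by_cases ha : m < a
      · rw [← h a ha]
        exact Finset.sum_congr rfl fun k _ => by rw [hAe, if_pos ha]
      · exact Finset.sum_eq_zero fun k _ => by rw [hAe, if_neg ha, mul_zero]
  have hsq : ∀ ρ : Fin c → ℝ, Matrix.mulVec (A * A.transpose) ρ = 0 → Matrix.vecMul ρ A = 0 := by
    intro ρ h
    have h1 : dotProduct (Matrix.vecMul ρ A) (Matrix.vecMul ρ A) = 0 := by
      have h2 : dotProduct ρ (Matrix.mulVec (A * A.transpose) ρ) = 0 := by
        rw [h, dotProduct_zero]
      rw [← Matrix.mulVec_mulVec, Matrix.dotProduct_mulVec, Matrix.mulVec_transpose] at h2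
      exact h2
    exact dotProduct_self_eq_zero.1 h1
  have h0 : eval x (gramP m f) = 0 ↔ ¬ RkK m f x := by
    rw [eval_gramP, ← hA]
    constructor
    · intro h hr
      obtain ⟨ρ, hρ, hρ0⟩ := Matrix.exists_mulVec_eq_zero_iff.2 h
      exact hρ (hr ρ ((hvec ρ).1 (hsq ρ hρ0)))
    · intro h
      unfold RkK at h
      push Not at h
      obtain ⟨ρ, hρ, hρ0⟩ := h
      refine Matrix.exists_mulVec_eq_zero_iff.1 ⟨ρ, hρ0, ?_⟩
      rw [← Matrix.mulVec_mulVec, Matrix.mulVec_transpose, (hvec ρ).2 hρ, Matrix.mulVec_zero]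
  have hn := gramP_nonneg m f x
  constructor
  · intro h
    by_contra hr
    exact h.ne' (h0.2 hr)
  · intro hr
    rcases hn.lt_or_eq with h | h
    · exact h
    · exact absurd hr (h0.1 h.symm)

theorem psiB_nonneg (m : Fin N) (h : Fin c → MvPolynomial (Fin N) ℝ)
    (g : MvPolynomial (Fin N) ℝ) (x : Fin N → ℝ) : 0 ≤ eval x (psiB m h g) := by
  unfold psiB
  rw [map_add, map_pow]
  exact add_nonneg (sq_nonneg _) (gramP_nonneg _ _ _)

/-- Proof: sum of two nonnegative terms; the second vanishes iff (`gramP_pos_iff`) there is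
`(ρ, s) ≠ 0` with `∑ ρ_k ∂_a h_k + s ∂_a g = 0` for `a > m`; `s ≠ 0` by `RkK m h x`, so
`lam = - ρ / s`. (`Fin.snoc_castSucc`, `Fin.snoc_last`, `Fin.sum_univ_castSucc`.) -/
theorem psiB_eq_zero (m : Fin N) (h : Fin c → MvPolynomial (Fin N) ℝ)
    (g : MvPolynomial (Fin N) ℝ) (x : Fin N → ℝ) (hr : RkK m h x) :
    eval x (psiB m h g) = 0 ↔ eval x g = 0 ∧ ∃ lam : Fin c → ℝ, Mlt m h g x lam := by
  have hsn : ∀ (ρ : Fin (c + 1) → ℝ) (a : Fin N),
      ∑ k, ρ k * eval x (pderiv a (Fin.snoc (α := fun _ => MvPolynomial (Fin N) ℝ) h g k)) =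
        ∑ k : Fin c, ρ k.castSucc * eval x (pderiv a (h k)) +
          ρ (Fin.last c) * eval x (pderiv a g) := by
    intro ρ a
    rw [Fin.sum_univ_castSucc, Fin.snoc_last]
    congr 1
    exact Finset.sum_congr rfl fun k _ => by rw [Fin.snoc_castSucc]
  have key : eval x (gramP m (Fin.snoc (α := fun _ => MvPolynomial (Fin N) ℝ) h g)) = 0 ↔
      ∃ lam : Fin c → ℝ, Mlt m h g x lam := by
    have h1 := gramP_pos_iff m (Fin.snoc (α := fun _ => MvPolynomial (Fin N) ℝ) h g) x
    have h2 := gramP_nonneg m (Fin.snoc (α := fun _ => MvPolynomial (Fin N) ℝ) h g) x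
    constructor
    · intro h0
      have h3 : ¬ RkK m (Fin.snoc (α := fun _ => MvPolynomial (Fin N) ℝ) h g) x := by
        intro h4
        exact (h1.2 h4).ne' h0
      unfold RkK at h3
      push Not at h3
      obtain ⟨ρ, hρ, hρ0⟩ := h3
      have hs : ρ (Fin.last c) ≠ 0 := by
        intro hs
        apply hρ0
        have h5 : (fun k : Fin c => ρ k.castSucc) = 0 := by
          apply hr
          intro a ha
          have h6 := hρ a ha
          rw [hsn, hs, zero_mul, add_zero] at h6
          exact h6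
        funext k
        refine Fin.lastCases hs (fun k => ?_) k
        exact congrFun h5 k
      refine ⟨fun k => -(ρ k.castSucc / ρ (Fin.last c)), fun a ha => ?_⟩
      have h6 := hρ a ha
      rw [hsn] at h6
      have h7 : ρ (Fin.last c) * (eval x (pderiv a g) -
          ∑ k : Fin c, -(ρ k.castSucc / ρ (Fin.last c)) * eval x (pderiv a (h k))) = 0 := by
        rw [mul_sub, Finset.mul_sum]
        have h8 : ∑ k : Fin c, ρ (Fin.last c) *
            (-(ρ k.castSucc / ρ (Fin.last c)) * eval x (pderiv a (h k))) =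
            -∑ k : Fin c, ρ k.castSucc * eval x (pderiv a (h k)) := by
          rw [← Finset.sum_neg_distrib]
          refine Finset.sum_congr rfl fun k _ => ?_
          field_simp
        rw [h8]
        linarith
      rcases mul_eq_zero.1 h7 with h9 | h9
      · exact absurd h9 hs
      · linarith
    · rintro ⟨lam, hl⟩
      rcases h2.lt_or_eq with h3 | h3
      · exfalso
        have h4 := h1.1 h3 (Fin.snoc (α := fun _ => ℝ) lam (-1)) (fun a ha => by
          rw [hsn, Fin.snoc_last, hl a ha]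
          have h5 : ∑ k : Fin c, (Fin.snoc (α := fun _ => ℝ) lam (-1) : Fin (c + 1) → ℝ)
              k.castSucc * eval x (pderiv a (h k)) = ∑ k, lam k * eval x (pderiv a (h k)) :=
            Finset.sum_congr rfl fun k _ => by rw [Fin.snoc_castSucc]
          rw [h5]
          ring)
        have h6 := congrFun h4 (Fin.last c)
        rw [Fin.snoc_last] at h6
        norm_num at h6
      · exact h3.symm
  unfold psiB
  rw [map_add, map_pow, ← key]
  have h2 := gramP_nonneg m (Fin.snoc (α := fun _ => MvPolynomial (Fin N) ℝ) h g) x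
  constructor
  · intro h0
    have h3 := sq_nonneg (eval x g)
    have h4 : eval x g ^ 2 = 0 := by linarith
    exact ⟨pow_eq_zero_iff (two_ne_zero) |>.1 h4, by linarith⟩
  · rintro ⟨h3, h4⟩
    rw [h3, h4]
    norm_num

theorem wle_gramP (w : Fin N → ℕ) (m : Fin N) (f : Fin c → MvPolynomial (Fin N) ℝ)
    (e : Fin c → ℕ) (h : ∀ k, WLe w (e k) (f k)) : WLe w (∑ k, (e k + e k)) (gramP m f) := by
  unfold gramP
  refine wle_det _ e e fun i i' => ?_
  rw [Matrix.of_apply]
  refine wle_sum _ _ fun a _ => ?_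
  split_ifs
  · exact wle_mul (wle_pderiv a (h i)) (wle_pderiv a (h i'))
  · exact wle_zero w _

theorem wle_psiB (w : Fin N → ℕ) (m : Fin N) (h : Fin c → MvPolynomial (Fin N) ℝ)
    (g : MvPolynomial (Fin N) ℝ) (E V : ℕ) (hh : ∀ k, WLe w E (h k)) (hg : WLe w V g) :
    WLe w (2 * V + 2 * (c * E)) (psiB m h g) := by
  unfold psiB
  refine wle_add (wle_mono (by omega) (wle_pow (n := 2) hg)) ?_
  refine wle_mono ?_ (wle_gramP w m _ (Fin.snoc (α := fun _ => ℕ) (fun _ => E) V) fun k => ?_)
  · rw [Fin.sum_univ_castSucc, Fin.snoc_last]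
    have h1 : ∑ i : Fin c, ((Fin.snoc (α := fun _ => ℕ) (fun _ => E) V : Fin (c + 1) → ℕ)
        i.castSucc + (Fin.snoc (α := fun _ => ℕ) (fun _ => E) V : Fin (c + 1) → ℕ)
        i.castSucc) = c * (E + E) := by
      rw [Finset.sum_congr rfl fun i _ => by rw [Fin.snoc_castSucc], Finset.sum_const,
        Finset.card_univ, Fintype.card_fin, smul_eq_mul]
    rw [h1]
    nlinarith
  · refine Fin.lastCases ?_ (fun k => ?_) k
    · rw [Fin.snoc_last, Fin.snoc_last]
      exact hg
    · rw [Fin.snoc_castSucc, Fin.snoc_castSucc]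
      exact hh k

end Pool.Agent.RM90
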