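import Pool.Agent.Lib.MP_df59e7_lc_Y.ProjY

set_option autoImplicit false

/-! MP_df59e7_lc, project Y, module ProjX: projection of roadmaps. -/

namespace Pool.Agent.RM90

open MvPolynomial

variable {N c : ℕ}

/-- Proof: `u ⬝ᵥ fstP z = (Fin.append u 0) ⬝ᵥ z`. -/
theorem alg_proj {K : ℕ} {M : Set (Fin (N + c) → ℝ)} (h : Alg K M) : Alg K (fstP '' M) := by
  intro u v
  have key : ∀ (w : Fin N → ℝ) (z : Fin (N + c) → ℝ),
      (Fin.append w (0 : Fin c → ℝ)) ⬝ᵥ z = w ⬝ᵥ fstP z := by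
    intro w z
    unfold dotProduct
    rw [Fin.sum_univ_add]
    have h2 : ∑ i : Fin c, Fin.append w (0 : Fin c → ℝ) (Fin.natAdd N i) * z (Fin.natAdd N i)
        = 0 := by
      refine Finset.sum_eq_zero fun i _ => ?_
      rw [Fin.append_right, Pi.zero_apply, zero_mul]
    rw [h2, add_zero]
    refine Finset.sum_congr rfl fun i _ => ?_
    rw [Fin.append_left]
    rfl
  obtain ⟨q, hq0, hqN, hq⟩ := h (Fin.append u 0) (Fin.append v 0)
  refine ⟨q, hq0, hqN, ?_⟩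
  rintro _ ⟨y, hy, rfl⟩
  have h1 := hq y hy
  rwa [key, key] at h1

/-- Roadmaps can be projected.
Proof: lift `A` (image under the section; at most `|A|` points), take `M` and its image. `rm1`:
`fstP '' M ∩ comp (fstP '' F) (fstP z) = fstP '' (M ∩ comp F z)` by `proj_comp` and injectivity on
`F`. `rm2`: the set `{y ∈ fstP '' F | y j = x j}` is the image of
`{u ∈ F | u (castAdd j) = z (castAdd j)}` (compact), again `proj_comp`. -/
theorem proj_xmap (F : Set (Fin (N + c) → ℝ)) (hF : IsCompact F) (hi : Set.InjOn fstP F)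
    (j : Fin N) (κ B : ℕ)
    (hX : ∀ A : Finset (Fin (N + c) → ℝ), ↑A ⊆ F →
      ∃ M, XMap F (fun u => u (Fin.castAdd c j)) A (κ * (A.card + 8 * B ^ 2)) M)
    (A : Finset (Fin N → ℝ)) (hA : ↑A ⊆ fstP '' F) :
    ∃ M, XMap (fstP '' F) (fun x => x j) A (κ * (A.card + 8 * B ^ 2)) M := by
  classical
  obtain ⟨s, hs, hs1, hs2⟩ := proj_section F hF hi
  have hA' : ((A.image s : Finset (Fin (N + c) → ℝ)) : Set (Fin (N + c) → ℝ)) ⊆ F := by
    intro z hz
    rw [Finset.coe_image] at hz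
    obtain ⟨a, ha, rfl⟩ := hz
    exact (hs1 a (hA ha)).1
  obtain ⟨M, hM⟩ := hX (A.image s) hA'
  refine ⟨fstP '' M, ?_, ?_, ?_, ?_, ?_, ?_⟩
  · exact Set.image_mono hM.sub
  · have hc : IsCompact M := hF.of_isClosed_subset hM.closed hM.sub
    exact (hc.image continuous_fstP).isClosed
  · refine alg_mono ?_ (subset_refl _) (alg_proj hM.alg)
    exact Nat.mul_le_mul_left _ (Nat.add_le_add_right Finset.card_image_le _)
  · intro a ha
    refine ⟨s a, hM.pts ?_, (hs1 a (hA ha)).2⟩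
    rw [Finset.coe_image]
    exact ⟨a, ha, rfl⟩
  · rintro _ ⟨z, hz, rfl⟩
    have h1 : fstP '' M ∩ connectedComponentIn (fstP '' F) (fstP z) =
        fstP '' (M ∩ connectedComponentIn F z) := by
      rw [← proj_comp F hF hi z hz]
      apply Set.Subset.antisymm
      · rintro _ ⟨⟨a, ha, rfl⟩, b, hb, hab⟩
        have hba : b = a := hi (connectedComponentIn_subset _ _ hb) (hM.sub ha) hab
        subst hba
        exact ⟨b, ⟨ha, hb⟩, rfl⟩
      · rintro _ ⟨a, ⟨ha, hb⟩, rfl⟩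
        exact ⟨⟨a, ha, rfl⟩, a, hb, rfl⟩
    rw [h1]
    exact (hM.rm1 z hz).image _ continuous_fstP.continuousOn
  · rintro _ ⟨z, hz, rfl⟩
    have h1 : {y | y ∈ fstP '' F ∧ y j = fstP z j} =
        fstP '' {u | u ∈ F ∧ u (Fin.castAdd c j) = z (Fin.castAdd c j)} := by
      apply Set.Subset.antisymm
      · rintro _ ⟨⟨a, ha, rfl⟩, hj⟩
        exact ⟨a, ⟨ha, hj⟩, rfl⟩
      · rintro _ ⟨a, ⟨ha, hj⟩, rfl⟩
        exact ⟨⟨a, ha, rfl⟩, hj⟩
    have hcl : IsClosed {u : Fin (N + c) → ℝ | u (Fin.castAdd c j) = z (Fin.castAdd c j)} :=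
      isClosed_eq (continuous_apply _) continuous_const
    have hF1 : IsCompact {u | u ∈ F ∧ u (Fin.castAdd c j) = z (Fin.castAdd c j)} :=
      hF.inter_right hcl
    have hi1 : Set.InjOn fstP {u | u ∈ F ∧ u (Fin.castAdd c j) = z (Fin.castAdd c j)} :=
      hi.mono fun u hu => hu.1
    rw [h1, ← proj_comp _ hF1 hi1 z ⟨hz, rfl⟩]
    obtain ⟨w, hw1, hw2⟩ := hM.rm2 z hz
    exact ⟨fstP w, ⟨w, hw1, rfl⟩, w, hw2, rfl⟩

end Pool.Agent.RM90
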