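import Pool.Agent.Lib.MP_df59e7_lc_Y.DefsY
import Pool.Agent.Lib.MP_df59e7_lc_X.FibW

set_option autoImplicit false

/-! MP_df59e7_lc, project Y, module FibYY: fibres over rational points. -/

namespace Pool.Agent.RM90

open MvPolynomial

private theorem FibYY_ext {n : ℕ} {j i i' : Fin n} {y x y' : Fin n → ℝ} (hji : j ≤ i)
    (hxy : ∀ a, a < j → x a = y a)
    (hrat : ∀ a, j ≤ a → a < i → ∃ r : ℚ, x a = (r : ℝ))
    (h : RatExt i i' x y') : RatExt j i' y y' := by
  constructor
  · intro a ha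
    rw [h.1 a (ha.trans_le hji), hxy a ha]
  · intro a ha hai
    by_cases hi : a < i
    · obtain ⟨r, hr⟩ := hrat a ha hi
      exact ⟨r, by rw [h.1 a hi, hr]⟩
    · exact h.2 a (not_lt.1 hi) hai

private theorem FibYY_prm {n : ℕ} {i : Fin n} {w x : Fin n → ℝ} :
    prm i w = prm i x ↔ ∀ a, a < i → w a = x a := by
  constructor
  · intro h a ha
    have h1 := congrFun h a
    simpa only [prm, if_pos ha] using h1
  · intro h
    funext a
    unfold prm
    split_ifs with ha
    · exact h a ha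
    · rfl

/-- The fibres of good sets over rational points are good.
Proof: as `fib_W` (Lib/MP_df59e7_lc_X/FibW.lean; copy it). -/
theorem fib_Y {n : ℕ} (U : Set (Fin n → ℝ)) (j m : Fin n) (G : MvPolynomial (Fin n) ℝ)
    (y : Fin n → ℝ) (hG : GdY U j m G y) (i : Fin n) (hji : j ≤ i) (him : i < m)
    (x : Fin n → ℝ) (hx : x ∈ Wst U j m G y)
    (hrat : ∀ a, j ≤ a → a < i → ∃ r : ℚ, x a = (r : ℝ)) :
    GdY U i m G x ∧ Wst U j m G y ∩ prm i ⁻¹' {prm i x} = Wst U i m G x := by
  have hxy : ∀ a, a < j → x a = y a := hx.2.1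
  have heq : Wst U j m G y ∩ prm i ⁻¹' {prm i x} = Wst U i m G x := by
    ext w
    rw [Set.mem_inter_iff, Set.mem_preimage, Set.mem_singleton_iff, FibYY_prm]
    constructor
    · rintro ⟨⟨h1, -, h3⟩, h4⟩
      exact ⟨h1, h4, h3⟩
    · rintro ⟨h1, h2, h3⟩
      exact ⟨⟨h1, fun a ha => by rw [h2 a (ha.trans_le hji), hxy a ha], h3⟩, h2⟩
  refine ⟨⟨hG.isOpen, hG.bdd, him, ?_, ?_, ?_⟩, heq⟩
  · rw [← heq]
    refine hG.cpt.inter_right ?_
    have h1 : prm i ⁻¹' {prm i x} = {w : Fin n → ℝ | ∀ a, a < i → w a = x a} := by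
      ext w
      rw [Set.mem_preimage, Set.mem_singleton_iff, FibYY_prm]
      rfl
    rw [h1]
    simp only [Set.setOf_forall]
    exact isClosed_iInter fun a => isClosed_iInter fun _ =>
      isClosed_eq (continuous_apply a) continuous_const
  · intro i' hi' him' y' hy' w hw
    exact hG.reg i' (hji.trans hi') him' y' (FibYY_ext hji hxy hrat hy') w hw
  · intro i' hi' him' y' hy'
    exact hG.ndg i' (hji.trans hi') him' y' (FibYY_ext hji hxy hrat hy')

end Pool.Agent.RM90
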