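import Pool.Agent.Lib.MP_df59e7_lc_Y.StY1
import Pool.Agent.Lib.MP_df59e7_lc_Y.FibYY

set_option autoImplicit false

/-! MP_df59e7_lc, project Y, module StY2: fibres of the states of a chain. -/

namespace Pool.Agent.RM90

open MvPolynomial

variable {N : ℕ} {U0 : Set (Fin N → ℝ)} {j m0 : Fin N} {G0 : MvPolynomial (Fin N) ℝ}
  {y : Fin N → ℝ} {U : Set (Fin N → ℝ)} {R : ℝ} {m : Fin N} {g : MvPolynomial (Fin N) ℝ}

private theorem StY2_congr {n : ℕ} {U : Set (Fin n → ℝ)} {i m : Fin n}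
    {G : MvPolynomial (Fin n) ℝ} {y z : Fin n → ℝ} (h : ∀ a, a < i → y a = z a)
    (hG : GdY U i m G y) : GdY U i m G z := by
  have hR : ∀ i' y', RatExt i i' z y' → RatExt i i' y y' := by
    intro i' y' hy'
    exact ⟨fun a ha => by rw [hy'.1 a ha, h a ha], hy'.2⟩
  refine ⟨hG.isOpen, hG.bdd, hG.lt, ?_, ?_, ?_⟩
  · have h1 : Wst U i m G z = Wst U i m G y := by
      ext w
      constructor
      · rintro ⟨h1, h2, h3⟩
        exact ⟨h1, fun a ha => by rw [h2 a ha, h a ha], h3⟩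
      · rintro ⟨h1, h2, h3⟩
        exact ⟨h1, fun a ha => by rw [h2 a ha, h a ha], h3⟩
    rw [h1]
    exact hG.cpt
  · intro i' hi' him' y' hy' w hw
    exact hG.reg i' hi' him' y' (hR i' y' hy') w hw
  · intro i' hi' him' y' hy'
    exact hG.ndg i' hi' him' y' (hR i' y' hy')

private theorem StY2_prm {n : ℕ} {i : Fin n} {w x : Fin n → ℝ} :
    prm i w = prm i x ↔ ∀ a, a < i → w a = x a := by
  constructor
  · intro h a ha
    have h1 := congrFun h a
    simpa only [prm, if_pos ha] using h1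
  · intro h
    funext a
    unfold prm
    split_ifs with ha
    · exact h a ha
    · rfl

private theorem StY2_cast {N c : ℕ} {m' : Fin N} {a : Fin (N + c)}
    (ha : a < Fin.castAdd c m') : ∃ a' : Fin N, a' < m' ∧ a = Fin.castAdd c a' := by
  rw [Fin.lt_def] at ha
  simp only [Fin.val_castAdd] at ha
  refine ⟨⟨a, ha.trans m'.2⟩, ?_, ?_⟩
  · rw [Fin.lt_def]
    exact ha
  · apply Fin.ext
    simp

/-- Fibres over rational points.
Proof: let `z ∈ Lft ..` be the lift of `x` (`st_image`); `fib_Y` for `Lft ..`, `z` and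
`i = castAdd m'` (rationality of the coordinates `castAdd a`). It gives
`GdY (Ux ..) (castAdd m') (castAdd m) (Gx ..) z`; in this statement only the coordinates
`a < castAdd m'` of `z` matter (`RatExt`, `Wst`, `Fcr` depend on `y'` only through the coordinates
`a < i`, and `RatExt` for `z` and for `yx _ x` is the same since these agree on `a < castAdd m'`), so
`z` can be replaced by `yx _ x`. The second part: both sides are projections; `w ∈ Pol ..` with
`w_a = x_a` for `a < m'` iff `w` is in `Pol U m' m h g x` (as `j ≤ m'` and `x_a = y_a` for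
`a < j`), and `lft_image` (the bound `full` restricts). -/
theorem fib_pol (hS : StY U0 j m0 G0 y U R m g) (m' : Fin N) (hj : j ≤ m') (hm : m' < m)
    (x : Fin N → ℝ) (hx : x ∈ Pol U j m (hh m0 G0) g y)
    (hrat : ∀ a, j ≤ a → a < m' → ∃ r : ℚ, x a = (r : ℝ)) :
    GdY (Ux _ U R) (Fin.castAdd _ m') (Fin.castAdd _ m) (Gx g (hh m0 G0)) (yx _ x) ∧
      Pol U j m (hh m0 G0) g y ∩ prm m' ⁻¹' {prm m' x} =
        fstP '' Lft U R m' m (hh m0 G0) g x := by
  have hxy : ∀ a, a < j → x a = y a := hx.1.2.1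
  constructor
  · have hx' := hx
    rw [← st_image hS] at hx'
    obtain ⟨z, hz, hzx⟩ := hx'
    have hzx' : ∀ a, z (Fin.castAdd (N - (m0 : ℕ)) a) = x a := fun a => congrFun hzx a
    have hji : (Fin.castAdd (N - (m0 : ℕ)) j) ≤ Fin.castAdd (N - (m0 : ℕ)) m' := by
      rw [Fin.le_def] at hj ⊢
      simpa using hj
    have him : (Fin.castAdd (N - (m0 : ℕ)) m') < Fin.castAdd (N - (m0 : ℕ)) m := by
      rw [Fin.lt_def] at hm ⊢
      simpa using hm
    have h1 := (fib_Y (Ux (N - (m0 : ℕ)) U R) (Fin.castAdd (N - (m0 : ℕ)) j)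
      (Fin.castAdd (N - (m0 : ℕ)) m) (Gx g (hh m0 G0)) (yx (N - (m0 : ℕ)) y) hS.gd
      (Fin.castAdd (N - (m0 : ℕ)) m') hji him z hz (by
        intro a ha ha'
        obtain ⟨a', ha'', rfl⟩ := StY2_cast ha'
        rw [hzx' a']
        refine hrat a' ?_ ha''
        rw [Fin.le_def] at ha ⊢
        simpa using ha)).1
    refine StY2_congr ?_ h1
    intro a ha
    obtain ⟨a', -, rfl⟩ := StY2_cast ha
    rw [hzx' a']
    exact (Fin.append_left x 0 a').symm
  · have hZ : ∀ w, w ∈ Zg U m' (hh m0 G0) g x ↔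
        w ∈ Zg U j (hh m0 G0) g y ∧ ∀ a, a < m' → w a = x a := by
      intro w
      constructor
      · rintro ⟨h1, h2, h3, h4⟩
        exact ⟨⟨h1, fun a ha => by rw [h2 a (ha.trans_le hj), hxy a ha], h3, h4⟩, h2⟩
      · rintro ⟨⟨h1, -, h3, h4⟩, h2⟩
        exact ⟨h1, h2, h3, h4⟩
    rw [lft_image U R m' m (hh m0 G0) g x (fun w hw => hS.full w ((hZ w).1 hw).1)]
    ext w
    rw [Set.mem_inter_iff, Set.mem_preimage, Set.mem_singleton_iff, StY2_prm]
    constructor
    · rintro ⟨⟨h1, h2⟩, h3⟩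
      exact ⟨(hZ w).2 ⟨h1, h3⟩, h2⟩
    · rintro ⟨h1, h2⟩
      exact ⟨⟨((hZ w).1 h1).1, h2⟩, ((hZ w).1 h1).2⟩

end Pool.Agent.RM90
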