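import Pool.Agent.Lib.MP_df59e7_lc_Y.DefsY
import Pool.Agent.Lib.MP_df59e7_lc_X.TubeL

set_option autoImplicit false

/-! MP_df59e7_lc, project Y, module LimY: limits of polar sets. -/

namespace Pool.Agent.RM90

open MvPolynomial

/-- The limits of the polar sets. Proof: as `tube_lim` (Lib/MP_df59e7_lc_X/TubeL.lean). -/
theorem lim_Y {N c : ℕ} (j m' : Fin N) (h : Fin c → MvPolynomial (Fin N) ℝ) (y : Fin N → ℝ)
    (Ψ : MvPolynomial (Fin N) ℝ) (U' U : Set (Fin N → ℝ)) (hU : U ⊆ U') (q : ℕ → Par N)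
    (hlim : ∀ ε > 0, ∀ᶠ p in Filter.atTop, ∀ x ∈ closure U', eval x (quad (q p)) < ε) :
    ulim (fun p => Pol U j m' h (Ψ - quad (q p)) y) ⊆
      {x | x ∈ closure U' ∧ (∀ a, a < j → x a = y a) ∧ (∀ k, eval x (h k) = 0) ∧
        eval x Ψ ≤ 0} := by
  intro x hx
  obtain ⟨a, ha, hax⟩ := exists_sel _ x hx
  have h1 : ∀ᶠ p in (Filter.hyperfilter ℕ : Filter ℕ), a p ∈ closure U' :=
    ha.mono fun p hp => subset_closure (hU hp.1.1)
  have hxU : x ∈ closure U' := isClosed_closure.mem_of_tendsto hax h1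
  have hle : eval x Ψ ≤ 0 := by
    refine le_of_forall_pos_le_add fun ε hε => ?_
    rw [zero_add]
    have h2 : Filter.Tendsto (fun p => eval (a p) Ψ)
        (Filter.hyperfilter ℕ : Filter ℕ) (nhds (eval x Ψ)) :=
      ((MvPolynomial.continuous_eval Ψ).tendsto x).comp hax
    have h3 : ∀ᶠ p in (Filter.hyperfilter ℕ : Filter ℕ),
        ∀ x ∈ closure U', eval x (quad (q p)) < ε :=
      (hlim ε hε).filter_mono Nat.hyperfilter_le_atTop
    refine le_of_tendsto h2 ?_
    filter_upwards [ha, h3] with p hp hp3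
    have h4 : eval (a p) (Ψ - quad (q p)) = 0 := hp.1.2.2.2
    rw [map_sub, sub_eq_zero] at h4
    rw [h4]
    exact (hp3 (a p) (subset_closure (hU hp.1.1))).le
  refine ⟨hxU, fun b hb => ?_, fun k => ?_, hle⟩
  · have h2 : IsClosed {w : Fin N → ℝ | w b = y b} :=
      isClosed_eq (continuous_apply b) continuous_const
    exact h2.mem_of_tendsto hax (ha.mono fun p hp => hp.1.2.1 b hb)
  · have h2 : IsClosed {w : Fin N → ℝ | eval w (h k) = 0} :=
      isClosed_eq (MvPolynomial.continuous_eval (h k)) continuous_const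
    exact h2.mem_of_tendsto hax (ha.mono fun p hp => hp.1.2.2.1 k)

end Pool.Agent.RM90
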