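import Pool.Agent.Lib.MP_df59e7_lc_Y.StY1

set_option autoImplicit false

/-! MP_df59e7_lc, project Y, module NbhB: neighbourhoods for the other steps. -/

namespace Pool.Agent.RM90

open MvPolynomial

/-- Proof: `E = Pol U j m h g y` is compact (image of the compact set `Lft`, `st_image`) and
contained in the open set `U`: `U'` = thickening of `E` with closure in `U`. On the compact set of
all `x ∈ frontier U'` in the slice with `h_k x = 0` the polynomial `psiB m h g` has no zero: by
`psiB_eq_zero` (`hS.rk`) a zero would be in `E ⊆ U'`. So it is `≥ κ > 0` there (if the set is empty,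
`κ = 1`). Compare `tube_nbhd` (Lib/MP_df59e7_lc_X/TubeA.lean). -/
theorem nbhd_B {N : ℕ} {U0 : Set (Fin N → ℝ)} {j m0 : Fin N} {G0 : MvPolynomial (Fin N) ℝ}
    {y : Fin N → ℝ} {U : Set (Fin N → ℝ)} {R : ℝ} {m : Fin N} {g : MvPolynomial (Fin N) ℝ}
    (hS : StY U0 j m0 G0 y U R m g) :
    ∃ U' : Set (Fin N → ℝ), IsOpen U' ∧ Bornology.IsBounded U' ∧
      Pol U j m (hh m0 G0) g y ⊆ U' ∧ closure U' ⊆ U ∧ ∃ κ > 0, ∀ x ∈ frontier U',
        (∀ a, a < j → x a = y a) → (∀ k, eval x (hh m0 G0 k) = 0) →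
          κ ≤ eval x (psiB m (hh m0 G0) g) := by
  have hEU : Pol U j m (hh m0 G0) g y ⊆ U := fun x hx => hx.1.1
  have hfst : Continuous (fstP : (Fin (N + (N - (m0 : ℕ))) → ℝ) → (Fin N → ℝ)) :=
    continuous_pi fun a => continuous_apply (Fin.castAdd (N - (m0 : ℕ)) a)
  have hcptE : IsCompact (Pol U j m (hh m0 G0) g y) := by
    rw [← st_image hS]
    exact hS.gd.cpt.image hfst
  have hbU : Bornology.IsBounded U := hS.base.bdd.subset hS.sub
  obtain ⟨ρ, hρ, hρU⟩ := hcptE.exists_cthickening_subset_open hS.op hEU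
  obtain ⟨U', hU'⟩ : ∃ U', U' = Metric.thickening ρ (Pol U j m (hh m0 G0) g y) := ⟨_, rfl⟩
  have hopen : IsOpen U' := by rw [hU']; exact Metric.isOpen_thickening
  have hcl : closure U' ⊆ U := by
    rw [hU']
    exact (Metric.closure_thickening_subset_cthickening _ _).trans hρU
  have hsub : Pol U j m (hh m0 G0) g y ⊆ U' := by
    rw [hU']
    exact Metric.self_subset_thickening hρ _
  have hbdd : Bornology.IsBounded U' := hbU.subset (subset_closure.trans hcl)
  refine ⟨U', hopen, hbdd, hsub, hcl, ?_⟩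
  -- the compact set
  obtain ⟨Kf, hKf⟩ : ∃ Kf, Kf = frontier U' ∩ ({x | ∀ a, a < j → x a = y a} ∩
      {x | ∀ k, eval x (hh m0 G0 k) = 0}) := ⟨_, rfl⟩
  have hcpt : IsCompact Kf := by
    rw [hKf]
    refine IsCompact.inter_right ?_ (IsClosed.inter ?_ ?_)
    · exact Metric.isCompact_of_isClosed_isBounded isClosed_frontier
        (hbU.subset (frontier_subset_closure.trans hcl))
    · simp only [Set.ofPred_forall]
      refine isClosed_iInter fun a => isClosed_iInter fun _ => ?_
      exact isClosed_eq (continuous_apply a) continuous_const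
    · simp only [Set.ofPred_forall]
      refine isClosed_iInter fun k => ?_
      exact isClosed_eq (MvPolynomial.continuous_eval _) continuous_const
  have hpos : ∀ x ∈ Kf, 0 < eval x (psiB m (hh m0 G0) g) := by
    intro x hx
    rw [hKf] at hx
    have hxU : x ∈ U := hcl (frontier_subset_closure hx.1)
    refine lt_of_le_of_ne (psiB_nonneg m (hh m0 G0) g x) fun h0 => ?_
    obtain ⟨h1, lam, hlam⟩ := (psiB_eq_zero m (hh m0 G0) g x (hS.rk x hxU)).1 h0.symm
    have h2 : x ∈ Pol U j m (hh m0 G0) g y := ⟨⟨hxU, hx.2.1, hx.2.2, h1⟩, lam, hlam⟩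
    have h3 := hsub h2
    rw [hopen.frontier_eq] at hx
    exact hx.1.2 h3
  rcases Kf.eq_empty_or_nonempty with he | hne
  · refine ⟨1, one_pos, fun x hx hxa hxk => ?_⟩
    have h1 : x ∈ Kf := by rw [hKf]; exact ⟨hx, hxa, hxk⟩
    rw [he] at h1
    exact absurd h1 (Set.notMem_empty x)
  · obtain ⟨x0, hx0, hmin⟩ := hcpt.exists_isMinOn hne
      (MvPolynomial.continuous_eval (psiB m (hh m0 G0) g)).continuousOn
    refine ⟨eval x0 (psiB m (hh m0 G0) g), hpos x0 hx0, fun x hx hxa hxk => ?_⟩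
    exact hmin (by rw [hKf]; exact ⟨hx, hxa, hxk⟩)

end Pool.Agent.RM90
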