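import Pool.Agent.Lib.MP_df59e7_lc_Y.RkY
import Pool.Agent.Lib.MP_df59e7_lc_X.Lagr

set_option autoImplicit false

/-! MP_df59e7_lc, project Y, module SliceMin: minimisation in a fibre of the base. -/

namespace Pool.Agent.RM90

open MvPolynomial

private theorem SliceMin_str {n : ℕ} (p : MvPolynomial (Fin n) ℝ) (x : Fin n → ℝ) :
    HasStrictFDerivAt (fun x : Fin n → ℝ => eval x p) (Warren46.gradL p x) x := by
  have h1 : AnalyticAt ℝ (fun x : Fin n → ℝ => eval x p) x :=
    AnalyticOnNhd.eval_continuousLinearMap (ContinuousLinearMap.id ℝ (Fin n → ℝ)) p x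
      (Set.mem_univ x)
  have h2 := h1.hasStrictFDerivAt
  rwa [(Warren46.hasFDerivAt_eval p x).fderiv] at h2

/-- Lagrange multipliers for a local minimum of `x_{m'}` in a fibre of `prm m'`. -/
theorem SliceMin_mult {N : ℕ} {κ : Type} [Fintype κ] (m' : Fin N)
    (r : κ → MvPolynomial (Fin N) ℝ) (z : Fin N → ℝ) {ε : ℝ} (hε : 0 < ε)
    (hmin : ∀ w : Fin N → ℝ, dist w z < ε → (∀ a, a < m' → w a = z a) →
      (∀ k, eval w (r k) = eval z (r k)) → z m' ≤ w m') :
    ∃ lam : κ → ℝ, lam ≠ 0 ∧ ∀ a, m' < a → ∑ k, lam k * eval z (pderiv a (r k)) = 0 := by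
  let q : {a : Fin N // a < m'} ⊕ κ → MvPolynomial (Fin N) ℝ := Sum.elim (fun a => X a.1) r
  have hext : IsLocalExtrOn (fun x' : Fin N → ℝ => x' m')
      {x' | ∀ l, eval x' (q l) = eval z (q l)} z := by
    left
    filter_upwards [mem_nhdsWithin_of_mem_nhds (Metric.ball_mem_nhds z hε), self_mem_nhdsWithin]
      with x' h2 h3
    refine hmin x' h2 (fun a ha => ?_) fun k => h3 (Sum.inr k)
    have h4 := h3 (Sum.inl ⟨a, ha⟩)
    simpa [q] using h4
  obtain ⟨Λ, Λ₀, hne, hsum⟩ := hext.exists_multipliers_of_hasStrictFDerivAt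
    (fun l => SliceMin_str (q l) z)
    (ContinuousLinearMap.proj (R := ℝ) (φ := fun _ : Fin N => ℝ) m').hasStrictFDerivAt
  have hev : ∀ a : Fin N, (∑ b : {a : Fin N // a < m'}, Λ (Sum.inl b) *
      eval z (pderiv a (X b.1 : MvPolynomial (Fin N) ℝ))) +
      (∑ k, Λ (Sum.inr k) * eval z (pderiv a (r k))) + Λ₀ * (if a = m' then 1 else 0) = 0 := by
    intro a
    have h1 := congrArg (fun L : (Fin N → ℝ) →L[ℝ] ℝ => L (Pi.single a 1)) hsum
    simp only [add_apply, sum_apply, smul_apply, smul_eq_mul, Warren46.gradL_apply,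
      ContinuousLinearMap.proj_apply, zero_apply] at h1
    have h2 : ∀ l, Λ l * ∑ i, eval z (pderiv i (q l)) * (Pi.single a (1 : ℝ) : Fin N → ℝ) i =
        Λ l * eval z (pderiv a (q l)) := by
      intro l
      rw [Finset.sum_eq_single a]
      · rw [Pi.single_eq_same, mul_one]
      · intro b _ hb
        rw [Pi.single_eq_of_ne hb, mul_zero]
      · intro h
        exact absurd (Finset.mem_univ a) h
    simp only [h2] at h1
    have h3 : (Pi.single a (1 : ℝ) : Fin N → ℝ) m' = if a = m' then 1 else 0 := by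
      by_cases h : a = m'
      · rw [if_pos h, h, Pi.single_eq_same]
      · rw [if_neg h, Pi.single_eq_of_ne (Ne.symm h)]
    rw [h3, Fintype.sum_sum_type] at h1
    exact h1
  refine ⟨fun k => Λ (Sum.inr k), fun h0 => ?_, fun a ha => ?_⟩
  · have hr0 : ∀ k, Λ (Sum.inr k) = 0 := fun k => congrFun h0 k
    have hΛ₀ : Λ₀ = 0 := by
      have h1 := hev m'
      have h2 : ∀ b : {a : Fin N // a < m'}, Λ (Sum.inl b) *
          eval z (pderiv m' (X b.1 : MvPolynomial (Fin N) ℝ)) = 0 := fun b => by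
        rw [pderiv_X_of_ne b.2.ne, map_zero, mul_zero]
      simp only [h2, hr0, zero_mul, Finset.sum_const_zero, if_true, mul_one, zero_add] at h1
      exact h1
    apply hne
    rw [Prod.mk_eq_zero]
    refine ⟨?_, hΛ₀⟩
    funext l
    rcases l with b | k
    · have h1 := hev b.1
      rw [Finset.sum_eq_single b] at h1
      · simp only [hr0, hΛ₀, zero_mul, Finset.sum_const_zero, add_zero, pderiv_X_self,
          map_one, mul_one] at h1
        exact h1
      · intro b' _ hb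
        rw [pderiv_X_of_ne (fun h => hb (Subtype.ext h)), map_zero, mul_zero]
      · intro h
        exact absurd (Finset.mem_univ b) h
    · exact hr0 k
  · have h1 := hev a
    have h2 : ∀ b : {a : Fin N // a < m'}, Λ (Sum.inl b) *
        eval z (pderiv a (X b.1 : MvPolynomial (Fin N) ℝ)) = 0 := fun b => by
      rw [pderiv_X_of_ne (b.2.trans ha).ne, map_zero, mul_zero]
    simp only [h2, Finset.sum_const_zero, zero_add, if_neg ha.ne', mul_zero, add_zero] at h1
    exact h1

/-- Proof: the set `K ∩ {G' ≤ 0}` is compact and nonempty; let `z` be a point with minimal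
coordinate `m'`. CLAIM `G' z = 0`: otherwise `G' < 0` near `z` and by `hint` `z` is a local minimum
of `x_{m'}` on the set `F = {w | w_a = x0_a (a < m'), h_k w = 0}`; by the Lagrange multiplier
theorem (`IsLocalExtrOn.exists_multipliers_of_hasStrictFDerivAt`, see its use in
Lib/MP_df59e7_lc_X/Lagr.lean, with the constraint functions `w_a`, `a < m'`, and `h_k`) there are
`(Λ, Λ0) ≠ 0` with `∑_a Λ_a dx_a + ∑_k Λ_k dh_k + Λ0 dx_{m'} = 0`; the components `a > m'` and `hrk`
give `Λ_k = 0`, the component `m'` gives `Λ0 = 0`, the components `a < m'` give `Λ_a = 0`: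
contradiction. So `G' z = 0` and `z` is a local minimum of `x_{m'}` on `F ∩ {G' = 0}` (points of this
set near `z` are in `K` by `hint` and satisfy `G' ≤ 0`); multipliers
`∑_a Λ_a dx_a + ∑_k Λ_k dh_k + Λ' dG' + Λ0 dx_{m'} = 0`, not all zero. If `Λ' = 0`: contradiction as
before. So the components `a > m'` give `∂_a G' = ∑ (- Λ_k / Λ') ∂_a h_k`. -/
theorem slice_min {N c : ℕ} (m' : Fin N) (h : Fin c → MvPolynomial (Fin N) ℝ)
    (G' : MvPolynomial (Fin N) ℝ) (x0 : Fin N → ℝ) (K : Set (Fin N → ℝ)) (hK : IsCompact K)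
    (hKF : ∀ w ∈ K, (∀ a, a < m' → w a = x0 a) ∧ ∀ k, eval w (h k) = 0)
    (hint : ∀ w ∈ K, eval w G' ≤ 0 → ∃ ε > 0, ∀ w' : Fin N → ℝ, dist w' w < ε →
      (∀ a, a < m' → w' a = x0 a) → (∀ k, eval w' (h k) = 0) → w' ∈ K)
    (hrk : ∀ w ∈ K, eval w G' ≤ 0 → RkK m' h w)
    (hx : ∃ x ∈ K, eval x G' ≤ 0) :
    ∃ z ∈ K, eval z G' = 0 ∧ ∃ lam : Fin c → ℝ, Mlt m' h G' z lam := by
  have hcl : IsClosed {w : Fin N → ℝ | eval w G' ≤ 0} :=
    isClosed_le (MvPolynomial.continuous_eval G') continuous_const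
  obtain ⟨x, hxK, hxG⟩ := hx
  obtain ⟨z, ⟨hzK, hzG⟩, hzmin⟩ := (hK.inter_right hcl).exists_isMinOn ⟨x, hxK, hxG⟩
    (continuous_apply m').continuousOn
  obtain ⟨ε, hε, hin⟩ := hint z hzK hzG
  have hz := hKF z hzK
  have hrz := hrk z hzK hzG
  -- points near `z` in the fibre are not below `z`
  have key : ∀ w : Fin N → ℝ, dist w z < ε → (∀ a, a < m' → w a = z a) →
      (∀ k, eval w (h k) = eval z (h k)) → eval w G' ≤ 0 → z m' ≤ w m' := by
    intro w h1 h2 h3 h4
    refine hzmin ⟨hin w h1 (fun a ha => ?_) fun k => ?_, h4⟩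
    · rw [h2 a ha, hz.1 a ha]
    · rw [h3 k, hz.2 k]
  have hG0 : eval z G' = 0 := by
    by_contra hne
    have hlt : eval z G' < 0 := lt_of_le_of_ne hzG hne
    obtain ⟨δ, hδ, hδ'⟩ := Metric.eventually_nhds_iff.1
      (((MvPolynomial.continuous_eval G').tendsto z).eventually_lt_const hlt)
    obtain ⟨lam, h1, h2⟩ := SliceMin_mult m' h z (lt_min hε hδ) (fun w h3 h4 h5 =>
      key w (h3.trans_le (min_le_left _ _)) h4 h5 (hδ' (h3.trans_le (min_le_right _ _))).le)
    exact h1 (hrz lam h2)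
  refine ⟨z, hzK, hG0, ?_⟩
  obtain ⟨lam, h1, h2⟩ := SliceMin_mult m' (Sum.elim h fun _ : Unit => G') z hε
    (fun w h3 h4 h5 => key w h3 h4 (fun k => h5 (Sum.inl k)) (by
      have h6 := h5 (Sum.inr ())
      rw [Sum.elim_inr] at h6
      rw [h6, hG0]))
  have h3 : ∀ a, m' < a → (∑ k, lam (Sum.inl k) * eval z (pderiv a (h k))) +
      lam (Sum.inr ()) * eval z (pderiv a G') = 0 := by
    intro a ha
    have h4 := h2 a ha
    rw [Fintype.sum_sum_type] at h4
    simpa using h4
  have h4 : lam (Sum.inr ()) ≠ 0 := by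
    intro h0
    apply h1
    have h5 : (fun k => lam (Sum.inl k)) = 0 := hrz _ fun a ha => by
      have h6 := h3 a ha
      rw [h0, zero_mul, add_zero] at h6
      exact h6
    funext l
    rcases l with k | u
    · exact congrFun h5 k
    · exact h0
  refine ⟨fun k => -(lam (Sum.inl k) / lam (Sum.inr ())), fun a ha => ?_⟩
  have h5 := h3 a ha
  have h6 : ∀ k, -(lam (Sum.inl k) / lam (Sum.inr ())) * eval z (pderiv a (h k)) =
      (-1 / lam (Sum.inr ())) * (lam (Sum.inl k) * eval z (pderiv a (h k))) := fun k => by ring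
  simp only [h6]
  rw [← Finset.mul_sum, eq_neg_of_add_eq_zero_left h5]
  field_simp

end Pool.Agent.RM90
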