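import Pool.Agent.Lib.MP_df59e7_lc_Y.StY1
import Pool.Agent.Lib.MP_df59e7_lc_Y.SliceMin
import Pool.Agent.Lib.MP_df59e7_lc_X.TubeN

set_option autoImplicit false

/-! MP_df59e7_lc, project Y, module TubeBO: the other steps, one approximate point. -/

namespace Pool.Agent.RM90

open MvPolynomial

private theorem TubeBO_prm {n : ℕ} {m : Fin n} {w x : Fin n → ℝ} :
    w ∈ prm m ⁻¹' {prm m x} ↔ ∀ a, a < m → w a = x a := by
  constructor
  · intro h a ha
    have h1 := congrFun (Set.mem_singleton_iff.1 h) a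
    unfold prm at h1
    rwa [if_pos ha, if_pos ha] at h1
  · intro h
    refine Set.mem_singleton_iff.2 (funext fun a => ?_)
    unfold prm
    by_cases ha : a < m
    · rw [if_pos ha, if_pos ha]
      exact h a ha
    · rw [if_neg ha, if_neg ha]

private theorem TubeBO_prm_cont {n : ℕ} (m' : Fin n) :
    Continuous (prm m' : (Fin n → ℝ) → (Fin n → ℝ)) := by
  refine continuous_pi fun a => ?_
  unfold prm
  by_cases ha : a < m'
  · simp only [if_pos ha]
    exact continuous_apply a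
  · simp only [if_neg ha]
    exact continuous_const

/-- The slice of the base. -/
private theorem TubeBO_slice {n c : ℕ} (m : Fin n) (x : Fin n → ℝ)
    (h : Fin c → MvPolynomial (Fin n) ℝ) :
    IsClosed {w : Fin n → ℝ | (∀ a, a < m → w a = x a) ∧ ∀ k, eval w (h k) = 0} := by
  have e : {w : Fin n → ℝ | (∀ a, a < m → w a = x a) ∧ ∀ k, eval w (h k) = 0} =
      (⋂ a : Fin n, {w | a < m → w a = x a}) ∩ ⋂ k : Fin c, {w | eval w (h k) = 0} := by
    ext w
    rw [Set.mem_inter_iff, Set.mem_iInter, Set.mem_iInter]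
    exact Iff.rfl
  rw [e]
  refine (isClosed_iInter fun a => ?_).inter (isClosed_iInter fun k =>
    isClosed_eq (MvPolynomial.continuous_eval _) continuous_const)
  by_cases ha : a < m
  · have e2 : {w : Fin n → ℝ | a < m → w a = x a} = {w | w a = x a} := by
      ext w
      exact ⟨fun h => h ha, fun h _ => h⟩
    rw [e2]
    exact isClosed_eq (continuous_apply a) continuous_const
  · have e2 : {w : Fin n → ℝ | a < m → w a = x a} = Set.univ := by
      ext w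
      exact ⟨fun _ => trivial, fun _ h => absurd h ha⟩
    rw [e2]
    exact isClosed_univ

/-- One approximate point.
Proof: as `TubeN_one` (Lib/MP_df59e7_lc_X/TubeN.lean; copy it), inside the base: `E = Pol U j m h g y`,
`h = hh m0 G0`, `Ψ = psiB m h g`, `Φ = E ∩ prm m' ⁻¹' {prm m' x}` (compact), `Φ1, Φ2` from
`comp_clopen` for `O = thickening ε G0 ∩ U'`, `η`, and
`K = {w | w_a = x_a (a < m'), h_k w = 0, infDist w Φ1 ≤ η}` (compact, contained in `U' ⊆ U`). On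
`K ∩ {infDist w Φ1 = η}` `Ψ > 0`: a zero is in `E` by `psiB_eq_zero` (`hS.rk`, the coordinates
`a < j < m'` are those of `x`, so of `y`), so in `Φ = Φ1 ∪ Φ2`, contradiction; so `Ψ ≥ κ > 0` there.
For large `p` `quad (q p) < κ` on `closure U'`: `slice_min` for `G' = Ψ - quad (q p)`, `K`, `x0 = x`
(`hint`: if `G' w ≤ 0` then `infDist w Φ1 < η`; `hrk`: `rkK_mono` from `hS.rk`; starting point `x`:
`Ψ x = 0 < quad x`). It gives `z_p ∈ K`, in `Pol {x ∈ U' | RkK m' h x} j m' h (Ψ - quad (q p)) y`. -/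
theorem tubeB_one {N : ℕ} {U0 : Set (Fin N → ℝ)} {j m0 : Fin N} {G0 : MvPolynomial (Fin N) ℝ}
    {y : Fin N → ℝ} {U : Set (Fin N → ℝ)} {R : ℝ} {m : Fin N} {g : MvPolynomial (Fin N) ℝ}
    (hS : StY U0 j m0 G0 y U R m g) (m' : Fin N) (hjm : j < m') (hmm : m' < m)
    (U' : Set (Fin N → ℝ)) (hU' : IsOpen U') (hb : Bornology.IsBounded U')
    (hEU : Pol U j m (hh m0 G0) g y ⊆ U') (hcl : closure U' ⊆ U) (q : ℕ → Par N)
    (hpos : ∀ p, ∀ x ∈ closure U', 0 < eval x (quad (q p)))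
    (hlim : ∀ ε > 0, ∀ᶠ p in Filter.atTop, ∀ x ∈ closure U', eval x (quad (q p)) < ε)
    (x : Fin N → ℝ) (hx : x ∈ Pol U j m (hh m0 G0) g y) (ε : ℝ) (hε : 0 < ε) :
    ∃ z ∈ ulim (fun p => Pol {x | x ∈ U' ∧ RkK m' (hh m0 G0) x} j m' (hh m0 G0)
        (psiB m (hh m0 G0) g - quad (q p)) y), z ∈ closure U' ∧
      Metric.infDist z (connectedComponentIn
        (Pol U j m (hh m0 G0) g y ∩ prm m' ⁻¹' {prm m' x}) x) ≤ 2 * ε := by
  obtain ⟨h, hhe⟩ : ∃ h, h = hh m0 G0 := ⟨_, rfl⟩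
  have hPc : IsCompact (Pol U j m (hh m0 G0) g y) := by
    rw [← st_image hS]
    exact hS.gd.cpt.image continuous_fstP
  have hΦ : IsCompact (Pol U j m (hh m0 G0) g y ∩ prm m' ⁻¹' {prm m' x}) :=
    hPc.inter_right (isClosed_singleton.preimage (TubeBO_prm_cont m'))
  have hrkU : ∀ w ∈ U, RkK m h w := fun w hw => hhe ▸ hS.rk w hw
  rw [← hhe] at hEU hx hΦ ⊢
  clear hPc hS hhe
  obtain ⟨Φ, hΦe⟩ : ∃ Φ, Φ = Pol U j m h g y ∩ prm m' ⁻¹' {prm m' x} := ⟨_, rfl⟩
  rw [← hΦe] at hΦ ⊢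
  have hmemΦ : ∀ w, w ∈ Φ ↔ w ∈ Pol U j m h g y ∧ ∀ a, a < m' → w a = x a := by
    intro w
    rw [hΦe]
    exact and_congr_right fun _ => TubeBO_prm
  have hxΦ : x ∈ Φ := (hmemΦ x).2 ⟨hx, fun _ _ => rfl⟩
  obtain ⟨C0, hC0⟩ : ∃ C0, C0 = connectedComponentIn Φ x := ⟨_, rfl⟩
  rw [← hC0]
  have hxC0 : x ∈ C0 := hC0 ▸ mem_connectedComponentIn hxΦ
  have hC0Φ : C0 ⊆ Φ := hC0 ▸ connectedComponentIn_subset Φ x
  obtain ⟨Φ1, Φ2, hc1, hc2, hΦ12, hdis, hG1, h1O⟩ := comp_clopen Φ hΦ x hxΦ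
    (Metric.thickening ε C0 ∩ U') (Metric.isOpen_thickening.inter hU') (by
      rw [← hC0]
      exact fun w hw => ⟨Metric.self_subset_thickening hε C0 hw, hEU ((hmemΦ w).1 (hC0Φ hw)).1⟩)
  rw [← hC0] at hG1
  have hx1 : x ∈ Φ1 := hG1 hxC0
  obtain ⟨η1, hη1, hη1O⟩ := hc1.exists_cthickening_subset_open
    ((Metric.isOpen_thickening.inter hU').inter hc2.isClosed.isOpen_compl)
    (fun w hw => ⟨h1O hw, fun hw2 => Set.disjoint_left.1 hdis hw hw2⟩)
  obtain ⟨η, hη0, hηε, hηO⟩ : ∃ η : ℝ, 0 < η ∧ η ≤ ε ∧ ∀ w, Metric.infDist w Φ1 ≤ η →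
      (w ∈ Metric.thickening ε C0 ∩ U' ∧ w ∉ Φ2) := by
    refine ⟨min η1 ε, lt_min hη1 hε, min_le_right _ _, fun w hw => ?_⟩
    obtain ⟨v, hv, hvd⟩ := hc1.exists_infDist_eq_dist ⟨x, hx1⟩ w
    have h1 : w ∈ Metric.cthickening η1 Φ1 := by
      refine Metric.mem_cthickening_of_dist_le w v η1 Φ1 hv ?_
      rw [← hvd]
      exact hw.trans (min_le_left _ _)
    exact hη1O h1
  obtain ⟨K, hKe⟩ : ∃ K : Set (Fin N → ℝ),
      K = {w | (∀ a, a < m' → w a = x a) ∧ ∀ k, eval w (h k) = 0} ∩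
        {w | Metric.infDist w Φ1 ≤ η} := ⟨_, rfl⟩
  have hKmem : ∀ w, w ∈ K ↔ ((∀ a, a < m' → w a = x a) ∧ ∀ k, eval w (h k) = 0) ∧
      Metric.infDist w Φ1 ≤ η := by
    intro w
    rw [hKe]
    exact Iff.rfl
  have hKU' : ∀ w ∈ K, w ∈ U' := fun w hw => (hηO w ((hKmem w).1 hw).2).1.2
  have hKU : ∀ w ∈ K, w ∈ U := fun w hw => hcl (subset_closure (hKU' w hw))
  have hKc : IsCompact K := by
    refine Metric.isCompact_of_isClosed_isBounded ?_ (hb.subset hKU')
    rw [hKe]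
    exact (TubeBO_slice m' x h).inter
      (isClosed_le (Metric.continuous_infDist_pt Φ1) continuous_const)
  have hwy : ∀ w : Fin N → ℝ, (∀ a, a < m' → w a = x a) → ∀ a, a < j → w a = y a :=
    fun w hw a ha => (hw a (ha.trans hjm)).trans (hx.1.2.1 a ha)
  -- positivity on the boundary
  obtain ⟨κ, hκ0, hκ⟩ : ∃ κ > 0, ∀ w, ((∀ a, a < m' → w a = x a) ∧ ∀ k, eval w (h k) = 0) →
      Metric.infDist w Φ1 = η → κ ≤ eval w (psiB m h g) := by
    obtain ⟨S, hSe⟩ : ∃ S : Set (Fin N → ℝ),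
      S = {w | (∀ a, a < m' → w a = x a) ∧ ∀ k, eval w (h k) = 0} ∩
        {w | Metric.infDist w Φ1 = η} := ⟨_, rfl⟩
    have hSK : S ⊆ K := by
      intro w hw
      rw [hSe] at hw
      exact (hKmem w).2 ⟨hw.1, le_of_eq hw.2⟩
    have hSc : IsCompact S := by
      refine hKc.of_isClosed_subset ?_ hSK
      rw [hSe]
      exact (TubeBO_slice m' x h).inter
        (isClosed_eq (Metric.continuous_infDist_pt Φ1) continuous_const)
    have hcont : Continuous fun w : Fin N → ℝ => eval w (psiB m h g) :=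
      MvPolynomial.continuous_eval _
    by_cases hSne : S.Nonempty
    · obtain ⟨w0, hw0, hmin⟩ := hSc.exists_isMinOn hSne hcont.continuousOn
      refine ⟨eval w0 (psiB m h g), ?_, fun w h1 h2 => ?_⟩
      · refine lt_of_le_of_ne (psiB_nonneg m h g w0) fun h0 => ?_
        have hw0K := hSK hw0
        have h1 := (psiB_eq_zero m h g w0 (hrkU w0 (hKU w0 hw0K))).1 h0.symm
        have h2 := ((hKmem w0).1 hw0K).1
        have hE : w0 ∈ Pol U j m h g y :=
          ⟨⟨hKU w0 hw0K, hwy w0 h2.1, h2.2, h1.1⟩, h1.2⟩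
        have h3 : w0 ∈ Φ := (hmemΦ w0).2 ⟨hE, h2.1⟩
        rw [hΦ12] at h3
        rw [hSe] at hw0
        have h4 : Metric.infDist w0 Φ1 = η := hw0.2
        rcases h3 with h5 | h5
        · rw [Metric.infDist_zero_of_mem h5] at h4
          exact hη0.ne h4
        · exact (hηO w0 h4.le).2 h5
      · have hw : w ∈ S := by
          rw [hSe]
          exact ⟨h1, h2⟩
        exact isMinOn_iff.1 hmin w hw
    · refine ⟨1, one_pos, fun w h1 h2 => absurd ⟨w, ?_⟩ hSne⟩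
      rw [hSe]
      exact ⟨h1, h2⟩
  -- the points
  have hz : ∀ p : ℕ, ∃ z : Fin N → ℝ, (∀ x ∈ closure U', eval x (quad (q p)) < κ) →
      z ∈ K ∧ z ∈ Pol {x | x ∈ U' ∧ RkK m' h x} j m' h (psiB m h g - quad (q p)) y := by
    intro p
    by_cases hp : ∀ x ∈ closure U', eval x (quad (q p)) < κ
    · have hHx : eval x (psiB m h g) = 0 :=
        (psiB_eq_zero m h g x (hrkU x hx.1.1)).2 ⟨hx.1.2.2.2, hx.2⟩
      have hxK : x ∈ K := (hKmem x).2 ⟨⟨fun _ _ => rfl, hx.1.2.2.1⟩, by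
        rw [Metric.infDist_zero_of_mem hx1]
        exact hη0.le⟩
      have hx0 : eval x (psiB m h g - quad (q p)) ≤ 0 := by
        rw [map_sub, hHx, zero_sub]
        exact (neg_neg_of_pos (hpos p x (subset_closure (hEU hx)))).le
      have hrk' : ∀ w ∈ K, RkK m' h w := fun w hw => rkK_mono hmm.le (hrkU w (hKU w hw))
      obtain ⟨z, hzK, hzeq, lam, hlam⟩ := slice_min m' h (psiB m h g - quad (q p)) x K hKc
        (fun w hw => ((hKmem w).1 hw).1) (by
          intro w hw hw0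
          have h1 := (hKmem w).1 hw
          have h2 : Metric.infDist w Φ1 < η := by
            refine lt_of_le_of_ne h1.2 fun h3 => ?_
            have h4 := hκ w h1.1 h3
            have h5 := hp w (subset_closure (hKU' w hw))
            rw [map_sub] at hw0
            linarith
          refine ⟨η - Metric.infDist w Φ1, sub_pos.2 h2, fun w' hd hw' hw'' => ?_⟩
          refine (hKmem w').2 ⟨⟨hw', hw''⟩, ?_⟩
          have h3 := Metric.infDist_le_infDist_add_dist (s := Φ1) (x := w') (y := w)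
          linarith) (fun w hw _ => hrk' w hw) ⟨x, hxK, hx0⟩
      have h6 := ((hKmem z).1 hzK).1
      exact ⟨z, fun _ => ⟨hzK, ⟨⟨hKU' z hzK, hrk' z hzK⟩, hwy z h6.1, h6.2, hzeq⟩, lam, hlam⟩⟩
    · exact ⟨x, fun h => absurd h hp⟩
  choose z hz using hz
  have hev : ∀ᶠ p in (Filter.hyperfilter ℕ : Filter ℕ), ∀ x ∈ closure U',
      eval x (quad (q p)) < κ := Nat.hyperfilter_le_atTop (hlim κ hκ0)
  obtain ⟨z0, hz0K, hz0⟩ := exists_lim K hKc z (hev.mono fun p hp => (hz p hp).1)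
  refine ⟨z0, mem_ulim_of_tendsto _ z z0 (hev.mono fun p hp => (hz p hp).2) hz0,
    subset_closure (hKU' z0 hz0K), ?_⟩
  obtain ⟨v, hv, hvd⟩ := hc1.exists_infDist_eq_dist ⟨x, hx1⟩ z0
  obtain ⟨u, hu, hud⟩ := Metric.mem_thickening_iff.1 (h1O hv).1
  have h1 := ((hKmem z0).1 hz0K).2
  have h2 := Metric.infDist_le_dist_of_mem hu (x := z0)
  have h3 := dist_triangle z0 v u
  rw [hvd] at h1
  linarith

end Pool.Agent.RM90
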