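import Pool.Agent.Lib.MP_df59e7_lc_Y.SeqY
import Pool.Agent.Lib.MP_df59e7_lc_Y.LimY
import Pool.Agent.Lib.MP_df59e7_lc_Y.NbhB
import Pool.Agent.Lib.MP_df59e7_lc_Y.TubeBO

set_option autoImplicit false

/-! MP_df59e7_lc, project Y, module TubeYB: the other steps of a chain. -/

namespace Pool.Agent.RM90

open MvPolynomial

private theorem TubeYB_cpt {N : ℕ} {U0 : Set (Fin N → ℝ)} {j m0 : Fin N}
    {G0 : MvPolynomial (Fin N) ℝ} {y : Fin N → ℝ} {U : Set (Fin N → ℝ)} {R : ℝ} {m : Fin N}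
    {g : MvPolynomial (Fin N) ℝ} (hS : StY U0 j m0 G0 y U R m g) :
    IsCompact (Pol U j m (hh m0 G0) g y) := by
  rw [← st_image hS]
  refine hS.gd.cpt.image ?_
  exact continuous_pi fun a => continuous_apply _

/-- THE OTHER STEPS OF A CHAIN.
Proof: `U', κ` from `nbhd_B`; `seq_Y` for `Ψ = psiB m h g` (`closure U' ⊆ U ⊆ U0`; `hrk` by
`rkK_mono` from `hS.rk`). `sub`: `lim_Y`, `psiB_nonneg`, `psiB_eq_zero`. `meet`: from `tubeB_one` as in
the proof of `tube_meet` (Lib/MP_df59e7_lc_X/TubeN.lean). -/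
theorem tube_B {N : ℕ} {U0 : Set (Fin N → ℝ)} {j m0 : Fin N} {G0 : MvPolynomial (Fin N) ℝ}
    {y : Fin N → ℝ} {U : Set (Fin N → ℝ)} {R : ℝ} {m : Fin N} {g : MvPolynomial (Fin N) ℝ}
    (hS : StY U0 j m0 G0 y U R m g) (m' : Fin N) (hjm : j < m') (hmm : m' < m) :
    ∃ (U' : Set (Fin N → ℝ)) (R' : ℕ → ℝ) (q : ℕ → Par N),
      (∀ p, StY U0 j m0 G0 y U' (R' p) m' (psiB m (hh m0 G0) g - quad (q p))) ∧
      TubeOut (Pol U j m (hh m0 G0) g y) m'
        (fun p => Pol U' j m' (hh m0 G0) (psiB m (hh m0 G0) g - quad (q p)) y) := by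
  obtain ⟨U', hU', hb, hEU, hcl, κ, hκ, hfr⟩ := nbhd_B hS
  obtain ⟨q, R', hst, hpos, hlim⟩ := seq_Y U0 j m0 G0 y hS.base m' hjm (hmm.trans hS.lt)
    (psiB m (hh m0 G0) g) U' hU' hb (hcl.trans hS.sub) κ hκ hfr
    (fun x hx _ _ _ => rkK_mono hmm.le (hS.rk x (hcl hx)))
  have hKc : IsCompact (closure U') :=
    Metric.isCompact_of_isClosed_isBounded isClosed_closure hb.closure
  refine ⟨{x | x ∈ U' ∧ RkK m' (hh m0 G0) x}, R', q, hst, ⟨closure U', hKc,
    fun p x hx => subset_closure hx.1.1.1⟩, ?_, ?_⟩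
  · intro x hx
    obtain ⟨h1, h2, h3, h4⟩ := lim_Y j m' (hh m0 G0) y (psiB m (hh m0 G0) g) U'
      {x | x ∈ U' ∧ RkK m' (hh m0 G0) x} (fun x hx => hx.1) q hlim hx
    have h5 : eval x (psiB m (hh m0 G0) g) = 0 :=
      le_antisymm h4 (psiB_nonneg m (hh m0 G0) g x)
    obtain ⟨h6, h7⟩ := (psiB_eq_zero m (hh m0 G0) g x (hS.rk x (hcl h1))).1 h5
    exact ⟨⟨hcl h1, h2, h3, h6⟩, h7⟩
  · intro x hx
    have hcont : Continuous (prm m' : (Fin N → ℝ) → (Fin N → ℝ)) := by
      refine continuous_pi fun a => ?_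
      unfold prm
      by_cases ha : a < m'
      · simp only [if_pos ha]
        exact continuous_apply a
      · simp only [if_neg ha]
        exact continuous_const
    have hΦ : IsCompact (Pol U j m (hh m0 G0) g y ∩ prm m' ⁻¹' {prm m' x}) :=
      (TubeYB_cpt hS).inter_right (isClosed_singleton.preimage hcont)
    have hxΦ : x ∈ Pol U j m (hh m0 G0) g y ∩ prm m' ⁻¹' {prm m' x} := ⟨hx, rfl⟩
    obtain ⟨C, hC⟩ : ∃ C, C = connectedComponentIn
      (Pol U j m (hh m0 G0) g y ∩ prm m' ⁻¹' {prm m' x}) x := ⟨_, rfl⟩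
    have hxC : x ∈ C := hC ▸ mem_connectedComponentIn hxΦ
    have hCc : IsClosed C := by
      refine isClosed_of_closure_subset ?_
      have h1 : IsPreconnected (closure C) := by
        rw [hC]
        exact isPreconnected_connectedComponentIn.closure
      have h2 : closure C ⊆ Pol U j m (hh m0 G0) g y ∩ prm m' ⁻¹' {prm m' x} := by
        refine closure_minimal ?_ hΦ.isClosed
        rw [hC]
        exact connectedComponentIn_subset _ _
      have h3 := h1.subset_connectedComponentIn (subset_closure hxC) h2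
      rwa [← hC] at h3
    have hone : ∀ e : ℕ, ∃ z ∈ ulim (fun p => Pol {x | x ∈ U' ∧ RkK m' (hh m0 G0) x} j m'
        (hh m0 G0) (psiB m (hh m0 G0) g - quad (q p)) y),
        z ∈ closure U' ∧ Metric.infDist z C ≤ 2 * (1 / ((e : ℝ) + 1)) := by
      intro e
      rw [hC]
      exact tubeB_one hS m' hjm hmm U' hU' hb hEU hcl q hpos hlim x hx _ (by positivity)
    choose z hz1 hz2 hz3 using hone
    obtain ⟨z0, -, φ, hφ, hlim0⟩ := hKc.tendsto_subseq hz2
    rw [← hC]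
    refine ⟨z0, ?_, (ulim_closed _).mem_of_tendsto hlim0
      (Filter.Eventually.of_forall fun e => hz1 (φ e))⟩
    have h1 : Filter.Tendsto (fun e => Metric.infDist (z (φ e)) C) Filter.atTop
        (nhds (Metric.infDist z0 C)) :=
      ((Metric.continuous_infDist_pt C).tendsto z0).comp hlim0
    have h2 : Filter.Tendsto (fun e : ℕ => 2 * (1 / ((φ e : ℝ) + 1))) Filter.atTop (nhds 0) := by
      have h3 := (tendsto_one_div_add_atTop_nhds_zero_nat (𝕜 := ℝ)).comp hφ.tendsto_atTop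
      have h4 := h3.const_mul 2
      rw [mul_zero] at h4
      exact h4
    have h3 : Metric.infDist z0 C ≤ 0 := le_of_tendsto_of_tendsto' h1 h2 fun e => hz3 (φ e)
    have h4 : Metric.infDist z0 C = 0 := le_antisymm h3 Metric.infDist_nonneg
    exact (hCc.mem_iff_infDist_zero ⟨x, hxC⟩).2 h4

end Pool.Agent.RM90
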