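import Pool.Agent.Lib.MP_df59e7_lc_Y.AbsSplit
import Pool.Agent.Lib.MP_df59e7_lc_Y.BaseY
import Pool.Agent.Lib.MP_df59e7_lc_Y.CpxE
import Pool.Agent.Lib.MP_df59e7_lc_Y.TubeYB
import Pool.Agent.Lib.MP_df59e7_lc_Y.StY2
import Pool.Agent.Lib.MP_df59e7_lc_Y.ProjX
import Pool.Agent.Lib.MP_df59e7_lc_Y.GramY
import Pool.Agent.Lib.MP_df59e7_lc_X.LcW
import Pool.Agent.Lib.MP_df59e7_lc_X.StepX

set_option autoImplicit false

/-! MP_df59e7_lc, project Y, module ChainY: the chain inside a base. -/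

namespace Pool.Agent.RM90

open MvPolynomial

variable {N : ℕ} {U0 : Set (Fin N → ℝ)} {j m0 : Fin N} {G0 : MvPolynomial (Fin N) ℝ}
  {y : Fin N → ℝ} {w p : Fin N → ℕ} {σ : Equiv.Perm (Fin N)} {E0 P0 : ℕ}
  {U : Set (Fin N → ℝ)} {R : ℝ} {m : Fin N} {g : MvPolynomial (Fin N) ℝ}

/-- The certificate of a state. -/
theorem ChainY_cpx (hc : Cpx m0 G0 w p σ E0 P0) (ρ E1 P1 : ℕ)
    (hρ : (m0 : ℕ) - (j : ℕ) ≤ ρ) (hP : P0 * 3 ^ N * (E1 + 1) ^ ρ ≤ P1)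
    (hS : StY U0 j m0 G0 y U R m g) (V : ℕ) (hV : WLe w V g)
    (hE : 2 * V + 4 * ((N - (m0 : ℕ)) * E0) ≤ E1) :
    ∃ (w' p' : Fin (N + (N - (m0 : ℕ))) → ℕ) (σ' : Equiv.Perm (Fin (N + (N - (m0 : ℕ))))),
      Cpx (Fin.castAdd _ m) (Gx g (hh m0 G0)) w' p' σ' E1 P1 := by
  have hm0 := m0.2
  have hm : m < m0 := hS.lt
  have hjm : j < m := st_lt hS
  have hmn : (m : ℕ) < (m0 : ℕ) := hm
  have hjn : (j : ℕ) < (m : ℕ) := hjm
  have hc1 : 1 ≤ N - (m0 : ℕ) := by omega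
  have hE0 : E0 ≤ (N - (m0 : ℕ)) * E0 := Nat.le_mul_of_pos_left _ hc1
  obtain ⟨w', p', σ', h⟩ := ext_cpx m0 G0 w p σ E0 P0 hc m hm g V (max V E0) hV
    (le_max_left _ _) (le_max_right _ _)
  have hW : 2 * max V E0 ≤ E1 := by
    have : max V E0 ≤ V + E0 := max_le (Nat.le_add_right _ _) (Nat.le_add_left _ _)
    omega
  refine ⟨w', p', σ', cpx_mono hW (le_trans ?_ hP) h⟩
  apply Nat.mul_le_mul
  · apply Nat.mul_le_mul_left
    exact Nat.pow_le_pow_right (by norm_num) (by omega)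
  · calc (2 * max V E0 + 1) ^ ((m0 : ℕ) - (m : ℕ)) ≤ (E1 + 1) ^ ((m0 : ℕ) - (m : ℕ)) :=
          Nat.pow_le_pow_left (by omega) _
      _ ≤ (E1 + 1) ^ ρ := Nat.pow_le_pow_right (by omega) (by omega)

theorem ChainY_reg {n : ℕ} {U : Set (Fin n → ℝ)} {j m : Fin n} {G : MvPolynomial (Fin n) ℝ}
    {y : Fin n → ℝ} (h : GdY U j m G y) : ∀ x ∈ Wst U j m G y, RegAt j m G x :=
  h.reg j le_rfl h.lt y ⟨fun _ _ => rfl, fun a h1 h2 => absurd h2 (not_lt.2 h1)⟩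

/-- Compactness of the set of a state. -/
theorem ChainY_cpt (hS : StY U0 j m0 G0 y U R m g) : IsCompact (Pol U j m (hh m0 G0) g y) := by
  rw [← st_image hS]
  exact hS.gd.cpt.image continuous_fstP

theorem ChainY_lcn (hS : StY U0 j m0 G0 y U R m g) : LCn (Pol U j m (hh m0 G0) g y) := by
  rw [← st_image hS]
  exact proj_lcn _ hS.gd.cpt (st_inj hS)
    (lc_W _ hS.gd.isOpen _ _ hS.gd.lt _ _ (ChainY_reg hS.gd))

theorem ChainY_str (hS : StY U0 j m0 G0 y U R m g) (x : Fin N → ℝ)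
    (hx : LM (Pol U j m (hh m0 G0) g y) (fun x => x j) x) :
    SLM (Pol U j m (hh m0 G0) g y) (fun x => x j) x := by
  rw [← st_image hS] at hx ⊢
  obtain ⟨z, hz, rfl⟩ := hx.1
  rw [proj_lm (Lft U R j m (hh m0 G0) g y) hS.gd.cpt (st_inj hS) j z hz] at hx
  rw [proj_slm (Lft U R j m (hh m0 G0) g y) hS.gd.cpt (st_inj hS) j z hz]
  exact str_Y _ hS.gd.isOpen _ _ hS.gd.lt _ _ (ChainY_reg hS.gd)
    (hS.gd.ndg _ le_rfl hS.gd.lt _
      ⟨fun _ _ => rfl, fun a h1 h2 => absurd h2 (not_lt.2 h1)⟩) z hx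

theorem ChainY_card (hc : Cpx m0 G0 w p σ E0 P0) (ρ B E1 P1 : ℕ)
    (hρ : (m0 : ℕ) - (j : ℕ) ≤ ρ) (hB : BY (2 * N) E1 P1 ρ ≤ B)
    (hP : P0 * 3 ^ N * (E1 + 1) ^ ρ ≤ P1)
    (hS : StY U0 j m0 G0 y U R m g) (V : ℕ) (hV : WLe w V g)
    (hE : 2 * V + 4 * ((N - (m0 : ℕ)) * E0) ≤ E1) :
    {x | LM (Pol U j m (hh m0 G0) g y) (fun x => x j) x}.encard ≤ (B : ℕ∞) := by
  obtain ⟨w', p', σ', h⟩ := ChainY_cpx hc ρ E1 P1 hρ hP hS V hV hE
  have hmn : (m : ℕ) < (m0 : ℕ) := hS.lt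
  rw [← st_image hS]
  refine (proj_card _ hS.gd.cpt (st_inj hS) j).trans ?_
  apply card_BY _ _ _ _ _ hS.gd w' p' σ' E1 P1 h ρ B
  · simp only [Fin.val_castAdd]; omega
  · exact (BY_mono (by omega) le_rfl le_rfl le_rfl).trans hB

/-- Joining points in the fibres. -/
theorem ChainY_fib (hc : Cpx m0 G0 w p σ E0 P0) (b ρ B E1 P1 κ : ℕ)
    (hρ : (m0 : ℕ) - (j : ℕ) ≤ ρ) (hL : LY (2 * N) B E1 P1 b κ)
    (hP : P0 * 3 ^ N * (E1 + 1) ^ ρ ≤ P1)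
    (hS : StY U0 j m0 G0 y U R m g) (V : ℕ) (hV : WLe w V g)
    (hE : 2 * V + 4 * ((N - (m0 : ℕ)) * E0) ≤ E1) (m' : Fin N) (hj : j ≤ m') (hm : m' < m)
    (hb : (m : ℕ) - (m' : ℕ) ≤ b) (x : Fin N → ℝ) (hx : x ∈ Pol U j m (hh m0 G0) g y)
    (hrat : ∀ a, j ≤ a → a < m' → ∃ r : ℚ, x a = (r : ℝ)) (z : Fin N → ℝ)
    (hz : z ∈ connectedComponentIn (Pol U j m (hh m0 G0) g y ∩ prm m' ⁻¹' {prm m' x}) x) :
    ∃ M : Set (Fin N → ℝ), IsClosed M ∧ x ∈ M ∧ z ∈ M ∧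
      M ⊆ connectedComponentIn (Pol U j m (hh m0 G0) g y ∩ prm m' ⁻¹' {prm m' x}) x ∧
        IsPreconnected M ∧ Alg (κ * (2 + 8 * B ^ 2)) M := by
  obtain ⟨w', p', σ', h⟩ := ChainY_cpx hc ρ E1 P1 hρ hP hS V hV hE
  obtain ⟨hG, heq⟩ := fib_pol hS m' hj hm x hx hrat
  have hi : Set.InjOn fstP (Lft U R m' m (hh m0 G0) g x) := lft_inj U R m' m _ g x hS.rk
  have hcp : IsCompact (Lft U R m' m (hh m0 G0) g x) := hG.cpt
  have hxF : x ∈ Pol U j m (hh m0 G0) g y ∩ prm m' ⁻¹' {prm m' x} := ⟨hx, rfl⟩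
  rw [heq] at hxF hz ⊢
  obtain ⟨x', hx', hxx⟩ := hxF
  have hcomp : connectedComponentIn (fstP '' Lft U R m' m (hh m0 G0) g x) x =
      fstP '' connectedComponentIn (Lft U R m' m (hh m0 G0) g x) x' := by
    have h1 := proj_comp _ hcp hi x' hx'
    rw [hxx] at h1
    exact h1.symm
  rw [hcomp] at hz ⊢
  obtain ⟨z', hz', hzz⟩ := hz
  obtain ⟨M, h1, h2, h3, h4, h5, h6⟩ := LC_of_LY hL _ (by omega) _ _ _ _ _ w' p' σ' hG h
    (by simp only [Fin.val_castAdd]; exact hb) x' hx' z' hz'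
  have hMF : M ⊆ Lft U R m' m (hh m0 G0) g x :=
    h4.trans (connectedComponentIn_subset _ _)
  refine ⟨fstP '' M, ?_, ⟨x', h2, hxx⟩, ⟨z', h3, hzz⟩, ?_, ?_, alg_proj h6⟩
  · exact ((hcp.of_isClosed_subset h1 hMF).image continuous_fstP).isClosed
  · exact Set.image_mono h4
  · exact h5.image _ continuous_fstP.continuousOn

/-- The last step of a chain. -/
theorem ChainY_last (hc : Cpx m0 G0 w p σ E0 P0) (b ρ B E1 P1 κ : ℕ)
    (hρ : (m0 : ℕ) - (j : ℕ) ≤ ρ) (hL : LY (2 * N) B E1 P1 b κ)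
    (hP : P0 * 3 ^ N * (E1 + 1) ^ ρ ≤ P1)
    (hS : StY U0 j m0 G0 y U R m g) (V : ℕ) (hV : WLe w V g)
    (hE : 2 * V + 4 * ((N - (m0 : ℕ)) * E0) ≤ E1) (hb : (m : ℕ) - (j : ℕ) ≤ b)
    (A : Finset (Fin N → ℝ)) (hA : ↑A ⊆ Pol U j m (hh m0 G0) g y) :
    ∃ M, XMap (Pol U j m (hh m0 G0) g y) (fun x => x j) A (κ * (A.card + 8 * B ^ 2)) M := by
  obtain ⟨w', p', σ', h⟩ := ChainY_cpx hc ρ E1 P1 hρ hP hS V hV hE
  rw [← st_image hS] at hA ⊢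
  apply proj_xmap _ hS.gd.cpt (st_inj hS) j κ B _ A hA
  intro A' hA'
  exact hL _ (by omega) _ _ _ _ _ w' p' σ' hS.gd h
    (by simp only [Fin.val_castAdd]; exact hb) A' hA'

/-- The chain inside a base. `E1`, `P1` are the bounds of the next level.
Proof: induction on `r`. The lifted set `Lft U R j m h g y` is good (`hS.gd`) and has the certificate
`ext_cpx` with `W = max V E0 ≤ V + c E0`, so `2 W ≤ E1`, and product `≤ P1` (`c ≤ N`,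
`m0 - m ≤ ρ`, `2 W + 1 ≤ E1 + 1`). If `m - j ≤ b`: `hL` for the lifted set and `proj_xmap`
(`st_image`, `st_inj`). Otherwise (`r ≥ 1`) put `m' = m - b` and take `tube_B`; `abs_split` for
`E = Pol U j m h g y` with `κa = (2^r - 1)(3 + 8B^2) κ`, `κc = κ (2 + 8 B^2)`:
`cE, lE, str, card` from the lifted set (`lc_W`, `proj_lcn`, `proj_lm`, `proj_slm`, `card_BY`,
`proj_card`), `dens` = `st_dens`, `hfib`: `fib_pol` and `LC_of_LY` for the lifted fibre (dimension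
`m - m' = b`), projected (`proj_comp`, `alg_proj`); `E' p`: states with `V' = 2 V + 2 c E0`
(`wle_psiB`, `wle_quad` with `w a ≤ E0`; all equations of the base have weight `≤ E0`), so
`V' + 2 c E0 = 2 (V + 2 c E0)`, dimension `m' - j ≤ r b`; induction hypothesis. -/
theorem chain_Y {N : ℕ} {U0 : Set (Fin N → ℝ)} {j m0 : Fin N} {G0 : MvPolynomial (Fin N) ℝ}
    {y : Fin N → ℝ} {w p : Fin N → ℕ} {σ : Equiv.Perm (Fin N)} {E0 P0 : ℕ}
    (hc : Cpx m0 G0 w p σ E0 P0) (b : ℕ) (hb : 1 ≤ b) (ρ B E1 P1 κ : ℕ)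
    (hρ : (m0 : ℕ) - (j : ℕ) ≤ ρ)
    (hL : LY (2 * N) B E1 P1 b κ) (hB : BY (2 * N) E1 P1 ρ ≤ B)
    (hP : P0 * 3 ^ N * (E1 + 1) ^ ρ ≤ P1) (r : ℕ) :
    ∀ (U : Set (Fin N → ℝ)) (R : ℝ) (m : Fin N) (g : MvPolynomial (Fin N) ℝ) (V : ℕ),
      StY U0 j m0 G0 y U R m g → WLe w V g →
      2 ^ r * (2 * V + 4 * ((N - (m0 : ℕ)) * E0)) ≤ E1 →
      (m : ℕ) - (j : ℕ) ≤ (r + 1) * b →
      ∀ A : Finset (Fin N → ℝ), ↑A ⊆ Pol U j m (hh m0 G0) g y →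
        ∃ M, XMap (Pol U j m (hh m0 G0) g y) (fun x => x j) A
          ((2 ^ (r + 1) - 1) * (3 + 8 * B ^ 2) * κ * (A.card + 8 * B ^ 2)) M := by
  have hm0 := m0.2
  have hc1 : 1 ≤ N - (m0 : ℕ) := by omega
  have hE0 : E0 ≤ (N - (m0 : ℕ)) * E0 := Nat.le_mul_of_pos_left _ hc1
  have hhE : ∀ k, WLe w E0 (hh m0 G0 k) := fun k => hc.eqE _ (by rw [Fin.le_def]; simp)
  set c := (N - (m0 : ℕ)) * E0 with hcdef
  have hlast : ∀ (r : ℕ) (U : Set (Fin N → ℝ)) (R : ℝ) (m : Fin N)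
      (g : MvPolynomial (Fin N) ℝ) (V : ℕ),
      StY U0 j m0 G0 y U R m g → WLe w V g → 2 * V + 4 * c ≤ E1 →
      (m : ℕ) - (j : ℕ) ≤ b →
      ∀ A : Finset (Fin N → ℝ), ↑A ⊆ Pol U j m (hh m0 G0) g y →
        ∃ M, XMap (Pol U j m (hh m0 G0) g y) (fun x => x j) A
          ((2 ^ (r + 1) - 1) * (3 + 8 * B ^ 2) * κ * (A.card + 8 * B ^ 2)) M := by
    intro r U R m g V hS hV hE hmb A hA
    obtain ⟨M, hM⟩ := ChainY_last hc b ρ B E1 P1 κ hρ hL hP hS V hV hE hmb A hA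
    refine ⟨M, xmap_mono ?_ hM⟩
    apply Nat.mul_le_mul_right
    have h1 : 1 ≤ 2 ^ (r + 1) - 1 := by
      have : 2 ^ 1 ≤ 2 ^ (r + 1) := Nat.pow_le_pow_right (by norm_num) (by omega)
      omega
    have h2 : 1 ≤ (2 ^ (r + 1) - 1) * (3 + 8 * B ^ 2) :=
      Nat.mul_pos h1 (by omega)
    exact Nat.le_mul_of_pos_left _ h2
  have hpow : ∀ (r V : ℕ), 2 ^ r * (2 * V + 4 * c) ≤ E1 → 2 * V + 4 * c ≤ E1 := by
    intro r V h
    exact (Nat.le_mul_of_pos_left _ (by positivity)).trans h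
  induction r with
  | zero =>
    intro U R m g V hS hV hE hmb A hA
    exact hlast 0 U R m g V hS hV (hpow 0 V hE) (by simpa using hmb) A hA
  | succ r ih =>
    intro U R m g V hS hV hE hmb A hA
    have hE1 := hpow _ V hE
    by_cases hcase : (m : ℕ) - (j : ℕ) ≤ b
    · exact hlast (r + 1) U R m g V hS hV hE1 hcase A hA
    push Not at hcase
    have hmN := m.2
    have hmn : (m : ℕ) < (m0 : ℕ) := hS.lt
    set m' : Fin N := ⟨(m : ℕ) - b, by omega⟩ with hm'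
    have hm'v : (m' : ℕ) = (m : ℕ) - b := rfl
    have hjm' : j < m' := by rw [Fin.lt_def, hm'v]; omega
    have hm'm : m' < m := by rw [Fin.lt_def, hm'v]; omega
    obtain ⟨U', R', q, hS', hT⟩ := tube_B hS m' hjm' hm'm
    -- the weights of the new states
    have hV' : ∀ i, WLe w (2 * V + 2 * c) (psiB m (hh m0 G0) g - quad (q i)) := by
      intro i
      apply wle_sub
      · exact wle_psiB w m (hh m0 G0) g E0 V hhE hV
      · exact wle_mono (by omega) (wle_quad w E0 hc.wE (q i))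
    have hEr : 2 ^ r * (2 * (2 * V + 2 * c) + 4 * c) ≤ E1 := by
      have : 2 ^ r * (2 * (2 * V + 2 * c) + 4 * c) = 2 ^ (r + 1) * (2 * V + 4 * c) := by
        rw [pow_succ]; ring
      rw [this]; exact hE
    have hE2 := hpow _ _ hEr
    have hdim : (m' : ℕ) - (j : ℕ) ≤ (r + 1) * b := by
      have h1 : (r + 1 + 1) * b = (r + 1) * b + b := by ring
      rw [h1] at hmb
      rw [hm'v]; omega
    obtain ⟨M, hM⟩ := abs_split (Pol U j m (hh m0 G0) g y) j m' hjm'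
      (fun i => Pol U' j m' (hh m0 G0) (psiB m (hh m0 G0) g - quad (q i)) y) hT B
      ((2 ^ (r + 1) - 1) * (3 + 8 * B ^ 2) * κ) (κ * (2 + 8 * B ^ 2))
      (ChainY_cpt hS) (ChainY_lcn hS) (ChainY_str hS)
      (ChainY_card hc ρ B E1 P1 hρ hB hP hS V hV hE1)
      (st_dens hS m' hjm'.le hm'm)
      (fun x hx hrat z hz => ChainY_fib hc b ρ B E1 P1 κ hρ hL hP hS V hV hE1 m' hjm'.le hm'm
        (by rw [hm'v]; omega) x hx hrat z hz)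
      (fun i => ChainY_cpt (hS' i)) (fun i => ChainY_lcn (hS' i))
      (fun i => ChainY_card hc ρ B E1 P1 hρ hB hP (hS' i) _ (hV' i) hE2)
      (fun i A' hA' => ih U' (R' i) m' _ _ (hS' i) (hV' i) hEr hdim A' hA') A hA
    refine ⟨M, xmap_mono ?_ hM⟩
    apply Nat.mul_le_mul_right
    have h1 : 1 ≤ 2 ^ (r + 1) := Nat.one_le_two_pow
    obtain ⟨t, ht⟩ : ∃ t, 2 ^ (r + 1) = t + 1 := ⟨2 ^ (r + 1) - 1, by omega⟩
    have h2 : 2 ^ (r + 1 + 1) = 2 * t + 2 := by rw [pow_succ, ht]; ring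
    rw [h2, ht]
    have e1 : t + 1 - 1 = t := by omega
    have e2 : 2 * t + 2 - 1 = 2 * t + 1 := by omega
    rw [e1, e2]
    nlinarith [Nat.zero_le κ]

end Pool.Agent.RM90
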