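import Pool.Agent.Lib.MP_df59e7_lc_X.StepX

set_option autoImplicit false

/-!
# MP_df59e7_lc, project Y: roadmaps of size (k s d)^{O(k log log k)}. Definitions.

The base of a chain is a good set `Z = Wst U0 j m0 G0 y` in `ℝ^N`, with the `c = N - m0` equations
`h = hh m0 G0`. The polar sets (index `m < m0`) of hypersurfaces `g = 0` inside `Z` are
`Pol U j m h g y`; with the Lagrange multipliers as additional variables (placed last) they are again
sets of the class `Wst`, in `ℝ^(N+c)`, for the polynomial `Gx g h = g - ∑ lam_k h_k`.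
-/

namespace Pool.Agent.RM90

open MvPolynomial

/-- All monomials of `p` have `w`-weight at most `E`. -/
def WLe {ι : Type} [Fintype ι] (w : ι → ℕ) (E : ℕ) (p : MvPolynomial ι ℝ) : Prop :=
  ∀ s ∈ p.support, ∑ i, w i * s i ≤ E

/-- Good sets, with nondegenerate critical points of the coordinate functions. -/
structure GdY {n : ℕ} (U : Set (Fin n → ℝ)) (j m : Fin n) (G : MvPolynomial (Fin n) ℝ)
    (y : Fin n → ℝ) : Prop where
  isOpen : IsOpen U
  bdd : Bornology.IsBounded U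
  lt : j < m
  cpt : IsCompact (Wst U j m G y)
  reg : ∀ i, j ≤ i → i < m → ∀ y', RatExt j i y y' → ∀ x ∈ Wst U i m G y', RegAt i m G x
  ndg : ∀ i, j ≤ i → i < m → ∀ y', RatExt j i y y' → ∀ z : (Fin n → ℝ) × (Fin n → ℝ),
    z.1 ∈ U → Fcr i m G y' z = 0 → ∀ v, fderiv ℝ (Fcr i m G y') z v = 0 → v = 0

/-- Complexity certificate of the equations `eqn m G l`, `l ≥ m`: the variables have weights
`w` (weight `1` for the variables `a < m`), all equations have weight at most `E`, the equation of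
index `l` is paired with the variable `σ l` and has weight `< p l * w (σ l)`, and the product of
the `p l` is at most `P`. -/
structure Cpx {n : ℕ} (m : Fin n) (G : MvPolynomial (Fin n) ℝ) (w p : Fin n → ℕ)
    (σ : Equiv.Perm (Fin n)) (E P : ℕ) : Prop where
  w1 : ∀ a, 1 ≤ w a
  wm : ∀ a, a < m → w a = 1
  wE : ∀ a, w a ≤ E
  eqE : ∀ l, m ≤ l → WLe w E (eqn m G l)
  mσ : ∀ l, m ≤ l → m ≤ σ l
  eqp : ∀ l, m ≤ l → ∃ e, WLe w e (eqn m G l) ∧ e < p l * w (σ l)
  pP : ∏ l, (if m ≤ l then p l else 1) ≤ P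

/-- Exact roadmaps of size `κ (|A| + 8 B^2)` for all good sets of dimension at most `ρ` in at most
`Nm` variables with a certificate `(E, P)`. -/
def LY (Nm B E P ρ κ : ℕ) : Prop :=
  ∀ n, n ≤ Nm → ∀ (U : Set (Fin n → ℝ)) (j m : Fin n) (G : MvPolynomial (Fin n) ℝ)
    (y : Fin n → ℝ) (w p : Fin n → ℕ) (σ : Equiv.Perm (Fin n)),
    GdY U j m G y → Cpx m G w p σ E P → (m : ℕ) - (j : ℕ) ≤ ρ →
    ∀ A : Finset (Fin n → ℝ), ↑A ⊆ Wst U j m G y →
      ∃ M, XMap (Wst U j m G y) (fun x => x j) A (κ * (A.card + 8 * B ^ 2)) M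

/-- The first `N` coordinates. -/
def fstP {N c : ℕ} (z : Fin (N + c) → ℝ) : Fin N → ℝ := fun a => z (Fin.castAdd c a)

/-- The last `c` coordinates. -/
def sndP {N c : ℕ} (z : Fin (N + c) → ℝ) : Fin c → ℝ := fun k => z (Fin.natAdd N k)

/-- `y` extended by zeros. -/
def yx {N : ℕ} (c : ℕ) (y : Fin N → ℝ) : Fin (N + c) → ℝ := Fin.append y 0

/-- The Lagrange function `g - ∑ lam_k h_k`. -/
noncomputable def Gx {N c : ℕ} (g : MvPolynomial (Fin N) ℝ)
    (h : Fin c → MvPolynomial (Fin N) ℝ) : MvPolynomial (Fin (N + c)) ℝ :=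
  rename (Fin.castAdd c) g - ∑ k, X (Fin.natAdd N k) * rename (Fin.castAdd c) (h k)

/-- The equations of the base `Wst U0 j m0 G0 y`. -/
noncomputable def hh {N : ℕ} (m0 : Fin N) (G0 : MvPolynomial (Fin N) ℝ) :
    Fin (N - (m0 : ℕ)) → MvPolynomial (Fin N) ℝ :=
  fun k => eqn m0 G0 ⟨(m0 : ℕ) + (k : ℕ), by have := k.2; omega⟩

/-- The differentials of the `h_k`, restricted to the coordinates `a > m`, are linearly
independent at `x`. -/
def RkK {N c : ℕ} (m : Fin N) (h : Fin c → MvPolynomial (Fin N) ℝ) (x : Fin N → ℝ) : Prop :=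
  ∀ ρ : Fin c → ℝ, (∀ a, m < a → ∑ k, ρ k * eval x (pderiv a (h k)) = 0) → ρ = 0

/-- The points in the slice which satisfy the equations of the base and `g = 0`. -/
def Zg {N c : ℕ} (U : Set (Fin N → ℝ)) (j : Fin N) (h : Fin c → MvPolynomial (Fin N) ℝ)
    (g : MvPolynomial (Fin N) ℝ) (y : Fin N → ℝ) : Set (Fin N → ℝ) :=
  {x | x ∈ U ∧ (∀ a, a < j → x a = y a) ∧ (∀ k, eval x (h k) = 0) ∧ eval x g = 0}

/-- `lam` are multipliers at `x`: `∂_a g = ∑ lam_k ∂_a h_k` for `a > m`. -/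
def Mlt {N c : ℕ} (m : Fin N) (h : Fin c → MvPolynomial (Fin N) ℝ)
    (g : MvPolynomial (Fin N) ℝ) (x : Fin N → ℝ) (lam : Fin c → ℝ) : Prop :=
  ∀ a, m < a → eval x (pderiv a g) = ∑ k, lam k * eval x (pderiv a (h k))

/-- The polar set of index `m` of `g = 0` inside the base. -/
def Pol {N c : ℕ} (U : Set (Fin N → ℝ)) (j m : Fin N) (h : Fin c → MvPolynomial (Fin N) ℝ)
    (g : MvPolynomial (Fin N) ℝ) (y : Fin N → ℝ) : Set (Fin N → ℝ) :=
  {x | x ∈ Zg U j h g y ∧ ∃ lam : Fin c → ℝ, Mlt m h g x lam}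

/-- `U` times a cube. -/
def Ux {N : ℕ} (c : ℕ) (U : Set (Fin N → ℝ)) (R : ℝ) : Set (Fin (N + c) → ℝ) :=
  {z | fstP z ∈ U ∧ ∀ k : Fin c, |sndP z k| < R}

/-- The polar set with its multipliers. -/
def Lft {N c : ℕ} (U : Set (Fin N → ℝ)) (R : ℝ) (j m : Fin N)
    (h : Fin c → MvPolynomial (Fin N) ℝ) (g : MvPolynomial (Fin N) ℝ) (y : Fin N → ℝ) :
    Set (Fin (N + c) → ℝ) :=
  Wst (Ux c U R) (Fin.castAdd c j) (Fin.castAdd c m) (Gx g h) (yx c y)

/-- The state of a chain: the polar set of index `m` of `g = 0` inside the base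
`Wst U0 j m0 G0 y`. -/
structure StY {N : ℕ} (U0 : Set (Fin N → ℝ)) (j m0 : Fin N) (G0 : MvPolynomial (Fin N) ℝ)
    (y : Fin N → ℝ) (U : Set (Fin N → ℝ)) (R : ℝ) (m : Fin N)
    (g : MvPolynomial (Fin N) ℝ) : Prop where
  base : GdY U0 j m0 G0 y
  lt : m < m0
  op : IsOpen U
  sub : U ⊆ U0
  rk : ∀ x ∈ U, RkK m (hh m0 G0) x
  full : ∀ x ∈ Zg U j (hh m0 G0) g y, ∀ lam, Mlt m (hh m0 G0) g x lam → ∀ k, |lam k| < R
  gd : GdY (Ux _ U R) (Fin.castAdd _ j) (Fin.castAdd _ m) (Gx g (hh m0 G0)) (yx _ y)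

/-- The Gram determinant of the differentials of the `f_k`, restricted to the coordinates
`a > m`. -/
noncomputable def gramP {N c : ℕ} (m : Fin N) (f : Fin c → MvPolynomial (Fin N) ℝ) :
    MvPolynomial (Fin N) ℝ :=
  (Matrix.of fun k k' : Fin c =>
    ∑ a, if m < a then pderiv a (f k) * pderiv a (f k') else 0).det

/-- `g^2` plus the Gram determinant of `h` and `g`: for points of the base where `RkK m h` holds it
vanishes exactly on the polar set of index `m` of `g = 0`. -/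
noncomputable def psiB {N c : ℕ} (m : Fin N) (h : Fin c → MvPolynomial (Fin N) ℝ)
    (g : MvPolynomial (Fin N) ℝ) : MvPolynomial (Fin N) ℝ :=
  g ^ 2 + gramP m (Fin.snoc (α := fun _ => MvPolynomial (Fin N) ℝ) h g)

/-- The system `Fcr` with the right hand side `t e_j` instead of `e_j`. -/
noncomputable def Fct {n : ℕ} (t : ℝ) (j m : Fin n) (G : MvPolynomial (Fin n) ℝ)
    (y : Fin n → ℝ) (z : (Fin n → ℝ) × (Fin n → ℝ)) : (Fin n → ℝ) × (Fin n → ℝ) :=
  (fun a => if a < j then z.1 a - y a else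
      ∑ l, (if m ≤ l then z.2 l * eval z.1 (pderiv a (eqn m G l)) else 0) -
        (if a = j then t else 0),
   fun l => if l < m then z.2 l else eval z.1 (eqn m G l))

/-- The bound for numbers of local minima and for the degrees of curves. -/
def BY (n E P ρ : ℕ) : ℕ := 8 ^ n * P * (2 * E + 1) ^ (ρ + 1)

/-- What the tube steps produce, and what the recursion uses: sets `E' p` in a fixed compact set
whose ultralimit is contained in `E` and meets all components of all fibres of `prm m'`. -/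
structure TubeOut {N : ℕ} (E : Set (Fin N → ℝ)) (m' : Fin N) (E' : ℕ → Set (Fin N → ℝ)) :
    Prop where
  bdd : ∃ K, IsCompact K ∧ ∀ p, E' p ⊆ K
  sub : ulim E' ⊆ E
  meet : ∀ x ∈ E, (connectedComponentIn (E ∩ prm m' ⁻¹' {prm m' x}) x ∩ ulim E').Nonempty

end Pool.Agent.RM90
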