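import Pool.Agent.Lib.MP_df59e7_lc_Y.WDeg

set_option autoImplicit false

/-! MP_df59e7_lc, project Y, module FcrP: the critical point system as polynomials. -/

namespace Pool.Agent.RM90

open MvPolynomial

/-- The system `Fcr` as a system of polynomials in the variables `x` (`Sum.inl`) and `μ`
(`Sum.inr`). -/
noncomputable def fcrP {n : ℕ} (j m : Fin n) (G : MvPolynomial (Fin n) ℝ) (y : Fin n → ℝ) :
    Fin n ⊕ Fin n → MvPolynomial (Fin n ⊕ Fin n) ℝ
  | Sum.inl a => if a < j then X (Sum.inl a) - C (y a) else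
      ∑ l, (if m ≤ l then X (Sum.inr l) * rename Sum.inl (pderiv a (eqn m G l)) else 0) -
        C (if a = j then 1 else 0)
  | Sum.inr l => if l < m then X (Sum.inr l) else rename Sum.inl (eqn m G l)

theorem eval_fcrP {n : ℕ} (j m : Fin n) (G : MvPolynomial (Fin n) ℝ) (y : Fin n → ℝ)
    (z : (Fin n → ℝ) × (Fin n → ℝ)) (i : Fin n ⊕ Fin n) :
    eval (Sum.elim z.1 z.2) (fcrP j m G y i) =
      Sum.elim (Fcr j m G y z).1 (Fcr j m G y z).2 i := by
  have hre : ∀ q : MvPolynomial (Fin n) ℝ,
      eval (Sum.elim z.1 z.2) (rename Sum.inl q : MvPolynomial (Fin n ⊕ Fin n) ℝ) =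
        eval z.1 q := by
    intro q
    rw [eval_rename]
    rfl
  rcases i with a | l
  · simp only [fcrP, Fcr, Sum.elim_inl]
    by_cases h : a < j
    · rw [if_pos h, if_pos h]
      simp
    · rw [if_neg h, if_neg h, map_sub, map_sum, eval_C]
      congr 1
      refine Finset.sum_congr rfl fun l _ => ?_
      by_cases hl : m ≤ l
      · rw [if_pos hl, if_pos hl, map_mul, eval_X, hre, Sum.elim_inr]
      · rw [if_neg hl, if_neg hl, map_zero]
  · simp only [fcrP, Fcr, Sum.elim_inr]
    by_cases h : l < m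
    · rw [if_pos h, if_pos h, eval_X, Sum.elim_inr]
    · rw [if_neg h, if_neg h, hre]

end Pool.Agent.RM90
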