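import Pool.Agent.Lib.MP_df59e7_lc_Y.InitY
import Pool.Agent.Lib.MP_df59e7_lc_Y.BaseY
import Pool.Agent.Lib.MP_df59e7_lc_X.FinX

set_option autoImplicit false

/-! MP_df59e7_lc, project Y, module FinY: closed bounded semialgebraic sets. -/

namespace Pool.Agent.RM90

open MvPolynomial Filter

/-- Proof: as `basic_lmap` (Lib/MP_df59e7_lc_X/FinX.lean), with `initY`, `init_cpx` and `hL`. -/
theorem basic_lmapY {k s : ℕ} [NeZero k] (d : ℕ)
    (P : Fin s → MvPolynomial (Fin k) ℝ) (hdeg : ∀ i, (P i).totalDegree ≤ d)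
    (hb : Bornology.IsBounded {x : Fin k → ℝ | ∀ i, 0 ≤ eval x (P i)})
    (A : Finset (Fin k → ℝ)) (hA : ∀ a ∈ A, ∀ i, 0 ≤ eval a (P i)) (B κ : ℕ)
    (hL : LY (k + 1) B (s * d + 2) (s * d + 3) k κ) :
    ∃ M0, LMap {x : Fin k → ℝ | ∀ i, 0 ≤ eval x (P i)} A (κ * (A.card + 8 * B ^ 2)) M0 := by
  classical
  have hk : 1 ≤ k := Nat.one_le_iff_ne_zero.mpr (NeZero.ne k)
  obtain ⟨R0, hR0⟩ := exists_R0 P hb
  refine lim_abs P A hA R0 _ fun δ hδ => ?_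
  obtain ⟨U, G, hG, hdG, hE1, L, hLc, hL'⟩ := initY hk d P hdeg R0 hR0 δ hδ
  refine ⟨Wst U 0 (Fin.last k) G 0, hE1, L, hLc, hL', ?_⟩
  have hAL : (↑(A.image L) : Set (Fin (k + 1) → ℝ)) ⊆ Wst U 0 (Fin.last k) G 0 := by
    intro y hy
    rw [Finset.coe_image] at hy
    obtain ⟨a, ha, rfl⟩ := hy
    exact (hL' a (hA a ha)).1
  obtain ⟨M, hM⟩ := hL (k + 1) le_rfl U 0 (Fin.last k) G 0 _ _ _ hG
    (init_cpx G (s * d + 2) (by omega) hdG) (by simp) (A.image L) hAL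
  exact ⟨M, xmap_rmap hAL (xmap_mono (Nat.mul_le_mul_left _
    (Nat.add_le_add_right Finset.card_image_le _)) hM) δ hδ⟩

/-- Proof: as `basic_count` (Lib/MP_df59e7_lc_X/FinX.lean), with `card_BY`. -/
theorem basic_countY {k s : ℕ} [NeZero k] (d : ℕ)
    (P : Fin s → MvPolynomial (Fin k) ℝ) (hdeg : ∀ i, (P i).totalDegree ≤ d)
    (hb : Bornology.IsBounded {x : Fin k → ℝ | ∀ i, 0 ≤ eval x (P i)}) (B : ℕ)
    (hB : BY (k + 1) (s * d + 2) (s * d + 3) k ≤ B)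
    (T : Finset (Fin k → ℝ)) (hT : ↑T ⊆ {x : Fin k → ℝ | ∀ i, 0 ≤ eval x (P i)})
    (hdis : ∀ x ∈ T, ∀ y ∈ T,
      y ∈ connectedComponentIn {x : Fin k → ℝ | ∀ i, 0 ≤ eval x (P i)} x → x = y) :
    T.card ≤ B := by
  have hk : 1 ≤ k := Nat.one_le_iff_ne_zero.mpr (NeZero.ne k)
  obtain ⟨R0, hR0⟩ := exists_R0 P hb
  refine comp_count_abs P T hT hdis R0 B fun δ hδ => ?_
  obtain ⟨U, G, hG, hdG, hE1, L, hLc, hL⟩ := initY hk d P hdeg R0 hR0 δ hδ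
  have hreg : ∀ x ∈ Wst U 0 (Fin.last k) G 0, RegAt 0 (Fin.last k) G x :=
    hG.reg 0 le_rfl hG.lt 0 ⟨fun _ _ => rfl, fun a h1 h2 => absurd h2 (not_lt.2 h1)⟩
  refine ⟨Wst U 0 (Fin.last k) G 0, hG.cpt, lc_W U hG.isOpen 0 (Fin.last k) hG.lt G 0 hreg, ?_,
    hE1, L, hLc, hL⟩
  exact card_BY U 0 (Fin.last k) G 0 hG _ _ _ _ _ (init_cpx G (s * d + 2) (by omega) hdG) k B
    (by simp) hB

/-- Proof: as `closed_lmap2` (Lib/MP_df59e7_lc_X/FinX.lean). The bound for the number of sign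
conditions is `(k * (2 * s * d + 2) + 1) ^ k ≤ B` (hypothesis `hB'`). -/
theorem closed_lmapY {k s : ℕ} [NeZero k] (d : ℕ) (P : Fin s → MvPolynomial (Fin k) ℝ)
    (hdeg : ∀ i, (P i).totalDegree ≤ d) (Φ : (Fin s → Prop) → (Fin s → Prop) → Prop)
    (hΦ : ∀ f f' g g' : Fin s → Prop, (∀ i, f i → f' i) → (∀ i, g i → g' i) → Φ f g → Φ f' g')
    (S : Set (Fin k → ℝ))
    (hS : S = {x | Φ (fun i => 0 ≤ eval x (P i)) (fun i => eval x (P i) ≤ 0)})
    (hb : Bornology.IsBounded S) (A : Finset (Fin k → ℝ)) (hA : ↑A ⊆ S) (B κ : ℕ)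
    (hL : LY (k + 1) B ((s + s) * d + 2) ((s + s) * d + 3) k κ)
    (hB : BY (k + 1) ((s + s) * d + 2) ((s + s) * d + 3) k ≤ B)
    (hB' : (k * (2 * s * d + 2) + 1) ^ k ≤ B) :
    ∃ M, LMap S A (B * κ * (A.card + 9 * B ^ 2)) M := by
  classical
  set p : Finset (Fin k → ℝ) → Prop := fun T => ↑T ⊆ S ∧ ∀ x ∈ T, ∀ y ∈ T,
    (∀ i, (0 ≤ eval x (P i) ↔ 0 ≤ eval y (P i)) ∧
      (eval x (P i) ≤ 0 ↔ eval y (P i) ≤ 0)) → x = y with hp
  obtain ⟨T, hT, hmax⟩ := exists_max_finset p ((k * (2 * s * d + 2) + 1) ^ k)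
    ⟨by simp, by simp⟩ (fun T hT => sign_count d P hdeg T hT.2)
  have hTB : T.card ≤ B := (sign_count d P hdeg T hT.2).trans hB'
  have hcov : ∀ x ∈ S, ∃ t ∈ T, ∀ i, (0 ≤ eval t (P i) ↔ 0 ≤ eval x (P i)) ∧
      (eval t (P i) ≤ 0 ↔ eval x (P i) ≤ 0) := by
    intro x hx
    by_contra hcon
    have hxT : x ∉ T := fun hxT => hcon ⟨x, hxT, fun i => ⟨Iff.rfl, Iff.rfl⟩⟩
    have h1 : p (insert x T) := by
      refine ⟨?_, ?_⟩
      · rw [Finset.coe_insert]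
        exact Set.insert_subset hx hT.1
      · intro y hy z hz hyz
        rw [Finset.mem_insert] at hy hz
        rcases hy with rfl | hy
        · rcases hz with rfl | hz
          · rfl
          · exact absurd ⟨z, hz, fun i => ⟨(hyz i).1.symm, (hyz i).2.symm⟩⟩ hcon
        · rcases hz with rfl | hz
          · exact absurd ⟨y, hy, fun i => ⟨(hyz i).1, (hyz i).2⟩⟩ hcon
          · exact hT.2 y hy z hz hyz
    have h2 := hmax _ h1 (Finset.subset_insert x T)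
    exact hxT (h2 ▸ Finset.mem_insert_self x T)
  set St : T → Set (Fin k → ℝ) := fun t => {x | ∀ j, 0 ≤ eval x (Psg P t j)} with hSt
  have hStS : ∀ t, St t ⊆ S := by
    intro t x hx
    have h1 := (Psg_set P t x).mp hx
    have h2 : (t : Fin k → ℝ) ∈ S := hT.1 t.2
    rw [hS] at h2 ⊢
    exact hΦ _ _ _ _ (fun i => (h1 i).1) (fun i => (h1 i).2) h2
  have hU : (⋃ t, St t) = S := by
    apply Set.Subset.antisymm
    · exact Set.iUnion_subset hStS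
    · intro x hx
      obtain ⟨t, ht, h1⟩ := hcov x hx
      rw [Set.mem_iUnion]
      exact ⟨⟨t, ht⟩, (Psg_set P t x).mpr fun i => ⟨(h1 i).1.mp, (h1 i).2.mp⟩⟩
  have hbt : ∀ t, Bornology.IsBounded (St t) := fun t => hb.subset (hStS t)
  have hB1 : 1 ≤ B := le_trans (Nat.one_le_pow _ _ (Nat.succ_pos _)) hB'
  obtain ⟨M, hM⟩ := glue St
    (fun t => by
      have : St t = ⋂ j, {x | 0 ≤ eval x (Psg P t j)} := by
        ext x; simp [hSt]
      rw [this]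
      exact isClosed_iInter fun j => isClosed_le continuous_const (continuous_evalp _))
    B (fun m => κ * (m + 8 * B ^ 2))
    (fun a b hab => Nat.mul_le_mul_left _ (Nat.add_le_add_right hab _))
    (fun t T' hT' hd => basic_countY d (Psg P t) (Psg_deg d P hdeg t) (hbt t) B hB T' hT' hd)
    (fun t A' hA' => basic_lmapY d (Psg P t) (Psg_deg d P hdeg t) (hbt t) A'
      (fun a ha => hA' ha) B κ hL)
    A (by rw [hU]; exact hA)
  rw [hU] at hM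
  refine ⟨M, ⟨hM.sub, alg_mono ?_ le_rfl hM.alg, hM.pts, hM.rm1, hM.rm2⟩⟩
  rw [Fintype.card_coe]
  have h6 : A.card + T.card * B + 8 * B ^ 2 ≤ A.card + 9 * B ^ 2 := by nlinarith
  calc T.card * (κ * (A.card + T.card * B + 8 * B ^ 2))
      ≤ B * (κ * (A.card + 9 * B ^ 2)) :=
        Nat.mul_le_mul hTB (Nat.mul_le_mul_left _ h6)
    _ = B * κ * (A.card + 9 * B ^ 2) := by ring

end Pool.Agent.RM90
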