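import Pool.Agent.Lib.MP_df59e7_lc_Y.DefsY
import Pool.Agent.Lib.MP_df59e7_lc_X.GenAll

set_option autoImplicit false

/-! MP_df59e7_lc, project Y, module GenO: genericity for the initial stage. -/

namespace Pool.Agent.RM90

open MvPolynomial

/-- The genericity theorem for the initial stage.
Proof: as `gen_all` (Lib/MP_df59e7_lc_X/GenAll.lean; copy it and leave out `iso_str`). -/
theorem gen_O {n : ℕ} (H : MvPolynomial (Fin n) ℝ) (j m : Fin n) (y : Fin n → ℝ) :
    ∀ᵐ c : Par n, ∀ i, j ≤ i → i < m → ∀ y', RatExt j i y y' →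
      (∀ x ∈ Wst Set.univ i m (H - quad c) y', RegAt i m (H - quad c) x) ∧
      (∀ z : (Fin n → ℝ) × (Fin n → ℝ), Fcr i m (H - quad c) y' z = 0 →
        ∀ v, fderiv ℝ (Fcr i m (H - quad c) y') z v = 0 → v = 0) := by
  have key : ∀ (i : Fin n) (_ : i < m) (r : Fin n → ℚ), ∀ᵐ c : Par n,
      (∀ x ∈ Wst Set.univ i m (H - quad c) (fun a => if a < j then y a else (r a : ℝ)),
        RegAt i m (H - quad c) x) ∧
      (∀ z : (Fin n → ℝ) × (Fin n → ℝ),
        Fcr i m (H - quad c) (fun a => if a < j then y a else (r a : ℝ)) z = 0 →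
        ∀ v, fderiv ℝ (Fcr i m (H - quad c) (fun a => if a < j then y a else (r a : ℝ))) z v = 0 →
          v = 0) := fun i him r =>
    (ga H i m him (fun a => if a < j then y a else (r a : ℝ))).and
      (gb H i m him (fun a => if a < j then y a else (r a : ℝ)))
  have hall := MeasureTheory.ae_all_iff.2 fun i : Fin n =>
    MeasureTheory.ae_all_iff.2 fun him : i < m => MeasureTheory.ae_all_iff.2 fun r => key i him r
  filter_upwards [hall] with c hc i hji him y' hy'
  classical
  have hr : ∃ r : Fin n → ℚ, ∀ a, a < i → y' a = if a < j then y a else (r a : ℝ) := by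
    have h1 : ∀ a : Fin n, ∃ r : ℚ, a < i → y' a = if a < j then y a else (r : ℝ) := by
      intro a
      by_cases haj : a < j
      · exact ⟨0, fun _ => by rw [if_pos haj]; exact hy'.1 a haj⟩
      · by_cases hai : a < i
        · obtain ⟨r, hr⟩ := hy'.2 a (not_lt.1 haj) hai
          exact ⟨r, fun _ => by rw [if_neg haj]; exact hr⟩
        · exact ⟨0, fun h => absurd h hai⟩
    choose r hr using h1
    exact ⟨r, hr⟩
  obtain ⟨r, hr⟩ := hr
  have hW : ∀ (U : Set (Fin n → ℝ)), Wst U i m (H - quad c) y' =
      Wst U i m (H - quad c) (fun a => if a < j then y a else (r a : ℝ)) := by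
    intro U
    ext x
    refine and_congr_right fun _ => and_congr_left fun _ => forall₂_congr fun a ha => ?_
    rw [hr a ha]
  have hF : Fcr i m (H - quad c) y' =
      Fcr i m (H - quad c) (fun a => if a < j then y a else (r a : ℝ)) := by
    funext z
    refine Prod.ext (funext fun a => ?_) rfl
    show (if a < i then z.1 a - y' a else _) =
      (if a < i then z.1 a - (if a < j then y a else (r a : ℝ)) else _)
    by_cases ha : a < i
    · rw [if_pos ha, if_pos ha, hr a ha]
    · rw [if_neg ha, if_neg ha]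
  obtain ⟨h1, h2⟩ := hc i him r
  rw [hW, hF]
  exact ⟨h1, h2⟩

end Pool.Agent.RM90
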