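import Pool.Agent.Lib.MP_df59e7_lc_Y.RkY
import Pool.Agent.Lib.MP_df59e7_lc_X.GB1
import Pool.Agent.Lib.MP_df59e7_lc_X.PSard
import Pool.Agent.Lib.MP_df59e7_lc_X.QuadA

set_option autoImplicit false

/-! MP_df59e7_lc, project Y, module GenY1: genericity, multipliers in the directions `a > m`. -/

namespace Pool.Agent.RM90

open MvPolynomial

private theorem GenY1_smooth {n : ℕ} (p : MvPolynomial (Fin n) ℝ) :
    ContDiff ℝ 1 (fun x : Fin n → ℝ => eval x p) := by
  induction p using MvPolynomial.induction_on with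
  | C a => simpa using contDiff_const
  | add p q hp hq => simpa using hp.add hq
  | mul_X p i hp =>
    have h1 : ContDiff ℝ 1 (fun x : Fin n → ℝ => x i) := contDiff_apply ℝ ℝ i
    simpa using hp.mul h1

private theorem GenY1_comm {n : ℕ} (i j : Fin n) (p : MvPolynomial (Fin n) ℝ) :
    pderiv i (pderiv j p) = pderiv j (pderiv i p) := by
  have h : ⁅(pderiv i : Derivation ℝ (MvPolynomial (Fin n) ℝ) (MvPolynomial (Fin n) ℝ)),
      (pderiv j : Derivation ℝ (MvPolynomial (Fin n) ℝ) (MvPolynomial (Fin n) ℝ))⁆ = 0 := by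
    apply derivation_ext
    intro k
    have e : ∀ a b : Fin n, pderiv a (pderiv b (X k : MvPolynomial (Fin n) ℝ)) = 0 := by
      intro a b
      by_cases hb : b = k
      · rw [hb, pderiv_X_self, pderiv_one]
      · rw [pderiv_X_of_ne (Ne.symm hb), map_zero]
    rw [Derivation.commutator_apply, e, e, sub_zero]
    rfl
  have h1 := congrArg (fun D => D p) h
  simp only [Derivation.commutator_apply] at h1
  exact sub_eq_zero.1 h1

private theorem GenY1_sub {n : ℕ} (m l : Fin n) (G G' : MvPolynomial (Fin n) ℝ) :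
    eqn m (G - G') l = eqn m G l - eqn m G' l := by
  unfold eqn
  split_ifs
  · rfl
  · rw [map_sub]

private theorem GenY1_add {n : ℕ} (m l : Fin n) (G G' : MvPolynomial (Fin n) ℝ) :
    eqn m (G + G') l = eqn m G l + eqn m G' l := by
  unfold eqn
  split_ifs
  · rfl
  · rw [map_add]

private theorem GenY1_mul {n : ℕ} (m l : Fin n) (t : ℝ) (G : MvPolynomial (Fin n) ℝ) :
    eqn m (C t * G) l = C t * eqn m G l := by
  unfold eqn
  split_ifs
  · rfl
  · rw [pderiv_C_mul]

private theorem GenY1_eqc {N c : ℕ} (m l : Fin N) (p : MvPolynomial (Fin N) ℝ) :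
    eqn (Fin.castAdd c m) (rename (Fin.castAdd c) p) (Fin.castAdd c l) =
      rename (Fin.castAdd c) (eqn m p l) := by
  unfold eqn
  by_cases hl : l = m
  · rw [if_pos hl, if_pos (congrArg _ hl)]
  · rw [if_neg hl, if_neg, pderiv_castAdd_ren]
    intro h
    exact hl (Fin.castAdd_injective N c h)

private theorem GenY1_eqn {N c : ℕ} (m : Fin N) (k : Fin c) (p : MvPolynomial (Fin N) ℝ) :
    eqn (Fin.castAdd c m) (rename (Fin.castAdd c) p) (Fin.natAdd N k) = 0 := by
  unfold eqn
  rw [if_neg (GxD_ne m k).symm, pderiv_natAdd_ren]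

/-- the variables -/
private abbrev GenY1_Z (n : ℕ) : Type := (Fin n → ℝ) × (Fin n → ℝ)

/-- the system -/
private noncomputable def GenY1_F {N c : ℕ} (t : ℝ) (H : MvPolynomial (Fin (N + c)) ℝ)
    (j m : Fin N) (y : Fin (N + c) → ℝ) (p : GenY1_Z (N + c) × Par N) : GenY1_Z (N + c) :=
  Fct t (Fin.castAdd c j) (Fin.castAdd c m) (H - rename (Fin.castAdd c) (quad p.2)) y p.1

private theorem GenY1_G {N c : ℕ} (φ : MvPolynomial (Fin N) ℝ)
    (h : Fin c → MvPolynomial (Fin N) ℝ) (q : Par N) :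
    Gx (φ - quad q) h = Gx (φ - quad 0) h - rename (Fin.castAdd c) (quad q) := by
  have h1 := Gx_sub_quad φ h 0 q 1
  rw [zero_add, one_smul, C_1, one_mul] at h1
  exact h1

private theorem GenY1_split {N c : ℕ} (H : MvPolynomial (Fin (N + c)) ℝ) (m : Fin N)
    (l : Fin (N + c)) (q q' : Par N) (t : ℝ) :
    eqn (Fin.castAdd c m) (H - rename (Fin.castAdd c) (quad (q + t • q'))) l =
      eqn (Fin.castAdd c m) (H - rename (Fin.castAdd c) (quad q)) l -
        C t * eqn (Fin.castAdd c m) (rename (Fin.castAdd c) (quad q')) l := by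
  rw [quad_add, quad_smul, map_add, map_mul, rename_C, GenY1_sub, GenY1_sub, GenY1_add,
    GenY1_mul]
  ring

private theorem GenY1_eval {N c : ℕ} (H : MvPolynomial (Fin (N + c)) ℝ) (m : Fin N)
    (l : Fin (N + c)) (x : Fin (N + c) → ℝ) (q q' : Par N) (t : ℝ) :
    eval x (eqn (Fin.castAdd c m) (H - rename (Fin.castAdd c) (quad (q + t • q'))) l) =
      eval x (eqn (Fin.castAdd c m) (H - rename (Fin.castAdd c) (quad q)) l) -
        t * eval x (eqn (Fin.castAdd c m) (rename (Fin.castAdd c) (quad q')) l) := by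
  rw [GenY1_split, map_sub, map_mul, eval_C]

private theorem GenY1_evald {N c : ℕ} (H : MvPolynomial (Fin (N + c)) ℝ) (m : Fin N)
    (l a : Fin (N + c)) (x : Fin (N + c) → ℝ) (q q' : Par N) (t : ℝ) :
    eval x (pderiv a
      (eqn (Fin.castAdd c m) (H - rename (Fin.castAdd c) (quad (q + t • q'))) l)) =
      eval x (pderiv a (eqn (Fin.castAdd c m) (H - rename (Fin.castAdd c) (quad q)) l)) -
        t * eval x (pderiv a
          (eqn (Fin.castAdd c m) (rename (Fin.castAdd c) (quad q')) l)) := by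
  rw [GenY1_split, map_sub, pderiv_C_mul, map_sub, map_mul, eval_C]

private theorem GenY1_F_smooth {N c : ℕ} (t : ℝ) (H : MvPolynomial (Fin (N + c)) ℝ)
    (j m : Fin N) (y : Fin (N + c) → ℝ) : ContDiff ℝ 1 (GenY1_F t H j m y) := by
  have h0 : ContDiff ℝ 1 (fun p : GenY1_Z (N + c) × Par N => p.1.1) :=
    contDiff_fst.comp contDiff_fst
  have h1 : ∀ a, ContDiff ℝ 1 (fun p : GenY1_Z (N + c) × Par N => p.1.1 a) := fun a =>
    (contDiff_apply ℝ ℝ a).comp h0
  have h1' : ∀ a, ContDiff ℝ 1 (fun p : GenY1_Z (N + c) × Par N => fstP p.1.1 a) := fun a =>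
    h1 (Fin.castAdd c a)
  have hμ : ∀ a, ContDiff ℝ 1 (fun p : GenY1_Z (N + c) × Par N => p.1.2 a) := fun a =>
    (contDiff_apply ℝ ℝ a).comp (contDiff_snd.comp contDiff_fst)
  have hc : ContDiff ℝ 1 (fun p : GenY1_Z (N + c) × Par N => p.2.1) :=
    contDiff_fst.comp contDiff_snd
  have h2 : ∀ a, ContDiff ℝ 1 (fun p : GenY1_Z (N + c) × Par N => p.2.2.1 a) := fun a =>
    (contDiff_apply ℝ ℝ a).comp (contDiff_fst.comp (contDiff_snd.comp contDiff_snd))
  have h3 : ∀ a b, ContDiff ℝ 1 (fun p : GenY1_Z (N + c) × Par N => p.2.2.2 a b) :=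
    fun a b => (contDiff_apply_apply ℝ ℝ a b).comp
      (contDiff_snd.comp (contDiff_snd.comp contDiff_snd))
  have h4 : ∀ a, ContDiff ℝ 1 (fun p : GenY1_Z (N + c) × Par N =>
      eval (fstP p.1.1) (pderiv a (quad p.2))) := by
    intro a
    simp only [eval_pderiv_quad]
    refine (h2 a).add (ContDiff.sum fun b _ => ?_)
    exact (((h3 a b).add (h3 b a)).div_const 2).mul (h1' b)
  have h5' : ∀ l, ContDiff ℝ 1 (fun p : GenY1_Z (N + c) × Par N =>
      eval (fstP p.1.1) (eqn m (quad p.2) l)) := by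
    intro l
    unfold eqn
    by_cases hl : l = m
    · simp only [if_pos hl, eval_quad]
      refine (hc.add (ContDiff.sum fun a _ => (h2 a).mul (h1' a))).add
        (ContDiff.sum fun a _ => ContDiff.sum fun b _ => ?_)
      exact ((h3 a b).div_const 2).mul ((h1' a).mul (h1' b))
    · simp only [if_neg hl]
      exact h4 l
  have h5 : ∀ l, ContDiff ℝ 1 (fun p : GenY1_Z (N + c) × Par N => eval p.1.1
      (eqn (Fin.castAdd c m) (rename (Fin.castAdd c) (quad p.2)) l)) := by
    intro l
    refine Fin.addCases (fun l' => ?_) (fun k => ?_) l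
    · simp only [GenY1_eqc, eval_ren]
      exact h5' l'
    · simp only [GenY1_eqn, map_zero]
      exact contDiff_const
  have h6' : ∀ a l, ContDiff ℝ 1 (fun p : GenY1_Z (N + c) × Par N =>
      eval (fstP p.1.1) (pderiv a (eqn m (quad p.2) l))) := by
    intro a l
    unfold eqn
    by_cases hl : l = m
    · simp only [if_pos hl]
      exact h4 a
    · simp only [if_neg hl, eval_pderiv2_quad]
      exact ((h3 a l).add (h3 l a)).div_const 2
  have h6 : ∀ a l, ContDiff ℝ 1 (fun p : GenY1_Z (N + c) × Par N => eval p.1.1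
      (pderiv a (eqn (Fin.castAdd c m) (rename (Fin.castAdd c) (quad p.2)) l))) := by
    intro a l
    refine Fin.addCases (fun l' => ?_) (fun k => ?_) l
    · refine Fin.addCases (fun a' => ?_) (fun k => ?_) a
      · simp only [GenY1_eqc, pderiv_castAdd_ren, eval_ren]
        exact h6' a' l'
      · simp only [GenY1_eqc, pderiv_natAdd_ren, map_zero]
        exact contDiff_const
    · simp only [GenY1_eqn, map_zero]
      exact contDiff_const
  unfold GenY1_F Fct
  refine ContDiff.prodMk ?_ ?_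
  · rw [contDiff_pi]
    intro a
    split_ifs
    · exact (h1 a).sub contDiff_const
    · refine ContDiff.sub (ContDiff.sum fun l _ => ?_) contDiff_const
      split_ifs
      · simp only [GenY1_sub, map_sub]
        exact (hμ l).mul (((GenY1_smooth _).comp h0).sub (h6 a l))
      · exact contDiff_const
    · refine ContDiff.sub (ContDiff.sum fun l _ => ?_) contDiff_const
      split_ifs
      · simp only [GenY1_sub, map_sub]
        exact (hμ l).mul (((GenY1_smooth _).comp h0).sub (h6 a l))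
      · exact contDiff_const
  · rw [contDiff_pi]
    intro l
    split_ifs
    · exact hμ l
    · simp only [GenY1_sub, map_sub]
      exact ((GenY1_smooth _).comp h0).sub (h5 l)

private theorem GenY1_line {E W : Type} [NormedAddCommGroup E] [NormedSpace ℝ E]
    [NormedAddCommGroup W] [NormedSpace ℝ W] {f : E → W} {f' : E →L[ℝ] W} {p : E}
    (hf : HasFDerivAt f f' p) (φ : W →L[ℝ] ℝ) (w : E) {B : ℝ}
    (h : HasDerivAt (fun t : ℝ => φ (f (p + t • w))) B 0) : φ (f' w) = B := by
  have h1 : HasDerivAt (fun t : ℝ => p + t • w) w 0 := by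
    have h5 := ((hasDerivAt_id (0 : ℝ)).smul_const w).const_add p
    simpa using h5
  have h2 : HasFDerivAt (fun q => φ (f q)) (φ.comp f') (p + (0 : ℝ) • w) := by
    rw [zero_smul, add_zero]
    exact φ.hasFDerivAt.comp p hf
  have h3 := h2.comp_hasDerivAt (0 : ℝ) h1
  exact h3.unique h

private theorem GenY1_aff (A B : ℝ) : HasDerivAt (fun t : ℝ => A + t * B) B 0 := by
  simpa using ((hasDerivAt_id (0 : ℝ)).mul_const B).const_add A

/-- The derivative of a polynomial along a line. -/
private theorem GenY1_pline {n : ℕ} (P : MvPolynomial (Fin n) ℝ) (x v : Fin n → ℝ) :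
    HasDerivAt (fun t : ℝ => eval (x + t • v) P) (∑ b, eval x (pderiv b P) * v b) 0 := by
  have h1 : HasDerivAt (fun t : ℝ => x + t • v) v 0 := by
    have h5 := ((hasDerivAt_id (0 : ℝ)).smul_const v).const_add x
    simpa using h5
  have h2 : HasFDerivAt (fun x : Fin n → ℝ => eval x P) (Warren46.gradL P x)
      (x + (0 : ℝ) • v) := by
    rw [zero_smul, add_zero]
    exact Warren46.hasFDerivAt_eval P x
  have h3 := h2.comp_hasDerivAt (0 : ℝ) h1
  rw [Warren46.gradL_apply] at h3
  exact h3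

private theorem GenY1_surj {N c : ℕ} (s : ℝ) (H : MvPolynomial (Fin (N + c)) ℝ)
    (h : Fin c → MvPolynomial (Fin N) ℝ)
    (hH : ∀ k, pderiv (Fin.natAdd N k) H = - rename (Fin.castAdd c) (h k))
    (j m : Fin N) (hjm : j < m) (y : Fin (N + c) → ℝ) (p : GenY1_Z (N + c) × Par N)
    (hr : RkK m h (fstP p.1.1)) (hp : ∃ b, m < b ∧ p.1.2 (Fin.castAdd c b) ≠ 0) :
    Function.Surjective (fderiv ℝ (GenY1_F s H j m y) p) := by
  have hF : HasFDerivAt (GenY1_F s H j m y) (fderiv ℝ (GenY1_F s H j m y) p) p :=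
    (((GenY1_F_smooth s H j m y).differentiable one_ne_zero) p).hasFDerivAt
  obtain ⟨L, hL⟩ : ∃ L, L = fderiv ℝ (GenY1_F s H j m y) p := ⟨_, rfl⟩
  rw [← hL] at hF ⊢
  obtain ⟨x, hx⟩ : ∃ x, x = fstP p.1.1 := ⟨_, rfl⟩
  rw [← hx] at hr
  obtain ⟨φ, hφ⟩ : ∃ φ : Fin (N + c) → GenY1_Z (N + c) →L[ℝ] ℝ, ∀ a w, φ a w = w.1 a :=
    ⟨fun a => (ContinuousLinearMap.proj a : (Fin (N + c) → ℝ) →L[ℝ] ℝ).comp
      (ContinuousLinearMap.fst ℝ (Fin (N + c) → ℝ) (Fin (N + c) → ℝ)), fun a w => rfl⟩
  obtain ⟨ψ, hψ⟩ : ∃ ψ : Fin (N + c) → GenY1_Z (N + c) →L[ℝ] ℝ, ∀ a w, ψ a w = w.2 a :=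
    ⟨fun a => (ContinuousLinearMap.proj a : (Fin (N + c) → ℝ) →L[ℝ] ℝ).comp
      (ContinuousLinearMap.snd ℝ (Fin (N + c) → ℝ) (Fin (N + c) → ℝ)), fun a w => rfl⟩
  have hjn : ∀ k : Fin c, Fin.castAdd c j < Fin.natAdd N k := by
    intro k
    rw [Fin.lt_def, Fin.val_castAdd, Fin.val_natAdd]
    have := j.2
    omega
  have hmn : ∀ k : Fin c, Fin.castAdd c m < Fin.natAdd N k := by
    intro k
    rw [Fin.lt_def, Fin.val_castAdd, Fin.val_natAdd]
    have := m.2
    omega
  have e1 : ∀ (w : GenY1_Z (N + c) × Par N) (a : Fin (N + c)), a < Fin.castAdd c j →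
      (L w).1 a = w.1.1 a := by
    intro w a ha
    rw [← hφ]
    refine GenY1_line hF (φ a) w ?_
    have h6 : (fun t : ℝ => φ a (GenY1_F s H j m y (p + t • w))) =
        fun t => (p.1.1 a - y a) + t * w.1.1 a := by
      funext t
      rw [hφ]
      show (if a < Fin.castAdd c j then (p + t • w).1.1 a - y a else _) = _
      rw [if_pos ha]
      simp only [Prod.fst_add, Prod.smul_fst, Pi.add_apply, Pi.smul_apply, smul_eq_mul]
      ring
    rw [h6]
    exact GenY1_aff _ _
  have e1' : ∀ (w : GenY1_Z (N + c) × Par N) (l : Fin (N + c)), l < Fin.castAdd c m →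
      (L w).2 l = w.1.2 l := by
    intro w l hl
    rw [← hψ]
    refine GenY1_line hF (ψ l) w ?_
    have h6 : (fun t : ℝ => ψ l (GenY1_F s H j m y (p + t • w))) =
        fun t => p.1.2 l + t * w.1.2 l := by
      funext t
      rw [hψ]
      show (if l < Fin.castAdd c m then (p + t • w).1.2 l else _) = _
      rw [if_pos hl]
      simp only [Prod.fst_add, Prod.snd_add, Prod.smul_fst, Prod.smul_snd, Pi.add_apply,
        Pi.smul_apply, smul_eq_mul]
    rw [h6]
    exact GenY1_aff _ _
  -- the equations of the base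
  have e4 : ∀ (w : GenY1_Z (N + c) × Par N) (k : Fin c),
      (L w).2 (Fin.natAdd N k) = - ∑ b, eval x (pderiv b (h k)) * fstP w.1.1 b := by
    intro w k
    rw [← hψ]
    refine GenY1_line hF (ψ _) w ?_
    have h6 : (fun t : ℝ => ψ (Fin.natAdd N k) (GenY1_F s H j m y (p + t • w))) =
        fun t => - eval (x + t • fstP w.1.1) (h k) := by
      funext t
      rw [hψ]
      show (if Fin.natAdd N k < Fin.castAdd c m then _ else eval (p + t • w).1.1
        (eqn (Fin.castAdd c m) (H - rename (Fin.castAdd c) (quad (p + t • w).2))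
          (Fin.natAdd N k))) = _
      rw [if_neg (not_lt.2 (hmn k).le), GenY1_sub, GenY1_eqn, sub_zero, eqn,
        if_neg (hmn k).ne', hH, map_neg, eval_ren, hx]
      rfl
    rw [h6]
    exact (GenY1_pline (h k) x (fstP w.1.1)).neg
  have h7 : ∀ (q' : Par N) (t : ℝ),
      (p + t • ((0, q') : GenY1_Z (N + c) × Par N)).1 = p.1 := by
    intro q' t
    simp
  have h8 : ∀ (q' : Par N) (t : ℝ),
      (p + t • ((0, q') : GenY1_Z (N + c) × Par N)).2 = p.2 + t • q' := by
    intro q' t
    simp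
  have e2 : ∀ (q' : Par N) (a : Fin (N + c)), Fin.castAdd c j ≤ a →
      (L (0, q')).1 a = - ∑ l, (if Fin.castAdd c m ≤ l then p.1.2 l * eval p.1.1
        (pderiv a (eqn (Fin.castAdd c m) (rename (Fin.castAdd c) (quad q')) l)) else 0) := by
    intro q' a ha
    rw [← hφ]
    refine GenY1_line hF (φ a) (0, q') ?_
    have h6 : (fun t : ℝ => φ a (GenY1_F s H j m y
        (p + t • ((0, q') : GenY1_Z (N + c) × Par N)))) =
        fun t => (∑ l, (if Fin.castAdd c m ≤ l then p.1.2 l * eval p.1.1 (pderiv a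
          (eqn (Fin.castAdd c m) (H - rename (Fin.castAdd c) (quad p.2)) l)) else 0) -
          (if a = Fin.castAdd c j then s else 0)) + t *
        (- ∑ l, (if Fin.castAdd c m ≤ l then p.1.2 l * eval p.1.1
        (pderiv a (eqn (Fin.castAdd c m) (rename (Fin.castAdd c) (quad q')) l)) else 0)) := by
      funext t
      rw [hφ]
      show (if a < Fin.castAdd c j then _ else ∑ l, (if Fin.castAdd c m ≤ l then
        (p + t • ((0, q') : GenY1_Z (N + c) × Par N)).1.2 l *
          eval (p + t • ((0, q') : GenY1_Z (N + c) × Par N)).1.1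
            (pderiv a (eqn (Fin.castAdd c m) (H - rename (Fin.castAdd c)
              (quad (p + t • ((0, q') : GenY1_Z (N + c) × Par N)).2)) l)) else 0) -
          (if a = Fin.castAdd c j then s else 0)) = _
      rw [if_neg (not_lt.2 ha), h7, h8]
      have h9 : (∑ l, (if Fin.castAdd c m ≤ l then p.1.2 l * eval p.1.1 (pderiv a
          (eqn (Fin.castAdd c m) (H - rename (Fin.castAdd c) (quad (p.2 + t • q'))) l))
            else 0)) =
          (∑ l, (if Fin.castAdd c m ≤ l then p.1.2 l * eval p.1.1 (pderiv a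
          (eqn (Fin.castAdd c m) (H - rename (Fin.castAdd c) (quad p.2)) l)) else 0)) -
          t * ∑ l, (if Fin.castAdd c m ≤ l then p.1.2 l * eval p.1.1 (pderiv a
            (eqn (Fin.castAdd c m) (rename (Fin.castAdd c) (quad q')) l)) else 0) := by
        rw [Finset.mul_sum, ← Finset.sum_sub_distrib]
        refine Finset.sum_congr rfl fun l _ => ?_
        split_ifs
        · rw [GenY1_evald]
          ring
        · ring
      rw [h9]
      ring
    rw [h6]
    exact GenY1_aff _ _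
  have e2c : ∀ (q' : Par N) (a : Fin N), j ≤ a →
      (L (0, q')).1 (Fin.castAdd c a) = - ∑ l, (if m ≤ l then p.1.2 (Fin.castAdd c l) *
        eval x (pderiv a (eqn m (quad q') l)) else 0) := by
    intro q' a ha
    rw [e2 q' _ ha, Fin.sum_univ_add]
    have h9 : ∑ k : Fin c, (if Fin.castAdd c m ≤ Fin.natAdd N k then p.1.2 (Fin.natAdd N k) *
        eval p.1.1 (pderiv (Fin.castAdd c a)
        (eqn (Fin.castAdd c m) (rename (Fin.castAdd c) (quad q')) (Fin.natAdd N k)))
          else 0) = 0 := by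
      refine Finset.sum_eq_zero fun k _ => ?_
      rw [GenY1_eqn, map_zero, map_zero, mul_zero, ite_self]
    rw [h9, add_zero]
    congr 1
    refine Finset.sum_congr rfl fun l _ => ?_
    rw [GenY1_eqc, pderiv_castAdd_ren, eval_ren, ← hx]
    rfl
  have e2n : ∀ (q' : Par N) (k : Fin c), (L (0, q')).1 (Fin.natAdd N k) = 0 := by
    intro q' k
    rw [e2 q' _ (hjn k).le, neg_eq_zero]
    refine Finset.sum_eq_zero fun l _ => ?_
    have h9 : pderiv (Fin.natAdd N k) (eqn (Fin.castAdd c m)
        (rename (Fin.castAdd c) (quad q')) l) = 0 := by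
      refine Fin.addCases (fun l' => ?_) (fun k' => ?_) l
      · rw [GenY1_eqc, pderiv_natAdd_ren]
      · rw [GenY1_eqn, map_zero]
    rw [h9, map_zero, mul_zero, ite_self]
  have e2' : ∀ (q' : Par N) (l : Fin N), m ≤ l →
      (L (0, q')).2 (Fin.castAdd c l) = - eval x (eqn m (quad q') l) := by
    intro q' l hl
    rw [← hψ]
    refine GenY1_line hF (ψ _) (0, q') ?_
    have h6 : (fun t : ℝ => ψ (Fin.castAdd c l) (GenY1_F s H j m y
        (p + t • ((0, q') : GenY1_Z (N + c) × Par N)))) =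
        fun t => eval p.1.1 (eqn (Fin.castAdd c m)
          (H - rename (Fin.castAdd c) (quad p.2)) (Fin.castAdd c l)) +
          t * (- eval x (eqn m (quad q') l)) := by
      funext t
      rw [hψ]
      show (if Fin.castAdd c l < Fin.castAdd c m then _ else
        eval (p + t • ((0, q') : GenY1_Z (N + c) × Par N)).1.1
        (eqn (Fin.castAdd c m) (H - rename (Fin.castAdd c)
          (quad (p + t • ((0, q') : GenY1_Z (N + c) × Par N)).2)) (Fin.castAdd c l))) = _
      rw [if_neg (not_lt.2 (show Fin.castAdd c m ≤ Fin.castAdd c l from hl)), h7, h8,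
        GenY1_eval, GenY1_eqc, eval_ren, ← hx]
      ring
    rw [h6]
    exact GenY1_aff _ _
  -- the direction of the multipliers
  have e3 : ∀ (e : Fin (N + c) → ℝ) (k : Fin c),
      (L ((0, e), 0)).1 (Fin.natAdd N k) = ∑ l, (if Fin.castAdd c m ≤ l then e l *
        eval p.1.1 (pderiv (Fin.natAdd N k)
          (eqn (Fin.castAdd c m) (H - rename (Fin.castAdd c) (quad p.2)) l)) else 0) := by
    intro e k
    rw [← hφ]
    refine GenY1_line hF (φ _) ((0, e), 0) ?_
    have h6 : (fun t : ℝ => φ (Fin.natAdd N k) (GenY1_F s H j m y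
        (p + t • (((0, e), 0) : GenY1_Z (N + c) × Par N)))) =
        fun t => (∑ l, (if Fin.castAdd c m ≤ l then p.1.2 l * eval p.1.1
          (pderiv (Fin.natAdd N k) (eqn (Fin.castAdd c m)
            (H - rename (Fin.castAdd c) (quad p.2)) l)) else 0)) + t *
        (∑ l, (if Fin.castAdd c m ≤ l then e l * eval p.1.1
          (pderiv (Fin.natAdd N k) (eqn (Fin.castAdd c m)
            (H - rename (Fin.castAdd c) (quad p.2)) l)) else 0)) := by
      funext t
      rw [hφ]
      show (if Fin.natAdd N k < Fin.castAdd c j then _ else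
        ∑ l, (if Fin.castAdd c m ≤ l then
        (p + t • (((0, e), 0) : GenY1_Z (N + c) × Par N)).1.2 l *
          eval (p + t • (((0, e), 0) : GenY1_Z (N + c) × Par N)).1.1
            (pderiv (Fin.natAdd N k) (eqn (Fin.castAdd c m) (H - rename (Fin.castAdd c)
              (quad (p + t • (((0, e), 0) : GenY1_Z (N + c) × Par N)).2)) l)) else 0) -
          (if Fin.natAdd N k = Fin.castAdd c j then s else 0)) = _
      rw [if_neg (not_lt.2 (hjn k).le), if_neg (hjn k).ne', sub_zero]
      have g1 : (p + t • (((0, e), 0) : GenY1_Z (N + c) × Par N)).1.1 = p.1.1 := by simp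
      have g2 : (p + t • (((0, e), 0) : GenY1_Z (N + c) × Par N)).1.2 = p.1.2 + t • e := by
        simp
      have g3 : (p + t • (((0, e), 0) : GenY1_Z (N + c) × Par N)).2 = p.2 := by simp
      rw [g1, g2, g3, Finset.mul_sum, ← Finset.sum_add_distrib]
      refine Finset.sum_congr rfl fun l _ => ?_
      split_ifs
      · rw [Pi.add_apply, Pi.smul_apply, smul_eq_mul]
        ring
      · ring
    rw [h6]
    exact GenY1_aff _ _
  have e3c : ∀ (v : Fin N → ℝ) (k : Fin c), v m = 0 →
      (L ((0, Fin.append v (0 : Fin c → ℝ)), 0)).1 (Fin.natAdd N k) =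
        - ∑ l, (if m < l then v l * eval x (pderiv l (h k)) else 0) := by
    intro v k hv
    rw [e3, Fin.sum_univ_add]
    have h9 : ∑ k' : Fin c, (if Fin.castAdd c m ≤ Fin.natAdd N k' then
        (Fin.append v (0 : Fin c → ℝ)) (Fin.natAdd N k') *
        eval p.1.1 (pderiv (Fin.natAdd N k) (eqn (Fin.castAdd c m)
          (H - rename (Fin.castAdd c) (quad p.2)) (Fin.natAdd N k'))) else 0) = 0 := by
      refine Finset.sum_eq_zero fun k' _ => ?_
      rw [Fin.append_right, Pi.zero_apply, zero_mul, ite_self]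
    rw [h9, add_zero, ← Finset.sum_neg_distrib]
    refine Finset.sum_congr rfl fun l _ => ?_
    rw [Fin.append_left]
    rcases lt_trichotomy l m with h10 | h10 | h10
    · rw [if_neg (not_le.2 (show Fin.castAdd c l < Fin.castAdd c m from h10)),
        if_neg (not_lt.2 h10.le), neg_zero]
    · rw [h10, hv, zero_mul, ite_self, if_neg (lt_irrefl m), neg_zero]
    · rw [if_pos (show Fin.castAdd c m ≤ Fin.castAdd c l from h10.le), if_pos h10]
      have h11 : Fin.castAdd c l ≠ Fin.castAdd c m := by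
        intro h12
        exact h10.ne' (Fin.castAdd_injective N c h12)
      have h12 : pderiv (Fin.natAdd N k) (H - rename (Fin.castAdd c) (quad p.2)) =
          - rename (Fin.castAdd c) (h k) := by
        rw [map_sub, hH, pderiv_natAdd_ren, sub_zero]
      have h13 : pderiv (Fin.castAdd c l) (- rename (Fin.castAdd c) (h k)) =
          - rename (Fin.castAdd c) (pderiv l (h k)) := by
        rw [map_neg, pderiv_castAdd_ren]
      rw [eqn, if_neg h11, GenY1_comm, h12, h13, map_neg, eval_ren, ← hx]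
      ring
  intro w
  -- first step
  obtain ⟨u0, hu0⟩ : ∃ u0 : Fin N → ℝ,
      u0 = fun a => if a < j then w.1 (Fin.castAdd c a) else 0 := ⟨_, rfl⟩
  obtain ⟨u1, hu1, hu1'⟩ := rk_solve hr
    (fun k => - w.2 (Fin.natAdd N k) - ∑ a, u0 a * eval x (pderiv a (h k)))
  obtain ⟨d, hd0⟩ : ∃ d : Fin (N + c) → ℝ, d = Fin.append (u0 + u1) (0 : Fin c → ℝ) := ⟨_, rfl⟩
  have hdf : fstP d = u0 + u1 := by
    rw [hd0]
    exact fstP_append _ _
  have hda : ∀ a : Fin N, a < j → d (Fin.castAdd c a) = w.1 (Fin.castAdd c a) := by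
    intro a ha
    have h1 : d (Fin.castAdd c a) = fstP d a := rfl
    rw [h1, hdf, Pi.add_apply, hu1 a (ha.trans hjm).le, add_zero, hu0]
    exact if_pos ha
  have hdk : ∀ k : Fin c, - ∑ b, eval x (pderiv b (h k)) * fstP d b =
      w.2 (Fin.natAdd N k) := by
    intro k
    have h1 : ∑ b, eval x (pderiv b (h k)) * fstP d b =
        ∑ a, u0 a * eval x (pderiv a (h k)) + ∑ a, u1 a * eval x (pderiv a (h k)) := by
      rw [hdf, ← Finset.sum_add_distrib]
      refine Finset.sum_congr rfl fun b _ => ?_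
      rw [Pi.add_apply]
      ring
    rw [h1, hu1' k]
    ring
  -- second step
  obtain ⟨D1, hD1⟩ : ∃ D1, D1 = L ((d, 0), 0) := ⟨_, rfl⟩
  obtain ⟨v0, hv0⟩ : ∃ v0 : Fin N → ℝ,
      v0 = fun l => if l < m then w.2 (Fin.castAdd c l) else 0 := ⟨_, rfl⟩
  obtain ⟨v1, hv1, hv1'⟩ := rk_solve hr (fun k => D1.1 (Fin.natAdd N k) - w.1 (Fin.natAdd N k))
  obtain ⟨e, he⟩ : ∃ e : Fin (N + c) → ℝ, e = Fin.append (v0 + v1) (0 : Fin c → ℝ) := ⟨_, rfl⟩
  have hve : ∀ l : Fin N, l < m → e (Fin.castAdd c l) = w.2 (Fin.castAdd c l) := by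
    intro l hl
    rw [he, Fin.append_left, Pi.add_apply, hv1 l hl.le, add_zero, hv0]
    exact if_pos hl
  have hek : ∀ k : Fin c, (L ((0, e), 0)).1 (Fin.natAdd N k) =
      w.1 (Fin.natAdd N k) - D1.1 (Fin.natAdd N k) := by
    intro k
    have h9 : (v0 + v1) m = 0 := by
      rw [Pi.add_apply, hv1 m le_rfl, hv0]
      simp
    rw [he, e3c _ _ h9]
    have h10 : ∑ l, (if m < l then (v0 + v1) l * eval x (pderiv l (h k)) else 0) =
        ∑ a, v1 a * eval x (pderiv a (h k)) := by
      refine Finset.sum_congr rfl fun l _ => ?_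
      by_cases hl : m < l
      · rw [if_pos hl, Pi.add_apply, hv0]
        simp only [if_neg (not_lt.2 hl.le), zero_add]
      · rw [if_neg hl, hv1 l (not_lt.1 hl), zero_mul]
    rw [h10, hv1' k]
    ring
  -- third step
  obtain ⟨D, hD⟩ : ∃ D, D = L ((d, e), 0) := ⟨_, rfl⟩
  have hDD : D = D1 + L ((0, e), 0) := by
    have g1 : (((d, e), 0) : GenY1_Z (N + c) × Par N) = ((d, 0), 0) + ((0, e), 0) := by simp
    rw [hD, hD1, ← map_add, ← g1]
  have hν : (fun l => if m < l then p.1.2 (Fin.castAdd c l) else 0) ≠ 0 := by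
    intro h
    obtain ⟨l, hl, hl'⟩ := hp
    have h9 := congrFun h l
    simp only [if_pos hl, Pi.zero_apply] at h9
    exact hl' h9
  obtain ⟨q', hc1, hc2, hc3⟩ := exists_quad x _ hν
    (D.2 (Fin.castAdd c m) - w.2 (Fin.castAdd c m))
    (fun a => if m < a then D.2 (Fin.castAdd c a) - w.2 (Fin.castAdd c a) else 0)
    (fun a => (D.1 (Fin.castAdd c a) - w.1 (Fin.castAdd c a)) - p.1.2 (Fin.castAdd c m) *
      (if m < a then D.2 (Fin.castAdd c a) - w.2 (Fin.castAdd c a) else 0))
  refine ⟨((d, e), q'), ?_⟩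
  have e5 : (((d, e), q') : GenY1_Z (N + c) × Par N) = ((d, e), 0) + (0, q') := by simp
  have e6 : L ((d, e), q') = D + L (0, q') := by
    rw [hD, ← map_add, ← e5]
  refine Prod.ext ?_ ?_
  · funext a
    refine Fin.addCases (fun a' => ?_) (fun k => ?_) a
    · by_cases ha : a' < j
      · rw [e1 _ _ (show Fin.castAdd c a' < Fin.castAdd c j from ha)]
        exact hda _ ha
      · rw [e6]
        show D.1 (Fin.castAdd c a') + (L (0, q')).1 (Fin.castAdd c a') = w.1 (Fin.castAdd c a')
        rw [e2c q' a' (not_lt.1 ha)]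
        have h9 : ∀ l, (if m ≤ l then p.1.2 (Fin.castAdd c l) *
            eval x (pderiv a' (eqn m (quad q') l)) else 0) =
            (if l = m then p.1.2 (Fin.castAdd c m) * (if m < a' then
              D.2 (Fin.castAdd c a') - w.2 (Fin.castAdd c a') else 0) else 0) +
              eval x (pderiv a' (pderiv l (quad q'))) *
                (if m < l then p.1.2 (Fin.castAdd c l) else 0) := by
          intro l
          rcases lt_trichotomy l m with h10 | h10 | h10
          · rw [if_neg (not_le.2 h10), if_neg h10.ne, if_neg (not_lt.2 h10.le)]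
            ring
          · subst h10
            rw [if_pos le_rfl, if_pos rfl, if_neg (lt_irrefl l), mul_zero, add_zero]
            unfold eqn
            rw [if_pos rfl, hc2]
          · rw [if_pos h10.le, if_neg h10.ne', if_pos h10]
            unfold eqn
            rw [if_neg h10.ne']
            ring
        rw [Finset.sum_congr rfl fun l _ => h9 l, Finset.sum_add_distrib, hc3,
          Finset.sum_ite_eq', if_pos (Finset.mem_univ m)]
        ring
    · rw [e6]
      show D.1 (Fin.natAdd N k) + (L (0, q')).1 (Fin.natAdd N k) = w.1 (Fin.natAdd N k)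
      rw [e2n, hDD]
      show D1.1 (Fin.natAdd N k) + (L ((0, e), 0)).1 (Fin.natAdd N k) + 0 = _
      rw [hek]
      ring
  · funext l
    refine Fin.addCases (fun l' => ?_) (fun k => ?_) l
    · by_cases hl : l' < m
      · rw [e1' _ _ (show Fin.castAdd c l' < Fin.castAdd c m from hl)]
        exact hve _ hl
      · rw [e6]
        show D.2 (Fin.castAdd c l') + (L (0, q')).2 (Fin.castAdd c l') = w.2 (Fin.castAdd c l')
        rw [e2' q' l' (not_lt.1 hl)]
        unfold eqn
        by_cases h10 : l' = m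
        · subst h10
          rw [if_pos rfl, hc1]
          ring
        · rw [if_neg h10, hc2, if_pos (lt_of_le_of_ne (not_lt.1 hl) (Ne.symm h10))]
          ring
    · rw [e4]
      exact hdk k

/-- Proof: as `gb1` (Lib/MP_df59e7_lc_X/GB1.lean; copy the file), with `param_sard` for
`Z = W = (Fin (N+c) → ℝ) × (Fin (N+c) → ℝ)`, `Λ = Par N`,
`F(z, q) = Fct t j' m' (Gx (φ - quad q) h) y z`
(`j' = castAdd c j`, `m' = castAdd c m`), `Ω = {(z, q) | RkK m h (fstP z.1), ∃ b > m, μ_b ≠ 0}`
(open: `rkK_open`). Write `z = ((x, lam), μ)`. Surjectivity at a zero in `Ω`; target `(P, r)`: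
(1) choose `δx_a = P_a` for `a < j`, `δlam = 0`, `δx_b = 0` for `j ≤ b ≤ m` and `δx_b`, `m < b`,
such that the components `r_l`, `l = natAdd N k`, are right: the equation is `- h_k(x)`, so its
derivative is `- ∑_b ∂_b h_k δx_b`; `rk_solve`. (2) choose `δμ_l = r_l` for `l < m'`,
`δμ_{m'} = 0`, `δμ_{natAdd k} = 0`, and `δμ_b`, `m < b < N`, such that the components `P_a`,
`a = natAdd N k`, are right: this component is
`μ_{m'} ∂_a G + ∑_{m < b < N} μ_b ∂_a ∂_b G = - μ_{m'} h_k(x) - ∑_b μ_b ∂_b h_k(x)` (it does not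
depend on `q`, and `∂_a ∂_l G = 0` for `l = natAdd`), its derivative in the direction `δμ` is
`- ∑_b δμ_b ∂_b h_k`; `rk_solve` again (the part coming from `δx` is already fixed). (3) the
remaining components are `P_a`, `a = castAdd a'`, `j ≤ a'`, and `r_l`, `l = castAdd l'`, `m ≤ l'`;
they are corrected by `δq = q'`: by `Gx_sub_quad` their derivatives in this direction are
`- (μ_{m'} ∂_{a'} Q + ∑_{m < b < N} μ_b ∂_{a'} ∂_b Q)(x)`, `- Q(x)` (`l' = m`) and `- ∂_{l'} Q(x)`
with `Q = quad q'`: `exists_quad` in `Fin N`, with `ν_b = μ_b` for `b > m`, `0` otherwise, as in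
`GB1_surj`. The components in (1), (2) do not depend on `q`. -/
theorem gY1 {N c : ℕ} (t : ℝ) (φ : MvPolynomial (Fin N) ℝ) (h : Fin c → MvPolynomial (Fin N) ℝ)
    (j m : Fin N) (hjm : j < m) (y : Fin (N + c) → ℝ) :
    ∀ᵐ q : Par N, ∀ z : (Fin (N + c) → ℝ) × (Fin (N + c) → ℝ), RkK m h (fstP z.1) →
      (∃ b, m < b ∧ z.2 (Fin.castAdd c b) ≠ 0) →
      Fct t (Fin.castAdd c j) (Fin.castAdd c m) (Gx (φ - quad q) h) y z = 0 →
      ∀ v, fderiv ℝ (Fct t (Fin.castAdd c j) (Fin.castAdd c m) (Gx (φ - quad q) h) y) z v = 0 →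
        v = 0 := by
  have h1 : (MeasureTheory.volume : MeasureTheory.Measure (Fin N → ℝ)).IsAddHaarMeasure :=
    inferInstance
  have h2 : (MeasureTheory.volume :
      MeasureTheory.Measure (Fin N → Fin N → ℝ)).IsAddHaarMeasure := inferInstance
  have h3 : (MeasureTheory.volume : MeasureTheory.Measure
      ((Fin N → ℝ) × (Fin N → Fin N → ℝ))).IsAddHaarMeasure := by
    change ((MeasureTheory.volume : MeasureTheory.Measure (Fin N → ℝ)).prod
      (MeasureTheory.volume : MeasureTheory.Measure (Fin N → Fin N → ℝ))).IsAddHaarMeasure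
    infer_instance
  have h4 : (MeasureTheory.volume : MeasureTheory.Measure (Par N)).IsAddHaarMeasure := by
    change ((MeasureTheory.volume : MeasureTheory.Measure ℝ).prod
      (MeasureTheory.volume : MeasureTheory.Measure
        ((Fin N → ℝ) × (Fin N → Fin N → ℝ)))).IsAddHaarMeasure
    infer_instance
  obtain ⟨H, hHdef⟩ : ∃ H : MvPolynomial (Fin (N + c)) ℝ, H = Gx (φ - quad 0) h := ⟨_, rfl⟩
  have hH : ∀ k, pderiv (Fin.natAdd N k) H = - rename (Fin.castAdd c) (h k) := by
    intro k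
    rw [hHdef]
    exact pderiv_natAdd_Gx _ _ k
  have hG : ∀ q : Par N, Gx (φ - quad q) h = H - rename (Fin.castAdd c) (quad q) := by
    intro q
    rw [hHdef]
    exact GenY1_G φ h q
  have hopen : IsOpen {p : GenY1_Z (N + c) × Par N | RkK m h (fstP p.1.1) ∧
      ∃ b, m < b ∧ p.1.2 (Fin.castAdd c b) ≠ 0} := by
    have h5 : {p : GenY1_Z (N + c) × Par N | RkK m h (fstP p.1.1) ∧
        ∃ b, m < b ∧ p.1.2 (Fin.castAdd c b) ≠ 0} =
        {p : GenY1_Z (N + c) × Par N | RkK m h (fstP p.1.1)} ∩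
        ⋃ b, ⋃ (_ : m < b), {p : GenY1_Z (N + c) × Par N | p.1.2 (Fin.castAdd c b) ≠ 0} := by
      ext p
      simp
    rw [h5]
    refine IsOpen.inter ?_ (isOpen_iUnion fun l => isOpen_iUnion fun _ => ?_)
    · exact (rkK_open m h).preimage (continuous_fstP.comp (continuous_fst.comp continuous_fst))
    · exact isOpen_ne_fun (by fun_prop) continuous_const
  have key := param_sard (Z := GenY1_Z (N + c)) (W := GenY1_Z (N + c)) (Λ := Par N)
    (MeasureTheory.volume : MeasureTheory.Measure (Par N)) rfl (GenY1_F t H j m y)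
    _ hopen (GenY1_F_smooth t H j m y)
    (fun p hp _ => GenY1_surj t H h hH j m hjm y p hp.1 hp.2)
  filter_upwards [key] with q hq z hrk hz h0 v hv
  rw [hG] at h0 hv
  refine hq z ⟨hrk, hz⟩ h0 v ?_
  have hF : HasFDerivAt (GenY1_F t H j m y) (fderiv ℝ (GenY1_F t H j m y) (z, q)) (z, q) :=
    (((GenY1_F_smooth t H j m y).differentiable one_ne_zero) (z, q)).hasFDerivAt
  have h5 : HasFDerivAt (Fct t (Fin.castAdd c j) (Fin.castAdd c m)
      (H - rename (Fin.castAdd c) (quad q)) y)
      ((fderiv ℝ (GenY1_F t H j m y) (z, q)).comp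
        (ContinuousLinearMap.inl ℝ (GenY1_Z (N + c)) (Par N)))
      z := HasFDerivAt.comp (g := GenY1_F t H j m y) (f := fun e : GenY1_Z (N + c) => (e, q)) z hF
        (hasFDerivAt_prodMk_left z q)
  rw [h5.fderiv] at hv
  exact hv

end Pool.Agent.RM90
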