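import Pool.Agent.Lib.MP_df59e7_lc_Y.RkY
import Pool.Agent.Lib.MP_df59e7_lc_X.GB2
import Pool.Agent.Lib.MP_df59e7_lc_X.PSard
import Pool.Agent.Lib.MP_df59e7_lc_X.QuadA

set_option autoImplicit false

/-! MP_df59e7_lc, project Y, module GenY2: genericity, points where all `∂_a`, `a > j`, vanish. -/

namespace Pool.Agent.RM90

open MvPolynomial

private theorem GenY2_smooth {n : ℕ} (p : MvPolynomial (Fin n) ℝ) :
    ContDiff ℝ 1 (fun x : Fin n → ℝ => eval x p) := by
  induction p using MvPolynomial.induction_on with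
  | C a => simpa using contDiff_const
  | add p q hp hq => simpa using hp.add hq
  | mul_X p i hp =>
    have h1 : ContDiff ℝ 1 (fun x : Fin n → ℝ => x i) := contDiff_apply ℝ ℝ i
    simpa using hp.mul h1

/-- the parameters of the linear and quadratic terms -/
private abbrev GenY2_L (n : ℕ) : Type := (Fin n → ℝ) × (Fin n → Fin n → ℝ)

/-- the derivative of the quadratic part -/
private noncomputable def GenY2_B {n : ℕ} (x : Fin n → ℝ) (l : GenY2_L n) (a : Fin n) : ℝ :=
  l.1 a + ∑ b, (l.2 a b + l.2 b a) / 2 * x b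

/-- the value of the quadratic polynomial -/
private noncomputable def GenY2_A {n : ℕ} (x : Fin n → ℝ) (c : Par n) : ℝ :=
  c.1 + ∑ i, c.2.1 i * x i + ∑ i, ∑ l, c.2.2 i l / 2 * (x i * x l)

private theorem GenY2_A_eq {n : ℕ} (x : Fin n → ℝ) (c : Par n) :
    eval x (quad c) = GenY2_A x c := eval_quad c x

private theorem GenY2_B_eq {n : ℕ} (x : Fin n → ℝ) (c : Par n) (a : Fin n) :
    eval x (pderiv a (quad c)) = GenY2_B x c.2 a := by
  rw [eval_pderiv_quad]
  rfl

private theorem GenY2_A_add {n : ℕ} (x : Fin n → ℝ) (c c' : Par n) (t : ℝ) :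
    GenY2_A x (c + t • c') = GenY2_A x c + t * GenY2_A x c' := by
  rw [← GenY2_A_eq, quad_add, quad_smul, map_add, map_mul, eval_C, GenY2_A_eq, GenY2_A_eq]

private theorem GenY2_B_add {n : ℕ} (x : Fin n → ℝ) (l l' : GenY2_L n) (t : ℝ) (a : Fin n) :
    GenY2_B x (l + t • l') a = GenY2_B x l a + t * GenY2_B x l' a := by
  unfold GenY2_B
  simp only [Prod.fst_add, Prod.snd_add, Prod.smul_fst, Prod.smul_snd, Pi.add_apply,
    Pi.smul_apply, smul_eq_mul]
  rw [mul_add, Finset.mul_sum]
  have h1 : ∀ b, (l.2 a b + t * l'.2 a b + (l.2 b a + t * l'.2 b a)) / 2 * x b =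
      (l.2 a b + l.2 b a) / 2 * x b + t * ((l'.2 a b + l'.2 b a) / 2 * x b) := fun b => by ring
  simp only [h1]
  rw [Finset.sum_add_distrib]
  ring

/-- A component of the derivative is the derivative along a line. -/
private theorem GenY2_line {V ι : Type} [NormedAddCommGroup V] [NormedSpace ℝ V] [Fintype ι]
    {F : V → ι → ℝ} {p : V} (hF : DifferentiableAt ℝ F p) (w : V) (a : ι) {d : ℝ}
    (hd : HasDerivAt (fun t : ℝ => F (p + t • w) a) d 0) : fderiv ℝ F p w a = d := by
  have h1 : HasDerivAt (fun t : ℝ => p + t • w) w 0 := by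
    have h5 := ((hasDerivAt_id (0 : ℝ)).smul_const w).const_add p
    simpa using h5
  have h2 : HasFDerivAt F (fderiv ℝ F p) (p + (0 : ℝ) • w) := by
    rw [zero_smul, add_zero]
    exact hF.hasFDerivAt
  have h3 := (hasDerivAt_pi.1 (h2.comp_hasDerivAt (0 : ℝ) h1)) a
  exact h3.unique hd

/-- The derivative of a polynomial along a line. -/
private theorem GenY2_pline {n : ℕ} (P : MvPolynomial (Fin n) ℝ) (x v : Fin n → ℝ) :
    HasDerivAt (fun t : ℝ => eval (x + t • v) P) (∑ b, eval x (pderiv b P) * v b) 0 := by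
  have h1 : HasDerivAt (fun t : ℝ => x + t • v) v 0 := by
    have h5 := ((hasDerivAt_id (0 : ℝ)).smul_const v).const_add x
    simpa using h5
  have h2 : HasFDerivAt (fun x : Fin n → ℝ => eval x P) (Warren46.gradL P x)
      (x + (0 : ℝ) • v) := by
    rw [zero_smul, add_zero]
    exact Warren46.hasFDerivAt_eval P x
  have h3 := h2.comp_hasDerivAt (0 : ℝ) h1
  rw [Warren46.gradL_apply] at h3
  exact h3

/-- the derivative of the quadratic part with respect to a variable of the larger space -/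
private noncomputable def GenY2_Bx {N c : ℕ} (x : Fin N → ℝ) (l : GenY2_L N)
    (a : Fin (N + c)) : ℝ :=
  Fin.addCases (fun a' => GenY2_B x l a') (fun _ => 0) a

private theorem GenY2_Bx_l {N c : ℕ} (x : Fin N → ℝ) (l : GenY2_L N) (a : Fin N) :
    GenY2_Bx (c := c) x l (Fin.castAdd c a) = GenY2_B x l a := Fin.addCases_left a

private theorem GenY2_Bx_r {N c : ℕ} (x : Fin N → ℝ) (l : GenY2_L N) (k : Fin c) :
    GenY2_Bx (c := c) x l (Fin.natAdd N k) = 0 := Fin.addCases_right k

private theorem GenY2_G {N c : ℕ} (φ : MvPolynomial (Fin N) ℝ)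
    (h : Fin c → MvPolynomial (Fin N) ℝ) (q : Par N) :
    Gx (φ - quad q) h = Gx (φ - quad 0) h - rename (Fin.castAdd c) (quad q) := by
  have h1 := Gx_sub_quad φ h 0 q 1
  rw [zero_add, one_smul, C_1, one_mul] at h1
  exact h1

private theorem GenY2_ev {N c : ℕ} (φ : MvPolynomial (Fin N) ℝ)
    (h : Fin c → MvPolynomial (Fin N) ℝ) (q : Par N) (z : Fin (N + c) → ℝ) :
    eval z (Gx (φ - quad q) h) = eval z (Gx (φ - quad 0) h) - GenY2_A (fstP z) q := by
  rw [GenY2_G, map_sub, eval_ren, GenY2_A_eq]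

private theorem GenY2_pd {N c : ℕ} (φ : MvPolynomial (Fin N) ℝ)
    (h : Fin c → MvPolynomial (Fin N) ℝ) (q : Par N) (z : Fin (N + c) → ℝ) (a : Fin (N + c)) :
    eval z (pderiv a (Gx (φ - quad q) h)) =
      eval z (pderiv a (Gx (φ - quad 0) h)) - GenY2_Bx (fstP z) q.2 a := by
  rw [GenY2_G, map_sub, map_sub]
  refine Fin.addCases (fun a' => ?_) (fun k => ?_) a
  · rw [pderiv_castAdd_ren, eval_ren, GenY2_B_eq, GenY2_Bx_l]
  · rw [pderiv_natAdd_ren, GenY2_Bx_r, map_zero]

/-- the system -/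
private noncomputable def GenY2_F {N c : ℕ} (H : MvPolynomial (Fin (N + c)) ℝ) (j : Fin N)
    (y : Fin (N + c) → ℝ) (p : (Fin (N + c) → ℝ) × Par N) : Fin (N + c) → ℝ :=
  fun a => if a < Fin.castAdd c j then p.1 a - y a else if a = Fin.castAdd c j then
    eval p.1 H - GenY2_A (fstP p.1) p.2 else
    eval p.1 (pderiv a H) - GenY2_Bx (fstP p.1) p.2.2 a

private theorem GenY2_F_smooth {N c : ℕ} (H : MvPolynomial (Fin (N + c)) ℝ) (j : Fin N)
    (y : Fin (N + c) → ℝ) : ContDiff ℝ 1 (GenY2_F H j y) := by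
  have h1 : ∀ a, ContDiff ℝ 1 (fun p : (Fin (N + c) → ℝ) × Par N => p.1 a) := fun a =>
    (contDiff_apply ℝ ℝ a).comp contDiff_fst
  have h1' : ∀ a, ContDiff ℝ 1 (fun p : (Fin (N + c) → ℝ) × Par N => fstP p.1 a) := fun a =>
    h1 (Fin.castAdd c a)
  have h0 : ContDiff ℝ 1 (fun p : (Fin (N + c) → ℝ) × Par N => p.2.1) :=
    contDiff_fst.comp contDiff_snd
  have h2 : ∀ a, ContDiff ℝ 1 (fun p : (Fin (N + c) → ℝ) × Par N => p.2.2.1 a) := fun a =>
    (contDiff_apply ℝ ℝ a).comp (contDiff_fst.comp (contDiff_snd.comp contDiff_snd))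
  have h3 : ∀ a b, ContDiff ℝ 1 (fun p : (Fin (N + c) → ℝ) × Par N => p.2.2.2 a b) :=
    fun a b => (contDiff_apply_apply ℝ ℝ a b).comp
      (contDiff_snd.comp (contDiff_snd.comp contDiff_snd))
  rw [contDiff_pi]
  intro a
  unfold GenY2_F
  split_ifs
  · exact (h1 a).sub contDiff_const
  · refine ((GenY2_smooth H).comp contDiff_fst).sub ?_
    unfold GenY2_A
    refine (h0.add (ContDiff.sum fun a _ => (h2 a).mul (h1' a))).add
      (ContDiff.sum fun a _ => ContDiff.sum fun b _ => ?_)
    exact ((h3 a b).div_const 2).mul ((h1' a).mul (h1' b))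
  · refine ((GenY2_smooth (pderiv a H)).comp contDiff_fst).sub ?_
    refine Fin.addCases (fun a' => ?_) (fun k => ?_) a
    · simp only [GenY2_Bx_l]
      unfold GenY2_B
      refine (h2 a').add (ContDiff.sum fun b _ => ?_)
      exact (((h3 a' b).add (h3 b a')).div_const 2).mul (h1' b)
    · simp only [GenY2_Bx_r]
      exact contDiff_const

private theorem GenY2_F_surj {N c : ℕ} (H : MvPolynomial (Fin (N + c)) ℝ)
    (h : Fin c → MvPolynomial (Fin N) ℝ)
    (hH : ∀ k, pderiv (Fin.natAdd N k) H = - rename (Fin.castAdd c) (h k))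
    (j m : Fin N) (hjm : j < m) (y : Fin (N + c) → ℝ) (p : (Fin (N + c) → ℝ) × Par N)
    (hr : RkK m h (fstP p.1)) :
    Function.Surjective (fderiv ℝ (GenY2_F H j y) p) := by
  have hd : DifferentiableAt ℝ (GenY2_F H j y) p :=
    ((GenY2_F_smooth H j y).differentiable one_ne_zero) p
  have hlt : ∀ k : Fin c, Fin.castAdd c j < Fin.natAdd N k := by
    intro k
    rw [Fin.lt_def, Fin.val_castAdd, Fin.val_natAdd]
    have := j.2
    omega
  -- the components `a < j`
  have e1 : ∀ (w : (Fin (N + c) → ℝ) × Par N) (a : Fin (N + c)), a < Fin.castAdd c j →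
      fderiv ℝ (GenY2_F H j y) p w a = w.1 a := by
    intro w a ha
    refine GenY2_line hd w a ?_
    have h6 : (fun t : ℝ => GenY2_F H j y (p + t • w) a) =
        fun t => (p.1 a - y a) + t * w.1 a := by
      funext t
      unfold GenY2_F
      rw [if_pos ha]
      simp only [Prod.fst_add, Prod.smul_fst, Pi.add_apply, Pi.smul_apply, smul_eq_mul]
      ring
    rw [h6]
    have h9 := ((hasDerivAt_id (0 : ℝ)).mul_const (w.1 a)).const_add (p.1 a - y a)
    simpa using h9
  -- the components of the multipliers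
  have e4 : ∀ (w : (Fin (N + c) → ℝ) × Par N) (k : Fin c),
      fderiv ℝ (GenY2_F H j y) p w (Fin.natAdd N k) =
        - ∑ b, eval (fstP p.1) (pderiv b (h k)) * fstP w.1 b := by
    intro w k
    refine GenY2_line hd w _ ?_
    have h6 : (fun t : ℝ => GenY2_F H j y (p + t • w) (Fin.natAdd N k)) =
        fun t => - eval (fstP p.1 + t • fstP w.1) (h k) := by
      funext t
      unfold GenY2_F
      rw [if_neg (not_lt.2 (hlt k).le), if_neg (hlt k).ne', hH, GenY2_Bx_r, map_neg, eval_ren,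
        sub_zero]
      rfl
    rw [h6]
    exact (GenY2_pline (h k) (fstP p.1) (fstP w.1)).neg
  have e2 : ∀ (q : Par N), fderiv ℝ (GenY2_F H j y) p (0, q) (Fin.castAdd c j) =
      - GenY2_A (fstP p.1) q := by
    intro q
    refine GenY2_line hd _ _ ?_
    have h6 : (fun t : ℝ => GenY2_F H j y (p + t • ((0, q) : (Fin (N + c) → ℝ) × Par N))
        (Fin.castAdd c j)) =
        fun t => (eval p.1 H - GenY2_A (fstP p.1) p.2) - t * GenY2_A (fstP p.1) q := by
      funext t
      unfold GenY2_F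
      rw [if_neg (lt_irrefl _), if_pos rfl]
      have h7 : (p + t • ((0, q) : (Fin (N + c) → ℝ) × Par N)).1 = p.1 := by simp
      have h8 : (p + t • ((0, q) : (Fin (N + c) → ℝ) × Par N)).2 = p.2 + t • q := by simp
      rw [h7, h8, GenY2_A_add]
      ring
    rw [h6]
    have h9 := ((hasDerivAt_id (0 : ℝ)).mul_const (GenY2_A (fstP p.1) q)).const_sub
      (eval p.1 H - GenY2_A (fstP p.1) p.2)
    simpa using h9
  have e3 : ∀ (q : Par N) (a : Fin N), j < a →
      fderiv ℝ (GenY2_F H j y) p (0, q) (Fin.castAdd c a) = - GenY2_B (fstP p.1) q.2 a := by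
    intro q a ha
    have ha' : Fin.castAdd c j < Fin.castAdd c a := ha
    refine GenY2_line hd _ _ ?_
    have h6 : (fun t : ℝ => GenY2_F H j y (p + t • ((0, q) : (Fin (N + c) → ℝ) × Par N))
        (Fin.castAdd c a)) =
        fun t => (eval p.1 (pderiv (Fin.castAdd c a) H) - GenY2_B (fstP p.1) p.2.2 a) -
          t * GenY2_B (fstP p.1) q.2 a := by
      funext t
      unfold GenY2_F
      rw [if_neg (not_lt.2 ha'.le), if_neg ha'.ne', GenY2_Bx_l]
      have h7 : (p + t • ((0, q) : (Fin (N + c) → ℝ) × Par N)).1 = p.1 := by simp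
      have h8 : (p + t • ((0, q) : (Fin (N + c) → ℝ) × Par N)).2.2 = p.2.2 + t • q.2 := by simp
      rw [h7, h8, GenY2_B_add]
      ring
    rw [h6]
    have h9 := ((hasDerivAt_id (0 : ℝ)).mul_const (GenY2_B (fstP p.1) q.2 a)).const_sub
      (eval p.1 (pderiv (Fin.castAdd c a) H) - GenY2_B (fstP p.1) p.2.2 a)
    simpa using h9
  intro w
  obtain ⟨u0, hu0⟩ : ∃ u0 : Fin N → ℝ, u0 = fun a => if a < j then w (Fin.castAdd c a) else 0 :=
    ⟨_, rfl⟩
  obtain ⟨u1, hu1, hu1'⟩ := rk_solve hr
    (fun k => - w (Fin.natAdd N k) - ∑ a, u0 a * eval (fstP p.1) (pderiv a (h k)))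
  obtain ⟨d, hd0⟩ : ∃ d : Fin (N + c) → ℝ, d = Fin.append (u0 + u1) (0 : Fin c → ℝ) := ⟨_, rfl⟩
  have hdf : fstP d = u0 + u1 := by
    rw [hd0]
    exact fstP_append _ _
  have hda : ∀ a : Fin (N + c), a < Fin.castAdd c j → d a = w a := by
    intro a
    refine Fin.addCases (fun a' => ?_) (fun k => ?_) a
    · intro ha
      have ha' : a' < j := ha
      have h1 : d (Fin.castAdd c a') = fstP d a' := rfl
      rw [h1, hdf, Pi.add_apply, hu1 a' (ha'.trans hjm).le, add_zero, hu0]
      exact if_pos ha'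
    · intro ha
      exact absurd ha (not_lt.2 (hlt k).le)
  have hdk : ∀ k : Fin c, - ∑ b, eval (fstP p.1) (pderiv b (h k)) * fstP d b =
      w (Fin.natAdd N k) := by
    intro k
    have h1 : ∑ b, eval (fstP p.1) (pderiv b (h k)) * fstP d b =
        ∑ a, u0 a * eval (fstP p.1) (pderiv a (h k)) +
          ∑ a, u1 a * eval (fstP p.1) (pderiv a (h k)) := by
      rw [hdf, ← Finset.sum_add_distrib]
      refine Finset.sum_congr rfl fun b _ => ?_
      rw [Pi.add_apply]
      ring
    rw [h1, hu1' k]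
    ring
  have hne : (fun _ : Fin N => (1 : ℝ)) ≠ 0 := by
    intro h
    have := congrFun h j
    simp at this
  obtain ⟨q, hq1, hq2, -⟩ := exists_quad (fstP p.1) (fun _ => (1 : ℝ)) hne
    (fderiv ℝ (GenY2_F H j y) p (d, 0) (Fin.castAdd c j) - w (Fin.castAdd c j))
    (fun a => fderiv ℝ (GenY2_F H j y) p (d, 0) (Fin.castAdd c a) - w (Fin.castAdd c a)) 0
  refine ⟨(d, q), ?_⟩
  have e5 : ((d, q) : (Fin (N + c) → ℝ) × Par N) = (d, 0) + (0, q) := by simp
  funext a
  refine Fin.addCases (fun a' => ?_) (fun k => ?_) a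
  · rcases lt_trichotomy a' j with ha | ha | ha
    · rw [e1 _ _ (show Fin.castAdd c a' < Fin.castAdd c j from ha)]
      exact hda _ ha
    · subst ha
      rw [e5, map_add, Pi.add_apply, e2 q, ← GenY2_A_eq, hq1]
      ring
    · rw [e5, map_add, Pi.add_apply, e3 q a' ha, ← GenY2_B_eq, hq2 a']
      ring
  · rw [e4]
    exact hdk k

/-- Proof: as `gb2a` (Lib/MP_df59e7_lc_X/GB2.lean). `G = Gx (φ - quad q) h`, `j' = castAdd c j`.
`param_sard` with `Z = W = Fin (N+c) → ℝ`, `Λ = Par N`,
`F(z, q) a = if a < j' then z a - y a else if a = j' then eval z G else eval z (pderiv a G)`,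
`Ω = {(z, q) | RkK m h (fstP z)}`. Surjectivity, target `P`: `δz_a = P_a` for `a < j'`, `δlam = 0`,
`δx_b = 0` for `j ≤ b ≤ m`, `δx_b`, `b > m`, by `rk_solve` such that the components
`a = natAdd N k` (the equation is `- h_k`) are right; the others, `a = castAdd a'`, `a' ≥ j`, by
`δq` (`exists_quad` with any nonzero `ν`, for example `ν = Pi.single j 1`, and `r = 0`; only value
and gradient are needed). Result: `D_z F` is injective at the zeros. First claim: if
`∂_{j'} G(z) = 0` too, then the row `j'` of `D_z F` is zero (`∂_a G(z) = 0` for all `a ≥ j'`; on the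
coordinates `a < j'` it is not zero, so argue: `D_z F` is injective, so surjective; but the
component `j'` of `D_z F v` equals `∑_{a < j'} ∂_a G v_a`, a combination of the components `a < j'`
of `D_z F v`; contradiction to surjectivity). Second claim: `D_z F v` has component `0` for
`a < j'` (`v_a = 0`), for `a = j'` (`∑_b ∂_b G v_b = 0`) and for `a > j'` (hypothesis). -/
theorem gY2 {N c : ℕ} (φ : MvPolynomial (Fin N) ℝ) (h : Fin c → MvPolynomial (Fin N) ℝ)
    (j m : Fin N) (hjm : j < m) (y : Fin (N + c) → ℝ) :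
    ∀ᵐ q : Par N, ∀ z : Fin (N + c) → ℝ, RkK m h (fstP z) →
      (∀ a, a < Fin.castAdd c j → z a = y a) → eval z (Gx (φ - quad q) h) = 0 →
      (∀ a, Fin.castAdd c j < a → eval z (pderiv a (Gx (φ - quad q) h)) = 0) →
      eval z (pderiv (Fin.castAdd c j) (Gx (φ - quad q) h)) ≠ 0 ∧
      ∀ v : Fin (N + c) → ℝ, (∀ a, a ≤ Fin.castAdd c j → v a = 0) →
        (∀ a, Fin.castAdd c j < a →
          ∑ b, eval z (pderiv b (pderiv a (Gx (φ - quad q) h))) * v b = 0) → v = 0 := by
  have h1 : (MeasureTheory.volume : MeasureTheory.Measure (Fin N → ℝ)).IsAddHaarMeasure :=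
    inferInstance
  have h2 : (MeasureTheory.volume :
      MeasureTheory.Measure (Fin N → Fin N → ℝ)).IsAddHaarMeasure := inferInstance
  have h4 : ((MeasureTheory.volume : MeasureTheory.Measure (Fin N → ℝ)).prod
      (MeasureTheory.volume : MeasureTheory.Measure (Fin N → Fin N → ℝ))).IsAddHaarMeasure :=
    MeasureTheory.Measure.prod.instIsAddHaarMeasure _ _
  have h3 : (MeasureTheory.volume : MeasureTheory.Measure (Par N)).IsAddHaarMeasure := by
    change ((MeasureTheory.volume : MeasureTheory.Measure ℝ).prod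
      ((MeasureTheory.volume : MeasureTheory.Measure (Fin N → ℝ)).prod
      (MeasureTheory.volume : MeasureTheory.Measure (Fin N → Fin N → ℝ)))).IsAddHaarMeasure
    exact MeasureTheory.Measure.prod.instIsAddHaarMeasure _ _
  obtain ⟨H, hHdef⟩ : ∃ H : MvPolynomial (Fin (N + c)) ℝ, H = Gx (φ - quad 0) h := ⟨_, rfl⟩
  have hH : ∀ k, pderiv (Fin.natAdd N k) H = - rename (Fin.castAdd c) (h k) := by
    intro k
    rw [hHdef]
    exact pderiv_natAdd_Gx _ _ k
  have hΩ : IsOpen {p : (Fin (N + c) → ℝ) × Par N | RkK m h (fstP p.1)} :=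
    (rkK_open m h).preimage (continuous_fstP.comp continuous_fst)
  have key := param_sard (Z := Fin (N + c) → ℝ) (W := Fin (N + c) → ℝ) (Λ := Par N)
    (MeasureTheory.volume : MeasureTheory.Measure (Par N)) rfl (GenY2_F H j y) _
    hΩ (GenY2_F_smooth H j y) (fun p hp _ => GenY2_F_surj H h hH j m hjm y p hp)
  filter_upwards [key] with q hq z hrk hz h0 hder
  have hev : ∀ z', eval z' (Gx (φ - quad q) h) = eval z' H - GenY2_A (fstP z') q := by
    intro z'
    rw [hHdef]
    exact GenY2_ev φ h q z'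
  have hpd : ∀ z' a, eval z' (pderiv a (Gx (φ - quad q) h)) =
      eval z' (pderiv a H) - GenY2_Bx (fstP z') q.2 a := by
    intro z' a
    rw [hHdef]
    exact GenY2_pd φ h q z' a
  have hF0 : GenY2_F H j y (z, q) = 0 := by
    funext a
    show (if a < Fin.castAdd c j then z a - y a else if a = Fin.castAdd c j then
      eval z H - GenY2_A (fstP z) q else
      eval z (pderiv a H) - GenY2_Bx (fstP z) q.2 a) = 0
    split_ifs with ha ha'
    · rw [hz a ha, sub_self]
    · rw [← hev]
      exact h0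
    · rw [← hpd]
      exact hder a (lt_of_le_of_ne (not_lt.1 ha) (Ne.symm ha'))
  have hinj := hq z hrk hF0
  have hd : DifferentiableAt ℝ (GenY2_F H j y) (z, q) :=
    ((GenY2_F_smooth H j y).differentiable one_ne_zero) (z, q)
  have h7 : ∀ (v : Fin (N + c) → ℝ) (t : ℝ),
      (z, q) + t • ((v, 0) : (Fin (N + c) → ℝ) × Par N) = (z + t • v, q) := by
    intro v t
    simp
  have d1 : ∀ (v : Fin (N + c) → ℝ) (a : Fin (N + c)), a < Fin.castAdd c j →
      fderiv ℝ (GenY2_F H j y) (z, q) (v, 0) a = v a := by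
    intro v a ha
    refine GenY2_line hd _ a ?_
    have h6 : (fun t : ℝ => GenY2_F H j y ((z, q) + t • ((v, 0) : (Fin (N + c) → ℝ) × Par N)) a)
        = fun t => (z a - y a) + t * v a := by
      funext t
      rw [h7]
      unfold GenY2_F
      rw [if_pos ha]
      simp only [Pi.add_apply, Pi.smul_apply, smul_eq_mul]
      ring
    rw [h6]
    have h9 := ((hasDerivAt_id (0 : ℝ)).mul_const (v a)).const_add (z a - y a)
    simpa using h9
  have d2 : ∀ v : Fin (N + c) → ℝ,
      fderiv ℝ (GenY2_F H j y) (z, q) (v, 0) (Fin.castAdd c j) =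
        ∑ b, eval z (pderiv b (Gx (φ - quad q) h)) * v b := by
    intro v
    refine GenY2_line hd _ _ ?_
    have h6 : (fun t : ℝ => GenY2_F H j y ((z, q) + t • ((v, 0) : (Fin (N + c) → ℝ) × Par N))
        (Fin.castAdd c j)) = fun t => eval (z + t • v) (Gx (φ - quad q) h) := by
      funext t
      rw [h7, hev]
      unfold GenY2_F
      rw [if_neg (lt_irrefl _), if_pos rfl]
    rw [h6]
    exact GenY2_pline _ z v
  have d3 : ∀ (v : Fin (N + c) → ℝ) (a : Fin (N + c)), Fin.castAdd c j < a →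
      fderiv ℝ (GenY2_F H j y) (z, q) (v, 0) a =
        ∑ b, eval z (pderiv b (pderiv a (Gx (φ - quad q) h))) * v b := by
    intro v a ha
    refine GenY2_line hd _ _ ?_
    have h6 : (fun t : ℝ => GenY2_F H j y ((z, q) + t • ((v, 0) : (Fin (N + c) → ℝ) × Par N))
        a) = fun t => eval (z + t • v) (pderiv a (Gx (φ - quad q) h)) := by
      funext t
      rw [h7, hpd]
      unfold GenY2_F
      rw [if_neg (not_lt.2 ha.le), if_neg ha.ne']
    rw [h6]
    exact GenY2_pline _ z v
  constructor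
  · intro hj0
    obtain ⟨L, hL⟩ : ∃ L : (Fin (N + c) → ℝ) →ₗ[ℝ] (Fin (N + c) → ℝ),
        ∀ v, L v = fderiv ℝ (GenY2_F H j y) (z, q) (v, 0) :=
      ⟨(fderiv ℝ (GenY2_F H j y) (z, q)).toLinearMap.comp (LinearMap.inl ℝ _ _), fun v => rfl⟩
    have hLi : Function.Injective L := by
      rw [injective_iff_map_eq_zero]
      intro v hv
      rw [hL] at hv
      exact hinj v hv
    obtain ⟨v, hv⟩ := (LinearMap.injective_iff_surjective.1 hLi) (Pi.single (Fin.castAdd c j) 1)
    rw [hL] at hv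
    have h8 := congrFun hv (Fin.castAdd c j)
    rw [d2, Pi.single_eq_same] at h8
    have h9 : ∑ b, eval z (pderiv b (Gx (φ - quad q) h)) * v b = 0 := by
      refine Finset.sum_eq_zero fun b _ => ?_
      rcases lt_trichotomy b (Fin.castAdd c j) with hb | hb | hb
      · have h10 := congrFun hv b
        rw [d1 v b hb, Pi.single_eq_of_ne hb.ne] at h10
        rw [h10, mul_zero]
      · rw [hb, hj0, zero_mul]
      · rw [hder b hb, zero_mul]
    rw [h9] at h8
    exact zero_ne_one h8
  · intro v hv hHv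
    refine hinj v ?_
    funext a
    rcases lt_trichotomy a (Fin.castAdd c j) with ha | ha | ha
    · rw [d1 v a ha, hv a ha.le]
      rfl
    · rw [ha, d2]
      refine Finset.sum_eq_zero fun b _ => ?_
      by_cases hb : b ≤ Fin.castAdd c j
      · rw [hv b hb, mul_zero]
      · rw [hder b (not_le.1 hb), zero_mul]
    · rw [d3 v a ha]
      exact hHv a ha

end Pool.Agent.RM90
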