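import Pool.Agent.Lib.MP_df59e7_lc_Y.RkY
import Pool.Agent.Lib.MP_df59e7_lc_X.GB2
import Pool.Agent.Lib.MP_df59e7_lc_X.PSard
import Pool.Agent.Lib.MP_df59e7_lc_X.QuadA

set_option autoImplicit false

/-! MP_df59e7_lc, project Y, module GenY3: genericity, the Hessian in the directions `a > m`. -/

namespace Pool.Agent.RM90

open MvPolynomial

private theorem GenY3_smooth {n : ℕ} (p : MvPolynomial (Fin n) ℝ) :
    ContDiff ℝ 1 (fun x : Fin n → ℝ => eval x p) := by
  induction p using MvPolynomial.induction_on with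
  | C a => simpa using contDiff_const
  | add p q hp hq => simpa using hp.add hq
  | mul_X p i hp =>
    have h1 : ContDiff ℝ 1 (fun x : Fin n → ℝ => x i) := contDiff_apply ℝ ℝ i
    simpa using hp.mul h1

/-- the parameters of the linear and quadratic terms -/
private abbrev GenY3_L (n : ℕ) : Type := (Fin n → ℝ) × (Fin n → Fin n → ℝ)

/-- the derivative of the quadratic part -/
private noncomputable def GenY3_B {n : ℕ} (x : Fin n → ℝ) (l : GenY3_L n) (a : Fin n) : ℝ :=
  l.1 a + ∑ b, (l.2 a b + l.2 b a) / 2 * x b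

/-- the value of the quadratic polynomial -/
private noncomputable def GenY3_A {n : ℕ} (x : Fin n → ℝ) (c : Par n) : ℝ :=
  c.1 + ∑ i, c.2.1 i * x i + ∑ i, ∑ l, c.2.2 i l / 2 * (x i * x l)

private theorem GenY3_A_eq {n : ℕ} (x : Fin n → ℝ) (c : Par n) :
    eval x (quad c) = GenY3_A x c := eval_quad c x

private theorem GenY3_B_eq {n : ℕ} (x : Fin n → ℝ) (c : Par n) (a : Fin n) :
    eval x (pderiv a (quad c)) = GenY3_B x c.2 a := by
  rw [eval_pderiv_quad]
  rfl

private theorem GenY3_A_add {n : ℕ} (x : Fin n → ℝ) (c c' : Par n) (t : ℝ) :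
    GenY3_A x (c + t • c') = GenY3_A x c + t * GenY3_A x c' := by
  rw [← GenY3_A_eq, quad_add, quad_smul, map_add, map_mul, eval_C, GenY3_A_eq, GenY3_A_eq]

private theorem GenY3_B_add {n : ℕ} (x : Fin n → ℝ) (l l' : GenY3_L n) (t : ℝ) (a : Fin n) :
    GenY3_B x (l + t • l') a = GenY3_B x l a + t * GenY3_B x l' a := by
  unfold GenY3_B
  simp only [Prod.fst_add, Prod.snd_add, Prod.smul_fst, Prod.smul_snd, Pi.add_apply,
    Pi.smul_apply, smul_eq_mul]
  rw [mul_add, Finset.mul_sum]
  have h1 : ∀ b, (l.2 a b + t * l'.2 a b + (l.2 b a + t * l'.2 b a)) / 2 * x b =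
      (l.2 a b + l.2 b a) / 2 * x b + t * ((l'.2 a b + l'.2 b a) / 2 * x b) := fun b => by ring
  simp only [h1]
  rw [Finset.sum_add_distrib]
  ring

/-- A component of the derivative is the derivative along a line. -/
private theorem GenY3_line {V ι : Type} [NormedAddCommGroup V] [NormedSpace ℝ V] [Fintype ι]
    {F : V → ι → ℝ} {p : V} (hF : DifferentiableAt ℝ F p) (w : V) (a : ι) {d : ℝ}
    (hd : HasDerivAt (fun t : ℝ => F (p + t • w) a) d 0) : fderiv ℝ F p w a = d := by
  have h1 : HasDerivAt (fun t : ℝ => p + t • w) w 0 := by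
    have h5 := ((hasDerivAt_id (0 : ℝ)).smul_const w).const_add p
    simpa using h5
  have h2 : HasFDerivAt F (fderiv ℝ F p) (p + (0 : ℝ) • w) := by
    rw [zero_smul, add_zero]
    exact hF.hasFDerivAt
  have h3 := (hasDerivAt_pi.1 (h2.comp_hasDerivAt (0 : ℝ) h1)) a
  exact h3.unique hd

/-- The derivative of a polynomial along a line. -/
private theorem GenY3_pline {n : ℕ} (P : MvPolynomial (Fin n) ℝ) (x v : Fin n → ℝ) :
    HasDerivAt (fun t : ℝ => eval (x + t • v) P) (∑ b, eval x (pderiv b P) * v b) 0 := by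
  have h1 : HasDerivAt (fun t : ℝ => x + t • v) v 0 := by
    have h5 := ((hasDerivAt_id (0 : ℝ)).smul_const v).const_add x
    simpa using h5
  have h2 : HasFDerivAt (fun x : Fin n → ℝ => eval x P) (Warren46.gradL P x)
      (x + (0 : ℝ) • v) := by
    rw [zero_smul, add_zero]
    exact Warren46.hasFDerivAt_eval P x
  have h3 := h2.comp_hasDerivAt (0 : ℝ) h1
  rw [Warren46.gradL_apply] at h3
  exact h3

/-- the derivative of an affine function of the parameter -/
private theorem GenY3_aff (u v : ℝ) : HasDerivAt (fun t : ℝ => u + t * v) v 0 := by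
  have h9 := ((hasDerivAt_id (0 : ℝ)).mul_const v).const_add u
  simpa using h9

/-- the derivative of the quadratic part with respect to a variable of the larger space -/
private noncomputable def GenY3_Bx {N c : ℕ} (x : Fin N → ℝ) (l : GenY3_L N)
    (a : Fin (N + c)) : ℝ :=
  Fin.addCases (fun a' => GenY3_B x l a') (fun _ => 0) a

private theorem GenY3_Bx_l {N c : ℕ} (x : Fin N → ℝ) (l : GenY3_L N) (a : Fin N) :
    GenY3_Bx (c := c) x l (Fin.castAdd c a) = GenY3_B x l a := Fin.addCases_left a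

private theorem GenY3_Bx_r {N c : ℕ} (x : Fin N → ℝ) (l : GenY3_L N) (k : Fin c) :
    GenY3_Bx (c := c) x l (Fin.natAdd N k) = 0 := Fin.addCases_right k

/-- the second derivatives of the quadratic part in the larger space -/
private noncomputable def GenY3_Cx {N c : ℕ} (l : GenY3_L N) (b a : Fin (N + c)) : ℝ :=
  Fin.addCases (fun a' => Fin.addCases (fun b' => (l.2 b' a' + l.2 a' b') / 2) (fun _ => 0) b)
    (fun _ => 0) a

private theorem GenY3_Cx_ll {N c : ℕ} (l : GenY3_L N) (b a : Fin N) :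
    GenY3_Cx (c := c) l (Fin.castAdd c b) (Fin.castAdd c a) = (l.2 b a + l.2 a b) / 2 := by
  unfold GenY3_Cx
  rw [Fin.addCases_left, Fin.addCases_left]

private theorem GenY3_Cx_rl {N c : ℕ} (l : GenY3_L N) (k : Fin c) (a : Fin N) :
    GenY3_Cx (c := c) l (Fin.natAdd N k) (Fin.castAdd c a) = 0 := by
  unfold GenY3_Cx
  rw [Fin.addCases_left, Fin.addCases_right]

private theorem GenY3_Cx_r {N c : ℕ} (l : GenY3_L N) (b : Fin (N + c)) (k : Fin c) :
    GenY3_Cx (c := c) l b (Fin.natAdd N k) = 0 := by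
  unfold GenY3_Cx
  rw [Fin.addCases_right]

private theorem GenY3_Cx_add {N c : ℕ} (l l' : GenY3_L N) (t : ℝ) (b a : Fin (N + c)) :
    GenY3_Cx (l + t • l') b a = GenY3_Cx l b a + t * GenY3_Cx l' b a := by
  refine Fin.addCases (fun a' => ?_) (fun k => ?_) a
  · refine Fin.addCases (fun b' => ?_) (fun k => ?_) b
    · rw [GenY3_Cx_ll, GenY3_Cx_ll, GenY3_Cx_ll]
      simp only [Prod.snd_add, Prod.smul_snd, Pi.add_apply, Pi.smul_apply, smul_eq_mul]
      ring
    · rw [GenY3_Cx_rl, GenY3_Cx_rl, GenY3_Cx_rl]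
      ring
  · rw [GenY3_Cx_r, GenY3_Cx_r, GenY3_Cx_r]
    ring

private theorem GenY3_G {N c : ℕ} (φ : MvPolynomial (Fin N) ℝ)
    (h : Fin c → MvPolynomial (Fin N) ℝ) (q : Par N) :
    Gx (φ - quad q) h = Gx (φ - quad 0) h - rename (Fin.castAdd c) (quad q) := by
  have h1 := Gx_sub_quad φ h 0 q 1
  rw [zero_add, one_smul, C_1, one_mul] at h1
  exact h1

private theorem GenY3_ev {N c : ℕ} (φ : MvPolynomial (Fin N) ℝ)
    (h : Fin c → MvPolynomial (Fin N) ℝ) (q : Par N) (z : Fin (N + c) → ℝ) :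
    eval z (Gx (φ - quad q) h) = eval z (Gx (φ - quad 0) h) - GenY3_A (fstP z) q := by
  rw [GenY3_G, map_sub, eval_ren, GenY3_A_eq]

private theorem GenY3_pd {N c : ℕ} (φ : MvPolynomial (Fin N) ℝ)
    (h : Fin c → MvPolynomial (Fin N) ℝ) (q : Par N) (z : Fin (N + c) → ℝ) (a : Fin (N + c)) :
    eval z (pderiv a (Gx (φ - quad q) h)) =
      eval z (pderiv a (Gx (φ - quad 0) h)) - GenY3_Bx (fstP z) q.2 a := by
  rw [GenY3_G, map_sub, map_sub]
  refine Fin.addCases (fun a' => ?_) (fun k => ?_) a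
  · rw [pderiv_castAdd_ren, eval_ren, GenY3_B_eq, GenY3_Bx_l]
  · rw [pderiv_natAdd_ren, GenY3_Bx_r, map_zero]

private theorem GenY3_pd2 {N c : ℕ} (φ : MvPolynomial (Fin N) ℝ)
    (h : Fin c → MvPolynomial (Fin N) ℝ) (q : Par N) (z : Fin (N + c) → ℝ)
    (b a : Fin (N + c)) :
    eval z (pderiv b (pderiv a (Gx (φ - quad q) h))) =
      eval z (pderiv b (pderiv a (Gx (φ - quad 0) h))) - GenY3_Cx q.2 b a := by
  rw [GenY3_G, map_sub, map_sub, map_sub]
  refine Fin.addCases (fun a' => ?_) (fun k => ?_) a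
  · rw [pderiv_castAdd_ren]
    refine Fin.addCases (fun b' => ?_) (fun k => ?_) b
    · rw [pderiv_castAdd_ren, eval_ren, eval_pderiv2_quad, GenY3_Cx_ll]
    · rw [pderiv_natAdd_ren, GenY3_Cx_rl, map_zero]
  · rw [pderiv_natAdd_ren, GenY3_Cx_r, map_zero, map_zero]

/-- the points and the parameters -/
private abbrev GenY3_P (N c : ℕ) : Type :=
  ((Fin (N + c) → ℝ) × (Fin (N + c) → ℝ)) × Par N

/-- the system -/
private noncomputable def GenY3_K {N c : ℕ} (H : MvPolynomial (Fin (N + c)) ℝ) (j m : Fin N)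
    (y : Fin (N + c) → ℝ) (p : GenY3_P N c) : (Fin (N + c) ⊕ Fin (N + c)) → ℝ :=
  Sum.elim
    (fun a => if a < Fin.castAdd c j then p.1.1 a - y a else
      if a = Fin.castAdd c j then eval p.1.1 H - GenY3_A (fstP p.1.1) p.2 else
      eval p.1.1 (pderiv a H) - GenY3_Bx (fstP p.1.1) p.2.2 a)
    (fun a => if a ≤ Fin.castAdd c m then p.1.2 a else
      ∑ b, if Fin.castAdd c m < b then
        (eval p.1.1 (pderiv b (pderiv a H)) - GenY3_Cx p.2.2 b a) * p.1.2 b else 0)

private theorem GenY3_K_l {N c : ℕ} (H : MvPolynomial (Fin (N + c)) ℝ) (j m : Fin N)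
    (y : Fin (N + c) → ℝ) (p : GenY3_P N c) (a : Fin (N + c)) :
    GenY3_K H j m y p (Sum.inl a) = if a < Fin.castAdd c j then p.1.1 a - y a else
      if a = Fin.castAdd c j then eval p.1.1 H - GenY3_A (fstP p.1.1) p.2 else
      eval p.1.1 (pderiv a H) - GenY3_Bx (fstP p.1.1) p.2.2 a := rfl

private theorem GenY3_K_r {N c : ℕ} (H : MvPolynomial (Fin (N + c)) ℝ) (j m : Fin N)
    (y : Fin (N + c) → ℝ) (p : GenY3_P N c) (a : Fin (N + c)) :
    GenY3_K H j m y p (Sum.inr a) = if a ≤ Fin.castAdd c m then p.1.2 a else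
      ∑ b, if Fin.castAdd c m < b then
        (eval p.1.1 (pderiv b (pderiv a H)) - GenY3_Cx p.2.2 b a) * p.1.2 b else 0 := rfl

private theorem GenY3_K_smooth {N c : ℕ} (H : MvPolynomial (Fin (N + c)) ℝ) (j m : Fin N)
    (y : Fin (N + c) → ℝ) : ContDiff ℝ 1 (GenY3_K H j m y) := by
  have hf : ContDiff ℝ 1 (fun p : GenY3_P N c => p.1.1) := contDiff_fst.comp contDiff_fst
  have h1 : ∀ a, ContDiff ℝ 1 (fun p : GenY3_P N c => p.1.1 a) := fun a =>
    (contDiff_apply ℝ ℝ a).comp hf
  have h1' : ∀ a, ContDiff ℝ 1 (fun p : GenY3_P N c => fstP p.1.1 a) := fun a =>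
    h1 (Fin.castAdd c a)
  have hv : ∀ a, ContDiff ℝ 1 (fun p : GenY3_P N c => p.1.2 a) := fun a =>
    (contDiff_apply ℝ ℝ a).comp (contDiff_snd.comp contDiff_fst)
  have h0 : ContDiff ℝ 1 (fun p : GenY3_P N c => p.2.1) :=
    contDiff_fst.comp contDiff_snd
  have h2 : ∀ a, ContDiff ℝ 1 (fun p : GenY3_P N c => p.2.2.1 a) := fun a =>
    (contDiff_apply ℝ ℝ a).comp (contDiff_fst.comp (contDiff_snd.comp contDiff_snd))
  have h3 : ∀ a b, ContDiff ℝ 1 (fun p : GenY3_P N c => p.2.2.2 a b) :=
    fun a b => (contDiff_apply_apply ℝ ℝ a b).comp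
      (contDiff_snd.comp (contDiff_snd.comp contDiff_snd))
  rw [contDiff_pi]
  rintro (a | a)
  · simp only [GenY3_K_l]
    split_ifs
    · exact (h1 a).sub contDiff_const
    · refine ((GenY3_smooth H).comp hf).sub ?_
      unfold GenY3_A
      refine (h0.add (ContDiff.sum fun a _ => (h2 a).mul (h1' a))).add
        (ContDiff.sum fun a _ => ContDiff.sum fun b _ => ?_)
      exact ((h3 a b).div_const 2).mul ((h1' a).mul (h1' b))
    · refine ((GenY3_smooth (pderiv a H)).comp hf).sub ?_
      refine Fin.addCases (fun a' => ?_) (fun k => ?_) a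
      · simp only [GenY3_Bx_l]
        unfold GenY3_B
        refine (h2 a').add (ContDiff.sum fun b _ => ?_)
        exact (((h3 a' b).add (h3 b a')).div_const 2).mul (h1' b)
      · simp only [GenY3_Bx_r]
        exact contDiff_const
  · simp only [GenY3_K_r]
    split_ifs
    · exact hv a
    · refine ContDiff.sum fun b _ => ?_
      split_ifs
      · refine (((GenY3_smooth (pderiv b (pderiv a H))).comp hf).sub ?_).mul (hv b)
        refine Fin.addCases (fun a' => ?_) (fun k => ?_) a
        · refine Fin.addCases (fun b' => ?_) (fun k => ?_) b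
          · simp only [GenY3_Cx_ll]
            exact ((h3 b' a').add (h3 a' b')).div_const 2
          · simp only [GenY3_Cx_rl]
            exact contDiff_const
        · simp only [GenY3_Cx_r]
          exact contDiff_const
      · exact contDiff_const

private theorem GenY3_hlt {N c : ℕ} (j : Fin N) (k : Fin c) :
    Fin.castAdd c j < Fin.natAdd N k := by
  rw [Fin.lt_def, Fin.val_castAdd, Fin.val_natAdd]
  have := j.2
  omega

private theorem GenY3_K_surj {N c : ℕ} (H : MvPolynomial (Fin (N + c)) ℝ)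
    (h : Fin c → MvPolynomial (Fin N) ℝ)
    (hH : ∀ k, pderiv (Fin.natAdd N k) H = - rename (Fin.castAdd c) (h k))
    (j m : Fin N) (hjm : j < m) (y : Fin (N + c) → ℝ) (p : GenY3_P N c)
    (hr : RkK m h (fstP p.1.1)) (hv : ∃ b, m < b ∧ p.1.2 (Fin.castAdd c b) ≠ 0) :
    Function.Surjective (fderiv ℝ (GenY3_K H j m y) p) := by
  have hd : DifferentiableAt ℝ (GenY3_K H j m y) p :=
    ((GenY3_K_smooth H j m y).differentiable one_ne_zero) p
  -- the components `a < j`
  have e1 : ∀ (w : GenY3_P N c) (a : Fin (N + c)), a < Fin.castAdd c j →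
      fderiv ℝ (GenY3_K H j m y) p w (Sum.inl a) = w.1.1 a := by
    intro w a ha
    refine GenY3_line hd w _ ?_
    have h6 : (fun t : ℝ => GenY3_K H j m y (p + t • w) (Sum.inl a)) =
        fun t => (p.1.1 a - y a) + t * w.1.1 a := by
      funext t
      rw [GenY3_K_l, if_pos ha]
      simp only [Prod.fst_add, Prod.smul_fst, Pi.add_apply, Pi.smul_apply, smul_eq_mul]
      ring
    rw [h6]
    exact GenY3_aff _ _
  -- the components of the multipliers
  have e4 : ∀ (w : GenY3_P N c) (k : Fin c),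
      fderiv ℝ (GenY3_K H j m y) p w (Sum.inl (Fin.natAdd N k)) =
        - ∑ b, eval (fstP p.1.1) (pderiv b (h k)) * fstP w.1.1 b := by
    intro w k
    refine GenY3_line hd w _ ?_
    have h6 : (fun t : ℝ => GenY3_K H j m y (p + t • w) (Sum.inl (Fin.natAdd N k))) =
        fun t => - eval (fstP p.1.1 + t • fstP w.1.1) (h k) := by
      funext t
      rw [GenY3_K_l, if_neg (not_lt.2 (GenY3_hlt j k).le), if_neg (GenY3_hlt j k).ne', hH,
        GenY3_Bx_r, map_neg, eval_ren, sub_zero]
      rfl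
    rw [h6]
    exact (GenY3_pline (h k) (fstP p.1.1) (fstP w.1.1)).neg
  have h7 : ∀ (t : ℝ) (q : Par N), (p + t • ((0, q) : GenY3_P N c)).1 = p.1 := by
    intro t q
    simp
  have h8 : ∀ (t : ℝ) (q : Par N), (p + t • ((0, q) : GenY3_P N c)).2 = p.2 + t • q := by
    intro t q
    simp
  have h8' : ∀ (t : ℝ) (q : Par N), (p + t • ((0, q) : GenY3_P N c)).2.2 =
      p.2.2 + t • q.2 := by
    intro t q
    rw [h8]
    rfl
  have e2 : ∀ (q : Par N), fderiv ℝ (GenY3_K H j m y) p (0, q) (Sum.inl (Fin.castAdd c j)) =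
      - GenY3_A (fstP p.1.1) q := by
    intro q
    refine GenY3_line hd _ _ ?_
    have h6 : (fun t : ℝ => GenY3_K H j m y (p + t • ((0, q) : GenY3_P N c))
        (Sum.inl (Fin.castAdd c j))) =
        fun t => (eval p.1.1 H - GenY3_A (fstP p.1.1) p.2) + t * (- GenY3_A (fstP p.1.1) q) := by
      funext t
      rw [GenY3_K_l, if_neg (lt_irrefl _), if_pos rfl, h7, h8, GenY3_A_add]
      ring
    rw [h6]
    exact GenY3_aff _ _
  have e3 : ∀ (q : Par N) (a : Fin N), j < a →
      fderiv ℝ (GenY3_K H j m y) p (0, q) (Sum.inl (Fin.castAdd c a)) =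
        - GenY3_B (fstP p.1.1) q.2 a := by
    intro q a ha
    have ha' : Fin.castAdd c j < Fin.castAdd c a := ha
    refine GenY3_line hd _ _ ?_
    have h6 : (fun t : ℝ => GenY3_K H j m y (p + t • ((0, q) : GenY3_P N c))
        (Sum.inl (Fin.castAdd c a))) =
        fun t => (eval p.1.1 (pderiv (Fin.castAdd c a) H) - GenY3_B (fstP p.1.1) p.2.2 a) +
          t * (- GenY3_B (fstP p.1.1) q.2 a) := by
      funext t
      rw [GenY3_K_l, if_neg (not_lt.2 ha'.le), if_neg ha'.ne', h7, h8', GenY3_Bx_l,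
        GenY3_B_add]
      ring
    rw [h6]
    exact GenY3_aff _ _
  have e5 : ∀ (w : GenY3_P N c) (a : Fin (N + c)), a ≤ Fin.castAdd c m →
      fderiv ℝ (GenY3_K H j m y) p w (Sum.inr a) = w.1.2 a := by
    intro w a ha
    refine GenY3_line hd w _ ?_
    have h6 : (fun t : ℝ => GenY3_K H j m y (p + t • w) (Sum.inr a)) =
        fun t => p.1.2 a + t * w.1.2 a := by
      funext t
      rw [GenY3_K_r, if_pos ha]
      rfl
    rw [h6]
    exact GenY3_aff _ _
  have e6 : ∀ (u : Fin N → ℝ) (k : Fin c), (∀ a, a ≤ m → u a = 0) →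
      fderiv ℝ (GenY3_K H j m y) p ((0, Fin.append u (0 : Fin c → ℝ)), 0)
        (Sum.inr (Fin.natAdd N k)) =
        - ∑ b, u b * eval (fstP p.1.1) (pderiv b (h k)) := by
    intro u k hu
    refine GenY3_line hd _ _ ?_
    have h6 : (fun t : ℝ => GenY3_K H j m y
        (p + t • (((0, Fin.append u (0 : Fin c → ℝ)), 0) : GenY3_P N c))
        (Sum.inr (Fin.natAdd N k))) =
        fun t => (∑ b, if Fin.castAdd c m < b then
          (eval p.1.1 (pderiv b (pderiv (Fin.natAdd N k) H)) -
            GenY3_Cx p.2.2 b (Fin.natAdd N k)) * p.1.2 b else 0) +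
          t * (- ∑ b, u b * eval (fstP p.1.1) (pderiv b (h k))) := by
      funext t
      have h9 : (p + t • (((0, Fin.append u (0 : Fin c → ℝ)), 0) : GenY3_P N c)).1.1 =
          p.1.1 := by simp
      have h10 : (p + t • (((0, Fin.append u (0 : Fin c → ℝ)), 0) : GenY3_P N c)).2 =
          p.2 := by simp
      have h11 : (p + t • (((0, Fin.append u (0 : Fin c → ℝ)), 0) : GenY3_P N c)).1.2 =
          p.1.2 + t • Fin.append u (0 : Fin c → ℝ) := by simp
      rw [GenY3_K_r, if_neg (not_le.2 (GenY3_hlt m k)), h9, h10, h11]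
      have h12 : (- ∑ b, u b * eval (fstP p.1.1) (pderiv b (h k))) =
          ∑ b, if Fin.castAdd c m < b then
            (eval p.1.1 (pderiv b (pderiv (Fin.natAdd N k) H)) -
            GenY3_Cx p.2.2 b (Fin.natAdd N k)) * (Fin.append u (0 : Fin c → ℝ)) b else 0 := by
        rw [Fin.sum_univ_add, ← Finset.sum_neg_distrib]
        have h13 : ∀ i : Fin c, (if Fin.castAdd c m < Fin.natAdd N i then
            (eval p.1.1 (pderiv (Fin.natAdd N i) (pderiv (Fin.natAdd N k) H)) -
            GenY3_Cx p.2.2 (Fin.natAdd N i) (Fin.natAdd N k)) *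
              (Fin.append u (0 : Fin c → ℝ)) (Fin.natAdd N i) else 0) = 0 := by
          intro i
          rw [Fin.append_right, Pi.zero_apply, mul_zero, ite_self]
        rw [Finset.sum_congr rfl fun i _ => h13 i, Finset.sum_const_zero, add_zero]
        refine Finset.sum_congr rfl fun b _ => ?_
        rw [Fin.append_left]
        by_cases hb : m < b
        · have hb' : Fin.castAdd c m < Fin.castAdd c b := hb
          rw [if_pos hb', hH, map_neg, pderiv_castAdd_ren, map_neg, eval_ren, GenY3_Cx_r]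
          ring
        · have hb' : ¬ Fin.castAdd c m < Fin.castAdd c b := hb
          rw [if_neg hb', hu b (not_lt.1 hb)]
          ring
      rw [h12, Finset.mul_sum, ← Finset.sum_add_distrib]
      refine Finset.sum_congr rfl fun b _ => ?_
      rw [Pi.add_apply, Pi.smul_apply, smul_eq_mul]
      split_ifs
      · ring
      · ring
    rw [h6]
    exact GenY3_aff _ _
  have e8 : ∀ (q : Par N) (k : Fin c),
      fderiv ℝ (GenY3_K H j m y) p (0, q) (Sum.inr (Fin.natAdd N k)) = 0 := by
    intro q k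
    refine GenY3_line hd _ _ ?_
    have h6 : (fun t : ℝ => GenY3_K H j m y (p + t • ((0, q) : GenY3_P N c))
        (Sum.inr (Fin.natAdd N k))) = fun t => GenY3_K H j m y p (Sum.inr (Fin.natAdd N k)) := by
      funext t
      rw [GenY3_K_r, GenY3_K_r, h7, h8']
      simp only [GenY3_Cx_r]
    rw [h6]
    exact hasDerivAt_const _ _
  have e7 : ∀ (q : Par N) (a : Fin N), m < a →
      fderiv ℝ (GenY3_K H j m y) p (0, q) (Sum.inr (Fin.castAdd c a)) =
        - ∑ b, (q.2.2 b a + q.2.2 a b) / 2 * (if m < b then p.1.2 (Fin.castAdd c b) else 0) := by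
    intro q a ha
    have ha' : Fin.castAdd c m < Fin.castAdd c a := ha
    refine GenY3_line hd _ _ ?_
    have h6 : (fun t : ℝ => GenY3_K H j m y (p + t • ((0, q) : GenY3_P N c))
        (Sum.inr (Fin.castAdd c a))) =
        fun t => (∑ b, if Fin.castAdd c m < b then
          (eval p.1.1 (pderiv b (pderiv (Fin.castAdd c a) H)) -
            GenY3_Cx p.2.2 b (Fin.castAdd c a)) * p.1.2 b else 0) +
          t * (- ∑ b, (q.2.2 b a + q.2.2 a b) / 2 *
            (if m < b then p.1.2 (Fin.castAdd c b) else 0)) := by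
      funext t
      rw [GenY3_K_r, if_neg (not_le.2 ha'), h7, h8']
      have h12 : (- ∑ b, (q.2.2 b a + q.2.2 a b) / 2 *
            (if m < b then p.1.2 (Fin.castAdd c b) else 0)) =
          ∑ b, if Fin.castAdd c m < b then
            (- GenY3_Cx q.2 b (Fin.castAdd c a)) * p.1.2 b else 0 := by
        rw [Fin.sum_univ_add, ← Finset.sum_neg_distrib]
        have h13 : ∀ i : Fin c, (if Fin.castAdd c m < Fin.natAdd N i then
            (- GenY3_Cx q.2 (Fin.natAdd N i) (Fin.castAdd c a)) *
              p.1.2 (Fin.natAdd N i) else 0) = 0 := by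
          intro i
          rw [GenY3_Cx_rl, neg_zero, zero_mul, ite_self]
        rw [Finset.sum_congr rfl fun i _ => h13 i, Finset.sum_const_zero, add_zero]
        refine Finset.sum_congr rfl fun b _ => ?_
        rw [GenY3_Cx_ll]
        by_cases hb : m < b
        · have hb' : Fin.castAdd c m < Fin.castAdd c b := hb
          rw [if_pos hb', if_pos hb]
          ring
        · have hb' : ¬ Fin.castAdd c m < Fin.castAdd c b := hb
          rw [if_neg hb', if_neg hb]
          ring
      rw [h12, Finset.mul_sum, ← Finset.sum_add_distrib]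
      refine Finset.sum_congr rfl fun b _ => ?_
      rw [GenY3_Cx_add]
      split_ifs
      · ring
      · ring
    rw [h6]
    exact GenY3_aff _ _
  intro w
  -- the direction in `z`
  obtain ⟨u0, hu0⟩ : ∃ u0 : Fin N → ℝ,
      u0 = fun a => if a < j then w (Sum.inl (Fin.castAdd c a)) else 0 := ⟨_, rfl⟩
  obtain ⟨u1, hu1, hu1'⟩ := rk_solve hr
    (fun k => - w (Sum.inl (Fin.natAdd N k)) - ∑ a, u0 a * eval (fstP p.1.1) (pderiv a (h k)))
  obtain ⟨d, hd0⟩ : ∃ d : Fin (N + c) → ℝ, d = Fin.append (u0 + u1) (0 : Fin c → ℝ) := ⟨_, rfl⟩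
  have hdf : fstP d = u0 + u1 := by
    rw [hd0]
    exact fstP_append _ _
  have hda : ∀ a : Fin (N + c), a < Fin.castAdd c j → d a = w (Sum.inl a) := by
    intro a
    refine Fin.addCases (fun a' => ?_) (fun k => ?_) a
    · intro ha
      have ha' : a' < j := ha
      have h1 : d (Fin.castAdd c a') = fstP d a' := rfl
      rw [h1, hdf, Pi.add_apply, hu1 a' (ha'.trans hjm).le, add_zero, hu0]
      exact if_pos ha'
    · intro ha
      exact absurd ha (not_lt.2 (GenY3_hlt j k).le)
  have hdk : ∀ k : Fin c, - ∑ b, eval (fstP p.1.1) (pderiv b (h k)) * fstP d b =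
      w (Sum.inl (Fin.natAdd N k)) := by
    intro k
    have h1 : ∑ b, eval (fstP p.1.1) (pderiv b (h k)) * fstP d b =
        ∑ a, u0 a * eval (fstP p.1.1) (pderiv a (h k)) +
          ∑ a, u1 a * eval (fstP p.1.1) (pderiv a (h k)) := by
      rw [hdf, ← Finset.sum_add_distrib]
      refine Finset.sum_congr rfl fun b _ => ?_
      rw [Pi.add_apply]
      ring
    rw [h1, hu1' k]
    ring
  -- the direction in `v`
  obtain ⟨v0, hv0⟩ : ∃ v0 : Fin (N + c) → ℝ,
      v0 = fun a => if a ≤ Fin.castAdd c m then w (Sum.inr a) else 0 := ⟨_, rfl⟩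
  obtain ⟨u2, hu2, hu2'⟩ := rk_solve hr
    (fun k => fderiv ℝ (GenY3_K H j m y) p ((d, v0), 0) (Sum.inr (Fin.natAdd N k)) -
      w (Sum.inr (Fin.natAdd N k)))
  obtain ⟨v1, hv1⟩ : ∃ v1 : Fin (N + c) → ℝ, v1 = Fin.append u2 (0 : Fin c → ℝ) := ⟨_, rfl⟩
  have hv1a : ∀ a : Fin (N + c), a ≤ Fin.castAdd c m → v1 a = 0 := by
    intro a
    refine Fin.addCases (fun a' => ?_) (fun k => ?_) a
    · intro ha
      rw [hv1, Fin.append_left]
      exact hu2 a' ha
    · intro ha
      exact absurd ha (not_le.2 (GenY3_hlt m k))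
  have hne : (fun l : Fin N => if m < l then p.1.2 (Fin.castAdd c l) else (0 : ℝ)) ≠ 0 := by
    intro h0
    obtain ⟨b, hb, hb'⟩ := hv
    have h1 := congrFun h0 b
    simp only [Pi.zero_apply] at h1
    rw [if_pos hb] at h1
    exact hb' h1
  obtain ⟨q, hq1, hq2, hq3⟩ := exists_quad (fstP p.1.1) _ hne
    (fderiv ℝ (GenY3_K H j m y) p ((d, v0 + v1), 0) (Sum.inl (Fin.castAdd c j)) -
      w (Sum.inl (Fin.castAdd c j)))
    (fun a => fderiv ℝ (GenY3_K H j m y) p ((d, v0 + v1), 0) (Sum.inl (Fin.castAdd c a)) -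
      w (Sum.inl (Fin.castAdd c a)))
    (fun a => fderiv ℝ (GenY3_K H j m y) p ((d, v0 + v1), 0) (Sum.inr (Fin.castAdd c a)) -
      w (Sum.inr (Fin.castAdd c a)))
  refine ⟨((d, v0 + v1), q), ?_⟩
  have e9 : (((d, v0 + v1), q) : GenY3_P N c) = ((d, v0 + v1), 0) + (0, q) := by simp
  have e10 : (((d, v0 + v1), 0) : GenY3_P N c) = ((d, v0), 0) + ((0, v1), 0) := by simp
  funext s
  rcases s with a | a
  · refine Fin.addCases (fun a' => ?_) (fun k => ?_) a
    · rcases lt_trichotomy a' j with ha | ha | ha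
      · rw [e1 _ _ (show Fin.castAdd c a' < Fin.castAdd c j from ha)]
        exact hda _ ha
      · subst ha
        rw [e9, map_add, Pi.add_apply, e2 q, ← GenY3_A_eq, hq1]
        ring
      · rw [e9, map_add, Pi.add_apply, e3 q a' ha, ← GenY3_B_eq, hq2 a']
        ring
    · rw [e4]
      exact hdk k
  · refine Fin.addCases (fun a' => ?_) (fun k => ?_) a
    · by_cases ha : m < a'
      · have h1 := hq3 a'
        have h2 : (∑ b, eval (fstP p.1.1) (pderiv a' (pderiv b (quad q))) *
            (if m < b then p.1.2 (Fin.castAdd c b) else 0)) =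
            ∑ b, (q.2.2 b a' + q.2.2 a' b) / 2 *
              (if m < b then p.1.2 (Fin.castAdd c b) else 0) := by
          refine Finset.sum_congr rfl fun b _ => ?_
          rw [eval_pderiv2_quad, add_comm (q.2.2 a' b)]
        rw [h2] at h1
        rw [e9, map_add, Pi.add_apply, e7 q a' ha, h1]
        ring
      · have ha' : Fin.castAdd c a' ≤ Fin.castAdd c m := not_lt.1 ha
        rw [e5 _ _ ha']
        show v0 (Fin.castAdd c a') + v1 (Fin.castAdd c a') = _
        rw [hv1a _ ha', add_zero, hv0]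
        exact if_pos ha'
    · rw [e9, map_add, Pi.add_apply, e8, e10, map_add, Pi.add_apply, hv1, e6 u2 k hu2, hu2' k]
      ring

/-- Proof: `G = Gx (φ - quad q) h`, `j' = castAdd c j`, `m' = castAdd c m`. `param_sard` with
`Z = W = (Fin (N+c) → ℝ) × (Fin (N+c) → ℝ)` (points `(z, v)`), `Λ = Par N`,
`F = (fun a => if a < j' then z a - y a else if a = j' then eval z G else eval z (pderiv a G),`
`fun a => if a ≤ m' then v a else`
`∑ b, (if m' < b then eval z (pderiv b (pderiv a G)) * v b else 0))`,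
`Ω = {((z, v), q) | RkK m h (fstP z), ∃ b > m, v (castAdd c b) ≠ 0}`. There is NO zero in `Ω` for
almost all `q`: at a zero `(0, v)` is in the kernel of the derivative of `F(·, q)` (the second
block is linear in `v`), and `v ≠ 0`. Surjectivity, target `(P, r)`: (1) `δz_a = P_a` for
`a < j'`, `δlam = 0`, `δx_b = 0` for `j ≤ b ≤ m`, `δx_b`, `b > m`, by `rk_solve` for the
components `P_a`, `a = natAdd N k` (equation `- h_k`). (2) `δv_a = r_a` for `a ≤ m'`,
`δv_{natAdd k} = 0`, `δv_b`, `m < b < N`, by `rk_solve` for the components `r_a`, `a = natAdd N k`: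
`∑_{b > m'} ∂_b ∂_a G v_b = - ∑_{m < b < N} ∂_b h_k v_b` (`∂_b ∂_a G = 0` for `b = natAdd`), which
do not depend on `q`. (3) the components `P_a`, `a = castAdd a'`, `a' ≥ j`, and `r_a`,
`a = castAdd a'`, `a' > m`, by `δq = q'`: derivatives `- Q(x)`, `- ∂_{a'} Q(x)`,
`- ∑_{m < b < N} ∂_b ∂_{a'} Q v_b`: `exists_quad` with `ν_b = v_b` for `b > m`, `0` otherwise.
Now let `v` be as in the theorem. If `v (castAdd c b) ≠ 0` for some `b > m` then `(z, v)` is a
zero in `Ω`: impossible. Otherwise the equations for `a = castAdd a'`, `a' > m`, are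
`- ∑_k v_{natAdd k} ∂_{a'} h_k = 0`, so `v = 0` by `RkK`. -/
theorem gY3 {N c : ℕ} (φ : MvPolynomial (Fin N) ℝ) (h : Fin c → MvPolynomial (Fin N) ℝ)
    (j m : Fin N) (hjm : j < m) (y : Fin (N + c) → ℝ) :
    ∀ᵐ q : Par N, ∀ z : Fin (N + c) → ℝ, RkK m h (fstP z) →
      (∀ a, a < Fin.castAdd c j → z a = y a) → eval z (Gx (φ - quad q) h) = 0 →
      (∀ a, Fin.castAdd c j < a → eval z (pderiv a (Gx (φ - quad q) h)) = 0) →
      ∀ v : Fin (N + c) → ℝ, (∀ a, a ≤ Fin.castAdd c m → v a = 0) →
        (∀ a, Fin.castAdd c m < a →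
          ∑ b, eval z (pderiv b (pderiv a (Gx (φ - quad q) h))) * v b = 0) → v = 0 := by
  obtain ⟨H, hHdef⟩ : ∃ H : MvPolynomial (Fin (N + c)) ℝ, H = Gx (φ - quad 0) h := ⟨_, rfl⟩
  have hH : ∀ k, pderiv (Fin.natAdd N k) H = - rename (Fin.castAdd c) (h k) := by
    intro k
    rw [hHdef]
    exact pderiv_natAdd_Gx _ h k
  have h1 : (MeasureTheory.volume : MeasureTheory.Measure (Fin N → ℝ)).IsAddHaarMeasure :=
    inferInstance
  have h2 : (MeasureTheory.volume :
      MeasureTheory.Measure (Fin N → Fin N → ℝ)).IsAddHaarMeasure := inferInstance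
  have h4 : ((MeasureTheory.volume : MeasureTheory.Measure (Fin N → ℝ)).prod
      (MeasureTheory.volume : MeasureTheory.Measure (Fin N → Fin N → ℝ))).IsAddHaarMeasure :=
    MeasureTheory.Measure.prod.instIsAddHaarMeasure _ _
  have h3 : (MeasureTheory.volume : MeasureTheory.Measure (Par N)).IsAddHaarMeasure := by
    change ((MeasureTheory.volume : MeasureTheory.Measure ℝ).prod
      ((MeasureTheory.volume : MeasureTheory.Measure (Fin N → ℝ)).prod
      (MeasureTheory.volume : MeasureTheory.Measure (Fin N → Fin N → ℝ)))).IsAddHaarMeasure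
    exact MeasureTheory.Measure.prod.instIsAddHaarMeasure _ _
  have hΩ : IsOpen {p : GenY3_P N c | RkK m h (fstP p.1.1) ∧
      ∃ b, m < b ∧ p.1.2 (Fin.castAdd c b) ≠ 0} := by
    refine IsOpen.inter ((rkK_open m h).preimage
      (continuous_fstP.comp (continuous_fst.comp continuous_fst))) ?_
    have h5 : {p : GenY3_P N c | ∃ b, m < b ∧ p.1.2 (Fin.castAdd c b) ≠ 0} =
        ⋃ b : Fin N, ⋃ _ : m < b, {p : GenY3_P N c | p.1.2 (Fin.castAdd c b) ≠ 0} := by
      ext p
      simp
    change IsOpen {p : GenY3_P N c | ∃ b, m < b ∧ p.1.2 (Fin.castAdd c b) ≠ 0}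
    rw [h5]
    refine isOpen_iUnion fun b => isOpen_iUnion fun _ => ?_
    have h6 : Continuous fun p : GenY3_P N c => p.1.2 (Fin.castAdd c b) :=
      (continuous_apply _).comp (continuous_snd.comp continuous_fst)
    exact isOpen_ne_fun h6 continuous_const
  have key := param_sard (Z := (Fin (N + c) → ℝ) × (Fin (N + c) → ℝ))
    (W := (Fin (N + c) ⊕ Fin (N + c)) → ℝ) (Λ := Par N)
    (MeasureTheory.volume : MeasureTheory.Measure (Par N)) (by simp) (GenY3_K H j m y) _
    hΩ (GenY3_K_smooth H j m y) (fun p hp _ => GenY3_K_surj H h hH j m hjm y p hp.1 hp.2)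
  filter_upwards [key] with q hq z hrk hz h0 hder v hv hHv
  have hev : ∀ z', eval z' (Gx (φ - quad q) h) = eval z' H - GenY3_A (fstP z') q := by
    intro z'
    rw [hHdef]
    exact GenY3_ev φ h q z'
  have hpd : ∀ z' a, eval z' (pderiv a (Gx (φ - quad q) h)) =
      eval z' (pderiv a H) - GenY3_Bx (fstP z') q.2 a := by
    intro z' a
    rw [hHdef]
    exact GenY3_pd φ h q z' a
  have hpd2 : ∀ z' b a, eval z' (pderiv b (pderiv a (Gx (φ - quad q) h))) =
      eval z' (pderiv b (pderiv a H)) - GenY3_Cx q.2 b a := by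
    intro z' b a
    rw [hHdef]
    exact GenY3_pd2 φ h q z' b a
  have hHv' : ∀ a, Fin.castAdd c m < a → (∑ b, if Fin.castAdd c m < b then
      (eval z (pderiv b (pderiv a H)) - GenY3_Cx q.2 b a) * v b else 0) = 0 := by
    intro a ha
    refine Eq.trans (Finset.sum_congr rfl fun b _ => ?_) (hHv a ha)
    by_cases hb : Fin.castAdd c m < b
    · rw [if_pos hb, hpd2]
    · rw [if_neg hb, hv b (not_lt.1 hb), mul_zero]
  by_cases hb : ∃ b, m < b ∧ v (Fin.castAdd c b) ≠ 0
  · exfalso
    have hK0 : GenY3_K H j m y ((z, v), q) = 0 := by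
      funext s
      rcases s with a | a
      · rw [GenY3_K_l]
        show (if a < Fin.castAdd c j then z a - y a else if a = Fin.castAdd c j then
          eval z H - GenY3_A (fstP z) q else
          eval z (pderiv a H) - GenY3_Bx (fstP z) q.2 a) = 0
        split_ifs with ha ha'
        · rw [hz a ha, sub_self]
        · rw [← hev]
          exact h0
        · rw [← hpd]
          exact hder a (lt_of_le_of_ne (not_lt.1 ha) (Ne.symm ha'))
      · rw [GenY3_K_r]
        show (if a ≤ Fin.castAdd c m then v a else ∑ b, if Fin.castAdd c m < b then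
          (eval z (pderiv b (pderiv a H)) - GenY3_Cx q.2 b a) * v b else 0) = 0
        split_ifs with ha
        · exact hv a ha
        · exact hHv' a (not_le.1 ha)
    have hd : DifferentiableAt ℝ (GenY3_K H j m y) ((z, v), q) :=
      ((GenY3_K_smooth H j m y).differentiable one_ne_zero) ((z, v), q)
    have h7 : ∀ (t : ℝ), (((z, v), q) : GenY3_P N c) +
        t • (((0, v), 0) : GenY3_P N c) = ((z, v + t • v), q) := by
      intro t
      simp
    have hker : fderiv ℝ (GenY3_K H j m y) ((z, v), q) ((0, v), 0) = 0 := by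
      funext s
      refine GenY3_line hd _ _ ?_
      rcases s with a | a
      · have h6 : (fun t : ℝ => GenY3_K H j m y ((((z, v), q) : GenY3_P N c) +
            t • (((0, v), 0) : GenY3_P N c)) (Sum.inl a)) =
            fun _ => GenY3_K H j m y ((z, v), q) (Sum.inl a) := by
          funext t
          rw [h7, GenY3_K_l, GenY3_K_l]
        rw [h6]
        exact hasDerivAt_const _ _
      · have h6 : (fun t : ℝ => GenY3_K H j m y ((((z, v), q) : GenY3_P N c) +
            t • (((0, v), 0) : GenY3_P N c)) (Sum.inr a)) = fun _ => 0 := by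
          funext t
          rw [h7, GenY3_K_r]
          show (if a ≤ Fin.castAdd c m then (v + t • v) a else
            ∑ b, if Fin.castAdd c m < b then
              (eval z (pderiv b (pderiv a H)) - GenY3_Cx q.2 b a) * (v + t • v) b else 0) = 0
          split_ifs with ha
          · rw [Pi.add_apply, Pi.smul_apply, hv a ha, smul_zero, add_zero]
          · have h8 : (∑ b, if Fin.castAdd c m < b then
                (eval z (pderiv b (pderiv a H)) - GenY3_Cx q.2 b a) * (v + t • v) b else 0) =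
                (1 + t) * ∑ b, if Fin.castAdd c m < b then
                (eval z (pderiv b (pderiv a H)) - GenY3_Cx q.2 b a) * v b else 0 := by
              rw [Finset.mul_sum]
              refine Finset.sum_congr rfl fun b _ => ?_
              rw [Pi.add_apply, Pi.smul_apply, smul_eq_mul]
              split_ifs
              · ring
              · ring
            rw [h8, hHv' a (not_le.1 ha), mul_zero]
        rw [h6]
        exact hasDerivAt_const _ _
    have h9 := hq (z, v) ⟨hrk, hb⟩ hK0 (0, v) hker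
    obtain ⟨b, _, hb'⟩ := hb
    apply hb'
    rw [(Prod.mk.inj h9).2]
    rfl
  · push Not at hb
    have hva : ∀ a : Fin N, v (Fin.castAdd c a) = 0 := by
      intro a
      by_cases ha : m < a
      · exact hb a ha
      · exact hv _ (show Fin.castAdd c a ≤ Fin.castAdd c m from not_lt.1 ha)
    have hs : sndP v = 0 := by
      apply hrk
      intro a ha
      have h5 := hHv (Fin.castAdd c a) (show Fin.castAdd c m < Fin.castAdd c a from ha)
      rw [Fin.sum_univ_add] at h5
      have h6 : (∑ i : Fin N, eval z (pderiv (Fin.castAdd c i) (pderiv (Fin.castAdd c a)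
          (Gx (φ - quad q) h))) * v (Fin.castAdd c i)) = 0 := by
        refine Finset.sum_eq_zero fun i _ => ?_
        rw [hva i, mul_zero]
      rw [h6, zero_add] at h5
      have h7 : (∑ k, sndP v k * eval (fstP z) (pderiv a (h k))) =
          - ∑ i : Fin c, eval z (pderiv (Fin.natAdd N i) (pderiv (Fin.castAdd c a)
            (Gx (φ - quad q) h))) * v (Fin.natAdd N i) := by
        rw [← Finset.sum_neg_distrib]
        refine Finset.sum_congr rfl fun k _ => ?_
        rw [pderiv_castAdd_Gx, pderiv_natAdd_Gx, map_neg, eval_ren]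
        have h8 : sndP v k = v (Fin.natAdd N k) := rfl
        rw [h8]
        ring
      rw [h7, h5, neg_zero]
    funext a
    refine Fin.addCases (fun a' => ?_) (fun k => ?_) a
    · exact hva a'
    · exact congrFun hs k

end Pool.Agent.RM90
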