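import Pool.Agent.Lib.MP_df59e7_lc_Y.GenY1
import Pool.Agent.Lib.MP_df59e7_lc_Y.GenY2
import Pool.Agent.Lib.MP_df59e7_lc_Y.GenY3
import Pool.Agent.Lib.MP_df59e7_lc_Y.GxD
import Pool.Agent.Lib.MP_df59e7_lc_X.GB

set_option autoImplicit false

/-! MP_df59e7_lc, project Y, module GenYa: nondegenerate critical points. -/

namespace Pool.Agent.RM90

open MvPolynomial

theorem Fct_one {n : ℕ} (j m : Fin n) (G : MvPolynomial (Fin n) ℝ) (y : Fin n → ℝ) :
    Fct 1 j m G y = Fcr j m G y := rfl

private theorem GenYa_comm {n : ℕ} (i j : Fin n) (p : MvPolynomial (Fin n) ℝ) :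
    pderiv i (pderiv j p) = pderiv j (pderiv i p) := by
  have h : ⁅(pderiv i : Derivation ℝ (MvPolynomial (Fin n) ℝ) (MvPolynomial (Fin n) ℝ)),
      (pderiv j : Derivation ℝ (MvPolynomial (Fin n) ℝ) (MvPolynomial (Fin n) ℝ))⁆ = 0 := by
    apply derivation_ext
    intro k
    have e : ∀ a b : Fin n, pderiv a (pderiv b (X k : MvPolynomial (Fin n) ℝ)) = 0 := by
      intro a b
      by_cases hb : b = k
      · rw [hb, pderiv_X_self, pderiv_one]
      · rw [pderiv_X_of_ne (Ne.symm hb), map_zero]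
    rw [Derivation.commutator_apply, e, e, sub_zero]
    rfl
  have h1 := congrArg (fun D => D p) h
  simp only [Derivation.commutator_apply] at h1
  exact sub_eq_zero.1 h1

private theorem GenYa_split {n : ℕ} (m : Fin n) (f : Fin n → ℝ) :
    ∑ l, (if m ≤ l then f l else 0) = f m + ∑ l, (if m < l then f l else 0) := by
  have h1 : ∀ l, (if m ≤ l then f l else 0) =
      (if l = m then f l else 0) + (if m < l then f l else 0) := by
    intro l
    rcases lt_trichotomy l m with h | h | h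
    · rw [if_neg (not_le.2 h), if_neg h.ne, if_neg (not_lt.2 h.le), add_zero]
    · rw [h, if_pos le_rfl, if_pos rfl, if_neg (lt_irrefl m), add_zero]
    · rw [if_pos h.le, if_neg h.ne', if_pos h, zero_add]
  rw [Finset.sum_congr rfl fun l _ => h1 l, Finset.sum_add_distrib]
  simp

private theorem GenYa_core {N c : ℕ} (h : Fin c → MvPolynomial (Fin N) ℝ)
    (G : MvPolynomial (Fin (N + c)) ℝ) (j m : Fin (N + c)) (hjm : j < m) (y : Fin (N + c) → ℝ)
    (z : (Fin (N + c) → ℝ) × (Fin (N + c) → ℝ)) (hμ : ∀ l, m < l → z.2 l = 0)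
    (h2a : (∀ a, a < j → z.1 a = y a) → eval z.1 G = 0 →
      (∀ a, j < a → eval z.1 (pderiv a G) = 0) →
      ∀ v : Fin (N + c) → ℝ, (∀ a, a ≤ j → v a = 0) →
        (∀ a, j < a → ∑ b, eval z.1 (pderiv b (pderiv a G)) * v b = 0) → v = 0)
    (h2b : (∀ a, a < j → z.1 a = y a) → eval z.1 G = 0 →
      (∀ a, j < a → eval z.1 (pderiv a G) = 0) →
      ∀ v : Fin (N + c) → ℝ, (∀ a, a ≤ m → v a = 0) →
        (∀ a, m < a → ∑ b, eval z.1 (pderiv b (pderiv a G)) * v b = 0) → v = 0)
    (hz : Fcr j m G y z = 0) (v : (Fin (N + c) → ℝ) × (Fin (N + c) → ℝ))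
    (hv : fderiv ℝ (Fcr j m G y) z v = 0) : v = 0 := by
  rw [(fcr_fderiv j m G y z v).2] at hv
  have hz1 : ∀ a, (if a < j then z.1 a - y a else
      ∑ l, (if m ≤ l then z.2 l * eval z.1 (pderiv a (eqn m G l)) else 0) -
        (if a = j then 1 else 0)) = 0 := fun a => congrFun (congrArg Prod.fst hz) a
  have hz2 : ∀ l, (if l < m then z.2 l else eval z.1 (eqn m G l)) = 0 :=
    fun l => congrFun (congrArg Prod.snd hz) l
  have hv1 : ∀ a, (if a < j then v.1 a else
        ∑ l, (if m ≤ l then v.2 l * eval z.1 (pderiv a (eqn m G l)) +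
          z.2 l * ∑ b, eval z.1 (pderiv b (pderiv a (eqn m G l))) * v.1 b else 0)) = 0 :=
    fun a => congrFun (congrArg Prod.fst hv) a
  have hv2 : ∀ l, (if l < m then v.2 l else
      ∑ b, eval z.1 (pderiv b (eqn m G l)) * v.1 b) = 0 :=
    fun l => congrFun (congrArg Prod.snd hv) l
  have em : eqn m G m = G := if_pos rfl
  have el : ∀ l, m < l → eqn m G l = pderiv l G := fun l hl => if_neg hl.ne'
  have hx : ∀ a, a < j → z.1 a = y a := fun a ha => by
    have := hz1 a
    rw [if_pos ha] at this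
    linarith
  have hG0 : eval z.1 G = 0 := by
    have := hz2 m
    rwa [if_neg (lt_irrefl m), em] at this
  have hcomp : ∀ a, j ≤ a → z.2 m * eval z.1 (pderiv a G) = if a = j then 1 else 0 := by
    intro a ha
    have h3 := hz1 a
    rw [if_neg (not_lt.2 ha), GenYa_split, em] at h3
    have h4 : ∑ l, (if m < l then z.2 l * eval z.1 (pderiv a (eqn m G l)) else 0) = 0 := by
      refine Finset.sum_eq_zero fun l _ => ?_
      by_cases hl : m < l
      · rw [if_pos hl, hμ l hl, zero_mul]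
      · rw [if_neg hl]
    rw [h4] at h3
    linarith
  have hj1 : z.2 m * eval z.1 (pderiv j G) = 1 := by
    have := hcomp j le_rfl
    rwa [if_pos rfl] at this
  have hm0 : z.2 m ≠ 0 := by
    intro h3
    rw [h3, zero_mul] at hj1
    exact zero_ne_one hj1
  have hj0 : eval z.1 (pderiv j G) ≠ 0 := by
    intro h3
    rw [h3, mul_zero] at hj1
    exact zero_ne_one hj1
  have ha0 : ∀ a, j < a → eval z.1 (pderiv a G) = 0 := by
    intro a ha
    have := hcomp a ha.le
    rw [if_neg ha.ne'] at this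
    exact (mul_eq_zero.1 this).resolve_left hm0
  -- the kernel vector
  have hx1 : ∀ a, a < j → v.1 a = 0 := fun a ha => by
    have := hv1 a
    rwa [if_pos ha] at this
  have hμ1 : ∀ l, l < m → v.2 l = 0 := fun l hl => by
    have := hv2 l
    rwa [if_pos hl] at this
  have hxj : v.1 j = 0 := by
    have h3 := hv2 m
    rw [if_neg (lt_irrefl m), em, Finset.sum_eq_single j] at h3
    · exact (mul_eq_zero.1 h3).resolve_left hj0
    · intro b _ hb
      rcases lt_or_gt_of_ne hb with h4 | h4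
      · rw [hx1 b h4, mul_zero]
      · rw [ha0 b h4, zero_mul]
    · intro h4
      exact absurd (Finset.mem_univ j) h4
  have hHl : ∀ l, m < l → ∑ b, eval z.1 (pderiv b (pderiv l G)) * v.1 b = 0 := by
    intro l hl
    have h3 := hv2 l
    rwa [if_neg (not_lt.2 hl.le), el l hl] at h3
  have hfirst : ∀ a, j ≤ a → v.2 m * eval z.1 (pderiv a G) +
      z.2 m * ∑ b, eval z.1 (pderiv b (pderiv a G)) * v.1 b +
      ∑ l, (if m < l then v.2 l * eval z.1 (pderiv a (pderiv l G)) else 0) = 0 := by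
    intro a ha
    have h3 := hv1 a
    rw [if_neg (not_lt.2 ha), GenYa_split, em] at h3
    refine Eq.trans ?_ h3
    congr 1
    refine Finset.sum_congr rfl fun l _ => ?_
    by_cases hl : m < l
    · rw [if_pos hl, if_pos hl, hμ l hl, zero_mul, add_zero, el l hl]
    · rw [if_neg hl, if_neg hl]
  have hμ2 : ∀ l, m < l → v.2 l = 0 := by
    have h3 := h2b hx hG0 ha0 (fun l => if m < l then v.2 l else 0)
      (fun a ha => if_neg (not_lt.2 ha)) (fun a ha => by
        have h4 := hfirst a (hjm.trans ha).le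
        rw [ha0 a (hjm.trans ha), hHl a ha, mul_zero, mul_zero, zero_add, zero_add] at h4
        refine Eq.trans (Finset.sum_congr rfl fun l _ => ?_) h4
        by_cases hl : m < l
        · rw [if_pos hl, if_pos hl, GenYa_comm l a, mul_comm]
        · rw [if_neg hl, if_neg hl, mul_zero])
    intro l hl
    have h4 := congrFun h3 l
    simpa [hl] using h4
  have hrest : ∀ a, ∑ l, (if m < l then v.2 l * eval z.1 (pderiv a (pderiv l G)) else 0) = 0 := by
    intro a
    refine Finset.sum_eq_zero fun l _ => ?_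
    by_cases hl : m < l
    · rw [if_pos hl, hμ2 l hl, zero_mul]
    · rw [if_neg hl]
  have hv10 : v.1 = 0 := by
    refine h2a hx hG0 ha0 v.1 (fun a ha => ?_) (fun a ha => ?_)
    · rcases lt_or_eq_of_le ha with h3 | h3
      · exact hx1 a h3
      · rw [h3]
        exact hxj
    · have h4 := hfirst a ha.le
      rw [ha0 a ha, hrest, mul_zero, zero_add, add_zero] at h4
      exact (mul_eq_zero.1 h4).resolve_left hm0
  have hμm : v.2 m = 0 := by
    have h4 := hfirst j le_rfl
    rw [hrest, hv10] at h4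
    simp only [Pi.zero_apply, mul_zero, Finset.sum_const_zero, add_zero] at h4
    exact (mul_eq_zero.1 h4).resolve_right hj0
  refine Prod.ext hv10 (funext fun l => ?_)
  rcases lt_trichotomy l m with h3 | h3 | h3
  · exact hμ1 l h3
  · rw [h3]
    exact hμm
  · exact hμ2 l h3


/-- Proof: as `gb` (Lib/MP_df59e7_lc_X/GB.lean; copy it), with `gY1` (`t = 1`, `Fct_one`), `gY2`,
`gY3` instead of `gb1`, `gb2a`, `gb2b`. Let `z = ((x, lam), μ)` be a zero. If `μ_b ≠ 0` for some
`b = castAdd b'`, `b' > m`: `gY1`. Otherwise the equations for `a = castAdd a'`, `a' > m`, are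
`μ_{m'} ∂_a G + ∑_k μ_{natAdd k} ∂_a ∂_{natAdd k} G = 0`, where `∂_a G(z) = 0` (an equation of the
second block) and `∂_a ∂_{natAdd k} G = - ∂_{a'} h_k`; so `μ_{natAdd k} = 0` for all `k` by `RkK`, and
`μ_l = 0` for all `l > m'`; then as in `gb`. -/
theorem gYc {N c : ℕ} (φ : MvPolynomial (Fin N) ℝ) (h : Fin c → MvPolynomial (Fin N) ℝ)
    (j m : Fin N) (hjm : j < m) (y : Fin (N + c) → ℝ) :
    ∀ᵐ q : Par N, ∀ z : (Fin (N + c) → ℝ) × (Fin (N + c) → ℝ), RkK m h (fstP z.1) →
      Fcr (Fin.castAdd c j) (Fin.castAdd c m) (Gx (φ - quad q) h) y z = 0 →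
      ∀ v, fderiv ℝ (Fcr (Fin.castAdd c j) (Fin.castAdd c m) (Gx (φ - quad q) h) y) z v = 0 →
        v = 0 := by
  filter_upwards [gY1 1 φ h j m hjm y, gY2 φ h j m hjm y, gY3 φ h j m hjm y] with q h1 h2 h3
  intro z hR hz v hv
  by_cases hμ' : ∃ b, m < b ∧ z.2 (Fin.castAdd c b) ≠ 0
  · exact h1 z hR hμ' hz v hv
  push Not at hμ'
  have hjm' : Fin.castAdd c j < Fin.castAdd c m := hjm
  have hnat : (fun k => z.2 (Fin.natAdd N k)) = 0 := by
    refine hR _ fun a ha => ?_
    have ha' : Fin.castAdd c m < Fin.castAdd c a := ha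
    have hz1 : (if Fin.castAdd c a < Fin.castAdd c j then z.1 (Fin.castAdd c a) -
        y (Fin.castAdd c a) else ∑ l, (if Fin.castAdd c m ≤ l then z.2 l *
          eval z.1 (pderiv (Fin.castAdd c a) (eqn (Fin.castAdd c m) (Gx (φ - quad q) h) l))
            else 0) - (if Fin.castAdd c a = Fin.castAdd c j then 1 else 0)) = 0 :=
      congrFun (congrArg Prod.fst hz) (Fin.castAdd c a)
    have hz2 : (if Fin.castAdd c a < Fin.castAdd c m then z.2 (Fin.castAdd c a) else
        eval z.1 (eqn (Fin.castAdd c m) (Gx (φ - quad q) h) (Fin.castAdd c a))) = 0 :=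
      congrFun (congrArg Prod.snd hz) (Fin.castAdd c a)
    rw [if_neg (not_lt.2 ha'.le)] at hz2
    have e1 : eqn (Fin.castAdd c m) (Gx (φ - quad q) h) (Fin.castAdd c a) =
        pderiv (Fin.castAdd c a) (Gx (φ - quad q) h) := if_neg ha'.ne'
    have e0 : eqn (Fin.castAdd c m) (Gx (φ - quad q) h) (Fin.castAdd c m) =
        Gx (φ - quad q) h := if_pos rfl
    rw [e1] at hz2
    rw [if_neg (not_lt.2 (hjm'.trans ha').le), if_neg (hjm'.trans ha').ne', GenYa_split, e0, hz2,
      mul_zero, zero_add, sub_zero, Fin.sum_univ_add] at hz1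
    have e2 : ∑ b : Fin N, (if Fin.castAdd c m < Fin.castAdd c b then z.2 (Fin.castAdd c b) *
        eval z.1 (pderiv (Fin.castAdd c a) (eqn (Fin.castAdd c m) (Gx (φ - quad q) h)
          (Fin.castAdd c b))) else 0) = 0 := by
      refine Finset.sum_eq_zero fun b _ => ?_
      by_cases hb : Fin.castAdd c m < Fin.castAdd c b
      · rw [if_pos hb, hμ' b hb, zero_mul]
      · rw [if_neg hb]
    have e3 : ∀ k : Fin c, (if Fin.castAdd c m < Fin.natAdd N k then z.2 (Fin.natAdd N k) *
        eval z.1 (pderiv (Fin.castAdd c a) (eqn (Fin.castAdd c m) (Gx (φ - quad q) h)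
          (Fin.natAdd N k))) else 0) =
        -(z.2 (Fin.natAdd N k) * eval (fstP z.1) (pderiv a (h k))) := by
      intro k
      have hk : Fin.castAdd c m < Fin.natAdd N k := by
        rw [Fin.lt_def, Fin.val_castAdd, Fin.val_natAdd]
        have := m.2
        omega
      have e4 : eqn (Fin.castAdd c m) (Gx (φ - quad q) h) (Fin.natAdd N k) =
          pderiv (Fin.natAdd N k) (Gx (φ - quad q) h) := if_neg hk.ne'
      rw [if_pos hk, e4, pderiv_natAdd_Gx, map_neg, pderiv_castAdd_ren, map_neg, eval_ren,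
        mul_neg]
    rw [e2, zero_add, Finset.sum_congr rfl fun k _ => e3 k, Finset.sum_neg_distrib,
      neg_eq_zero] at hz1
    exact hz1
  refine GenYa_core h (Gx (φ - quad q) h) _ _ hjm' y z (fun l hl => ?_)
    (fun hx hG ha => (h2 z.1 hR hx hG ha).2) (fun hx hG ha => h3 z.1 hR hx hG ha) hz v hv
  revert hl
  refine Fin.addCases (fun b hb => hμ' b hb) (fun k _ => congrFun hnat k) l

end Pool.Agent.RM90
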