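import Pool.Agent.Lib.MP_df59e7_lc_Y.GenY1
import Pool.Agent.Lib.MP_df59e7_lc_Y.GenY2
import Pool.Agent.Lib.MP_df59e7_lc_X.FcrD

set_option autoImplicit false

/-! MP_df59e7_lc, project Y, module GenYb: regularity. -/

namespace Pool.Agent.RM90

open MvPolynomial

/-- `Fct t` differs from `Fcr` by a constant. -/
theorem GenYb_fct {n : ℕ} (t : ℝ) (j m : Fin n) (G : MvPolynomial (Fin n) ℝ)
    (y : Fin n → ℝ) :
    Fct t j m G y = fun z => Fcr j m G y z + ((fun a => if a = j then 1 - t else 0), 0) := by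
  funext z
  refine Prod.ext (funext fun a => ?_) (funext fun l => ?_)
  · show (if a < j then z.1 a - y a else
      ∑ l, (if m ≤ l then z.2 l * eval z.1 (pderiv a (eqn m G l)) else 0) -
        (if a = j then t else 0)) = (if a < j then z.1 a - y a else
      ∑ l, (if m ≤ l then z.2 l * eval z.1 (pderiv a (eqn m G l)) else 0) -
        (if a = j then 1 else 0)) + (if a = j then 1 - t else 0)
    by_cases h1 : a < j
    · rw [if_pos h1, if_pos h1, if_neg h1.ne, add_zero]
    · rw [if_neg h1, if_neg h1]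
      by_cases h2 : a = j
      · rw [if_pos h2, if_pos h2, if_pos h2]
        ring
      · rw [if_neg h2, if_neg h2, if_neg h2, add_zero]
  · show (if l < m then z.2 l else eval z.1 (eqn m G l)) =
      (if l < m then z.2 l else eval z.1 (eqn m G l)) + 0
    rw [add_zero]

/-- The derivative of `Fct t`. -/
theorem GenYb_fderiv {n : ℕ} (t : ℝ) (j m : Fin n) (G : MvPolynomial (Fin n) ℝ)
    (y : Fin n → ℝ) (z v : (Fin n → ℝ) × (Fin n → ℝ)) :
    fderiv ℝ (Fct t j m G y) z v =
      (fun a => if a < j then v.1 a else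
        ∑ l, (if m ≤ l then v.2 l * eval z.1 (pderiv a (eqn m G l)) +
          z.2 l * ∑ b, eval z.1 (pderiv b (pderiv a (eqn m G l))) * v.1 b else 0),
       fun l => if l < m then v.2 l else ∑ b, eval z.1 (pderiv b (eqn m G l)) * v.1 b) := by
  rw [GenYb_fct, fderiv_add_const]
  exact (fcr_fderiv j m G y z v).2

/-- Regularity. Proof: let `μ` satisfy the condition of `RegAt`, `μ' l = if l < m' then 0 else μ l`
(`m' = castAdd c m`). If `μ_b ≠ 0` for some `b = castAdd b'`, `b' > m`: `(z, μ')` is a zero of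
`Fct 0`, and `(0, μ')` is in the kernel of its derivative (`Fct 0` is linear in `μ` in the first
block; differentiate along the line `s ↦ (z, μ' + s μ')`), so `μ' = 0` by `gY1` with `t = 0`,
contradiction. Otherwise for `a = castAdd a'`, `a' > m`: `μ_{m'} ∂_a G(z) - ∑_k μ_{natAdd k} ∂_{a'} h_k = 0`
and `∂_a G(z) = 0`, so `μ_{natAdd k} = 0` by `RkK`. Then `μ_{m'} ∂_a G(z) = 0` for all `a ≥ j'`; if
`μ_{m'} ≠ 0` this contradicts the first claim of `gY2`. -/
theorem gYr {N c : ℕ} (φ : MvPolynomial (Fin N) ℝ) (h : Fin c → MvPolynomial (Fin N) ℝ)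
    (j m : Fin N) (hjm : j < m) (y : Fin (N + c) → ℝ) :
    ∀ᵐ q : Par N, ∀ z ∈ Wst Set.univ (Fin.castAdd c j) (Fin.castAdd c m) (Gx (φ - quad q) h) y,
      RkK m h (fstP z) →
      RegAt (Fin.castAdd c j) (Fin.castAdd c m) (Gx (φ - quad q) h) z := by
  filter_upwards [gY1 0 φ h j m hjm y, gY2 φ h j m hjm y] with q h1 h2 z hz hr μ hμ
  obtain ⟨g, hg⟩ : ∃ g, g = φ - quad q := ⟨_, rfl⟩
  rw [← hg] at h1 h2 hz hμ
  obtain ⟨-, hzy, hze⟩ := hz
  -- the values at `z`
  have hG0 : eval z (Gx g h) = 0 := by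
    have h3 := hze (Fin.castAdd c m) le_rfl
    unfold eqn at h3
    rwa [if_pos rfl] at h3
  have hGl : ∀ l, Fin.castAdd c m < l → eval z (pderiv l (Gx g h)) = 0 := by
    intro l hl
    have h3 := hze l hl.le
    unfold eqn at h3
    rwa [if_neg hl.ne'] at h3
  have hcast : ∀ a b : Fin N, Fin.castAdd c a < Fin.castAdd c b ↔ a < b := fun a b => Iff.rfl
  have hcast' : ∀ a b : Fin N, Fin.castAdd c a ≤ Fin.castAdd c b ↔ a ≤ b := fun a b => Iff.rfl
  have hnat : ∀ (a : Fin N) (k : Fin c), Fin.castAdd c a < Fin.natAdd N k := by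
    intro a k
    rw [Fin.lt_def, Fin.val_castAdd, Fin.val_natAdd]
    have := a.2
    omega
  -- first step
  have hb : ∀ b, m < b → μ (Fin.castAdd c b) = 0 := by
    intro b hbm
    by_contra hne
    obtain ⟨μ', hμ'⟩ : ∃ μ' : Fin (N + c) → ℝ,
        μ' = fun l => if l < Fin.castAdd c m then 0 else μ l := ⟨_, rfl⟩
    have e1 : ∀ l, Fin.castAdd c m ≤ l → μ' l = μ l := by
      intro l hl
      rw [hμ']
      exact if_neg (not_lt.2 hl)
    have e2 : ∀ l, l < Fin.castAdd c m → μ' l = 0 := by
      intro l hl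
      rw [hμ']
      exact if_pos hl
    have e3 : ∀ a, Fin.castAdd c j ≤ a →
        ∑ l, (if Fin.castAdd c m ≤ l then
          μ' l * eval z (pderiv a (eqn (Fin.castAdd c m) (Gx g h) l)) else 0) = 0 := by
      intro a ha
      refine Eq.trans (Finset.sum_congr rfl fun l _ => ?_) (hμ a ha)
      by_cases hl : Fin.castAdd c m ≤ l
      · rw [if_pos hl, if_pos hl, e1 l hl]
      · rw [if_neg hl, if_neg hl]
    have e4 : Fct 0 (Fin.castAdd c j) (Fin.castAdd c m) (Gx g h) y (z, μ') = 0 := by
      refine Prod.ext (funext fun a => ?_) (funext fun l => ?_)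
      · show (if a < Fin.castAdd c j then z a - y a else
          ∑ l, (if Fin.castAdd c m ≤ l then
            μ' l * eval z (pderiv a (eqn (Fin.castAdd c m) (Gx g h) l)) else 0) -
            (if a = Fin.castAdd c j then 0 else 0)) = 0
        by_cases ha : a < Fin.castAdd c j
        · rw [if_pos ha, hzy a ha, sub_self]
        · rw [if_neg ha, e3 a (not_lt.1 ha), ite_self, sub_zero]
      · show (if l < Fin.castAdd c m then μ' l else
          eval z (eqn (Fin.castAdd c m) (Gx g h) l)) = 0
        by_cases hl : l < Fin.castAdd c m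
        · rw [if_pos hl, e2 l hl]
        · rw [if_neg hl, hze l (not_lt.1 hl)]
    have e5 : fderiv ℝ (Fct 0 (Fin.castAdd c j) (Fin.castAdd c m) (Gx g h) y) (z, μ')
        ((0, μ') : (Fin (N + c) → ℝ) × (Fin (N + c) → ℝ)) = 0 := by
      rw [GenYb_fderiv]
      refine Prod.ext (funext fun a => ?_) (funext fun l => ?_)
      · show (if a < Fin.castAdd c j then (0 : ℝ) else
          ∑ l, (if Fin.castAdd c m ≤ l then
            μ' l * eval z (pderiv a (eqn (Fin.castAdd c m) (Gx g h) l)) +
            μ' l * ∑ b, eval z (pderiv b (pderiv a (eqn (Fin.castAdd c m) (Gx g h) l))) * 0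
            else 0)) = 0
        by_cases ha : a < Fin.castAdd c j
        · rw [if_pos ha]
        · rw [if_neg ha]
          refine Eq.trans (Finset.sum_congr rfl fun l _ => ?_) (e3 a (not_lt.1 ha))
          simp only [mul_zero, Finset.sum_const_zero, add_zero]
      · show (if l < Fin.castAdd c m then μ' l else
          ∑ b, eval z (pderiv b (eqn (Fin.castAdd c m) (Gx g h) l)) * 0) = 0
        by_cases hl : l < Fin.castAdd c m
        · rw [if_pos hl, e2 l hl]
        · rw [if_neg hl]
          simp only [mul_zero, Finset.sum_const_zero]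
    have e6 : μ' (Fin.castAdd c b) ≠ 0 := by
      rw [e1 _ ((hcast' m b).2 hbm.le)]
      exact hne
    have e7 := h1 (z, μ') hr ⟨b, hbm, e6⟩ e4 (0, μ') e5
    exact e6 (congrFun (congrArg Prod.snd e7) (Fin.castAdd c b))
  -- the remaining relation
  have hrel : ∀ a : Fin N, j ≤ a →
      μ (Fin.castAdd c m) * eval z (pderiv (Fin.castAdd c a) (Gx g h)) -
        ∑ k, μ (Fin.natAdd N k) * eval (fstP z) (pderiv a (h k)) = 0 := by
    intro a ha
    have h3 := hμ (Fin.castAdd c a) ((hcast' j a).2 ha)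
    rw [Fin.sum_univ_add] at h3
    have h4 : ∑ l : Fin N, (if Fin.castAdd c m ≤ Fin.castAdd c l then
        μ (Fin.castAdd c l) * eval z (pderiv (Fin.castAdd c a)
          (eqn (Fin.castAdd c m) (Gx g h) (Fin.castAdd c l))) else 0) =
        μ (Fin.castAdd c m) * eval z (pderiv (Fin.castAdd c a) (Gx g h)) := by
      rw [Finset.sum_eq_single m]
      · rw [if_pos le_rfl]
        unfold eqn
        rw [if_pos rfl]
      · intro l _ hl
        by_cases h5 : Fin.castAdd c m ≤ Fin.castAdd c l
        · rw [if_pos h5, hb l (lt_of_le_of_ne ((hcast' m l).1 h5) (Ne.symm hl)), zero_mul]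
        · rw [if_neg h5]
      · intro h5
        exact absurd (Finset.mem_univ m) h5
    have h5 : ∑ k : Fin c, (if Fin.castAdd c m ≤ Fin.natAdd N k then
        μ (Fin.natAdd N k) * eval z (pderiv (Fin.castAdd c a)
          (eqn (Fin.castAdd c m) (Gx g h) (Fin.natAdd N k))) else 0) =
        - ∑ k, μ (Fin.natAdd N k) * eval (fstP z) (pderiv a (h k)) := by
      rw [← Finset.sum_neg_distrib]
      refine Finset.sum_congr rfl fun k _ => ?_
      rw [if_pos (hnat m k).le]
      unfold eqn
      rw [if_neg (hnat m k).ne', pderiv_natAdd_Gx, map_neg, pderiv_castAdd_ren, map_neg,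
        eval_ren]
      ring
    rw [h4, h5] at h3
    rw [sub_eq_add_neg]
    exact h3
  have hk : ∀ k, μ (Fin.natAdd N k) = 0 := by
    have h3 := hr (fun k => μ (Fin.natAdd N k)) (fun a ha => by
      have h4 := hrel a (hjm.trans ha).le
      rw [hGl (Fin.castAdd c a) ((hcast m a).2 ha), mul_zero, zero_sub, neg_eq_zero] at h4
      exact h4)
    intro k
    exact congrFun h3 k
  have hm : μ (Fin.castAdd c m) = 0 := by
    by_contra hne
    have h3 : ∀ a : Fin N, j ≤ a → eval z (pderiv (Fin.castAdd c a) (Gx g h)) = 0 := by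
      intro a ha
      have h4 := hrel a ha
      have h5 : ∑ k, μ (Fin.natAdd N k) * eval (fstP z) (pderiv a (h k)) = 0 :=
        Finset.sum_eq_zero fun k _ => by rw [hk k, zero_mul]
      rw [h5, sub_zero] at h4
      exact (mul_eq_zero.1 h4).resolve_left hne
    have h4 : ∀ a, Fin.castAdd c j < a → eval z (pderiv a (Gx g h)) = 0 := by
      intro a
      refine Fin.addCases (fun i hi => ?_) (fun k _ => ?_) a
      · exact h3 i ((hcast j i).1 hi).le
      · exact hGl _ (hnat m k)
    exact (h2 z hr hzy hG0 h4).1 (h3 j le_rfl)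
  intro l
  refine Fin.addCases (fun i hi => ?_) (fun k _ => hk k) l
  rcases lt_or_eq_of_le ((hcast' m i).1 hi) with h3 | h3
  · exact hb i h3
  · rw [← h3]
    exact hm

end Pool.Agent.RM90
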