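import Pool.Agent.Lib.MP_df59e7_lc_Y.GenYa
import Pool.Agent.Lib.MP_df59e7_lc_Y.GenYb
import Pool.Agent.Lib.MP_df59e7_lc_X.GenAll

set_option autoImplicit false

/-! MP_df59e7_lc, project Y, module GenYc: all genericity statements together. -/

namespace Pool.Agent.RM90

open MvPolynomial

/-- All genericity statements. Proof: as `gen_all` (Lib/MP_df59e7_lc_X/GenAll.lean): countably many
`i` (`i = castAdd c i'` with `i' < m`, since `i < castAdd c m`) and rational `r`. -/
theorem gen_Y {N c : ℕ} (φ : MvPolynomial (Fin N) ℝ) (h : Fin c → MvPolynomial (Fin N) ℝ)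
    (j m : Fin N) (y : Fin (N + c) → ℝ) :
    ∀ᵐ q : Par N, ∀ i, Fin.castAdd c j ≤ i → i < Fin.castAdd c m →
      ∀ y', RatExt (Fin.castAdd c j) i y y' →
      (∀ z ∈ Wst Set.univ i (Fin.castAdd c m) (Gx (φ - quad q) h) y', RkK m h (fstP z) →
        RegAt i (Fin.castAdd c m) (Gx (φ - quad q) h) z) ∧
      (∀ z : (Fin (N + c) → ℝ) × (Fin (N + c) → ℝ), RkK m h (fstP z.1) →
        Fcr i (Fin.castAdd c m) (Gx (φ - quad q) h) y' z = 0 →
        ∀ v, fderiv ℝ (Fcr i (Fin.castAdd c m) (Gx (φ - quad q) h) y') z v = 0 → v = 0) := by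
  have key : ∀ (i : Fin N) (_ : i < m) (r : Fin (N + c) → ℚ), ∀ᵐ q : Par N,
      (∀ z ∈ Wst Set.univ (Fin.castAdd c i) (Fin.castAdd c m) (Gx (φ - quad q) h)
          (fun a => if a < Fin.castAdd c j then y a else (r a : ℝ)), RkK m h (fstP z) →
        RegAt (Fin.castAdd c i) (Fin.castAdd c m) (Gx (φ - quad q) h) z) ∧
      (∀ z : (Fin (N + c) → ℝ) × (Fin (N + c) → ℝ), RkK m h (fstP z.1) →
        Fcr (Fin.castAdd c i) (Fin.castAdd c m) (Gx (φ - quad q) h)
          (fun a => if a < Fin.castAdd c j then y a else (r a : ℝ)) z = 0 →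
        ∀ v, fderiv ℝ (Fcr (Fin.castAdd c i) (Fin.castAdd c m) (Gx (φ - quad q) h)
          (fun a => if a < Fin.castAdd c j then y a else (r a : ℝ))) z v = 0 → v = 0) :=
    fun i him r =>
      (gYr φ h i m him (fun a => if a < Fin.castAdd c j then y a else (r a : ℝ))).and
        (gYc φ h i m him (fun a => if a < Fin.castAdd c j then y a else (r a : ℝ)))
  have hall := MeasureTheory.ae_all_iff.2 fun i : Fin N =>
    MeasureTheory.ae_all_iff.2 fun him : i < m => MeasureTheory.ae_all_iff.2 fun r => key i him r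
  filter_upwards [hall] with q hq i hji him y' hy'
  have hiN : (i : ℕ) < N := by
    have h1 : (i : ℕ) < (Fin.castAdd c m : ℕ) := him
    rw [Fin.val_castAdd] at h1
    exact h1.trans m.2
  obtain ⟨i', rfl⟩ : ∃ i' : Fin N, Fin.castAdd c i' = i := ⟨⟨i, hiN⟩, rfl⟩
  have hr : ∃ r : Fin (N + c) → ℚ, ∀ a, a < Fin.castAdd c i' →
      y' a = if a < Fin.castAdd c j then y a else (r a : ℝ) := by
    have h1 : ∀ a : Fin (N + c), ∃ r : ℚ, a < Fin.castAdd c i' →
        y' a = if a < Fin.castAdd c j then y a else (r : ℝ) := by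
      intro a
      by_cases haj : a < Fin.castAdd c j
      · exact ⟨0, fun _ => by rw [if_pos haj]; exact hy'.1 a haj⟩
      · by_cases hai : a < Fin.castAdd c i'
        · obtain ⟨r, hr⟩ := hy'.2 a (not_lt.1 haj) hai
          exact ⟨r, fun _ => by rw [if_neg haj]; exact hr⟩
        · exact ⟨0, fun h => absurd h hai⟩
    choose r hr using h1
    exact ⟨r, hr⟩
  obtain ⟨r, hr⟩ := hr
  have hW : Wst Set.univ (Fin.castAdd c i') (Fin.castAdd c m) (Gx (φ - quad q) h) y' =
      Wst Set.univ (Fin.castAdd c i') (Fin.castAdd c m) (Gx (φ - quad q) h)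
        (fun a => if a < Fin.castAdd c j then y a else (r a : ℝ)) := by
    ext x
    refine and_congr_right fun _ => and_congr_left fun _ => forall₂_congr fun a ha => ?_
    rw [hr a ha]
  have hF : Fcr (Fin.castAdd c i') (Fin.castAdd c m) (Gx (φ - quad q) h) y' =
      Fcr (Fin.castAdd c i') (Fin.castAdd c m) (Gx (φ - quad q) h)
        (fun a => if a < Fin.castAdd c j then y a else (r a : ℝ)) := by
    funext z
    refine Prod.ext (funext fun a => ?_) rfl
    by_cases ha : a < Fin.castAdd c i'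
    · show (if a < Fin.castAdd c i' then z.1 a - y' a else _) =
        (if a < Fin.castAdd c i' then z.1 a -
          (if a < Fin.castAdd c j then y a else (r a : ℝ)) else _)
      rw [if_pos ha, if_pos ha, hr a ha]
    · show (if a < Fin.castAdd c i' then z.1 a - y' a else _) =
        (if a < Fin.castAdd c i' then z.1 a -
          (if a < Fin.castAdd c j then y a else (r a : ℝ)) else _)
      rw [if_neg ha, if_neg ha]
  rw [hW, hF]
  exact hq i' him r

end Pool.Agent.RM90
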