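import Pool.Agent.Lib.MP_df59e7_lc_Y.GenO
import Pool.Agent.Lib.MP_df59e7_lc_Y.WDeg
import Pool.Agent.Lib.MP_df59e7_lc_X.InitQ

set_option autoImplicit false

/-! MP_df59e7_lc, project Y, module InitY: the initial stage. -/

namespace Pool.Agent.RM90

open MvPolynomial

/-- The initial certificate: one equation `G = 0` of degree at most `D`, all weights `1`.
Proof: `w = 1`, `p = D + 1`, `σ = 1` (`wle_totalDegree`; for `l = last`, `eqn` is `G`). -/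
theorem init_cpx {k : ℕ} (G : MvPolynomial (Fin (k + 1)) ℝ) (D : ℕ) (hD : 1 ≤ D)
    (h : G.totalDegree ≤ D) :
    Cpx (Fin.last k) G (fun _ => 1) (fun _ => D + 1) (Equiv.refl _) D (D + 1) := by
  have hl : ∀ l, Fin.last k ≤ l → eqn (Fin.last k) G l = G := fun l hl =>
    if_pos (Fin.last_le_iff.1 hl)
  have hw : WLe (fun _ : Fin (k + 1) => 1) D G := wle_totalDegree h
  refine ⟨fun _ => le_rfl, fun _ _ => rfl, fun _ => hD, fun l h1 => ?_, fun l h1 => h1,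
    fun l h1 => ?_, ?_⟩
  · rw [hl l h1]
    exact hw
  · rw [hl l h1]
    exact ⟨D, hw, by omega⟩
  · rw [Finset.prod_eq_single (Fin.last k)]
    · simp
    · intro l _ hne
      exact if_neg fun h1 => hne (Fin.last_le_iff.1 h1)
    · intro h1
      exact absurd (Finset.mem_univ _) h1

/-- Proof: copy `initQ` (Lib/MP_df59e7_lc_X/InitQ.lean) with `gen_O` instead of `gen_all` and `GdY`
instead of `GdS` (`gds_of_gen` with the fields `reg`, `ndg`). -/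
theorem initY {k s : ℕ} (hk : 1 ≤ k) (d : ℕ) (P : Fin s → MvPolynomial (Fin k) ℝ)
    (hdeg : ∀ i, (P i).totalDegree ≤ d) (R0 : ℝ)
    (hR0 : ∀ x : Fin k → ℝ, (∀ i, 0 ≤ eval x (P i)) → ‖x‖ < R0) (δ : ℝ) (hδ : 0 < δ) :
    ∃ (U : Set (Fin (k + 1) → ℝ)) (G : MvPolynomial (Fin (k + 1)) ℝ),
      GdY U 0 (Fin.last k) G 0 ∧ G.totalDegree ≤ s * d + 2 ∧
      (∀ y ∈ Wst U 0 (Fin.last k) G 0,
        (∀ i, -δ ≤ eval (fun j : Fin k => y j.castSucc) (P i)) ∧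
        ‖(fun j : Fin k => y j.castSucc)‖ ≤ R0) ∧
      ∃ L : (Fin k → ℝ) → (Fin (k + 1) → ℝ), ContinuousOn L {x | ∀ i, 0 ≤ eval x (P i)} ∧
        ∀ x, (∀ i, 0 ≤ eval x (P i)) → L x ∈ Wst U 0 (Fin.last k) G 0 ∧
          (fun j : Fin k => L x j.castSucc) = x := by
  obtain ⟨ε, hε0, hεδ, hε⟩ := init_eps P R0 hR0 δ hδ
  obtain ⟨Mx, hM1, hMx⟩ := prod_bdd P ε R0
  set R1 : ℝ := 2 * Mx + 3 with hR1
  have hden : (0 : ℝ) < 1 + (k : ℝ) * |R0| := by positivity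
  set η : ℝ := min (min (1 / 2) (1 / (1 + (k : ℝ) * |R0|))) (ε ^ s) with hη
  have hη0 : 0 < η := lt_min (lt_min (by norm_num) (by positivity)) (pow_pos hε0 s)
  have hη1 : η ≤ 1 / 2 := (min_le_left _ _).trans (min_le_left _ _)
  have hη2 : η * (1 + (k : ℝ) * |R0|) ≤ 1 := by
    have h1 : η ≤ 1 / (1 + (k : ℝ) * |R0|) := (min_le_left _ _).trans (min_le_right _ _)
    calc η * (1 + (k : ℝ) * |R0|) ≤ 1 / (1 + (k : ℝ) * |R0|) * (1 + (k : ℝ) * |R0|) :=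
          mul_le_mul_of_nonneg_right h1 hden.le
      _ = 1 := by field_simp
  have hη3 : η ≤ ε ^ s := min_le_right _ _
  have hlt : (0 : Fin (k + 1)) < Fin.last k := by
    rw [Fin.lt_def]
    simpa using Nat.pos_of_ne_zero (by omega)
  obtain ⟨c, hc1, _, hc3, hc4, hc5⟩ := exists_parQ _
    (gen_O (QQ P ε) 0 (Fin.last k) 0) (max R0 R1) η hη0
  have hcpt := initQ_cpt P ε R0 R1 Mx hε0 hε hM1 hMx hR1 c (fun x hx => (hc5 x hx).1)
  obtain ⟨L, hL1, hL2⟩ := initQ_lift P ε R0 R1 Mx η hε0 hR0 hM1 hMx hR1 c hη1 hη2 hc3 hc4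
    (fun x hx => ⟨(hc5 x hx).1, lt_of_lt_of_le (hc5 x hx).2 hη3⟩)
  refine ⟨UU P ε R0 R1, QQ P ε - quad c, ⟨UU_open P ε R0 R1, UU_bdd P ε R0 R1, hlt, hcpt,
    fun i h1 h2 y' h3 x hx => (hc1 i h1 h2 y' h3).1 x ⟨Set.mem_univ _, hx.2⟩,
    fun i h1 h2 y' h3 z _ hz => (hc1 i h1 h2 y' h3).2 z hz⟩, ?_, ?_, L, hL1, hL2⟩
  · exact (totalDegree_sub _ _).trans (max_le (deg_QQ P ε d hdeg)
      ((deg_quad _).trans (by omega)))
  · intro y hy
    refine ⟨fun i => ?_, hy.1.2.1.le⟩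
    have := hy.1.1 i
    linarith

end Pool.Agent.RM90
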