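import Pool.Agent.Lib.MP_df59e7_lc_Y.DefsY
import Pool.Agent.Lib.MP_df59e7_lc_X.TubeM

set_option autoImplicit false

/-! MP_df59e7_lc, project Y, module MeetD: the meeting property extends from dense sets. -/

namespace Pool.Agent.RM90

/-- Proof: let `x ∈ E`, `x_n ∈ D`, `x_n → x`, `z_n ∈ comp(E ∩ π⁻¹(π x_n), x_n) ∩ Z`; a subsequence
converges to `z ∈ E ∩ Z`, `π z = π x`. CLAIM: `z` is in the component of `x` in
`Φ = E ∩ π⁻¹{π x}` (compact). Otherwise (`comp_clopen` in Lib/MP_df59e7_lc_X/TubeM.lean with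
`O = {z}ᶜ`) `Φ = Φ1 ∪ Φ2`, compact, disjoint, `comp ⊆ Φ1 ⊆ {z}ᶜ`, so `x ∈ Φ1`, `z ∈ Φ2`. Take disjoint
open `O1 ⊇ Φ1`, `O2 ⊇ Φ2`. For large `n` the fibre `E ∩ π⁻¹{π x_n}` is contained in `O1 ∪ O2`
(otherwise points of the compact set `E \ (O1 ∪ O2)` in these fibres have a limit point in
`E ∩ π⁻¹{π x} = Φ` outside of `O1 ∪ O2`). The component of `x_n` is preconnected, contained in
`O1 ∪ O2`, contains `x_n ∈ O1` and `z_n ∈ O2` for large `n` (subsequence): contradiction. -/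
theorem meet_dense {X Y : Type} [MetricSpace X] [MetricSpace Y] (E : Set X) (hE : IsCompact E)
    (π : X → Y) (hπ : Continuous π) (Z : Set X) (hZ : IsClosed Z) (D : Set X) (hDE : D ⊆ E)
    (hD : ∀ x ∈ E, ∀ ε > 0, ∃ y ∈ D, dist y x < ε)
    (hm : ∀ x ∈ D, (connectedComponentIn (E ∩ π ⁻¹' {π x}) x ∩ Z).Nonempty) :
    ∀ x ∈ E, (connectedComponentIn (E ∩ π ⁻¹' {π x}) x ∩ Z).Nonempty := by
  intro x hx
  have hseq : ∀ n : ℕ, ∃ y ∈ D, dist y x < 1 / ((n : ℝ) + 1) := fun n =>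
    hD x hx _ (by positivity)
  choose u huD hux using hseq
  have hulim : Filter.Tendsto u Filter.atTop (nhds x) := by
    rw [tendsto_iff_dist_tendsto_zero]
    exact squeeze_zero (fun n => dist_nonneg) (fun n => (hux n).le)
      tendsto_one_div_add_atTop_nhds_zero_nat
  choose v hv using fun n => hm (u n) (huD n)
  have hvE : ∀ n, v n ∈ E ∩ π ⁻¹' {π (u n)} := fun n =>
    connectedComponentIn_subset _ _ (hv n).1
  obtain ⟨z, hzE, φ, hφ, hz⟩ := hE.tendsto_subseq fun n => (hvE n).1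
  have hzZ : z ∈ Z := hZ.mem_of_tendsto hz (Filter.Eventually.of_forall fun n => (hv (φ n)).2)
  have hulim' : Filter.Tendsto (fun n => u (φ n)) Filter.atTop (nhds x) :=
    hulim.comp hφ.tendsto_atTop
  have hπz : π z = π x := by
    have h1 : Filter.Tendsto (fun n => π (v (φ n))) Filter.atTop (nhds (π z)) :=
      (hπ.tendsto z).comp hz
    have h2 : Filter.Tendsto (fun n => π (u (φ n))) Filter.atTop (nhds (π x)) :=
      (hπ.tendsto x).comp hulim'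
    refine tendsto_nhds_unique h1 (h2.congr fun n => ?_)
    exact (hvE (φ n)).2.symm
  refine ⟨z, ?_, hzZ⟩
  by_contra hzC
  set Φ : Set X := E ∩ π ⁻¹' {π x} with hΦ
  have hΦc : IsCompact Φ := hE.inter_right (isClosed_singleton.preimage hπ)
  have hxΦ : x ∈ Φ := ⟨hx, rfl⟩
  have hzΦ : z ∈ Φ := ⟨hzE, hπz⟩
  obtain ⟨Φ1, Φ2, hc1, hc2, hU, hdis, hC1, h1O⟩ := comp_clopen Φ hΦc x hxΦ {z}ᶜ
    isOpen_compl_singleton (fun w hw hwz => hzC (by
      rw [Set.mem_singleton_iff] at hwz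
      rw [← hwz]
      exact hw))
  have hx1 : x ∈ Φ1 := hC1 (mem_connectedComponentIn hxΦ)
  have hz2 : z ∈ Φ2 := by
    rw [hU] at hzΦ
    rcases hzΦ with h | h
    · exact absurd rfl (h1O h)
    · exact h
  obtain ⟨O1, O2, hO1, hO2, hs1, hs2, hd⟩ :=
    SeparatedNhds.of_isCompact_isCompact hc1 hc2 hdis
  have hK : IsCompact (E \ (O1 ∪ O2)) := hE.diff (hO1.union hO2)
  have hKc : IsClosed (π '' (E \ (O1 ∪ O2))) := (hK.image hπ).isClosed
  have hnot : π x ∉ π '' (E \ (O1 ∪ O2)) := by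
    rintro ⟨w, ⟨hwE, hwO⟩, hwx⟩
    have hwΦ : w ∈ Φ := ⟨hwE, hwx⟩
    rw [hU] at hwΦ
    rcases hwΦ with h | h
    · exact hwO (Or.inl (hs1 h))
    · exact hwO (Or.inr (hs2 h))
  have e1 : ∀ᶠ n in Filter.atTop, π (u (φ n)) ∉ π '' (E \ (O1 ∪ O2)) :=
    ((hπ.tendsto x).comp hulim').eventually (hKc.isOpen_compl.mem_nhds hnot)
  have e2 : ∀ᶠ n in Filter.atTop, u (φ n) ∈ O1 := hulim'.eventually (hO1.mem_nhds (hs1 hx1))
  have e3 : ∀ᶠ n in Filter.atTop, v (φ n) ∈ O2 := hz.eventually (hO2.mem_nhds (hs2 hz2))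
  obtain ⟨n, h1, h2, h3⟩ := (e1.and (e2.and e3)).exists
  set P : Set X := connectedComponentIn (E ∩ π ⁻¹' {π (u (φ n))}) (u (φ n)) with hP
  have hPsub : P ⊆ O1 ∪ O2 := by
    intro w hw
    by_contra hwO
    have hw2 := connectedComponentIn_subset _ _ hw
    exact h1 ⟨w, ⟨hw2.1, hwO⟩, hw2.2⟩
  have huP : u (φ n) ∈ P := mem_connectedComponentIn ⟨hDE (huD (φ n)), rfl⟩
  have hPO : P ⊆ O1 := isPreconnected_connectedComponentIn.subset_left_of_subset_union hO1 hO2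
    hd hPsub ⟨u (φ n), huP, h2⟩
  exact Set.disjoint_left.1 hd (hPO (hv (φ n)).1) h3

end Pool.Agent.RM90
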