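import Pool.Agent.Lib.MP_df59e7_lc_Y.RkE
import Pool.Agent.Lib.MP_df59e7_lc_Y.FibYY
import Pool.Agent.Lib.MP_df59e7_lc_Y.SliceMin
import Pool.Agent.Lib.MP_df59e7_lc_X.TubeN

set_option autoImplicit false

/-! MP_df59e7_lc, project Y, module TubeAR: the first step, rational fibres. -/

namespace Pool.Agent.RM90

open MvPolynomial

theorem TubeAR_comp_cpt {X : Type*} [MetricSpace X] {F : Set X} (hF : IsCompact F) {x : X}
    (hx : x ∈ F) : IsCompact (connectedComponentIn F x) := by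
  refine hF.of_isClosed_subset ?_ (connectedComponentIn_subset F x)
  refine isClosed_of_closure_subset ?_
  have h1 : IsPreconnected (closure (connectedComponentIn F x)) :=
    isPreconnected_connectedComponentIn.closure
  have h2 : closure (connectedComponentIn F x) ⊆ F :=
    closure_minimal (connectedComponentIn_subset _ _) hF.isClosed
  exact h1.subset_connectedComponentIn (subset_closure (mem_connectedComponentIn hx)) h2

theorem TubeAR_comp_open {X : Type*} [MetricSpace X] {F : Set X} (hF : LCn F) {x : X} :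
    ∀ w ∈ connectedComponentIn F x, ∃ ε > 0, ∀ w' ∈ F, dist w' w < ε →
      w' ∈ connectedComponentIn F x := by
  intro w hw
  have hwF : w ∈ F := connectedComponentIn_subset _ _ hw
  obtain ⟨ρ, hρ, N, hN, hNF, hbN⟩ := hF w hwF 1 one_pos
  refine ⟨ρ, hρ, fun w' hw' hd => ?_⟩
  have h1 : w ∈ N := hbN ⟨hwF, Metric.mem_ball_self hρ⟩
  have h2 : w' ∈ N := hbN ⟨hw', Metric.mem_ball.2 hd⟩
  rw [connectedComponentIn_eq hw]
  exact hN.subset_connectedComponentIn h1 (fun v hv => (hNF hv).1) h2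

/-- The meeting property over rational points.
Proof: `F = Wst U0 m' m0 G0 x` is the fibre (`fib_Y`), good, compact, locally connected (`lc_W`);
`F0` = component of `x` in `F`: compact, and open in `F`: for `w ∈ F0` there is `ε` with
`F ∩ ball w ε ⊆ F0`. `exists_rk` gives `w0 ∈ F0` with `RkK`, so `gramP m' h w0 > 0`
(`gramP_pos_iff`). For large `p` (`hlim`) `quad (q p) w0 < gramP m' h w0`. `slice_min` for
`G' = quad (q p) - gramP m' h`, `K = F0`, `x0 = x`: `hint`: `w' ∈ U0` for `w'` near `w` (open), so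
`w' ∈ F` (`mem_Wst_hh`), so in `F0`. `hrk`: `G' w ≤ 0` gives `gramP w ≥ quad w > 0` (`F0 ⊆ U'`,
`hpos`). It gives `z_p ∈ F0` with `G' z_p = 0` and multipliers, so
`z_p ∈ Pol {x ∈ U' | RkK} j m' h (gramP - quad (q p)) y` (multipliers with the opposite sign; the
coordinates `a < j` of `z_p` are those of `x`, so of `y`). Limit point (`exists_lim`, see the proof of
`TubeN_one` in Lib/MP_df59e7_lc_X/TubeN.lean): in `F0` and in the ultralimit
(`mem_ulim_of_tendsto`). -/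
theorem tubeA_rat {N : ℕ} (U0 : Set (Fin N → ℝ)) (j m0 : Fin N) (G0 : MvPolynomial (Fin N) ℝ)
    (y : Fin N → ℝ) (hG : GdY U0 j m0 G0 y) (m' : Fin N) (hjm : j < m') (hmm : m' < m0)
    (U' : Set (Fin N → ℝ)) (hEU : Wst U0 j m0 G0 y ⊆ U') (q : ℕ → Par N)
    (hpos : ∀ p, ∀ x ∈ closure U', 0 < eval x (quad (q p)))
    (hlim : ∀ ε > 0, ∀ᶠ p in Filter.atTop, ∀ x ∈ closure U', eval x (quad (q p)) < ε)
    (x : Fin N → ℝ) (hx : x ∈ Wst U0 j m0 G0 y)
    (hrat : ∀ a, j ≤ a → a < m' → ∃ r : ℚ, x a = (r : ℝ)) :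
    (connectedComponentIn (Wst U0 j m0 G0 y ∩ prm m' ⁻¹' {prm m' x}) x ∩
      ulim (fun p => Pol {x | x ∈ U' ∧ RkK m' (hh m0 G0) x} j m' (hh m0 G0)
        (gramP m' (hh m0 G0) - quad (q p)) y)).Nonempty := by
  obtain ⟨hF, heq⟩ := fib_Y U0 j m0 G0 y hG m' hjm.le hmm x hx hrat
  have hxF : x ∈ Wst U0 m' m0 G0 x := heq ▸ ⟨hx, rfl⟩
  have hFE : Wst U0 m' m0 G0 x ⊆ Wst U0 j m0 G0 y := by
    rw [← heq]
    exact Set.inter_subset_left
  rw [heq]
  obtain ⟨F0, hF0⟩ : ∃ F0, F0 = connectedComponentIn (Wst U0 m' m0 G0 x) x := ⟨_, rfl⟩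
  have hF0F : F0 ⊆ Wst U0 m' m0 G0 x := hF0 ▸ connectedComponentIn_subset _ _
  have hF0c : IsCompact F0 := hF0 ▸ TubeAR_comp_cpt hF.cpt hxF
  have hlc : LCn (Wst U0 m' m0 G0 x) := lc_W U0 hF.isOpen m' m0 hmm G0 x
    (hF.reg m' le_rfl hmm x ⟨fun _ _ => rfl, fun a h1 h2 => absurd h1 (not_le.2 h2)⟩)
  have hF0o : ∀ w ∈ F0, ∃ ε > 0, ∀ w' ∈ Wst U0 m' m0 G0 x, dist w' w < ε → w' ∈ F0 := by
    rw [hF0]
    exact TubeAR_comp_open hlc
  obtain ⟨w0, hw0, hw0r⟩ := exists_rk U0 m' m0 G0 x hF x hxF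
  rw [← hF0] at hw0 ⊢
  have hU' : ∀ w ∈ F0, w ∈ U' := fun w hw => hEU (hFE (hF0F hw))
  have hw0p : 0 < eval w0 (gramP m' (hh m0 G0)) := (gramP_pos_iff m' (hh m0 G0) w0).2 hw0r
  have hrk : ∀ p, ∀ w ∈ F0, eval w (quad (q p) - gramP m' (hh m0 G0)) ≤ 0 →
      RkK m' (hh m0 G0) w := by
    intro p w hw h1
    rw [map_sub] at h1
    have h2 := hpos p w (subset_closure (hU' w hw))
    exact (gramP_pos_iff m' (hh m0 G0) w).1 (by linarith)
  have hz : ∀ p : ℕ, ∃ z : Fin N → ℝ,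
      (∀ x ∈ closure U', eval x (quad (q p)) < eval w0 (gramP m' (hh m0 G0))) →
      z ∈ F0 ∧ z ∈ Pol {x | x ∈ U' ∧ RkK m' (hh m0 G0) x} j m' (hh m0 G0)
        (gramP m' (hh m0 G0) - quad (q p)) y := by
    intro p
    by_cases hp : ∀ x ∈ closure U', eval x (quad (q p)) < eval w0 (gramP m' (hh m0 G0))
    · obtain ⟨z, hz1, hz2, lam, hz3⟩ := slice_min m' (hh m0 G0)
        (quad (q p) - gramP m' (hh m0 G0)) x F0 hF0c
        (fun w hw => ((mem_Wst_hh U0 m' m0 G0 x w).1 (hF0F hw)).2)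
        (fun w hw _ => by
          obtain ⟨ε, hε, h1⟩ := hF0o w hw
          obtain ⟨δ, hδ, h2⟩ := Metric.isOpen_iff.1 hF.isOpen w (hF0F hw).1
          refine ⟨min ε δ, lt_min hε hδ, fun w' h3 h4 h5 => ?_⟩
          refine h1 w' ((mem_Wst_hh U0 m' m0 G0 x w').2
            ⟨h2 (Metric.mem_ball.2 (h3.trans_le (min_le_right _ _))), h4, h5⟩)
            (h3.trans_le (min_le_left _ _)))
        (hrk p)
        ⟨w0, hw0, by
          rw [map_sub]
          have h1 := hp w0 (subset_closure (hU' w0 hw0))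
          linarith⟩
      have hzF := (mem_Wst_hh U0 m' m0 G0 x z).1 (hF0F hz1)
      have hzE := (mem_Wst_hh U0 j m0 G0 y z).1 (hFE (hF0F hz1))
      refine ⟨z, fun _ => ⟨hz1, ⟨⟨hU' z hz1, hrk p z hz1 hz2.le⟩, hzE.2.1, hzE.2.2, ?_⟩,
        -lam, fun a ha => ?_⟩⟩
      · rw [map_sub] at hz2 ⊢
        linarith
      · have h1 := hz3 a ha
        rw [map_sub, map_sub] at h1 ⊢
        have h2 : ∑ k, (-lam) k * eval z (pderiv a (hh m0 G0 k)) =
            -∑ k, lam k * eval z (pderiv a (hh m0 G0 k)) := by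
          rw [← Finset.sum_neg_distrib]
          refine Finset.sum_congr rfl fun k _ => ?_
          rw [Pi.neg_apply, neg_mul]
        rw [h2, ← h1, neg_sub]
    · exact ⟨x, fun h => absurd h hp⟩
  choose z hz using hz
  have hev : ∀ᶠ p in (Filter.hyperfilter ℕ : Filter ℕ), ∀ x ∈ closure U',
      eval x (quad (q p)) < eval w0 (gramP m' (hh m0 G0)) :=
    Nat.hyperfilter_le_atTop (hlim _ hw0p)
  obtain ⟨z0, hz0K, hz0⟩ := exists_lim F0 hF0c z (hev.mono fun p hp => (hz p hp).1)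
  exact ⟨z0, hz0K, mem_ulim_of_tendsto _ z z0 (hev.mono fun p hp => (hz p hp).2) hz0⟩

end Pool.Agent.RM90
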