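import Pool.Agent.Lib.MP_df59e7_lc_Y.SeqY
import Pool.Agent.Lib.MP_df59e7_lc_Y.LimY
import Pool.Agent.Lib.MP_df59e7_lc_Y.TubeAR
import Pool.Agent.Lib.MP_df59e7_lc_Y.MeetD
import Pool.Agent.Lib.MP_df59e7_lc_X.DenW

set_option autoImplicit false

/-! MP_df59e7_lc, project Y, module TubeYA: the first step of a chain. -/

namespace Pool.Agent.RM90

open MvPolynomial

/-- THE FIRST STEP OF A CHAIN.
Proof: `U'` = thickening of `E = Wst U0 j m0 G0 y` with closure in `U0`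
(`IsCompact.exists_cthickening_subset_open`, see `tube_nbhd` in Lib/MP_df59e7_lc_X/TubeA.lean).
There is no point on the frontier of `U'` in the slice with all `h_k = 0` (it would be in
`E ⊆ U'`), so `hfr` of `seq_Y` is vacuous (`κ = 1`); `hrk` by `gramP_pos_iff`. `TubeOut.bdd`:
`K = closure U'`. `sub`: `lim_Y`, `mem_Wst_hh`. `meet`: `tubeA_rat` for points with rational
coordinates `j ≤ a < m'`, which are dense (`dens_W` for `gds_of_gdy hG`), and `meet_dense`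
(`ulim_closed`). -/
theorem tube_A {N : ℕ} (U0 : Set (Fin N → ℝ)) (j m0 : Fin N) (G0 : MvPolynomial (Fin N) ℝ)
    (y : Fin N → ℝ) (hG : GdY U0 j m0 G0 y) (m' : Fin N) (hjm : j < m') (hmm : m' < m0) :
    ∃ (U : Set (Fin N → ℝ)) (R : ℕ → ℝ) (q : ℕ → Par N),
      (∀ p, StY U0 j m0 G0 y U (R p) m' (gramP m' (hh m0 G0) - quad (q p))) ∧
      TubeOut (Wst U0 j m0 G0 y) m'
        (fun p => Pol U j m' (hh m0 G0) (gramP m' (hh m0 G0) - quad (q p)) y) := by
  have hEU : Wst U0 j m0 G0 y ⊆ U0 := fun x hx => hx.1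
  obtain ⟨ρ, hρ, hρU⟩ := hG.cpt.exists_cthickening_subset_open hG.isOpen hEU
  obtain ⟨U', hU'⟩ : ∃ U', U' = Metric.thickening ρ (Wst U0 j m0 G0 y) := ⟨_, rfl⟩
  have hopen : IsOpen U' := by rw [hU']; exact Metric.isOpen_thickening
  have hcl : closure U' ⊆ U0 := by
    rw [hU']
    exact (Metric.closure_thickening_subset_cthickening _ _).trans hρU
  have hsub : Wst U0 j m0 G0 y ⊆ U' := by
    rw [hU']
    exact Metric.self_subset_thickening hρ _
  have hbdd : Bornology.IsBounded U' := hG.bdd.subset (subset_closure.trans hcl)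
  have hfr : ∀ x ∈ frontier U', (∀ a, a < j → x a = y a) →
      (∀ k, eval x (hh m0 G0 k) = 0) → (1 : ℝ) ≤ eval x (gramP m' (hh m0 G0)) := by
    intro x hx h1 h2
    have h3 : x ∈ Wst U0 j m0 G0 y :=
      (mem_Wst_hh _ _ _ _ _ _).2 ⟨hcl (frontier_subset_closure hx), h1, h2⟩
    rw [hopen.frontier_eq] at hx
    exact absurd (hsub h3) hx.2
  obtain ⟨q, R, hSt, hpos, hlim⟩ := seq_Y U0 j m0 G0 y hG m' hjm hmm (gramP m' (hh m0 G0)) U'
    hopen hbdd hcl 1 one_pos hfr (fun x _ _ _ h => (gramP_pos_iff _ _ _).1 h)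
  refine ⟨{x | x ∈ U' ∧ RkK m' (hh m0 G0) x}, R, q, hSt, ?_, ?_, ?_⟩
  · exact ⟨closure U', Metric.isCompact_of_isClosed_isBounded isClosed_closure
      (hG.bdd.subset hcl), fun p x hx => subset_closure hx.1.1.1⟩
  · intro x hx
    obtain ⟨h1, h2, h3, -⟩ := lim_Y j m' (hh m0 G0) y (gramP m' (hh m0 G0)) U'
      {x | x ∈ U' ∧ RkK m' (hh m0 G0) x} (fun _ h => h.1) q hlim hx
    exact (mem_Wst_hh _ _ _ _ _ _).2 ⟨hcl h1, h2, h3⟩
  · refine meet_dense (Wst U0 j m0 G0 y) hG.cpt (prm m') (continuous_prm m') _ (ulim_closed _)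
      {x | x ∈ Wst U0 j m0 G0 y ∧ ∀ a, j ≤ a → a < m' → ∃ r : ℚ, x a = (r : ℝ)}
      (fun x hx => hx.1) ?_ ?_
    · intro x hx ε hε
      obtain ⟨z, hz, hd⟩ := Metric.mem_closure_iff.1
        (dens_W U0 j m0 G0 y (gds_of_gdy hG) m' hjm.le hmm hx) ε hε
      exact ⟨z, hz, by rwa [dist_comm]⟩
    · rintro x ⟨hx, hrat⟩
      exact tubeA_rat U0 j m0 G0 y hG m' hjm hmm U' hsub q hpos hlim x hx hrat

end Pool.Agent.RM90
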