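import Pool.Agent.Lib.MP_df59e7_lc_Y.ChainY
import Pool.Agent.Lib.MP_df59e7_lc_Y.TubeYA
import Pool.Agent.Lib.MP_df59e7_lc_Y.FibYY

set_option autoImplicit false

/-! MP_df59e7_lc, project Y, module LevelY: one level of the recursion. -/

namespace Pool.Agent.RM90

open MvPolynomial

/-- ONE LEVEL. `s + 1` is the number of blocks of size `b`.
Proof: let `Wst U j m G y` be given in `ℝ^n`, `n ≤ N`. If `m - j ≤ b`: `hL` (monotone). Otherwise
(`s ≥ 1`) `m' = m - b`, `tube_A`, `abs_split` for `E = Wst U j m G y` with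
`κa = (2^s - 1)(3 + 8 B^2) κ` (`chain_Y` with `r = s - 1` for the states `gramP - quad (q p)`, of
weight `V = 2 c E ≤ ...` by `wle_gramP`, `wle_quad`; `2^(s-1) (2 V + 4 c E) = 2^(s-1) * 8 c E ≤ E1`;
dimension `m' - j ≤ s b`; it is applied with `N := n`), `κc = κ (2 + 8 B^2)` (`fib_Y`, `LC_of_LY`);
`dens` by `dens_W` (`gds_of_gdy`), `card` by `card_BY`. Finally
`2 (2^s - 1)(3 + 8B^2) κ + κ (2 + 8B^2) ≤ (2^(s+1) - 1)(3 + 8B^2) κ`. (Use
`LY_mono` for `hL` from `2 N` to `2 n`.) -/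
theorem level_Y (N B E P ρ b s κ E1 P1 : ℕ) (hb : 1 ≤ b) (hρ : ρ ≤ (s + 1) * b)
    (hE : 2 ^ (s + 2) * (N * E) ≤ E1) (hE' : E ≤ E1)
    (hP : P * 3 ^ N * (E1 + 1) ^ ρ ≤ P1) (hB : BY (2 * N) E1 P1 ρ ≤ B)
    (hL : LY (2 * N) B E1 P1 b κ) :
    LY N B E P ρ ((2 ^ (s + 1) - 1) * (3 + 8 * B ^ 2) * κ) := by
  intro n hn U j m G y w p σ hG hc hρ' A hA
  have hmn := m.2
  have hjm : (j : ℕ) < (m : ℕ) := hG.lt
  have hc1 : 1 ≤ n - (m : ℕ) := by omega
  have hc0 : E ≤ (n - (m : ℕ)) * E := Nat.le_mul_of_pos_left _ hc1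
  have hEN : (n - (m : ℕ)) * E ≤ N * E := Nat.mul_le_mul_right _ (by omega)
  have hpw1 : 1 ≤ 3 ^ N * (E1 + 1) ^ ρ := Nat.mul_pos (by positivity) (by positivity)
  have hPP : P ≤ P1 := by
    refine le_trans (Nat.le_mul_of_pos_right P hpw1) ?_
    rw [← mul_assoc]; exact hP
  by_cases hcase : (m : ℕ) - (j : ℕ) ≤ b
  · obtain ⟨M, hM⟩ := hL n (by omega) U j m G y w p σ hG (cpx_mono hE' hPP hc) hcase A hA
    refine ⟨M, xmap_mono ?_ hM⟩
    apply Nat.mul_le_mul_right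
    have h1 : 1 ≤ 2 ^ (s + 1) - 1 := by
      have : 2 ^ 1 ≤ 2 ^ (s + 1) := Nat.pow_le_pow_right (by norm_num) (by omega)
      omega
    have h2 : 1 ≤ (2 ^ (s + 1) - 1) * (3 + 8 * B ^ 2) := Nat.mul_pos h1 (by omega)
    exact Nat.le_mul_of_pos_left _ h2
  push Not at hcase
  -- there are at least two blocks
  obtain ⟨r, rfl⟩ : ∃ r, s = r + 1 := by
    rcases s with _ | r
    · exfalso
      simp only [zero_add, one_mul] at hρ
      omega
    · exact ⟨r, rfl⟩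
  set c := (n - (m : ℕ)) * E with hcdef
  set m' : Fin n := ⟨(m : ℕ) - b, by omega⟩ with hm'
  have hm'v : (m' : ℕ) = (m : ℕ) - b := rfl
  have hjm' : j < m' := by rw [Fin.lt_def, hm'v]; omega
  have hm'm : m' < m := by rw [Fin.lt_def, hm'v]; omega
  obtain ⟨U', R', q, hS', hT⟩ := tube_A U j m G y hG m' hjm' hm'm
  have hhE : ∀ k, WLe w E (hh m G k) := fun k => hc.eqE _ (by rw [Fin.le_def]; simp)
  have hV' : ∀ i, WLe w (2 * c) (gramP m' (hh m G) - quad (q i)) := by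
    intro i
    apply wle_sub
    · have h1 := wle_gramP w m' (hh m G) (fun _ => E) hhE
      refine wle_mono (le_of_eq ?_) h1
      rw [Finset.sum_const, Finset.card_univ, Fintype.card_fin, smul_eq_mul, hcdef]
      ring
    · exact wle_mono (by omega) (wle_quad w E hc.wE (q i))
  have hLn : LY (2 * n) B E1 P1 b κ := LY_mono (by omega) le_rfl le_rfl le_rfl le_rfl hL
  have hBn : BY (2 * n) E1 P1 ρ ≤ B := (BY_mono (by omega) le_rfl le_rfl le_rfl).trans hB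
  have hPn : P * 3 ^ n * (E1 + 1) ^ ρ ≤ P1 := by
    refine le_trans ?_ hP
    apply Nat.mul_le_mul_right
    exact Nat.mul_le_mul_left _ (Nat.pow_le_pow_right (by norm_num) hn)
  have hEr : 2 ^ r * (2 * (2 * c) + 4 * c) ≤ E1 := by
    have e1 : 2 ^ r * (2 * (2 * c) + 4 * c) = 2 ^ (r + 1 + 2) * c := by
      rw [pow_succ, pow_succ, pow_succ]; ring
    rw [e1]
    exact (Nat.mul_le_mul_left _ hEN).trans hE
  have hE2 : 2 * (2 * c) + 4 * c ≤ E1 :=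
    (Nat.le_mul_of_pos_left _ (by positivity)).trans hEr
  have hdim : (m' : ℕ) - (j : ℕ) ≤ (r + 1) * b := by
    have h1 : (r + 1 + 1) * b = (r + 1) * b + b := by ring
    rw [h1] at hρ
    rw [hm'v]; omega
  have hreg := ChainY_reg hG
  obtain ⟨M, hM⟩ := abs_split (Wst U j m G y) j m' hjm'
    (fun i => Pol U' j m' (hh m G) (gramP m' (hh m G) - quad (q i)) y) hT B
    ((2 ^ (r + 1) - 1) * (3 + 8 * B ^ 2) * κ) (κ * (2 + 8 * B ^ 2))
    hG.cpt (lc_W _ hG.isOpen _ _ hG.lt _ _ hreg)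
    (fun x hx => str_Y _ hG.isOpen _ _ hG.lt _ _ hreg
      (hG.ndg _ le_rfl hG.lt _ ⟨fun _ _ => rfl, fun a h1 h2 => absurd h2 (not_lt.2 h1)⟩) x hx)
    (card_BY U j m G y hG w p σ E P hc ρ B hρ'
      ((BY_mono (by omega) hE' hPP le_rfl).trans hB))
    (fun x hx ε hε => by
      obtain ⟨z, hz, hd⟩ := Metric.mem_closure_iff.1
        (dens_W U j m G y (gds_of_gdy hG) m' hjm'.le hm'm hx) ε hε
      exact ⟨z, hz.1, hz.2, by rwa [dist_comm]⟩)
    (fun x hx hrat z hz => by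
      obtain ⟨hG', heq⟩ := fib_Y U j m G y hG m' hjm'.le hm'm x hx hrat
      rw [heq] at hz ⊢
      have hxW : x ∈ Wst U m' m G x := by rw [← heq]; exact ⟨hx, rfl⟩
      exact LC_of_LY hL n (by omega) U m' m G x w p σ hG' (cpx_mono hE' hPP hc)
        (by rw [hm'v]; omega) x hxW z hz)
    (fun i => ChainY_cpt (hS' i)) (fun i => ChainY_lcn (hS' i))
    (fun i => ChainY_card hc ρ B E1 P1 hρ' hBn hPn (hS' i) _ (hV' i) hE2)
    (fun i A' hA' => chain_Y hc b hb ρ B E1 P1 κ hρ' hLn hBn hPn r U' (R' i) m' _ _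
      (hS' i) (hV' i) hEr hdim A' hA') A hA
  refine ⟨M, xmap_mono ?_ hM⟩
  apply Nat.mul_le_mul_right
  obtain ⟨t, ht⟩ : ∃ t, 2 ^ (r + 1) = t + 1 := ⟨2 ^ (r + 1) - 1, by
    have : 1 ≤ 2 ^ (r + 1) := Nat.one_le_two_pow
    omega⟩
  have h2 : 2 ^ (r + 1 + 1) = 2 * t + 2 := by rw [pow_succ, ht]; ring
  rw [h2, ht]
  have e1 : t + 1 - 1 = t := by omega
  have e2 : 2 * t + 2 - 1 = 2 * t + 1 := by omega
  rw [e1, e2]
  nlinarith [Nat.zero_le κ]

end Pool.Agent.RM90
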