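import Mathlib.Algebra.Order.Ring.GeomSum
import Mathlib.Tactic

set_option autoImplicit false

/-! MP_df59e7_lc, project Y, module NumA: the numbers of the recursion. -/

namespace Pool.Agent.RM90

/-- The dimension at level `r`. -/
def rhoY (k β r : ℕ) : ℕ := (k - 1) / β ^ (2 ^ r - 1) + 1

/-- The number of all blocks at the levels `< t`. -/
def eY (β t : ℕ) : ℕ := ∑ r ∈ Finset.range t, β ^ (2 ^ r)

/-- The weights at level `t`. -/
def EY (M X β t : ℕ) : ℕ := 2 * X * (2 * M) ^ t * 2 ^ eY β t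

/-- The product of the pairing at level `t`. -/
def PY (k M X β t : ℕ) : ℕ :=
  (2 * X + 1) * ∏ r ∈ Finset.range t,
    (3 ^ (2 ^ r * (k + 1)) * (EY M X β (r + 1) + 1) ^ rhoY k β r)

/-- The base of the bound. -/
def QY (k X β f : ℕ) : ℕ := 2 ^ (2 ^ f + β * (f + 1)) * ((k + 1) * X)

/-- The bound for the numbers of local minima. -/
def BBY (k X β f : ℕ) : ℕ :=
  (16 ^ (2 ^ f * (k + 1)) * PY k (2 ^ f * (k + 1)) X β f *
    (EY (2 ^ f * (k + 1)) X β f + 1)) ^ 2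

variable {k β f X M t r : ℕ}

private theorem T_succ (β r : ℕ) : β ^ (2 ^ (r + 1) - 1) = β ^ (2 ^ r - 1) * β ^ (2 ^ r) := by
  rw [← pow_add]
  congr 1
  have : 1 ≤ 2 ^ r := Nat.one_le_two_pow
  rw [pow_succ]
  omega

private theorem T_mul (β r : ℕ) : β ^ (2 ^ r - 1) * β = β ^ (2 ^ r) := by
  rw [← pow_succ]
  congr 1
  have : 1 ≤ 2 ^ r := Nat.one_le_two_pow
  omega

theorem rhoY_zero (hk : 1 ≤ k) : rhoY k β 0 = k := by
  unfold rhoY
  simp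
  omega

theorem rhoY_last (hk : 1 ≤ k) (hf : k ≤ β ^ (2 ^ f - 1)) : rhoY k β f = 1 := by
  unfold rhoY
  rw [Nat.div_eq_of_lt (by omega)]

theorem one_le_rhoY (k β r : ℕ) : 1 ≤ rhoY k β r := Nat.succ_le_succ (Nat.zero_le _)

theorem rhoY_le (hβ : 2 ≤ β) (r : ℕ) : rhoY k β r ≤ β ^ (2 ^ r) * rhoY k β (r + 1) := by
  unfold rhoY
  rw [T_succ]
  set T := β ^ (2 ^ r - 1) with hT
  set c := β ^ (2 ^ r) with hc
  have hT0 : 0 < T := pow_pos (by omega) _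
  have hc0 : 0 < c := pow_pos (by omega) _
  have h1 : k - 1 < T * c * ((k - 1) / (T * c) + 1) := Nat.lt_mul_div_succ _ (Nat.mul_pos hT0 hc0)
  have h2 : (k - 1) / T < c * ((k - 1) / (T * c) + 1) := by
    rw [Nat.div_lt_iff_lt_mul hT0]
    calc k - 1 < T * c * ((k - 1) / (T * c) + 1) := h1
      _ = c * ((k - 1) / (T * c) + 1) * T := by ring
  exact h2

/-- The size of a level. -/
theorem rhoY_T (hk : 1 ≤ k) (hT : β ^ (2 ^ r - 1) ≤ k) :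
    rhoY k β r * β ^ (2 ^ r - 1) ≤ 2 * k := by
  unfold rhoY
  have h1 : (k - 1) / β ^ (2 ^ r - 1) * β ^ (2 ^ r - 1) ≤ k - 1 := Nat.div_mul_le_self _ _
  rw [add_mul, one_mul]
  omega

theorem rhoY_mul (hk : 1 ≤ k) (hT : β ^ (2 ^ r - 1) ≤ k) :
    rhoY k β r * β ^ (2 ^ r) ≤ 2 * (β * k) := by
  rw [← T_mul]
  calc rhoY k β r * (β ^ (2 ^ r - 1) * β) = (rhoY k β r * β ^ (2 ^ r - 1)) * β := by ring
    _ ≤ (2 * k) * β := Nat.mul_le_mul_right _ (rhoY_T hk hT)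
    _ = 2 * (β * k) := by ring

theorem eY_succ (β t : ℕ) : eY β (t + 1) = eY β t + β ^ (2 ^ t) := by
  unfold eY
  rw [Finset.sum_range_succ]

theorem eY_le (hβ : 2 ≤ β) (t : ℕ) : eY β (t + 1) ≤ 2 * β ^ (2 ^ t) := by
  induction t with
  | zero => simp [eY]; omega
  | succ t ih =>
    rw [eY_succ]
    have h1 : 2 ≤ β ^ (2 ^ t) := hβ.trans (Nat.le_self_pow (by positivity) β)
    have h2 : β ^ (2 ^ (t + 1)) = β ^ (2 ^ t) * β ^ (2 ^ t) := by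
      rw [← pow_add]
      congr 1
      rw [pow_succ]
      ring
    rw [h2]
    nlinarith

private theorem two_pow_aux (r : ℕ) : (r + 1) * 2 ^ r ≤ 2 ^ (2 ^ r) := by
  rcases Nat.lt_or_ge r 3 with h | h
  · interval_cases r <;> norm_num
  · have h1 : r + 1 ≤ 2 ^ r := Nat.lt_two_pow_self
    have h2 : 2 * r ≤ 2 ^ r := by
      obtain ⟨s, rfl⟩ : ∃ s, r = s + 3 := ⟨r - 3, by omega⟩
      clear h h1
      induction s with
      | zero => norm_num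
      | succ s ih =>
        rw [show s + 1 + 3 = (s + 3) + 1 by ring, pow_succ]
        omega
    calc (r + 1) * 2 ^ r ≤ 2 ^ r * 2 ^ r := Nat.mul_le_mul_right _ h1
      _ = 2 ^ (2 * r) := by rw [← pow_add]; congr 1; ring
      _ ≤ 2 ^ (2 ^ r) := Nat.pow_le_pow_right (by norm_num) h2

theorem rhoY_term (hk : 1 ≤ k) (hβ : 2 ≤ β) (hT : β ^ (2 ^ r - 1) ≤ k) :
    (r + 1) * rhoY k β r ≤ 4 * k / 2 ^ r := by
  rw [Nat.le_div_iff_mul_le (by positivity)]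
  have h1 : (r + 1) * 2 ^ r ≤ 2 * β ^ (2 ^ r - 1) := by
    calc (r + 1) * 2 ^ r ≤ 2 ^ (2 ^ r) := two_pow_aux r
      _ = 2 ^ (2 ^ r - 1) * 2 := (T_mul 2 r).symm
      _ ≤ β ^ (2 ^ r - 1) * 2 := Nat.mul_le_mul_right _ (Nat.pow_le_pow_left hβ _)
      _ = 2 * β ^ (2 ^ r - 1) := by ring
  calc (r + 1) * rhoY k β r * 2 ^ r = ((r + 1) * 2 ^ r) * rhoY k β r := by ring
    _ ≤ (2 * β ^ (2 ^ r - 1)) * rhoY k β r := Nat.mul_le_mul_right _ h1
    _ = 2 * (rhoY k β r * β ^ (2 ^ r - 1)) := by ring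
    _ ≤ 2 * (2 * k) := Nat.mul_le_mul_left _ (rhoY_T hk hT)
    _ = 4 * k := by ring

theorem sum_rhoY (hk : 1 ≤ k) (hβ : 2 ≤ β) (hT : ∀ r, r < f → β ^ (2 ^ r - 1) ≤ k) :
    ∑ r ∈ Finset.range f, (r + 1) * rhoY k β r ≤ 8 * k := by
  calc ∑ r ∈ Finset.range f, (r + 1) * rhoY k β r
      ≤ ∑ r ∈ Finset.range f, 4 * k / 2 ^ r :=
        Finset.sum_le_sum fun r hr => rhoY_term hk hβ (hT r (Finset.mem_range.1 hr))
    _ ≤ 4 * k * 2 / (2 - 1) := Nat.geom_sum_le le_rfl _ _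
    _ = 8 * k := by norm_num; ring

theorem sum_rhoY' (hk : 1 ≤ k) (hβ : 2 ≤ β) (hT : ∀ r, r < f → β ^ (2 ^ r - 1) ≤ k) :
    ∑ r ∈ Finset.range f, rhoY k β r ≤ 4 * k := by
  have h1 : ∀ r ∈ Finset.range f, rhoY k β r ≤ 2 * k / 2 ^ r := by
    intro r hr
    rw [Nat.le_div_iff_mul_le (by positivity)]
    refine le_trans (Nat.mul_le_mul_left _ ?_) (rhoY_T hk (hT r (Finset.mem_range.1 hr)))
    refine le_trans (Nat.pow_le_pow_left hβ r) (Nat.pow_le_pow_right (by omega) ?_)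
    have : r < 2 ^ r := Nat.lt_two_pow_self
    omega
  calc ∑ r ∈ Finset.range f, rhoY k β r
      ≤ ∑ r ∈ Finset.range f, 2 * k / 2 ^ r := Finset.sum_le_sum h1
    _ ≤ 2 * k * 2 / (2 - 1) := Nat.geom_sum_le le_rfl _ _
    _ = 4 * k := by norm_num; ring

theorem f_le (hk : 1 ≤ k) (hβ : 2 ≤ β) (hT : ∀ r, r < f → β ^ (2 ^ r - 1) ≤ k) :
    f ≤ 4 * k := by
  refine le_trans ?_ (sum_rhoY' hk hβ hT)
  calc f = ∑ r ∈ Finset.range f, 1 := by simp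
    _ ≤ _ := Finset.sum_le_sum fun r _ => one_le_rhoY k β r

end Pool.Agent.RM90
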