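import Pool.Agent.Lib.MP_df59e7_lc_Y.NumA

set_option autoImplicit false

/-! MP_df59e7_lc, project Y, module NumB: explicit bounds. -/

namespace Pool.Agent.RM90

variable {k β f X t r : ℕ}

theorem one_le_QY (hX : 1 ≤ X) : 1 ≤ QY k X β f :=
  Nat.mul_pos (by positivity) (Nat.mul_pos (Nat.succ_pos k) hX)

/-- Powers of two. -/
theorem two_pow_le_QY (hX : 1 ≤ X) {e : ℕ} (he : e ≤ 2 ^ f + β * (f + 1)) :
    2 ^ e ≤ QY k X β f := by
  unfold QY
  exact (Nat.pow_le_pow_right (by norm_num) he).trans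
    (Nat.le_mul_of_pos_right _ (Nat.mul_pos (Nat.succ_pos k) hX))

theorem two_pow_mul_le_QY (hX : 1 ≤ X) {e c : ℕ} (he : e ≤ c * (2 ^ f + β * (f + 1))) :
    2 ^ e ≤ QY k X β f ^ c := by
  calc 2 ^ e ≤ 2 ^ ((2 ^ f + β * (f + 1)) * c) :=
        Nat.pow_le_pow_right (by norm_num) (he.trans (le_of_eq (mul_comm _ _)))
    _ = (2 ^ (2 ^ f + β * (f + 1))) ^ c := pow_mul _ _ _
    _ ≤ QY k X β f ^ c := Nat.pow_le_pow_left (two_pow_le_QY hX le_rfl) c

private theorem fp (f : ℕ) : f + 1 ≤ 2 ^ f := Nat.lt_two_pow_self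

theorem base_le (hβ : 2 ≤ β) (hX : 1 ≤ X) : 8 * X ≤ QY k X β f := by
  unfold QY
  have h1 : (8 : ℕ) ≤ 2 ^ (2 ^ f + β * (f + 1)) := by
    calc (8 : ℕ) = 2 ^ 3 := by norm_num
      _ ≤ 2 ^ (2 ^ f + β * (f + 1)) := by
        apply Nat.pow_le_pow_right (by norm_num)
        have := fp f
        nlinarith
  exact Nat.mul_le_mul h1 (Nat.le_mul_of_pos_left _ (Nat.succ_pos k))

theorem mid_le (hX : 1 ≤ X) : 2 * (2 ^ f * (k + 1)) ≤ QY k X β f := by
  unfold QY
  have h1 : 2 * 2 ^ f ≤ 2 ^ (2 ^ f + β * (f + 1)) := by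
    rw [← pow_succ']
    apply Nat.pow_le_pow_right (by norm_num)
    have := fp f
    nlinarith
  calc 2 * (2 ^ f * (k + 1)) = 2 * 2 ^ f * (k + 1) := by ring
    _ ≤ _ := Nat.mul_le_mul h1 (Nat.le_mul_of_pos_right _ hX)

theorem EY_pos (M : ℕ) (hM : 1 ≤ M) (hX : 1 ≤ X) (t : ℕ) : 1 ≤ EY M X β t := by
  unfold EY
  exact Nat.mul_pos (Nat.mul_pos (by omega) (pow_pos (by omega) _)) (by positivity)

/-- The factors of the product. -/
theorem factor_le (hβ : 2 ≤ β) (hX : 1 ≤ X) (t : ℕ) :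
    EY (2 ^ f * (k + 1)) X β t + 1 ≤
      QY k X β f * QY k X β f ^ t * 2 ^ eY β t := by
  have h0 := EY_pos (β := β) (2 ^ f * (k + 1)) (Nat.mul_pos (by positivity) (Nat.succ_pos k)) hX t
  have h1 : EY (2 ^ f * (k + 1)) X β t + 1 ≤ 2 * EY (2 ^ f * (k + 1)) X β t := by omega
  refine h1.trans ?_
  unfold EY
  calc 2 * (2 * X * (2 * (2 ^ f * (k + 1))) ^ t * 2 ^ eY β t)
      = (4 * X) * (2 * (2 ^ f * (k + 1))) ^ t * 2 ^ eY β t := by ring
    _ ≤ QY k X β f * QY k X β f ^ t * 2 ^ eY β t := by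
      apply Nat.mul_le_mul_right
      apply Nat.mul_le_mul
      · exact le_trans (by omega) (base_le hβ hX)
      · exact Nat.pow_le_pow_left (mid_le hX) t

theorem sum_pow_le (K f : ℕ) : ∑ r ∈ Finset.range f, 2 ^ r * K ≤ 2 ^ f * K := by
  induction f with
  | zero => simp
  | succ f ih =>
    rw [Finset.sum_range_succ, pow_succ]
    nlinarith

theorem PY_le (hk : 1 ≤ k) (hβ : 2 ≤ β) (hX : 1 ≤ X)
    (hT : ∀ r, r < f → β ^ (2 ^ r - 1) ≤ k) :
    PY k (2 ^ f * (k + 1)) X β f ≤ QY k X β f ^ (1 + 2 * (k + 1) + 16 * k) := by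
  set Q := QY k X β f with hQ
  have hQ1 : 1 ≤ Q := one_le_QY hX
  unfold PY
  rw [Finset.prod_mul_distrib, Finset.prod_pow_eq_pow_sum]
  have h1 : 2 * X + 1 ≤ Q := le_trans (by omega) (base_le (k := k) (f := f) hβ hX)
  have h2 : 3 ^ ∑ r ∈ Finset.range f, 2 ^ r * (k + 1) ≤ Q ^ (2 * (k + 1)) := by
    calc 3 ^ ∑ r ∈ Finset.range f, 2 ^ r * (k + 1)
        ≤ 4 ^ ∑ r ∈ Finset.range f, 2 ^ r * (k + 1) := Nat.pow_le_pow_left (by norm_num) _
      _ ≤ 4 ^ (2 ^ f * (k + 1)) := Nat.pow_le_pow_right (by norm_num) (sum_pow_le _ _)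
      _ = 2 ^ (2 * (2 ^ f * (k + 1))) := by
        rw [show (4 : ℕ) = 2 ^ 2 by norm_num, ← pow_mul]
      _ ≤ Q ^ (2 * (k + 1)) := by
        apply two_pow_mul_le_QY hX
        calc 2 * (2 ^ f * (k + 1)) = 2 * (k + 1) * 2 ^ f := by ring
          _ ≤ 2 * (k + 1) * (2 ^ f + β * (f + 1)) :=
            Nat.mul_le_mul_left _ (Nat.le_add_right _ _)
  have h3 : ∏ r ∈ Finset.range f, (EY (2 ^ f * (k + 1)) X β (r + 1) + 1) ^ rhoY k β r ≤
      Q ^ (16 * k) := by
    calc ∏ r ∈ Finset.range f, (EY (2 ^ f * (k + 1)) X β (r + 1) + 1) ^ rhoY k β r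
        ≤ ∏ r ∈ Finset.range f, (Q ^ (rhoY k β r) * Q ^ ((r + 1) * rhoY k β r) *
            2 ^ (4 * (β * k))) := by
          apply Finset.prod_le_prod' (fun r hr => ?_)
          calc (EY (2 ^ f * (k + 1)) X β (r + 1) + 1) ^ rhoY k β r
              ≤ (Q * Q ^ (r + 1) * 2 ^ eY β (r + 1)) ^ rhoY k β r :=
                Nat.pow_le_pow_left (factor_le hβ hX _) _
            _ = Q ^ (rhoY k β r) * Q ^ ((r + 1) * rhoY k β r) *
                2 ^ (eY β (r + 1) * rhoY k β r) := by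
                rw [mul_pow, mul_pow, ← pow_mul, ← pow_mul]
            _ ≤ _ := by
                apply Nat.mul_le_mul_left
                apply Nat.pow_le_pow_right (by norm_num)
                calc eY β (r + 1) * rhoY k β r ≤ 2 * β ^ (2 ^ r) * rhoY k β r :=
                      Nat.mul_le_mul_right _ (eY_le hβ r)
                  _ = 2 * (rhoY k β r * β ^ (2 ^ r)) := by ring
                  _ ≤ 2 * (2 * (β * k)) :=
                      Nat.mul_le_mul_left _ (rhoY_mul hk (hT r (Finset.mem_range.1 hr)))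
                  _ = 4 * (β * k) := by ring
      _ = Q ^ (∑ r ∈ Finset.range f, rhoY k β r) *
          Q ^ (∑ r ∈ Finset.range f, (r + 1) * rhoY k β r) * 2 ^ (f * (4 * (β * k))) := by
          rw [Finset.prod_mul_distrib, Finset.prod_mul_distrib, Finset.prod_pow_eq_pow_sum,
            Finset.prod_pow_eq_pow_sum, Finset.prod_const, Finset.card_range, ← pow_mul,
            mul_comm f]
      _ ≤ Q ^ (4 * k) * Q ^ (8 * k) * Q ^ (4 * k) := by
          apply Nat.mul_le_mul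
          · exact Nat.mul_le_mul (Nat.pow_le_pow_right hQ1 (sum_rhoY' hk hβ hT))
              (Nat.pow_le_pow_right hQ1 (sum_rhoY hk hβ hT))
          · apply two_pow_mul_le_QY hX
            calc f * (4 * (β * k)) = 4 * k * (β * f) := by ring
              _ ≤ 4 * k * (2 ^ f + β * (f + 1)) := by
                apply Nat.mul_le_mul_left
                exact (Nat.mul_le_mul_left _ (Nat.le_succ f)).trans (Nat.le_add_left _ _)
      _ = Q ^ (16 * k) := by rw [← pow_add, ← pow_add]; congr 1; ring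
  calc (2 * X + 1) * ((3 ^ ∑ r ∈ Finset.range f, 2 ^ r * (k + 1)) *
        ∏ r ∈ Finset.range f, (EY (2 ^ f * (k + 1)) X β (r + 1) + 1) ^ rhoY k β r)
      ≤ Q * (Q ^ (2 * (k + 1)) * Q ^ (16 * k)) :=
        Nat.mul_le_mul h1 (Nat.mul_le_mul h2 h3)
    _ = Q ^ (1 + 2 * (k + 1) + 16 * k) := by
        rw [pow_add, pow_add, pow_one, mul_assoc]

end Pool.Agent.RM90
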