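import Pool.Agent.Lib.MP_df59e7_lc_Y.NumB
import Pool.Agent.Lib.MP_df59e7_lc_Y.LevelY
import Pool.Agent.Lib.MP_df59e7_lc_Y.BaseY
import Pool.Agent.Lib.MP_df59e7_lc_Y.FinY

set_option autoImplicit false

/-! MP_df59e7_lc, project Y, module NumC: the recursion over the levels. -/

namespace Pool.Agent.RM90

open MvPolynomial

variable {k β f X t r : ℕ}

/-- The bound for the numbers of local minima. -/
def CY (k X β f : ℕ) : ℕ := QY k X β f ^ (38 * (k + 1))

theorem rhoY_le_k (hk : 1 ≤ k) (β r : ℕ) : rhoY k β r ≤ k := by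
  unfold rhoY
  have := Nat.div_le_self (k - 1) (β ^ (2 ^ r - 1))
  omega

theorem eY_mono (β : ℕ) {t t' : ℕ} (h : t ≤ t') : eY β t ≤ eY β t' := by
  unfold eY
  exact Finset.sum_le_sum_of_subset (Finset.range_subset_range.2 h)

theorem factor2_le (hβ : 2 ≤ β) (hX : 1 ≤ X) (t : ℕ) :
    2 * EY (2 ^ f * (k + 1)) X β t + 1 ≤
      QY k X β f * QY k X β f ^ t * 2 ^ eY β t := by
  have h0 := EY_pos (β := β) (2 ^ f * (k + 1)) (Nat.mul_pos (by positivity) (Nat.succ_pos k)) hX t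
  have h1 : 2 * EY (2 ^ f * (k + 1)) X β t + 1 ≤ 4 * EY (2 ^ f * (k + 1)) X β t := by omega
  refine h1.trans ?_
  unfold EY
  calc 4 * (2 * X * (2 * (2 ^ f * (k + 1))) ^ t * 2 ^ eY β t)
      = (8 * X) * (2 * (2 ^ f * (k + 1))) ^ t * 2 ^ eY β t := by ring
    _ ≤ QY k X β f * QY k X β f ^ t * 2 ^ eY β t := by
      apply Nat.mul_le_mul_right
      apply Nat.mul_le_mul
      · exact base_le hβ hX
      · exact Nat.pow_le_pow_left (mid_le hX) t

theorem PY_mono (M : ℕ) (hX : 1 ≤ X) (hM : 1 ≤ M) (h : t ≤ r) : PY k M X β t ≤ PY k M X β r := by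
  unfold PY
  apply Nat.mul_le_mul_left
  apply Finset.prod_le_prod_of_subset_of_one_le' (Finset.range_subset_range.2 h)
  intro i _ _
  exact Nat.mul_pos (by positivity) (by positivity)

theorem eight_le (hX : 1 ≤ X) (ht : t ≤ f) :
    8 ^ (2 ^ t * (k + 1)) ≤ QY k X β f ^ (3 * (k + 1)) := by
  calc 8 ^ (2 ^ t * (k + 1)) ≤ 8 ^ (2 ^ f * (k + 1)) :=
        Nat.pow_le_pow_right (by norm_num)
          (Nat.mul_le_mul_right _ (Nat.pow_le_pow_right (by norm_num) ht))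
    _ = 2 ^ (3 * (2 ^ f * (k + 1))) := by rw [show (8 : ℕ) = 2 ^ 3 by norm_num, ← pow_mul]
    _ ≤ QY k X β f ^ (3 * (k + 1)) := by
        apply two_pow_mul_le_QY hX
        calc 3 * (2 ^ f * (k + 1)) = 3 * (k + 1) * 2 ^ f := by ring
          _ ≤ 3 * (k + 1) * (2 ^ f + β * (f + 1)) :=
            Nat.mul_le_mul_left _ (Nat.le_add_right _ _)

/-- The bound of a level. -/
theorem BY_level (hk : 1 ≤ k) (hβ : 2 ≤ β) (hX : 1 ≤ X)
    (hT : ∀ r, r < f → β ^ (2 ^ r - 1) ≤ k) (ht : t < f) :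
    BY (2 ^ (t + 1) * (k + 1)) (EY (2 ^ f * (k + 1)) X β (t + 1))
      (PY k (2 ^ f * (k + 1)) X β (t + 1)) (rhoY k β t) ≤ CY k X β f := by
  unfold CY BY
  have hQ1 : 1 ≤ QY k X β f := one_le_QY hX
  have hM : 1 ≤ 2 ^ f * (k + 1) := Nat.mul_pos (by positivity) (Nat.succ_pos k)
  have h1 := eight_le (k := k) (β := β) hX (show t + 1 ≤ f from ht)
  have h2 := (PY_mono (k := k) (β := β) (2 ^ f * (k + 1)) hX hM
    (show t + 1 ≤ f from ht)).trans (PY_le hk hβ hX hT)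
  have hr1 := one_le_rhoY k β t
  have h3 : (2 * EY (2 ^ f * (k + 1)) X β (t + 1) + 1) ^ (rhoY k β t + 1) ≤
      QY k X β f ^ ((k + 1) + 8 * k + 8 * k) := by
    calc (2 * EY (2 ^ f * (k + 1)) X β (t + 1) + 1) ^ (rhoY k β t + 1)
        ≤ (QY k X β f * QY k X β f ^ (t + 1) * 2 ^ eY β (t + 1)) ^ (rhoY k β t + 1) :=
          Nat.pow_le_pow_left (factor2_le hβ hX _) _
      _ = QY k X β f ^ (rhoY k β t + 1) * QY k X β f ^ ((t + 1) * (rhoY k β t + 1)) *
          2 ^ (eY β (t + 1) * (rhoY k β t + 1)) := by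
          rw [mul_pow, mul_pow, ← pow_mul, ← pow_mul]
      _ ≤ QY k X β f ^ (k + 1) * QY k X β f ^ (8 * k) * QY k X β f ^ (8 * k) := by
          apply Nat.mul_le_mul
          · apply Nat.mul_le_mul
            · exact Nat.pow_le_pow_right hQ1 (Nat.succ_le_succ (rhoY_le_k hk β t))
            · apply Nat.pow_le_pow_right hQ1
              calc (t + 1) * (rhoY k β t + 1) ≤ (t + 1) * (2 * rhoY k β t) :=
                    Nat.mul_le_mul_left _ (by omega)
                _ = 2 * ((t + 1) * rhoY k β t) := by ring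
                _ ≤ 2 * (4 * k / 2 ^ t) := Nat.mul_le_mul_left _ (rhoY_term hk hβ (hT t ht))
                _ ≤ 2 * (4 * k) := Nat.mul_le_mul_left _ (Nat.div_le_self _ _)
                _ = 8 * k := by ring
          · apply two_pow_mul_le_QY hX
            calc eY β (t + 1) * (rhoY k β t + 1) ≤ (2 * β ^ (2 ^ t)) * (2 * rhoY k β t) :=
                  Nat.mul_le_mul (eY_le hβ t) (by omega)
              _ = 4 * (rhoY k β t * β ^ (2 ^ t)) := by ring
              _ ≤ 4 * (2 * (β * k)) := Nat.mul_le_mul_left _ (rhoY_mul hk (hT t ht))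
              _ = 8 * k * (β * 1) := by ring
              _ ≤ 8 * k * (2 ^ f + β * (f + 1)) := by
                apply Nat.mul_le_mul_left
                exact (Nat.mul_le_mul_left _ (Nat.succ_le_succ (Nat.zero_le f))).trans
                  (Nat.le_add_left _ _)
      _ = QY k X β f ^ ((k + 1) + 8 * k + 8 * k) := by rw [← pow_add, ← pow_add]
  calc 8 ^ (2 ^ (t + 1) * (k + 1)) * PY k (2 ^ f * (k + 1)) X β (t + 1) *
        (2 * EY (2 ^ f * (k + 1)) X β (t + 1) + 1) ^ (rhoY k β t + 1)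
      ≤ QY k X β f ^ (3 * (k + 1)) * QY k X β f ^ (1 + 2 * (k + 1) + 16 * k) *
        QY k X β f ^ ((k + 1) + 8 * k + 8 * k) := Nat.mul_le_mul (Nat.mul_le_mul h1 h2) h3
    _ = QY k X β f ^ (3 * (k + 1) + (1 + 2 * (k + 1) + 16 * k) + ((k + 1) + 8 * k + 8 * k)) := by
        rw [← pow_add, ← pow_add]
    _ ≤ QY k X β f ^ (38 * (k + 1)) := Nat.pow_le_pow_right hQ1 (by omega)

theorem eY_last (hk : 1 ≤ k) (hβ : 2 ≤ β) (hT : ∀ r, r < f → β ^ (2 ^ r - 1) ≤ k) :
    eY β f ≤ 2 * (β * k) := by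
  rcases Nat.eq_zero_or_pos f with h | h
  · subst h
    simp [eY]
  · obtain ⟨g, rfl⟩ : ∃ g, f = g + 1 := ⟨f - 1, by omega⟩
    refine (eY_le hβ g).trans (Nat.mul_le_mul_left _ ?_)
    have h1 := hT g (Nat.lt_succ_self g)
    have h2 : β ^ (2 ^ g - 1) * β = β ^ (2 ^ g) := by
      rw [← pow_succ]
      congr 1
      have : 1 ≤ 2 ^ g := Nat.one_le_two_pow
      omega
    rw [← h2, mul_comm β k]
    exact Nat.mul_le_mul_right _ h1

theorem BY_base (hk : 1 ≤ k) (hβ : 2 ≤ β) (hX : 1 ≤ X)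
    (hT : ∀ r, r < f → β ^ (2 ^ r - 1) ≤ k) :
    BY (2 ^ f * (k + 1)) (EY (2 ^ f * (k + 1)) X β f)
      (PY k (2 ^ f * (k + 1)) X β f) 1 ≤ CY k X β f := by
  unfold CY BY
  have hQ1 : 1 ≤ QY k X β f := one_le_QY hX
  have h1 := eight_le (k := k) (β := β) hX (le_refl f)
  have h2 := PY_le (f := f) hk hβ hX hT
  have h3 : (2 * EY (2 ^ f * (k + 1)) X β f + 1) ^ (1 + 1) ≤
      QY k X β f ^ (2 + 8 * k + 4 * k) := by
    calc (2 * EY (2 ^ f * (k + 1)) X β f + 1) ^ (1 + 1)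
        ≤ (QY k X β f * QY k X β f ^ f * 2 ^ eY β f) ^ (1 + 1) :=
          Nat.pow_le_pow_left (factor2_le hβ hX _) _
      _ = QY k X β f ^ 2 * QY k X β f ^ (f * 2) * 2 ^ (eY β f * 2) := by
          rw [mul_pow, mul_pow, ← pow_mul, ← pow_mul]
      _ ≤ QY k X β f ^ 2 * QY k X β f ^ (8 * k) * QY k X β f ^ (4 * k) := by
          apply Nat.mul_le_mul
          · apply Nat.mul_le_mul_left
            apply Nat.pow_le_pow_right hQ1
            have := f_le hk hβ hT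
            omega
          · apply two_pow_mul_le_QY hX
            calc eY β f * 2 ≤ (2 * (β * k)) * 2 := Nat.mul_le_mul_right _ (eY_last hk hβ hT)
              _ = 4 * k * (β * 1) := by ring
              _ ≤ 4 * k * (2 ^ f + β * (f + 1)) := by
                apply Nat.mul_le_mul_left
                exact (Nat.mul_le_mul_left _ (Nat.succ_le_succ (Nat.zero_le f))).trans
                  (Nat.le_add_left _ _)
      _ = QY k X β f ^ (2 + 8 * k + 4 * k) := by rw [← pow_add, ← pow_add]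
  calc 8 ^ (2 ^ f * (k + 1)) * PY k (2 ^ f * (k + 1)) X β f *
        (2 * EY (2 ^ f * (k + 1)) X β f + 1) ^ (1 + 1)
      ≤ QY k X β f ^ (3 * (k + 1)) * QY k X β f ^ (1 + 2 * (k + 1) + 16 * k) *
        QY k X β f ^ (2 + 8 * k + 4 * k) := Nat.mul_le_mul (Nat.mul_le_mul h1 h2) h3
    _ = QY k X β f ^ (3 * (k + 1) + (1 + 2 * (k + 1) + 16 * k) + (2 + 8 * k + 4 * k)) := by
        rw [← pow_add, ← pow_add]
    _ ≤ QY k X β f ^ (38 * (k + 1)) := Nat.pow_le_pow_right hQ1 (by omega)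

theorem BY_init (hβ : 2 ≤ β) (hX : 1 ≤ X) :
    BY (k + 1) (2 * X) (2 * X + 1) k ≤ CY k X β f := by
  unfold CY BY
  have hQ1 : 1 ≤ QY k X β f := one_le_QY hX
  have hb := base_le (k := k) (f := f) hβ hX
  have h1 : 8 ^ (k + 1) ≤ QY k X β f ^ (3 * (k + 1)) := by
    have := eight_le (k := k) (β := β) (f := f) (t := 0) hX (Nat.zero_le f)
    simpa using this
  calc 8 ^ (k + 1) * (2 * X + 1) * (2 * (2 * X) + 1) ^ (k + 1)
      ≤ QY k X β f ^ (3 * (k + 1)) * QY k X β f ^ 1 * QY k X β f ^ (k + 1) := by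
        apply Nat.mul_le_mul
        · apply Nat.mul_le_mul h1
          rw [pow_one]
          omega
        · exact Nat.pow_le_pow_left (by omega) _
    _ = QY k X β f ^ (3 * (k + 1) + 1 + (k + 1)) := by rw [← pow_add, ← pow_add]
    _ ≤ QY k X β f ^ (38 * (k + 1)) := Nat.pow_le_pow_right hQ1 (by omega)

theorem sgn_init (hX : 1 ≤ X) :
    (k * (2 * X) + 1) ^ k ≤ CY k X β f := by
  unfold CY
  have hQ1 : 1 ≤ QY k X β f := one_le_QY hX
  have h1 : k * (2 * X) + 1 ≤ QY k X β f := by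
    unfold QY
    have h2 : 2 ≤ 2 ^ (2 ^ f + β * (f + 1)) := by
      calc 2 = 2 ^ 1 := by norm_num
        _ ≤ _ := Nat.pow_le_pow_right (by norm_num)
          ((Nat.one_le_two_pow).trans (Nat.le_add_right _ _))
    calc k * (2 * X) + 1 ≤ 2 * ((k + 1) * X) := by nlinarith
      _ ≤ _ := Nat.mul_le_mul_right _ h2
  exact (Nat.pow_le_pow_left h1 k).trans (Nat.pow_le_pow_right hQ1 (by omega))

/-- The recursion. -/
theorem all_levels (hk : 1 ≤ k) (hβ : 2 ≤ β) (hX : 1 ≤ X) (hf : k ≤ β ^ (2 ^ f - 1))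
    (hT : ∀ r, r < f → β ^ (2 ^ r - 1) ≤ k) (j : ℕ) (hj : j ≤ f) :
    LY (2 ^ (f - j) * (k + 1)) (CY k X β f) (EY (2 ^ f * (k + 1)) X β (f - j))
      (PY k (2 ^ f * (k + 1)) X β (f - j)) (rhoY k β (f - j))
      (2 ^ (eY β f - eY β (f - j)) * (11 * CY k X β f ^ 2) ^ j) := by
  have hC1 : 1 ≤ CY k X β f := Nat.one_le_pow _ _ (one_le_QY hX)
  induction j with
  | zero =>
    simp only [Nat.sub_zero, Nat.sub_self, pow_zero, mul_one]
    rw [rhoY_last hk hf]
    exact LY_base (BY_base hk hβ hX hT)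
  | succ j ih =>
    obtain ⟨t, ht⟩ : ∃ t, t = f - (j + 1) := ⟨_, rfl⟩
    have htf : t < f := by omega
    have hs : f - j = t + 1 := by omega
    have h0 := ih (by omega)
    rw [hs] at h0
    rw [← ht]
    have hM : 2 ^ (t + 1) * (k + 1) = 2 * (2 ^ t * (k + 1)) := by rw [pow_succ]; ring
    have hc0 : 1 ≤ β ^ (2 ^ t) := Nat.one_le_pow _ _ (by omega)
    obtain ⟨s, hss⟩ : ∃ s, β ^ (2 ^ t) = s + 1 := ⟨β ^ (2 ^ t) - 1, by omega⟩
    have hE : EY (2 ^ f * (k + 1)) X β (t + 1) =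
        EY (2 ^ f * (k + 1)) X β t * (2 * (2 ^ f * (k + 1)) * 2 ^ (s + 1)) := by
      unfold EY
      rw [eY_succ, hss, pow_succ (2 * (2 ^ f * (k + 1))), pow_add 2 (eY β t)]
      ring
    have hf1 : 2 ^ t * (k + 1) ≤ 2 ^ f * (k + 1) :=
      Nat.mul_le_mul_right _ (Nat.pow_le_pow_right (by norm_num) htf.le)
    have hlev := level_Y (2 ^ t * (k + 1)) (CY k X β f) (EY (2 ^ f * (k + 1)) X β t)
      (PY k (2 ^ f * (k + 1)) X β t) (rhoY k β t) (rhoY k β (t + 1)) s
      (2 ^ (eY β f - eY β (t + 1)) * (11 * CY k X β f ^ 2) ^ j)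
      (EY (2 ^ f * (k + 1)) X β (t + 1)) (PY k (2 ^ f * (k + 1)) X β (t + 1))
      (one_le_rhoY k β (t + 1)) (by rw [← hss]; exact rhoY_le hβ t)
      (by
        rw [hE]
        calc 2 ^ (s + 2) * (2 ^ t * (k + 1) * EY (2 ^ f * (k + 1)) X β t)
            = EY (2 ^ f * (k + 1)) X β t * (2 * (2 ^ t * (k + 1)) * 2 ^ (s + 1)) := by
              rw [pow_succ 2 (s + 1)]; ring
          _ ≤ _ := by
              apply Nat.mul_le_mul_left
              apply Nat.mul_le_mul_right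
              exact Nat.mul_le_mul_left _ hf1)
      (by
        rw [hE]
        exact Nat.le_mul_of_pos_right _ (by positivity))
      (by
        unfold PY
        rw [Finset.prod_range_succ]
        apply le_of_eq
        ring)
      (by
        rw [← hM]
        exact BY_level hk hβ hX hT htf)
      (by
        rw [← hM]
        exact h0)
    refine LY_mono le_rfl le_rfl le_rfl le_rfl ?_ hlev
    have he : eY β f - eY β t = (eY β f - eY β (t + 1)) + (s + 1) := by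
      have h1 := eY_mono β (show t + 1 ≤ f from htf)
      have h2 := eY_succ β t
      rw [hss] at h2
      omega
    rw [he, pow_add, pow_succ (11 * CY k X β f ^ 2)]
    have h3 : 3 + 8 * CY k X β f ^ 2 ≤ 11 * CY k X β f ^ 2 := by
      have : 1 ≤ CY k X β f ^ 2 := Nat.one_le_pow _ _ hC1
      omega
    calc (2 ^ (s + 1) - 1) * (3 + 8 * CY k X β f ^ 2) *
          (2 ^ (eY β f - eY β (t + 1)) * (11 * CY k X β f ^ 2) ^ j)
        ≤ 2 ^ (s + 1) * (11 * CY k X β f ^ 2) *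
          (2 ^ (eY β f - eY β (t + 1)) * (11 * CY k X β f ^ 2) ^ j) := by
          apply Nat.mul_le_mul_right
          exact Nat.mul_le_mul (Nat.sub_le _ _) h3
      _ = _ := by ring

/-- The final size. -/
theorem size_le (hk : 1 ≤ k) (hβ : 2 ≤ β) (hX : 1 ≤ X)
    (hT : ∀ r, r < f → β ^ (2 ^ r - 1) ≤ k) (a : ℕ) :
    CY k X β f * (2 ^ eY β f * (11 * CY k X β f ^ 2) ^ f) * (a + 9 * CY k X β f ^ 2) ≤
      (a + 1) * QY k X β f ^ (116 * (k + 1) * (f + 1)) := by
  have hQ1 : 1 ≤ QY k X β f := one_le_QY hX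
  have hC1 : 1 ≤ CY k X β f := Nat.one_le_pow _ _ hQ1
  have h1 : 2 ^ eY β f ≤ QY k X β f ^ (2 * k) := by
    apply two_pow_mul_le_QY hX
    calc eY β f ≤ 2 * (β * k) := eY_last hk hβ hT
      _ = 2 * k * (β * 1) := by ring
      _ ≤ 2 * k * (2 ^ f + β * (f + 1)) := by
        apply Nat.mul_le_mul_left
        exact (Nat.mul_le_mul_left _ (Nat.succ_le_succ (Nat.zero_le f))).trans
          (Nat.le_add_left _ _)
  have h2 : 9 * 11 ^ f ≤ QY k X β f ^ 2 := by
    calc 9 * 11 ^ f ≤ 16 * 16 ^ f := Nat.mul_le_mul (by norm_num)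
          (Nat.pow_le_pow_left (by norm_num) f)
      _ = 2 ^ (4 * (f + 1)) := by rw [pow_mul, pow_succ]; norm_num; ring
      _ ≤ QY k X β f ^ 2 := by
        apply two_pow_mul_le_QY hX
        calc 4 * (f + 1) = 2 * (2 * (f + 1)) := by ring
          _ ≤ 2 * (2 ^ f + β * (f + 1)) := by
            apply Nat.mul_le_mul_left
            exact (Nat.mul_le_mul_right _ hβ).trans (Nat.le_add_left _ _)
  have h3 : a + 9 * CY k X β f ^ 2 ≤ (a + 1) * (9 * CY k X β f ^ 2) := by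
    have : 1 ≤ CY k X β f ^ 2 := Nat.one_le_pow _ _ hC1
    nlinarith
  calc CY k X β f * (2 ^ eY β f * (11 * CY k X β f ^ 2) ^ f) * (a + 9 * CY k X β f ^ 2)
      ≤ CY k X β f * (2 ^ eY β f * (11 * CY k X β f ^ 2) ^ f) *
        ((a + 1) * (9 * CY k X β f ^ 2)) := Nat.mul_le_mul_left _ h3
    _ = (a + 1) * (2 ^ eY β f * (9 * 11 ^ f) * CY k X β f ^ (3 + 2 * f)) := by
        rw [mul_pow 11, ← pow_mul, pow_add]
        ring
    _ ≤ (a + 1) * (QY k X β f ^ (2 * k) * QY k X β f ^ 2 *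
        QY k X β f ^ (38 * (k + 1) * (3 + 2 * f))) := by
        apply Nat.mul_le_mul_left
        apply Nat.mul_le_mul (Nat.mul_le_mul h1 h2)
        unfold CY
        rw [← pow_mul]
    _ = (a + 1) * QY k X β f ^ (2 * k + 2 + 38 * (k + 1) * (3 + 2 * f)) := by
        rw [← pow_add, ← pow_add]
    _ ≤ _ := by
        apply Nat.mul_le_mul_left
        apply Nat.pow_le_pow_right hQ1
        nlinarith [Nat.zero_le (k * f)]

end Pool.Agent.RM90
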