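import Pool.Agent.Lib.MP_df59e7_lc_Y.NumC

set_option autoImplicit false

/-! MP_df59e7_lc, project Y, module NumD: the final bounds for closed bounded sets. -/

namespace Pool.Agent.RM90

open MvPolynomial

/-- The theorem for the least possible `f`. -/
theorem closed_Y0 {k s : ℕ} [NeZero k] (d : ℕ) (P : Fin s → MvPolynomial (Fin k) ℝ)
    (hdeg : ∀ i, (P i).totalDegree ≤ d) (Φ : (Fin s → Prop) → (Fin s → Prop) → Prop)
    (hΦ : ∀ f f' g g' : Fin s → Prop, (∀ i, f i → f' i) → (∀ i, g i → g' i) → Φ f g → Φ f' g')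
    (S : Set (Fin k → ℝ))
    (hS : S = {x | Φ (fun i => 0 ≤ eval x (P i)) (fun i => eval x (P i) ≤ 0)})
    (hb : Bornology.IsBounded S) (A : Finset (Fin k → ℝ)) (hA : ↑A ⊆ S) (β f : ℕ)
    (hβ : 2 ≤ β) (hf : k ≤ β ^ (2 ^ f - 1)) (hT : ∀ r, r < f → β ^ (2 ^ r - 1) ≤ k) :
    ∃ M, LMap S A
      ((A.card + 1) * QY k (s * d + 1) β f ^ (116 * (k + 1) * (f + 1))) M := by
  have hk : 1 ≤ k := Nat.one_le_iff_ne_zero.mpr (NeZero.ne k)
  have hX : 1 ≤ s * d + 1 := Nat.succ_le_succ (Nat.zero_le _)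
  have h0 := all_levels hk hβ hX hf hT f le_rfl
  have e0 : eY β 0 = 0 := by simp [eY]
  have e1 : EY (2 ^ f * (k + 1)) (s * d + 1) β 0 = (s + s) * d + 2 := by
    unfold EY
    rw [e0]
    ring
  have e2 : PY k (2 ^ f * (k + 1)) (s * d + 1) β 0 = (s + s) * d + 3 := by
    unfold PY
    simp
    ring
  rw [Nat.sub_self, e1, e2, rhoY_zero hk, e0, Nat.sub_zero, pow_zero, one_mul] at h0
  have e3 : (s + s) * d + 2 = 2 * (s * d + 1) := by ring
  have e4 : (s + s) * d + 3 = 2 * (s * d + 1) + 1 := by ring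
  have e5 : 2 * s * d + 2 = 2 * (s * d + 1) := by ring
  obtain ⟨M, hM⟩ := closed_lmapY d P hdeg Φ hΦ S hS hb A hA (CY k (s * d + 1) β f) _ h0
    (by
      rw [e3, e4]
      exact BY_init hβ hX)
    (by
      rw [e5]
      exact sgn_init hX)
  exact ⟨M, ⟨hM.sub, alg_mono (size_le hk hβ hX hT A.card) le_rfl hM.alg, hM.pts, hM.rm1,
    hM.rm2⟩⟩

theorem QY_mono (k X β : ℕ) {f f' : ℕ} (h : f ≤ f') : QY k X β f ≤ QY k X β f' := by
  unfold QY
  apply Nat.mul_le_mul_right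
  apply Nat.pow_le_pow_right (by norm_num)
  exact Nat.add_le_add (Nat.pow_le_pow_right (by norm_num) h)
    (Nat.mul_le_mul_left _ (Nat.succ_le_succ h))

/-- The theorem for all `f` and `β` with `k ≤ β ^ (2 ^ f - 1)`. -/
theorem closed_Y {k s : ℕ} [NeZero k] (d : ℕ) (P : Fin s → MvPolynomial (Fin k) ℝ)
    (hdeg : ∀ i, (P i).totalDegree ≤ d) (Φ : (Fin s → Prop) → (Fin s → Prop) → Prop)
    (hΦ : ∀ f f' g g' : Fin s → Prop, (∀ i, f i → f' i) → (∀ i, g i → g' i) → Φ f g → Φ f' g')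
    (S : Set (Fin k → ℝ))
    (hS : S = {x | Φ (fun i => 0 ≤ eval x (P i)) (fun i => eval x (P i) ≤ 0)})
    (hb : Bornology.IsBounded S) (A : Finset (Fin k → ℝ)) (hA : ↑A ⊆ S) (β f : ℕ)
    (hβ : 2 ≤ β) (hf : k ≤ β ^ (2 ^ f - 1)) :
    ∃ M, LMap S A
      ((A.card + 1) * QY k (s * d + 1) β f ^ (116 * (k + 1) * (f + 1))) M := by
  classical
  have hex : ∃ g, k ≤ β ^ (2 ^ g - 1) := ⟨f, hf⟩
  have h1 : k ≤ β ^ (2 ^ Nat.find hex - 1) := Nat.find_spec hex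
  have h2 : Nat.find hex ≤ f := Nat.find_min' hex hf
  obtain ⟨M, hM⟩ := closed_Y0 d P hdeg Φ hΦ S hS hb A hA β (Nat.find hex) hβ h1
    (fun r hr => (not_le.1 (Nat.find_min hex hr)).le)
  refine ⟨M, ⟨hM.sub, alg_mono ?_ le_rfl hM.alg, hM.pts, hM.rm1, hM.rm2⟩⟩
  apply Nat.mul_le_mul_left
  have h3 : 1 ≤ QY k (s * d + 1) β f := one_le_QY (Nat.succ_le_succ (Nat.zero_le _))
  exact (Nat.pow_le_pow_left (QY_mono k _ β h2) _).trans
    (Nat.pow_le_pow_right h3 (Nat.mul_le_mul_left _ (Nat.succ_le_succ h2)))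

/-- The doubly logarithmic number of levels. -/
theorem clog_pow (k : ℕ) : k ≤ 2 ^ (2 ^ Nat.clog 2 (Nat.clog 2 k + 1) - 1) := by
  have h1 : Nat.clog 2 k + 1 ≤ 2 ^ Nat.clog 2 (Nat.clog 2 k + 1) :=
    Nat.le_pow_clog (by norm_num) _
  calc k ≤ 2 ^ Nat.clog 2 k := Nat.le_pow_clog (by norm_num) _
    _ ≤ _ := Nat.pow_le_pow_right (by norm_num) (by omega)

theorem QY_clog (k X : ℕ) (hk : 1 ≤ k) (hX : 1 ≤ X) :
    QY k X 2 (Nat.clog 2 (Nat.clog 2 k + 1)) ≤ (2 * ((k + 1) * X)) ^ 6 := by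
  obtain ⟨f, hf⟩ : ∃ f, f = Nat.clog 2 (Nat.clog 2 k + 1) := ⟨_, rfl⟩
  obtain ⟨c, hc⟩ : ∃ c, c = Nat.clog 2 k := ⟨_, rfl⟩
  rw [← hf]
  have hck : 2 ^ c ≤ 2 * k := by
    rw [hc]
    rcases Nat.lt_or_ge k 2 with h | h
    · have : k = 1 := by omega
      subst this
      simp
    · have h1 : 2 ^ (Nat.clog 2 k).pred < k := Nat.pow_pred_clog_lt_self (by norm_num) (by omega)
      have h2 : 0 < Nat.clog 2 k := Nat.clog_pos (by norm_num) h
      have h3 : 2 ^ Nat.clog 2 k = 2 * 2 ^ (Nat.clog 2 k).pred := by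
        rw [← pow_succ']
        congr 1
        exact (Nat.succ_pred_eq_of_pos h2).symm
      omega
  have hfc : 2 ^ f ≤ 2 * c + 1 := by
    rw [hf, ← hc]
    rcases Nat.eq_zero_or_pos c with h | h
    · rw [h]
      simp
    · have h1 : 2 ^ (Nat.clog 2 (c + 1)).pred < c + 1 :=
        Nat.pow_pred_clog_lt_self (by norm_num) (by omega)
      have h2 : 0 < Nat.clog 2 (c + 1) := Nat.clog_pos (by norm_num) (by omega)
      have h3 : 2 ^ Nat.clog 2 (c + 1) = 2 * 2 ^ (Nat.clog 2 (c + 1)).pred := by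
        rw [← pow_succ']
        congr 1
        exact (Nat.succ_pred_eq_of_pos h2).symm
      omega
  have hck2 : c + 1 ≤ 2 ^ c := Nat.lt_two_pow_self
  have h5 : 2 ^ (2 ^ f) ≤ 2 * (2 * k) ^ 2 := by
    calc 2 ^ (2 ^ f) ≤ 2 ^ (2 * c + 1) := Nat.pow_le_pow_right (by norm_num) hfc
      _ = 2 * (2 ^ c) ^ 2 := by ring
      _ ≤ 2 * (2 * k) ^ 2 := Nat.mul_le_mul_left _ (Nat.pow_le_pow_left hck 2)
  have h6 : 2 ^ (2 * (f + 1)) ≤ 4 * (2 * (k + 1)) ^ 2 := by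
    have h7 : 2 ^ f ≤ 2 * (k + 1) := by
      rcases Nat.eq_zero_or_pos c with h | h
      · rw [h] at hfc
        omega
      · have : 2 * c ≤ 2 ^ c := by
          obtain ⟨e, rfl⟩ : ∃ e, c = e + 1 := ⟨c - 1, by omega⟩
          have : e + 1 ≤ 2 ^ e := Nat.lt_two_pow_self
          rw [pow_succ]
          omega
        omega
    calc 2 ^ (2 * (f + 1)) = 4 * (2 ^ f) ^ 2 := by ring
      _ ≤ 4 * (2 * (k + 1)) ^ 2 := Nat.mul_le_mul_left _ (Nat.pow_le_pow_left h7 2)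
  unfold QY
  rw [pow_add]
  have hY : k + 1 ≤ (k + 1) * X := Nat.le_mul_of_pos_right _ hX
  generalize hYd : (k + 1) * X = Y at hY ⊢
  calc 2 ^ 2 ^ f * 2 ^ (2 * (f + 1)) * Y
      ≤ (2 * (2 * k) ^ 2) * (4 * (2 * (k + 1)) ^ 2) * Y :=
        Nat.mul_le_mul_right _ (Nat.mul_le_mul h5 h6)
    _ ≤ (2 * (2 * Y) ^ 2) * (4 * (2 * Y) ^ 2) * Y := by
        apply Nat.mul_le_mul_right
        apply Nat.mul_le_mul
        · exact Nat.mul_le_mul_left _ (Nat.pow_le_pow_left (by omega) 2)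
        · exact Nat.mul_le_mul_left _ (Nat.pow_le_pow_left (by omega) 2)
    _ = 128 * Y ^ 5 := by ring
    _ ≤ 64 * Y ^ 6 := by
        have : 2 ≤ Y := by omega
        calc 128 * Y ^ 5 = 64 * (Y ^ 5 * 2) := by ring
          _ ≤ 64 * (Y ^ 5 * Y) := Nat.mul_le_mul_left _ (Nat.mul_le_mul_left _ this)
          _ = 64 * Y ^ 6 := by ring
    _ = (2 * Y) ^ 6 := by ring

end Pool.Agent.RM90
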