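import Pool.Agent.Lib.MP_df59e7_lc_Y.GxD

set_option autoImplicit false

/-! MP_df59e7_lc, project Y, module ProjY: compact sets on which the projection to the first `N` coordinates is injective. -/

namespace Pool.Agent.RM90

open MvPolynomial

variable {N c : ℕ}

/-- Proof: a continuous injection of a compact set is a homeomorphism onto its image
(`IsCompact` version: `Set.InjOn.image_...`, or: `Continuous.isClosedEmbedding` for the restriction
to the compact subtype; `s = Function.invFunOn fstP F`). -/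
theorem proj_section (F : Set (Fin (N + c) → ℝ)) (hF : IsCompact F)
    (hi : Set.InjOn fstP F) :
    ∃ s : (Fin N → ℝ) → (Fin (N + c) → ℝ), ContinuousOn s (fstP '' F) ∧
      (∀ x ∈ fstP '' F, s x ∈ F ∧ fstP (s x) = x) ∧ ∀ z ∈ F, s (fstP z) = z := by
  classical
  have hinv : ∀ z ∈ F, Function.invFunOn fstP F (fstP z) = z := fun z hz =>
    hi.leftInvOn_invFunOn hz
  refine ⟨Function.invFunOn fstP F, ?_, ?_, hinv⟩
  · rw [continuousOn_iff_isClosed]
    intro t ht
    refine ⟨fstP '' (F ∩ t), ((hF.inter_right ht).image continuous_fstP).isClosed, ?_⟩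
    ext x
    constructor
    · rintro ⟨hx1, z, hz, rfl⟩
      rw [Set.mem_preimage, hinv z hz] at hx1
      exact ⟨⟨z, ⟨hz, hx1⟩, rfl⟩, ⟨z, hz, rfl⟩⟩
    · rintro ⟨⟨z, ⟨hz, hzt⟩, rfl⟩, h2⟩
      refine ⟨?_, h2⟩
      rw [Set.mem_preimage, hinv z hz]
      exact hzt
  · rintro x ⟨z, hz, rfl⟩
    rw [hinv z hz]
    exact ⟨hz, rfl⟩

/-- Proof: `⊆`: the image of a connected set is connected. `⊇`: apply the section of
`proj_section` to the component of the image. -/
theorem proj_comp (F : Set (Fin (N + c) → ℝ)) (hF : IsCompact F) (hi : Set.InjOn fstP F)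
    (z : Fin (N + c) → ℝ) (hz : z ∈ F) :
    fstP '' connectedComponentIn F z = connectedComponentIn (fstP '' F) (fstP z) := by
  obtain ⟨s, hs, hs1, hs2⟩ := proj_section F hF hi
  have hfz : fstP z ∈ fstP '' F := ⟨z, hz, rfl⟩
  apply Set.Subset.antisymm
  · exact (isPreconnected_connectedComponentIn.image _
      continuous_fstP.continuousOn).subset_connectedComponentIn
      ⟨z, mem_connectedComponentIn hz, rfl⟩
      (Set.image_mono (connectedComponentIn_subset _ _))
  · have hC : IsPreconnected (s '' connectedComponentIn (fstP '' F) (fstP z)) :=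
      isPreconnected_connectedComponentIn.image _
        (hs.mono (connectedComponentIn_subset _ _))
    have hsub : s '' connectedComponentIn (fstP '' F) (fstP z) ⊆ connectedComponentIn F z := by
      apply hC.subset_connectedComponentIn
      · exact ⟨fstP z, mem_connectedComponentIn hfz, hs2 z hz⟩
      · rintro _ ⟨x, hx, rfl⟩
        exact (hs1 x (connectedComponentIn_subset _ _ hx)).1
    intro x hx
    exact ⟨s x, hsub ⟨x, hx, rfl⟩, (hs1 x (connectedComponentIn_subset _ _ hx)).2⟩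

theorem ProjY_dist_fstP (z z' : Fin (N + c) → ℝ) : dist (fstP z) (fstP z') ≤ dist z z' := by
  rw [dist_pi_le_iff dist_nonneg]
  intro a
  exact dist_le_pi_dist z z' (Fin.castAdd c a)

/-- Points of the image near `fstP z` have their lift near `z`. -/
theorem ProjY_lift (F : Set (Fin (N + c) → ℝ)) (hF : IsCompact F) (hi : Set.InjOn fstP F)
    (z : Fin (N + c) → ℝ) (hz : z ∈ F) (ρ : ℝ) (hρ : 0 < ρ) :
    ∃ ρ' > 0, ∀ z' ∈ F, dist (fstP z') (fstP z) < ρ' → dist z' z < ρ := by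
  obtain ⟨s, hs, hs1, hs2⟩ := proj_section F hF hi
  have h := Metric.continuousOn_iff.mp hs (fstP z) ⟨z, hz, rfl⟩ ρ hρ
  obtain ⟨δ, hδ, h⟩ := h
  refine ⟨δ, hδ, fun z' hz' hd => ?_⟩
  have h3 := h (fstP z') ⟨z', hz', rfl⟩ hd
  rwa [hs2 z' hz', hs2 z hz] at h3

/-- Proof: `fstP` is 1-Lipschitz, the section is continuous. Given `w = fstP z`, `ε`: take the set
`Nn` for `z` and `ε` in `F` with its `ρ`; its image is preconnected, in `ball w ε`; by continuity of
the section at `w` there is `ρ'` such that points of `fstP '' F` in `ball w ρ'` have their lift in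
`ball z ρ`. -/
theorem proj_lcn (F : Set (Fin (N + c) → ℝ)) (hF : IsCompact F) (hi : Set.InjOn fstP F)
    (hl : LCn F) : LCn (fstP '' F) := by
  rintro _ ⟨z, hz, rfl⟩ ε hε
  obtain ⟨ρ, hρ, Nn, hN, hN1, hN2⟩ := hl z hz ε hε
  obtain ⟨ρ', hρ', hL⟩ := ProjY_lift F hF hi z hz ρ hρ
  refine ⟨ρ', hρ', fstP '' Nn, hN.image _ continuous_fstP.continuousOn, ?_, ?_⟩
  · rintro _ ⟨z', hz', rfl⟩
    obtain ⟨h1, h2⟩ := hN1 hz'
    refine ⟨⟨z', h1, rfl⟩, ?_⟩
    rw [Metric.mem_ball] at h2 ⊢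
    exact lt_of_le_of_lt (ProjY_dist_fstP _ _) h2
  · rintro _ ⟨⟨z', hz', rfl⟩, h2⟩
    exact ⟨z', hN2 ⟨hz', Metric.mem_ball.mpr (hL z' hz' (Metric.mem_ball.mp h2))⟩, rfl⟩

theorem proj_lm (F : Set (Fin (N + c) → ℝ)) (hF : IsCompact F) (hi : Set.InjOn fstP F)
    (j : Fin N) (z : Fin (N + c) → ℝ) (hz : z ∈ F) :
    LM (fstP '' F) (fun x => x j) (fstP z) ↔ LM F (fun u => u (Fin.castAdd c j)) z := by
  constructor
  · rintro ⟨_, ε, hε, h⟩
    refine ⟨hz, ε, hε, fun y hy hd => ?_⟩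
    exact h (fstP y) ⟨y, hy, rfl⟩ (lt_of_le_of_lt (ProjY_dist_fstP _ _) hd)
  · rintro ⟨_, ε, hε, h⟩
    obtain ⟨ρ', hρ', hL⟩ := ProjY_lift F hF hi z hz ε hε
    refine ⟨⟨z, hz, rfl⟩, ρ', hρ', ?_⟩
    rintro _ ⟨y, hy, rfl⟩ hd
    exact h y hy (hL y hy hd)

theorem proj_slm (F : Set (Fin (N + c) → ℝ)) (hF : IsCompact F) (hi : Set.InjOn fstP F)
    (j : Fin N) (z : Fin (N + c) → ℝ) (hz : z ∈ F) :
    SLM (fstP '' F) (fun x => x j) (fstP z) ↔ SLM F (fun u => u (Fin.castAdd c j)) z := by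
  constructor
  · rintro ⟨_, ε, hε, h⟩
    refine ⟨hz, ε, hε, fun y hy hd hne => ?_⟩
    exact h (fstP y) ⟨y, hy, rfl⟩ (lt_of_le_of_lt (ProjY_dist_fstP _ _) hd)
      (fun he => hne (hi hy hz he))
  · rintro ⟨_, ε, hε, h⟩
    obtain ⟨ρ', hρ', hL⟩ := ProjY_lift F hF hi z hz ε hε
    refine ⟨⟨z, hz, rfl⟩, ρ', hρ', ?_⟩
    rintro _ ⟨y, hy, rfl⟩ hd hne
    exact h y hy (hL y hy hd) (fun he => hne (by rw [he]))

/-- Proof: `proj_lm`; the left set is contained in the image under `fstP` of the right one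
(`Set.encard_image_le`). -/
theorem proj_card (F : Set (Fin (N + c) → ℝ)) (hF : IsCompact F) (hi : Set.InjOn fstP F)
    (j : Fin N) :
    {w | LM (fstP '' F) (fun x => x j) w}.encard ≤
      {z | LM F (fun u => u (Fin.castAdd c j)) z}.encard := by
  refine le_trans (Set.encard_le_encard ?_)
    (Set.encard_image_le fstP {z | LM F (fun u => u (Fin.castAdd c j)) z})
  intro w hw
  obtain ⟨z, hz, rfl⟩ := hw.1
  exact ⟨z, (proj_lm F hF hi j z hz).mp hw, rfl⟩

end Pool.Agent.RM90
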