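import Pool.Agent.Lib.MP_df59e7_lc_Y.RkY
import Pool.Agent.Lib.MP_df59e7_lc_Y.GdSY
import Pool.Agent.Lib.MP_df59e7_lc_X.LcW

set_option autoImplicit false

/-! MP_df59e7_lc, project Y, module RkE: noncritical points in components. -/

namespace Pool.Agent.RM90

open MvPolynomial

/-- A vector indexed by the equations of the base, extended by zero. -/
private noncomputable def RkE_ext {N : ℕ} (m0 : Fin N) (ρ : Fin (N - (m0 : ℕ)) → ℝ) :
    Fin N → ℝ :=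
  fun l => if h : (m0 : ℕ) ≤ (l : ℕ) then ρ ⟨(l : ℕ) - (m0 : ℕ), by have := l.2; omega⟩ else 0

private theorem RkE_ext_lt {N : ℕ} (m0 : Fin N) (ρ : Fin (N - (m0 : ℕ)) → ℝ) (l : Fin N)
    (hl : l < m0) : RkE_ext m0 ρ l = 0 := by
  have h1 : (l : ℕ) < (m0 : ℕ) := hl
  unfold RkE_ext
  rw [dif_neg (by omega)]

private theorem RkE_ext_k {N : ℕ} (m0 : Fin N) (ρ : Fin (N - (m0 : ℕ)) → ℝ)
    (k : Fin (N - (m0 : ℕ))) (h : (m0 : ℕ) + (k : ℕ) < N) :
    RkE_ext m0 ρ ⟨(m0 : ℕ) + (k : ℕ), h⟩ = ρ k := by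
  unfold RkE_ext
  rw [dif_pos (by show (m0 : ℕ) ≤ (m0 : ℕ) + (k : ℕ); omega)]
  congr 1
  apply Fin.ext
  show (m0 : ℕ) + (k : ℕ) - (m0 : ℕ) = k
  omega

private theorem RkE_sum {N : ℕ} (m0 : Fin N) (G0 : MvPolynomial (Fin N) ℝ)
    (ρ : Fin (N - (m0 : ℕ)) → ℝ) (w : Fin N → ℝ) (a : Fin N) :
    ∑ l, (if m0 ≤ l then RkE_ext m0 ρ l * eval w (pderiv a (eqn m0 G0 l)) else 0) =
      ∑ k, ρ k * eval w (pderiv a (hh m0 G0 k)) := by
  rw [sum_hh m0 (fun l => RkE_ext m0 ρ l * eval w (pderiv a (eqn m0 G0 l)))]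
  refine Finset.sum_congr rfl fun k _ => ?_
  rw [RkE_ext_k]
  rfl

private theorem RkE_crit {N : ℕ} (m' m0 : Fin N) (G0 : MvPolynomial (Fin N) ℝ)
    (w : Fin N → ℝ) (hr : RegAt m' m0 G0 w) (hn : ¬ RkK m' (hh m0 G0) w) :
    ∃ μ, CritP m' m0 G0 w μ := by
  unfold RkK at hn
  push Not at hn
  obtain ⟨ρ, hρ, hρ0⟩ := hn
  obtain ⟨s, hs⟩ : ∃ s, s = ∑ k, ρ k * eval w (pderiv m' (hh m0 G0 k)) := ⟨_, rfl⟩
  have hs0 : s ≠ 0 := by
    intro h0
    apply hρ0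
    funext k
    have hk := k.2
    have h1 := hr (RkE_ext m0 ρ) (fun a ha => by
      rw [RkE_sum]
      rcases eq_or_lt_of_le ha with h2 | h2
      · rw [← h2, ← hs, h0]
      · exact hρ a h2) ⟨(m0 : ℕ) + (k : ℕ), by omega⟩
        (by show (m0 : ℕ) ≤ (m0 : ℕ) + (k : ℕ); omega)
    rw [RkE_ext_k] at h1
    exact h1
  refine ⟨RkE_ext m0 (fun k => ρ k / s), fun l hl => RkE_ext_lt m0 _ l hl, fun a ha => ?_⟩
  rw [RkE_sum]
  have h3 : ∑ k, ρ k / s * eval w (pderiv a (hh m0 G0 k)) =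
      (∑ k, ρ k * eval w (pderiv a (hh m0 G0 k))) / s := by
    rw [Finset.sum_div]
    refine Finset.sum_congr rfl fun k _ => ?_
    ring
  rw [h3]
  rcases eq_or_lt_of_le ha with h2 | h2
  · rw [← h2, ← hs, if_pos rfl, div_self hs0]
  · rw [hρ a h2, zero_div, if_neg h2.ne']

/-- Every component of a good set contains a point which is not critical.
Proof: suppose `RkK m' h w` fails for all `w` in the component `C` of `x` (`h = hh m0 G0`). For
`w ∈ C` there is `ρ ≠ 0` with `∑ ρ_k ∂_a h_k(w) = 0` for `a > m'`; `s = ∑ ρ_k ∂_{m'} h_k(w) ≠ 0` by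
`RegAt m' m0 G0 w` (`hG.reg` for `i = m'`), so `ρ / s` (extended by zero, `sum_hh`) satisfies
`CritP m' m0 G0 w`. `crit_isol` at `x` (`hG.ndg`): there is `ε` such that all critical points within
`ε` are `x`. But `x` is not isolated in `Wst U0 m' m0 G0 y` (`nonisol` in
Lib/MP_df59e7_lc_X/LcW.lean), and points near `x` are in `C` (`lc_W`: locally connected): a point
`x' ≠ x` of `C` within `ε`, critical: contradiction. -/
theorem exists_rk {N : ℕ} (U0 : Set (Fin N → ℝ)) (m' m0 : Fin N) (G0 : MvPolynomial (Fin N) ℝ)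
    (y : Fin N → ℝ) (hG : GdY U0 m' m0 G0 y) (x : Fin N → ℝ) (hx : x ∈ Wst U0 m' m0 G0 y) :
    ∃ w ∈ connectedComponentIn (Wst U0 m' m0 G0 y) x, RkK m' (hh m0 G0) w := by
  by_contra hcon
  push Not at hcon
  have hrat : RatExt m' m' y y :=
    ⟨fun a _ => rfl, fun a h1 h2 => absurd h2 (not_lt.2 h1)⟩
  have hreg : ∀ z ∈ Wst U0 m' m0 G0 y, RegAt m' m0 G0 z :=
    hG.reg m' le_rfl hG.lt y hrat
  obtain ⟨μ, hμ⟩ := RkE_crit m' m0 G0 x (hreg x hx)
    (hcon x (mem_connectedComponentIn hx))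
  have hF : Fcr m' m0 G0 y (x, μ) = 0 := by
    unfold Fcr
    refine Prod.ext ?_ ?_
    · funext a
      show (if a < m' then x a - y a else _) = (0 : ℝ)
      split_ifs with h1 h2
      · rw [hx.2.1 a h1, sub_self]
      · have h3 := hμ.2 a (not_lt.1 h1)
        rw [if_pos h2] at h3
        rw [h3, sub_self]
      · have h3 := hμ.2 a (not_lt.1 h1)
        rw [if_neg h2] at h3
        rw [h3, sub_self]
    · funext l
      show (if l < m0 then μ l else eval x (eqn m0 G0 l)) = (0 : ℝ)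
      split_ifs with h1
      · exact hμ.1 l h1
      · exact hx.2.2 l (not_lt.1 h1)
  obtain ⟨ε, hε, hiso⟩ := crit_isol U0 m' m0 G0 y x μ hx (hreg x hx) hμ
    (hG.ndg m' le_rfl hG.lt y hrat (x, μ) hx.1 hF)
  obtain ⟨ρ1, hρ1, V, hV1, hV2, hV3⟩ := lc_W U0 hG.isOpen m' m0 hG.lt G0 y hreg x hx 1 one_pos
  obtain ⟨x', hx', hne, hd⟩ := nonisol U0 hG.isOpen m' m0 hG.lt G0 y hreg x hx (min ρ1 ε)
    (lt_min hρ1 hε)
  have hxV : x ∈ V := hV3 ⟨hx, Metric.mem_ball_self hρ1⟩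
  have hxV' : x' ∈ V := hV3 ⟨hx', Metric.mem_ball.2 (lt_of_lt_of_le hd (min_le_left _ _))⟩
  have hC : x' ∈ connectedComponentIn (Wst U0 m' m0 G0 y) x :=
    hV1.subset_connectedComponentIn hxV (fun z hz => (hV2 hz).1) hxV'
  exact hne (hiso x' hx' (lt_of_lt_of_le hd (min_le_right _ _))
    (RkE_crit m' m0 G0 x' (hreg x' hx') (hcon x' hC)))

end Pool.Agent.RM90
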