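import Pool.Agent.Lib.MP_df59e7_lc_Y.GramY

set_option autoImplicit false

/-! MP_df59e7_lc, project Y, module RkY: the rank condition. -/

namespace Pool.Agent.RM90

open MvPolynomial

variable {N c : ℕ}

/-- Proof: `{x | 0 < eval x (gramP m h)}` (`gramP_pos_iff`). -/
theorem rkK_open (m : Fin N) (h : Fin c → MvPolynomial (Fin N) ℝ) :
    IsOpen {x : Fin N → ℝ | RkK m h x} := by
  have h1 : {x : Fin N → ℝ | RkK m h x} = {x | 0 < eval x (gramP m h)} := by
    ext x
    exact (gramP_pos_iff m h x).symm
  rw [h1]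
  exact isOpen_lt continuous_const (MvPolynomial.continuous_eval _)

theorem rkK_mono {m m' : Fin N} (hm : m' ≤ m) {h : Fin c → MvPolynomial (Fin N) ℝ}
    {x : Fin N → ℝ} (hr : RkK m h x) : RkK m' h x :=
  fun ρ hρ => hr ρ (fun a ha => hρ a (lt_of_le_of_lt hm ha))

/-- Independent rows: the linear system is solvable.
Proof: the linear map `u ↦ (∑_{a > m} u_a ∂_a h_k)_k` from `ℝ^N` to `ℝ^c` is onto: otherwise there
is `ρ ≠ 0` orthogonal to its range, so `∑ ρ_k ∂_a h_k = 0` for all `a > m`. Or: `u = Aᵀ (A Aᵀ)⁻¹ ρ`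
with the invertible Gram matrix. -/
theorem rk_solve {m : Fin N} {h : Fin c → MvPolynomial (Fin N) ℝ} {x : Fin N → ℝ}
    (hr : RkK m h x) (ρ : Fin c → ℝ) :
    ∃ u : Fin N → ℝ, (∀ a, a ≤ m → u a = 0) ∧ ∀ k, ∑ a, u a * eval x (pderiv a (h k)) = ρ k := by
  classical
  let L : (Fin N → ℝ) →ₗ[ℝ] (Fin c → ℝ) :=
    { toFun := fun u k => ∑ a, (if m < a then u a * eval x (pderiv a (h k)) else 0)
      map_add' := by
        intro u v
        funext k
        simp only [Pi.add_apply]
        rw [← Finset.sum_add_distrib]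
        refine Finset.sum_congr rfl fun a _ => ?_
        split_ifs
        · ring
        · ring
      map_smul' := by
        intro r u
        funext k
        simp only [Pi.smul_apply, smul_eq_mul, RingHom.id_apply]
        rw [Finset.mul_sum]
        refine Finset.sum_congr rfl fun a _ => ?_
        split_ifs
        · ring
        · ring }
  have hL : ∀ u k, L u k = ∑ a, (if m < a then u a * eval x (pderiv a (h k)) else 0) :=
    fun u k => rfl
  have hsurj : LinearMap.range L = ⊤ := by
    by_contra hne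
    obtain ⟨f, hf0, hf⟩ := Submodule.exists_le_ker_of_lt_top (LinearMap.range L)
      (lt_top_iff_ne_top.2 hne)
    apply hf0
    have hfe : ∀ v : Fin c → ℝ, f v = ∑ k, v k * f (Pi.single k 1) := by
      intro v
      have h1 := LinearMap.pi_apply_eq_sum_univ f v
      rw [h1]
      refine Finset.sum_congr rfl fun k _ => ?_
      rw [smul_eq_mul]
      congr 2
      funext j
      simp only [Pi.single_apply, eq_comm]
    have hz : (fun k => f (Pi.single k 1)) = (0 : Fin c → ℝ) := by
      apply hr
      intro a ha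
      have h1 : f (L (Pi.single a 1)) = 0 :=
        hf (LinearMap.mem_range_self L _)
      rw [hfe] at h1
      rw [← h1]
      refine Finset.sum_congr rfl fun k _ => ?_
      have h2 : L (Pi.single a 1) k = eval x (pderiv a (h k)) := by
        rw [hL]
        rw [Finset.sum_eq_single a]
        · rw [if_pos ha, Pi.single_eq_same, one_mul]
        · intro b _ hb
          rw [Pi.single_eq_of_ne hb, zero_mul]
          split_ifs <;> rfl
        · intro hc
          exact absurd (Finset.mem_univ a) hc
      rw [h2]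
      ring
    ext k
    have h3 := congrFun hz k
    simpa using h3
  have hmem : ρ ∈ LinearMap.range L := by
    rw [hsurj]
    exact Submodule.mem_top
  obtain ⟨u, hu⟩ := hmem
  refine ⟨fun a => if m < a then u a else 0, ?_, ?_⟩
  · intro a ha
    exact if_neg (not_lt.2 ha)
  · intro k
    rw [← hu, hL]
    refine Finset.sum_congr rfl fun a _ => ?_
    by_cases ha : m < a
    · simp only [if_pos ha]
    · simp only [if_neg ha, zero_mul]

theorem mlt_unique {m : Fin N} {h : Fin c → MvPolynomial (Fin N) ℝ}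
    {g : MvPolynomial (Fin N) ℝ} {x : Fin N → ℝ} (hr : RkK m h x) {lam lam' : Fin c → ℝ}
    (h1 : Mlt m h g x lam) (h2 : Mlt m h g x lam') : lam = lam' := by
  have h3 : lam - lam' = 0 := by
    apply hr
    intro a ha
    have e1 := h1 a ha
    have e2 := h2 a ha
    have e3 : ∑ k, (lam - lam') k * eval x (pderiv a (h k)) =
        (∑ k, lam k * eval x (pderiv a (h k))) - ∑ k, lam' k * eval x (pderiv a (h k)) := by
      rw [← Finset.sum_sub_distrib]
      refine Finset.sum_congr rfl fun k _ => ?_
      rw [Pi.sub_apply]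
      ring
    rw [e3, ← e1, ← e2, sub_self]
  exact sub_eq_zero.1 h3

theorem lft_inj (U : Set (Fin N → ℝ)) (R : ℝ) (j m : Fin N)
    (h : Fin c → MvPolynomial (Fin N) ℝ) (g : MvPolynomial (Fin N) ℝ) (y : Fin N → ℝ)
    (hr : ∀ x ∈ U, RkK m h x) : Set.InjOn fstP (Lft U R j m h g y) := by
  intro z hz z' hz' he
  rw [mem_Lft] at hz hz'
  obtain ⟨⟨hz1, hz2⟩, _⟩ := hz
  obtain ⟨⟨_, hz2'⟩, _⟩ := hz'
  rw [← he] at hz2'
  have h1 : sndP z = sndP z' := mlt_unique (hr _ hz1.1) hz2 hz2'
  rw [← append_fst_snd z, ← append_fst_snd z', he, h1]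

end Pool.Agent.RM90
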