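import Pool.Agent.Lib.MP_df59e7_lc_Y.RkY

set_option autoImplicit false

/-! MP_df59e7_lc, project Y, module RkZ: bounds for the multipliers. -/

namespace Pool.Agent.RM90

open MvPolynomial

variable {N c : ℕ}

/-- The sum of squares of the combinations of the rows. -/
private noncomputable def RkZ_F (m : Fin N) (h : Fin c → MvPolynomial (Fin N) ℝ)
    (p : (Fin N → ℝ) × (Fin c → ℝ)) : ℝ :=
  ∑ a, if m < a then (∑ k, p.2 k * eval p.1 (pderiv a (h k))) ^ 2 else 0

private theorem RkZ_F_cont (m : Fin N) (h : Fin c → MvPolynomial (Fin N) ℝ) :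
    Continuous (RkZ_F m h) := by
  unfold RkZ_F
  refine continuous_finsetSum _ fun a _ => ?_
  by_cases ha : m < a
  · simp only [ha, if_true]
    refine (continuous_finsetSum _ fun k _ => ?_).pow 2
    exact ((continuous_apply k).comp continuous_snd).mul
      ((MvPolynomial.continuous_eval _).comp continuous_fst)
  · simp only [ha, if_false]
    exact continuous_const

private theorem RkZ_F_pos (m : Fin N) (h : Fin c → MvPolynomial (Fin N) ℝ) (x : Fin N → ℝ)
    (ρ : Fin c → ℝ) (hr : RkK m h x) (hρ : ρ ≠ 0) : 0 < RkZ_F m h (x, ρ) := by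
  have hnn : ∀ a ∈ (Finset.univ : Finset (Fin N)),
      0 ≤ (if m < a then (∑ k, ρ k * eval x (pderiv a (h k))) ^ 2 else 0 : ℝ) := by
    intro a _
    split_ifs
    · exact sq_nonneg _
    · exact le_rfl
  have h0 : 0 ≤ RkZ_F m h (x, ρ) := Finset.sum_nonneg hnn
  rcases h0.lt_or_eq with h1 | h1
  · exact h1
  · exfalso
    apply hρ
    apply hr
    intro a ha
    have h2 := (Finset.sum_eq_zero_iff_of_nonneg hnn).1 h1.symm a (Finset.mem_univ a)
    rw [if_pos ha] at h2
    exact pow_eq_zero_iff (two_ne_zero) |>.1 h2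

private theorem RkZ_F_smul (m : Fin N) (h : Fin c → MvPolynomial (Fin N) ℝ) (x : Fin N → ℝ)
    (ρ : Fin c → ℝ) (t : ℝ) : RkZ_F m h (x, t • ρ) = t ^ 2 * RkZ_F m h (x, ρ) := by
  unfold RkZ_F
  rw [Finset.mul_sum]
  refine Finset.sum_congr rfl fun a _ => ?_
  by_cases ha : m < a
  · simp only [ha, if_true, Pi.smul_apply, smul_eq_mul]
    rw [← mul_pow, Finset.mul_sum]
    congr 1
    refine Finset.sum_congr rfl fun k _ => ?_
    ring
  · simp only [ha, if_false, mul_zero]

private theorem RkZ_F_mlt (m : Fin N) (h : Fin c → MvPolynomial (Fin N) ℝ)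
    (g : MvPolynomial (Fin N) ℝ) (x : Fin N → ℝ) (lam : Fin c → ℝ) (hm : Mlt m h g x lam) :
    RkZ_F m h (x, lam) = ∑ a, if m < a then (eval x (pderiv a g)) ^ 2 else 0 := by
  unfold RkZ_F
  refine Finset.sum_congr rfl fun a _ => ?_
  by_cases ha : m < a
  · simp only [ha, if_true]
    rw [hm a ha]
  · simp only [ha, if_false]

private theorem RkZ_G_cont (m : Fin N) (g : MvPolynomial (Fin N) ℝ) :
    Continuous fun x : Fin N → ℝ => ∑ a, if m < a then (eval x (pderiv a g)) ^ 2 else 0 := by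
  refine continuous_finsetSum _ fun a _ => ?_
  by_cases ha : m < a
  · simp only [ha, if_true]
    exact (MvPolynomial.continuous_eval _).pow 2
  · simp only [ha, if_false]
    exact continuous_const

private theorem RkZ_G_nonneg (m : Fin N) (g : MvPolynomial (Fin N) ℝ) (x : Fin N → ℝ) :
    0 ≤ ∑ a, if m < a then (eval x (pderiv a g)) ^ 2 else 0 := by
  refine Finset.sum_nonneg fun a _ => ?_
  split_ifs
  · exact sq_nonneg _
  · exact le_rfl

private theorem RkZ_sph_compact : IsCompact {ρ : Fin c → ℝ | ∑ k, ρ k ^ 2 = 1} := by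
  refine (isCompact_closedBall (0 : Fin c → ℝ) 1).of_isClosed_subset ?_ ?_
  · exact isClosed_eq (continuous_finsetSum _ fun k _ => (continuous_apply k).pow 2)
      continuous_const
  · intro ρ hρ
    rw [mem_closedBall_zero_iff, pi_norm_le_iff_of_nonneg zero_le_one]
    intro k
    have h1 : ρ k ^ 2 ≤ ∑ k, ρ k ^ 2 :=
      Finset.single_le_sum (f := fun k => ρ k ^ 2) (fun i _ => sq_nonneg _) (Finset.mem_univ k)
    have h2 : ρ k ^ 2 ≤ 1 := h1.trans (le_of_eq hρ)
    rw [Real.norm_eq_abs]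
    exact abs_le_one_iff_mul_self_le_one.2 (by nlinarith [h2])

/-- Multipliers are bounded on compact sets.
Proof: `(x, ρ) ↦ ∑_{a > m} (∑_k ρ_k ∂_a h_k(x))^2` is continuous and positive on the compact set
`S × {ρ | ∑ ρ_k^2 = 1}`, so `≥ κ > 0`; by homogeneity `κ ∑ lam_k^2 ≤ ∑_{a>m} (∂_a g(x))^2 ≤ M`. -/
theorem mult_bdd (m : Fin N) (h : Fin c → MvPolynomial (Fin N) ℝ)
    (g : MvPolynomial (Fin N) ℝ) (S : Set (Fin N → ℝ)) (hS : IsCompact S)
    (hr : ∀ x ∈ S, RkK m h x) :
    ∃ R > 0, ∀ x ∈ S, ∀ lam : Fin c → ℝ, Mlt m h g x lam → ∀ k, |lam k| < R := by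
  set K : Set ((Fin N → ℝ) × (Fin c → ℝ)) := S ×ˢ {ρ : Fin c → ℝ | ∑ k, ρ k ^ 2 = 1} with hK
  have hKc : IsCompact K := hS.prod RkZ_sph_compact
  by_cases hne : K.Nonempty
  · obtain ⟨p0, hp0, hmin⟩ := hKc.exists_isMinOn hne (RkZ_F_cont m h).continuousOn
    set κ : ℝ := RkZ_F m h p0 with hκ
    have hκ0 : 0 < κ := by
      have h1 : p0.2 ≠ 0 := by
        intro h2
        have h3 : ∑ k, p0.2 k ^ 2 = 1 := hp0.2
        rw [h2] at h3
        simp at h3
      exact RkZ_F_pos m h p0.1 p0.2 (hr _ hp0.1) h1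
    obtain ⟨M, hM⟩ := hS.bddAbove_image (RkZ_G_cont m g).continuousOn
    have hM0 : 0 ≤ M :=
      (RkZ_G_nonneg m g p0.1).trans (hM ⟨p0.1, hp0.1, rfl⟩)
    refine ⟨M / κ + 2, by positivity, ?_⟩
    intro x hx lam hlam k
    set s : ℝ := ∑ k, lam k ^ 2 with hs
    have hs0 : 0 ≤ s := Finset.sum_nonneg fun i _ => sq_nonneg _
    have hks : lam k ^ 2 ≤ s :=
      Finset.single_le_sum (f := fun k => lam k ^ 2) (fun i _ => sq_nonneg _) (Finset.mem_univ k)
    have hmain : κ * s ≤ M := by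
      have hG : RkZ_F m h (x, lam) ≤ M := by
        rw [RkZ_F_mlt m h g x lam hlam]
        exact hM ⟨x, hx, rfl⟩
      rcases hs0.lt_or_eq with h1 | h1
      · set t : ℝ := (Real.sqrt s)⁻¹ with ht
        have hsq : 0 < Real.sqrt s := Real.sqrt_pos.2 h1
        have ht2 : t ^ 2 * s = 1 := by
          rw [ht, inv_pow, Real.sq_sqrt hs0]
          field_simp
        have hmem : (x, t • lam) ∈ K := by
          refine ⟨hx, ?_⟩
          change ∑ k, (t • lam) k ^ 2 = 1
          rw [← ht2, hs, Finset.mul_sum]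
          refine Finset.sum_congr rfl fun i _ => ?_
          simp only [Pi.smul_apply, smul_eq_mul]
          ring
        have h2 : κ ≤ RkZ_F m h (x, t • lam) := hmin hmem
        rw [RkZ_F_smul] at h2
        calc κ * s ≤ (t ^ 2 * RkZ_F m h (x, lam)) * s := mul_le_mul_of_nonneg_right h2 hs0
          _ = (t ^ 2 * s) * RkZ_F m h (x, lam) := by ring
          _ = RkZ_F m h (x, lam) := by rw [ht2, one_mul]
          _ ≤ M := hG
      · rw [← h1, mul_zero]
        exact hM0
    have h3 : s ≤ M / κ := by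
      rw [le_div_iff₀ hκ0]
      linarith
    have h4 : |lam k| ≤ lam k ^ 2 + 1 := by
      have h5 : 0 ≤ (|lam k| - 1) ^ 2 := sq_nonneg _
      have h6 : |lam k| ^ 2 = lam k ^ 2 := sq_abs _
      nlinarith [abs_nonneg (lam k)]
    linarith
  · refine ⟨1, one_pos, ?_⟩
    intro x hx lam _ k
    exfalso
    apply hne
    refine ⟨(x, Pi.single k 1), hx, ?_⟩
    change ∑ i, (Pi.single k (1 : ℝ) : Fin c → ℝ) i ^ 2 = 1
    rw [Finset.sum_eq_single k]
    · simp
    · intro b _ hb
      rw [Pi.single_eq_of_ne hb]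
      simp
    · intro hk
      exact absurd (Finset.mem_univ k) hk

private theorem RkZ_closed_mlt (m : Fin N) (h : Fin c → MvPolynomial (Fin N) ℝ)
    (g : MvPolynomial (Fin N) ℝ) :
    IsClosed {z : Fin (N + c) → ℝ | Mlt m h g (fstP z) (sndP z)} := by
  have h1 : {z : Fin (N + c) → ℝ | Mlt m h g (fstP z) (sndP z)} =
      ⋂ a : Fin N, {z | m < a → eval (fstP z) (pderiv a g) =
        ∑ k, sndP z k * eval (fstP z) (pderiv a (h k))} := by
    ext z
    simp only [Mlt, Set.mem_ofPred_eq, Set.mem_iInter]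
  rw [h1]
  refine isClosed_iInter fun a => ?_
  by_cases ha : m < a
  · simp only [ha, true_imp_iff]
    refine isClosed_eq ((MvPolynomial.continuous_eval _).comp continuous_fstP) ?_
    refine continuous_finsetSum _ fun k _ => ?_
    exact ((continuous_apply k).comp continuous_sndP).mul
      ((MvPolynomial.continuous_eval _).comp continuous_fstP)
  · simp only [ha, false_imp_iff]
    exact isClosed_univ

/-- The polar set with its multipliers is compact.
Proof: take `R` from `mult_bdd` for `S = Zg U j h g y`. By `mem_Lft` and this bound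
`Lft U (R+1)` is the set of `z` with `fstP z ∈ S`, `∀ k, |sndP z k| ≤ R` and
`Mlt m h g (fstP z) (sndP z)`: closed and bounded. -/
theorem lft_cpt (U : Set (Fin N → ℝ)) (j m : Fin N) (h : Fin c → MvPolynomial (Fin N) ℝ)
    (g : MvPolynomial (Fin N) ℝ) (y : Fin N → ℝ) (hS : IsCompact (Zg U j h g y))
    (hr : ∀ x ∈ U, RkK m h x) :
    ∃ R > 0, (∀ x ∈ Zg U j h g y, ∀ lam, Mlt m h g x lam → ∀ k, |lam k| < R) ∧
      IsCompact (Lft U R j m h g y) := by
  obtain ⟨R, hR, hb⟩ := mult_bdd m h g (Zg U j h g y) hS fun x hx => hr x hx.1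
  refine ⟨R, hR, hb, ?_⟩
  have h1 : Lft U R j m h g y =
      fstP ⁻¹' (Zg U j h g y) ∩ {z | Mlt m h g (fstP z) (sndP z)} := by
    ext z
    rw [mem_Lft]
    constructor
    · rintro ⟨⟨h2, h3⟩, _⟩
      exact ⟨h2, h3⟩
    · rintro ⟨h2, h3⟩
      exact ⟨⟨h2, h3⟩, hb _ h2 _ h3⟩
  have hcl : IsClosed (Lft U R j m h g y) := by
    rw [h1]
    exact (hS.isClosed.preimage continuous_fstP).inter (RkZ_closed_mlt m h g)
  have happ : Continuous fun q : (Fin N → ℝ) × (Fin c → ℝ) => Fin.append q.1 q.2 := by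
    refine continuous_pi fun i => ?_
    refine Fin.addCases (fun a => ?_) (fun k => ?_) i
    · simp only [Fin.append_left]
      exact (continuous_apply a).comp continuous_fst
    · simp only [Fin.append_right]
      exact (continuous_apply k).comp continuous_snd
  have hbig : IsCompact ((fun q : (Fin N → ℝ) × (Fin c → ℝ) => Fin.append q.1 q.2) ''
      (Zg U j h g y ×ˢ Metric.closedBall (0 : Fin c → ℝ) R)) :=
    (hS.prod (isCompact_closedBall _ _)).image happ
  refine hbig.of_isClosed_subset hcl ?_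
  intro z hz
  rw [mem_Lft] at hz
  refine ⟨(fstP z, sndP z), ⟨hz.1.1, ?_⟩, append_fst_snd z⟩
  rw [mem_closedBall_zero_iff, pi_norm_le_iff_of_nonneg hR.le]
  intro k
  rw [Real.norm_eq_abs]
  exact (hz.2 k).le

theorem lft_image (U : Set (Fin N → ℝ)) (R : ℝ) (j m : Fin N)
    (h : Fin c → MvPolynomial (Fin N) ℝ) (g : MvPolynomial (Fin N) ℝ) (y : Fin N → ℝ)
    (hf : ∀ x ∈ Zg U j h g y, ∀ lam, Mlt m h g x lam → ∀ k, |lam k| < R) :
    fstP '' Lft U R j m h g y = Pol U j m h g y := by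
  ext x
  constructor
  · rintro ⟨z, hz, rfl⟩
    rw [mem_Lft] at hz
    exact ⟨hz.1.1, sndP z, hz.1.2⟩
  · rintro ⟨hx, lam, hlam⟩
    refine ⟨Fin.append x lam, ?_, fstP_append x lam⟩
    rw [mem_Lft, fstP_append, sndP_append]
    exact ⟨⟨hx, hlam⟩, hf x hx lam hlam⟩

end Pool.Agent.RM90
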