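import Pool.Agent.Lib.MP_df59e7_lc_Y.RkZ
import Pool.Agent.Lib.MP_df59e7_lc_Y.GdSY
import Pool.Agent.Lib.MP_df59e7_lc_Y.ProjY
import Pool.Agent.Lib.MP_df59e7_lc_X.DenW

set_option autoImplicit false

/-! MP_df59e7_lc, project Y, module StY1: properties of the states of a chain. -/

namespace Pool.Agent.RM90

open MvPolynomial

variable {N : ℕ} {U0 : Set (Fin N → ℝ)} {j m0 : Fin N} {G0 : MvPolynomial (Fin N) ℝ}
  {y : Fin N → ℝ} {U : Set (Fin N → ℝ)} {R : ℝ} {m : Fin N} {g : MvPolynomial (Fin N) ℝ}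

theorem st_image (hS : StY U0 j m0 G0 y U R m g) :
    fstP '' Lft U R j m (hh m0 G0) g y = Pol U j m (hh m0 G0) g y :=
  lft_image U R j m (hh m0 G0) g y hS.full

theorem st_inj (hS : StY U0 j m0 G0 y U R m g) :
    Set.InjOn fstP (Lft U R j m (hh m0 G0) g y) :=
  lft_inj U R j m (hh m0 G0) g y hS.rk

theorem st_lt (hS : StY U0 j m0 G0 y U R m g) : j < m := by
  have := hS.gd.lt
  rwa [Fin.lt_def] at this ⊢

/-- Density of the points with rational coordinates.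
Proof: `dens_W` (Lib/MP_df59e7_lc_X/DenW.lean) for `Lft ..` (`gds_of_gdy hS.gd`), projected by
`fstP` (`st_image`). -/
theorem st_dens (hS : StY U0 j m0 G0 y U R m g) (m' : Fin N) (hj : j ≤ m') (hm : m' < m) :
    ∀ x ∈ Pol U j m (hh m0 G0) g y, ∀ ε > 0, ∃ x' ∈ Pol U j m (hh m0 G0) g y,
      (∀ a, j ≤ a → a < m' → ∃ r : ℚ, x' a = (r : ℝ)) ∧ dist x' x < ε := by
  intro x hx ε hε
  rw [← st_image hS] at hx
  obtain ⟨z, hz, rfl⟩ := hx
  have hji : (Fin.castAdd (N - (m0 : ℕ)) j) ≤ Fin.castAdd (N - (m0 : ℕ)) m' := by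
    rw [Fin.le_def] at hj ⊢
    simpa using hj
  have him : (Fin.castAdd (N - (m0 : ℕ)) m') < Fin.castAdd (N - (m0 : ℕ)) m := by
    rw [Fin.lt_def] at hm ⊢
    simpa using hm
  have hd := dens_W (Ux (N - (m0 : ℕ)) U R) (Fin.castAdd (N - (m0 : ℕ)) j)
    (Fin.castAdd (N - (m0 : ℕ)) m) (Gx g (hh m0 G0)) (yx (N - (m0 : ℕ)) y)
    (gds_of_gdy hS.gd) (Fin.castAdd (N - (m0 : ℕ)) m') hji him
  obtain ⟨z', ⟨hz', hr⟩, hdz⟩ := Metric.mem_closure_iff.1 (hd hz) ε hε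
  refine ⟨fstP z', ?_, ?_, ?_⟩
  · rw [← st_image hS]
    exact ⟨z', hz', rfl⟩
  · intro a ha ha'
    refine hr (Fin.castAdd (N - (m0 : ℕ)) a) ?_ ?_
    · rw [Fin.le_def] at ha ⊢
      simpa using ha
    · rw [Fin.lt_def] at ha' ⊢
      simpa using ha'
  · refine lt_of_le_of_lt ?_ hdz
    rw [dist_comm z z']
    refine (dist_pi_le_iff dist_nonneg).2 fun a => ?_
    exact dist_le_pi_dist z' z (Fin.castAdd (N - (m0 : ℕ)) a)

end Pool.Agent.RM90
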