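import Pool.Agent.Lib.MP_df59e7_lc_Y.GenYc
import Pool.Agent.Lib.MP_df59e7_lc_Y.StY1
import Pool.Agent.Lib.MP_df59e7_lc_X.ParQ

set_option autoImplicit false

/-! MP_df59e7_lc, project Y, module SeqY: sequences of states. -/

namespace Pool.Agent.RM90

open MvPolynomial

/-- `Ux` over an open set is open. -/
theorem SeqY_open {N c : ℕ} {U : Set (Fin N → ℝ)} (hU : IsOpen U) (R : ℝ) :
    IsOpen (Ux c U R) := by
  have h1 : Continuous (fstP : (Fin (N + c) → ℝ) → (Fin N → ℝ)) :=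
    continuous_pi fun a => continuous_apply _
  have h2 : Ux c U R = fstP ⁻¹' U ∩ ⋂ k : Fin c, {z : Fin (N + c) → ℝ | |sndP z k| < R} := by
    ext z
    simp [Ux]
  rw [h2]
  refine (hU.preimage h1).inter (isOpen_iInter_of_finite fun k => ?_)
  exact isOpen_lt (continuous_apply (Fin.natAdd N k)).abs continuous_const

/-- `Ux` over a bounded set is bounded. -/
theorem SeqY_bdd {N c : ℕ} {U : Set (Fin N → ℝ)} (hU : Bornology.IsBounded U) (R : ℝ) :
    Bornology.IsBounded (Ux c U R) := by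
  obtain ⟨r, hr⟩ := bdd_coord U hU
  refine (Metric.isBounded_closedBall (x := (0 : Fin (N + c) → ℝ))
    (r := max (max r R) 0)).subset ?_
  intro z hz
  rw [mem_closedBall_zero_iff]
  refine (pi_norm_le_iff_of_nonneg (le_max_right _ _)).2 fun a => ?_
  rw [Real.norm_eq_abs]
  refine le_trans ?_ (le_max_left _ _)
  refine Fin.addCases (fun b => ?_) (fun k => ?_) a
  · exact (hr _ hz.1 b).trans (le_max_left _ _)
  · exact (hz.2 k).le.trans (le_max_right _ _)

/-- The hypersurface in the base is compact. -/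
theorem SeqY_cpt {N c : ℕ} (U' : Set (Fin N → ℝ)) (hU' : IsOpen U')
    (hb : Bornology.IsBounded U') (j m' : Fin N) (h : Fin c → MvPolynomial (Fin N) ℝ)
    (Ψ : MvPolynomial (Fin N) ℝ) (y : Fin N → ℝ) (κ : ℝ)
    (hfr : ∀ x ∈ frontier U', (∀ a, a < j → x a = y a) → (∀ k, eval x (h k) = 0) →
      κ ≤ eval x Ψ)
    (hrk : ∀ x ∈ closure U', (∀ a, a < j → x a = y a) → (∀ k, eval x (h k) = 0) →
      0 < eval x Ψ → RkK m' h x) (q : MvPolynomial (Fin N) ℝ)
    (h0 : ∀ x ∈ closure U', 0 < eval x q) (h1 : ∀ x ∈ closure U', eval x q < κ) :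
    IsCompact (Zg {x | x ∈ U' ∧ RkK m' h x} j h (Ψ - q) y) := by
  have e : Zg {x | x ∈ U' ∧ RkK m' h x} j h (Ψ - q) y =
      closure U' ∩ {x | (∀ a, a < j → x a = y a) ∧ (∀ k, eval x (h k) = 0) ∧
        eval x (Ψ - q) = 0} := by
    ext x
    constructor
    · rintro ⟨⟨hx, -⟩, h2, h3, h4⟩
      exact ⟨subset_closure hx, h2, h3, h4⟩
    · rintro ⟨hx, h2, h3, h4⟩
      have h5 : eval x Ψ = eval x q := by
        rw [map_sub] at h4
        linarith
      have h6 : x ∈ U' := by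
        by_contra hn
        have h7 : x ∈ frontier U' := by
          rw [hU'.frontier_eq]
          exact ⟨hx, hn⟩
        have h8 := hfr x h7 h2 h3
        have h9 := h1 x hx
        linarith
      refine ⟨⟨h6, hrk x hx h2 h3 ?_⟩, h2, h3, h4⟩
      rw [h5]
      exact h0 x hx
  rw [e]
  refine (Metric.isCompact_of_isClosed_isBounded isClosed_closure hb.closure).inter_right ?_
  have e2 : {x : Fin N → ℝ | (∀ a, a < j → x a = y a) ∧ (∀ k, eval x (h k) = 0) ∧
      eval x (Ψ - q) = 0} = (⋂ a, {x : Fin N → ℝ | a < j → x a = y a}) ∩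
      ((⋂ k, {x : Fin N → ℝ | eval x (h k) = 0}) ∩ {x | eval x (Ψ - q) = 0}) := by
    ext x
    simp
  rw [e2]
  refine (isClosed_iInter fun a => ?_).inter ((isClosed_iInter fun k => ?_).inter ?_)
  · by_cases ha : a < j
    · simp only [ha, true_imp_iff]
      exact isClosed_eq (continuous_apply a) continuous_const
    · simp only [ha, false_imp_iff]
      exact isClosed_univ
  · exact isClosed_eq (MvPolynomial.continuous_eval _) continuous_const
  · exact isClosed_eq (MvPolynomial.continuous_eval _) continuous_const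

/-- Sequences of states `Ψ = q_p` in the base, `q_p → 0`.
Proof: compare `step_seqX` (Lib/MP_df59e7_lc_X/StepX.lean). `bdd_coord` gives `r` with
`|x_a| ≤ r` on `closure U'`; `exists_parQ` for the almost sure property `gen_Y` (with `φ = Ψ`,
`h = hh m0 G0`, `m = m'`, `y = yx _ y`) and `δ = min κ (1/(p+1))` gives `q p` with
`0 < quad (q p) < δ` on `closure U'`. Let `Up = {x ∈ U' | RkK m' h x}` (open, `rkK_open`),
`g = Ψ - quad (q p)`. `Zg Up j h g y` is compact: it equals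
`{x ∈ closure U' | x_a = y_a (a < j), h_k x = 0, g x = 0}` (closed and bounded): such a point has
`0 < Ψ x = quad x < κ`, so it is not on the frontier (`hfr`), so in `U'`, and `RkK` holds by `hrk`.
`lft_cpt` gives `R p`. `StY`: `base` is `hG`; `rk` trivial; `full` from `lft_cpt`; `gd`: open
(product), bounded (`Ux` over a bounded set), `cpt` from `lft_cpt`, `reg` and `ndg` from `gen_Y`
(points of `Ux` over `Up` satisfy `RkK`; `Wst` over `Ux` is contained in `Wst` over `univ`). -/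
theorem seq_Y {N : ℕ} (U0 : Set (Fin N → ℝ)) (j m0 : Fin N) (G0 : MvPolynomial (Fin N) ℝ)
    (y : Fin N → ℝ) (hG : GdY U0 j m0 G0 y) (m' : Fin N) (hjm : j < m') (hmm : m' < m0)
    (Ψ : MvPolynomial (Fin N) ℝ) (U' : Set (Fin N → ℝ)) (hU' : IsOpen U')
    (hb : Bornology.IsBounded U') (hcl : closure U' ⊆ U0) (κ : ℝ) (hκ : 0 < κ)
    (hfr : ∀ x ∈ frontier U', (∀ a, a < j → x a = y a) → (∀ k, eval x (hh m0 G0 k) = 0) →
      κ ≤ eval x Ψ)
    (hrk : ∀ x ∈ closure U', (∀ a, a < j → x a = y a) → (∀ k, eval x (hh m0 G0 k) = 0) →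
      0 < eval x Ψ → RkK m' (hh m0 G0) x) :
    ∃ (q : ℕ → Par N) (R : ℕ → ℝ),
      (∀ p, StY U0 j m0 G0 y {x | x ∈ U' ∧ RkK m' (hh m0 G0) x} (R p) m' (Ψ - quad (q p))) ∧
      (∀ p, ∀ x ∈ closure U', 0 < eval x (quad (q p))) ∧
      (∀ ε > 0, ∀ᶠ p in Filter.atTop, ∀ x ∈ closure U', eval x (quad (q p)) < ε) := by
  obtain ⟨r, hr⟩ := bdd_coord (closure U') hb.closure
  have hpar := fun p : ℕ => exists_parQ _ (gen_Y Ψ (hh m0 G0) j m' (yx _ y)) r
    (min κ (1 / ((p : ℝ) + 1))) (lt_min hκ (by positivity))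
  choose q hq1 _ _ _ hq5 using hpar
  have hlt : ∀ p, ∀ x ∈ closure U', 0 < eval x (quad (q p)) ∧
      eval x (quad (q p)) < min κ (1 / ((p : ℝ) + 1)) := fun p x hx => hq5 p x (hr x hx)
  have hUo : IsOpen {x | x ∈ U' ∧ RkK m' (hh m0 G0) x} := hU'.inter (rkK_open m' (hh m0 G0))
  have hUb : Bornology.IsBounded {x | x ∈ U' ∧ RkK m' (hh m0 G0) x} :=
    hb.subset fun x hx => hx.1
  have hZ : ∀ p, IsCompact (Zg {x | x ∈ U' ∧ RkK m' (hh m0 G0) x} j (hh m0 G0)
      (Ψ - quad (q p)) y) := fun p =>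
    SeqY_cpt U' hU' hb j m' (hh m0 G0) Ψ y κ hfr hrk (quad (q p))
      (fun x hx => (hlt p x hx).1)
      (fun x hx => (hlt p x hx).2.trans_le (min_le_left _ _))
  have hR := fun p => lft_cpt {x | x ∈ U' ∧ RkK m' (hh m0 G0) x} j m' (hh m0 G0)
    (Ψ - quad (q p)) y (hZ p) (fun x hx => hx.2)
  choose R hR0 hRb hRc using hR
  refine ⟨q, R, fun p => ?_, fun p x hx => (hlt p x hx).1, ?_⟩
  · refine ⟨hG, hmm, hUo, fun x hx => hcl (subset_closure hx.1), fun x hx => hx.2, hRb p, ?_⟩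
    refine ⟨SeqY_open hUo (R p), SeqY_bdd hUb (R p), ?_, hRc p, ?_, ?_⟩
    · rw [Fin.lt_def] at hjm ⊢
      simpa using hjm
    · intro i hi him y' hy' z hz
      exact (hq1 p i hi him y' hy').1 z ⟨Set.mem_univ _, hz.2⟩ hz.1.1.2
    · intro i hi him y' hy' z hz hF v hv
      exact (hq1 p i hi him y' hy').2 z hz.1.2 hF v hv
  · intro ε hε
    have h1 : Filter.Tendsto (fun p : ℕ => 1 / ((p : ℝ) + 1)) Filter.atTop (nhds 0) :=
      tendsto_one_div_add_atTop_nhds_zero_nat
    filter_upwards [h1.eventually (gt_mem_nhds hε)] with p hp x hx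
    exact ((hlt p x hx).2.trans_le (min_le_right _ _)).trans hp

end Pool.Agent.RM90
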