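import Pool.Agent.Lib.MP_df59e7_lc_Y.DefsY

set_option autoImplicit false

/-! MP_df59e7_lc, project Y, module WBezA: nondegenerate zeros persist. -/

namespace Pool.Agent.RM90

open MvPolynomial

variable {ι : Type} [Fintype ι] [DecidableEq ι]

omit [DecidableEq ι] in
private theorem WBezA_cd (p : MvPolynomial ι ℝ) : ContDiff ℝ 1 (fun x : ι → ℝ => eval x p) := by
  induction p using MvPolynomial.induction_on with
  | C a =>
    simp only [eval_C]
    exact contDiff_const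
  | add p q hp hq =>
    simp only [map_add]
    exact hp.add hq
  | mul_X p i hp =>
    simp only [map_mul, eval_X]
    exact hp.mul (contDiff_apply ℝ ℝ i)

/-- Nondegenerate zeros persist.
Proof: `Φ(x, η) = ((eval x (f i + C η * g i))_i, η)` is `C^1` on `(ι → ℝ) × ℝ`, with value `(0, 0)`
at `(z, 0)` and surjective strict derivative there (`(v, 0) ↦ (df v, 0)` is onto the first factor by
`hnd`: the derivative of `t ↦ eval (z + t • v) (f i)` at `0` is the derivative of `f i` at `z` in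
the direction `v`; and `(0, 1) ↦ (*, 1)`). So the image of the neighbourhood
`ball z ε × ball 0 1` is a neighbourhood of `(0, 0)` (`HasStrictFDerivAt.map_nhds_eq_of_surj`) and
contains `(0, η)` for all small `η`: `(0, η) = Φ(x, η')` gives `η' = η` and
`eval x (f i + C η * g i) = 0`. Compare `Warren46.hasFDerivAt_eval`. -/
theorem persist (f g : ι → MvPolynomial ι ℝ) (z : ι → ℝ) (hz : ∀ i, eval z (f i) = 0)
    (hnd : ∀ y : ι → ℝ, ∃ v : ι → ℝ, ∀ i,
      HasDerivAt (fun t : ℝ => eval (z + t • v) (f i)) (y i) 0) (ε : ℝ) (hε : 0 < ε) :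
    ∃ δ > 0, ∀ η : ℝ, |η| < δ → ∃ x : ι → ℝ, dist x z < ε ∧
      ∀ i, eval x (f i + C η * g i) = 0 := by
  set Φ : (ι → ℝ) × ℝ → (ι → ℝ) × ℝ := fun p =>
    (fun i => eval p.1 (f i) + p.2 * eval p.1 (g i), p.2) with hΦ
  have hcd : ContDiff ℝ 1 Φ := by
    refine ContDiff.prodMk (contDiff_pi.2 fun i => ?_) contDiff_snd
    exact ((WBezA_cd (f i)).comp contDiff_fst).add
      (contDiff_snd.mul ((WBezA_cd (g i)).comp contDiff_fst))
  have hs : HasStrictFDerivAt Φ (fderiv ℝ Φ (z, 0)) (z, 0) :=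
    hcd.contDiffAt.hasStrictFDerivAt one_ne_zero
  set D := fderiv ℝ Φ (z, 0) with hD
  have h2 : ∀ p, (D p).2 = p.2 := by
    have e1 : HasFDerivAt (fun p => (Φ p).2) ((ContinuousLinearMap.snd ℝ (ι → ℝ) ℝ).comp D)
        (z, 0) := HasFDerivAt.comp (g := fun q : (ι → ℝ) × ℝ => q.2) (f := Φ) (z, 0)
          (ContinuousLinearMap.snd ℝ (ι → ℝ) ℝ).hasFDerivAt hs.hasFDerivAt
    have e2 : HasFDerivAt (fun p => (Φ p).2) (ContinuousLinearMap.snd ℝ (ι → ℝ) ℝ) (z, 0) :=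
      hasFDerivAt_snd
    intro p
    exact congrArg (fun l => l p) (e1.unique e2)
  have h1 : ∀ y : ι → ℝ, ∃ v : ι → ℝ, D (v, 0) = (y, 0) := by
    intro y
    obtain ⟨v, hv⟩ := hnd y
    refine ⟨v, ?_⟩
    have c1 : HasDerivAt (fun t : ℝ => ((z + t • v, 0) : (ι → ℝ) × ℝ)) (v, 0) 0 := by
      have c2 : HasDerivAt (fun t : ℝ => z + t • v) v 0 := by
        have := ((hasDerivAt_id (0 : ℝ)).smul_const v).const_add z
        simpa using this
      exact c2.prodMk (hasDerivAt_const 0 0)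
    have c3 : HasDerivAt (fun t : ℝ => Φ (z + t • v, 0)) (D (v, 0)) 0 :=
      HasFDerivAt.comp_hasDerivAt_of_eq 0 hs.hasFDerivAt c1 (by simp)
    have c4 : HasDerivAt (fun t : ℝ => Φ (z + t • v, 0)) (y, 0) 0 := by
      refine HasDerivAt.prodMk (hasDerivAt_pi.2 fun i => ?_) (hasDerivAt_const 0 0)
      simp only [zero_mul, add_zero]
      exact hv i
    exact c3.unique c4
  have hsurj : D.range = ⊤ := by
    rw [eq_top_iff]
    rintro ⟨w, s⟩ -
    obtain ⟨v, hv⟩ := h1 (w - s • (D (0, 1)).1)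
    refine ⟨(v, s), ?_⟩
    have e1 : ((v, s) : (ι → ℝ) × ℝ) = (v, 0) + s • (0, 1) := by
      ext <;> simp
    show D (v, s) = (w, s)
    rw [e1, map_add, map_smul, hv]
    refine Prod.ext ?_ ?_
    · simp
    · have := h2 (0, 1)
      simp only [Prod.snd_add, Prod.smul_snd, this]
      simp
  have hmap := hs.map_nhds_eq_of_surj hsurj
  have hΦ0 : Φ (z, 0) = (0, 0) := by
    refine Prod.ext (funext fun i => ?_) rfl
    simp [hΦ, hz i]
  have hS : Metric.ball z ε ×ˢ (Set.univ : Set ℝ) ∈ nhds (z, (0 : ℝ)) :=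
    prod_mem_nhds (Metric.ball_mem_nhds z hε) Filter.univ_mem
  have hI : Φ '' (Metric.ball z ε ×ˢ (Set.univ : Set ℝ)) ∈ nhds ((0, 0) : (ι → ℝ) × ℝ) := by
    rw [← hΦ0, ← hmap]
    exact Filter.image_mem_map hS
  obtain ⟨δ, hδ, hball⟩ := Metric.mem_nhds_iff.1 hI
  refine ⟨δ, hδ, fun η hη => ?_⟩
  have hm : ((0, η) : (ι → ℝ) × ℝ) ∈ Metric.ball ((0, 0) : (ι → ℝ) × ℝ) δ := by
    rw [Metric.mem_ball, Prod.dist_eq, max_lt_iff]
    refine ⟨?_, ?_⟩
    · simpa using hδ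
    · simpa [Real.dist_eq] using hη
  obtain ⟨⟨x, η'⟩, ⟨hx, -⟩, hxe⟩ := hball hm
  refine ⟨x, hx, fun i => ?_⟩
  have e1 : η' = η := congrArg Prod.snd hxe
  have e2 := congrFun (congrArg Prod.fst hxe) i
  rw [map_add, map_mul, eval_C, ← e1]
  exact e2

end Pool.Agent.RM90
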